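import Mathlib

/-!
# LP (MP_4d57ea_nt): largest prime factor of `m ^ 3 + k` for every non-cube `k`. Definitions

Everything in integers: `nn` is the norm of `a + b θ + c θ ^ 2` (`θ ^ 3 = k`), `BB`, `CC` are the coefficients of `θ`, `θ ^ 2` of the
adjoint element, `DD` is the index form. The root belonging to `(a, b, c)` is the class `m` modulo `nn` with
`nn ∣ CC * m + BB`.
-/

set_option autoImplicit false

namespace H23.LP

open Finset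

/-- norm of `a + b θ + c θ ^ 2`, `θ ^ 3 = k` -/
def nn (k a b c : ℤ) : ℤ := a ^ 3 + k * b ^ 3 + k ^ 2 * c ^ 3 - 3 * k * a * b * c

/-- adjoint coefficient of `θ` -/
def BB (k a b c : ℤ) : ℤ := k * c ^ 2 - a * b

/-- adjoint coefficient of `θ ^ 2` -/
def CC (a b c : ℤ) : ℤ := b ^ 2 - a * c

/-- index form -/
def DD (k b c : ℤ) : ℤ := b ^ 3 - k * c ^ 3

/-- number of cube roots of `k` modulo `p` -/
def nu (k : ℤ) (p : ℕ) : ℕ := ((range p).filter fun t : ℕ => (p : ℤ) ∣ (t : ℤ) ^ 3 - k).card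

/-- `e(x) = exp(2 π i x)` -/
noncomputable def ee (x : ℝ) : ℂ := Complex.exp (2 * Real.pi * x * Complex.I)

/-- `e(l x⁻¹ / q)` for `x` prime to `q`, otherwise `0` -/
noncomputable def fe (q : ℕ) (l x : ℤ) : ℂ :=
  if Int.gcd x q = 1 then ee (((l * Int.gcdA x q : ℤ) : ℝ) / q) else 0

/-- `L = |k| + 2` -/
def LL (k : ℤ) : ℤ := |k| + 2

/-- the ranges of `a`, `b`, `c` at scale `A` -/
noncomputable def Ia (k : ℤ) (M A : ℕ) : Finset ℤ :=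
  Ioc (2 * LL k ^ 2 * (M * A)) (2 * LL k ^ 2 * (M * A) + A)
noncomputable def Ib (k : ℤ) (M A : ℕ) : Finset ℤ := Ioc (LL k * (M * A)) (LL k * (M * A) + A)
noncomputable def Ic (M A : ℕ) : Finset ℤ := Ioc ((M : ℤ) * A) (M * A + A)

/-- the modulus of the congruences for `b`, `c` -/
def QQ (k : ℤ) (w : ℕ) : ℕ := 6 * k.natAbs * w.factorial

/-- good pairs `(b, c)` at scale `A` -/
structure Good (k : ℤ) (w M A : ℕ) (b c : ℤ) : Prop where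
  hb : b ∈ Ib k M A
  hc : c ∈ Ic M A
  b1 : b ≡ 1 [ZMOD (QQ k w : ℤ)]
  c0 : c ≡ 0 [ZMOD (QQ k w : ℤ)]
  cop : Int.gcd b c = 1
  sqf : Squarefree (DD k b c)
  sml : ∑ p ∈ (DD k b c).natAbs.primeFactors, (1 : ℝ) / p ≤ 1 / 100
  fac : ∃ q1 q2 : ℕ, q1.Prime ∧ q2.Prime ∧ (A : ℝ) ^ (0.6 : ℝ) < q1 ∧ (q1 : ℝ) ≤ (A : ℝ) ^ (0.65 : ℝ) ∧
    (A : ℝ) ^ (0.65 : ℝ) < q2 ∧ (q2 : ℝ) ≤ (A : ℝ) ^ (0.7 : ℝ) ∧ ((q1 * q2 : ℕ) : ℤ) ∣ DD k b c

/-- the number of `m` in `(X, 2 X]` in the class of `(a, b, c)` -/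
noncomputable def NN (k : ℤ) (X : ℕ) (a b c : ℤ) : ℕ :=
  ((Ioc (X : ℤ) (2 * X)).filter fun m => nn k a b c ∣ CC a b c * m + BB k a b c).card

open Classical in
/-- the triples `(p₀, a, m)` at scale `A` -/
noncomputable def SS (k : ℤ) (M A X : ℕ) (z P1 P2 : ℝ) (b c : ℤ) : Finset (ℕ × ℤ × ℤ) :=
  ((range (⌊P2⌋₊ + 1)) ×ˢ (Ia k M A ×ˢ Ioc (X : ℤ) (2 * X))).filter fun x =>
    x.1.Prime ∧ P1 < x.1 ∧ (x.1 : ℝ) ≤ P2 ∧ (x.1 : ℤ) ∣ nn k x.2.1 b c ∧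
    Int.gcd (CC x.2.1 b c) (DD k b c) = 1 ∧ (∀ p : ℕ, p.Prime → (p : ℤ) ∣ nn k x.2.1 b c → z < p) ∧
    nn k x.2.1 b c ∣ CC x.2.1 b c * x.2.2 + BB k x.2.1 b c

/-- `m ^ 3 + k` has a divisor `> y` with all prime factors `≤ X` -/
def PS (k : ℤ) (X : ℕ) (y : ℝ) (m : ℤ) : Prop :=
  ∃ n : ℕ, (n : ℤ) ∣ m ^ 3 + k ∧ y < n ∧ ∀ p : ℕ, p.Prime → p ∣ n → p ≤ X

/-- `m ^ 3 + k` has a prime factor `> y` -/
def PL (k : ℤ) (y : ℝ) (m : ℤ) : Prop := ∃ p : ℕ, p.Prime ∧ (p : ℤ) ∣ m ^ 3 + k ∧ y < p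

/-! ### The polynomial identities -/

theorem id_kCB (k a b c : ℤ) : k * CC a b c ^ 3 - BB k a b c ^ 3 = nn k a b c * DD k b c := by
  simp only [nn, BB, CC, DD]; ring

theorem id_c3n (k a b c : ℤ) : c ^ 3 * nn k a b c = (a * c + 2 * b ^ 2) * CC a b c ^ 2 +
    DD k b c * (DD k b c - 3 * b ^ 3 + 3 * a * b * c) := by
  simp only [nn, CC, DD]; ring

theorem id_c3n' (k a b c : ℤ) : ∃ q, c ^ 3 * nn k a b c = DD k b c ^ 2 + CC a b c * q := by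
  refine ⟨(a * c + 2 * b ^ 2) * CC a b c - 3 * b * DD k b c, ?_⟩
  simp only [nn, CC, DD]; ring

theorem id_abc (k a b c : ℤ) : a * CC a b c ^ 2 + b * BB k a b c * CC a b c + c * BB k a b c ^ 2 =
    c ^ 2 * nn k a b c := by
  simp only [nn, BB, CC]; ring

theorem id_DB (k a b c : ℤ) : DD k b c * BB k a b c + c ^ 2 * nn k a b c =
    CC a b c * (2 * k * b * c ^ 2 - a * (a * c + b ^ 2)) := by
  simp only [nn, BB, CC, DD]; ring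

theorem id_AC (k a b c : ℤ) : (a ^ 2 - k * b * c) * CC a b c - BB k a b c ^ 2 = -c * nn k a b c := by
  simp only [nn, BB, CC]; ring

theorem id_CAB (k a b c : ℤ) : k * CC a b c ^ 2 - (a ^ 2 - k * b * c) * BB k a b c =
    b * nn k a b c := by
  simp only [nn, BB, CC]; ring

end H23.LP
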