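import Pool.Agent.H23.LP.Def

/-!
# [LP ABL] monotone weights, 60-100 lines. File Pool/Agent/H23/LP/Abl.lean

`x a = (1 if P a else 0) - ρ`, `S t = ∑_{Ioc s t} x = #{a ∈ Ioc s t : P a} - ρ (t - s)` for `s ≤ t ≤ e`, `|S t| ≤ E`. Abel summation: `∑_{a ∈ Ioc s e} f a x a = f e S e + ∑_{t ∈ Ioo s e} (f t - f (t+1)) S t`, absolute value
`≤ E (f e + ∑_{t ∈ Ioo s e} (f t - f (t+1))) = E f (s+1)` (telescoping) if `s < e`; for `s = e` both sums are empty (and `0 ≤ E f (s+1)`). By induction on `e` (`Int.le_induction`) it is easier to prove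
`|∑_{Ioc s e} f a x a - f e S e| ≤ E (f (s+1) - f e)` for `s < e`.
-/

set_option autoImplicit false

namespace H23.LP

open Finset

private lemma Ioc_succ (s e : ℤ) (h : s ≤ e) : Ioc s (e + 1) = insert (e + 1) (Ioc s e) := by
  ext a
  simp only [mem_Ioc, mem_insert]
  omega

private lemma sum_succ (g : ℤ → ℝ) (s e : ℤ) (h : s ≤ e) :
    ∑ a ∈ Ioc s (e + 1), g a = ∑ a ∈ Ioc s e, g a + g (e + 1) := by
  rw [Ioc_succ s e h, sum_insert (by simp), add_comm]

theorem abl (f : ℤ → ℝ) (P : ℤ → Prop) [DecidablePred P] (s e : ℤ) (ρ E : ℝ) (hse : s ≤ e) (hE : 0 ≤ E)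
    (h0 : ∀ a, 0 ≤ f a) (h1 : ∀ a ∈ Ioo s e, f (a + 1) ≤ f a)
    (h2 : ∀ t : ℤ, s ≤ t → t ≤ e → |((((Ioc s t).filter P).card : ℕ) : ℝ) - ρ * ((t - s : ℤ) : ℝ)| ≤ E) :
    |∑ a ∈ (Ioc s e).filter P, f a - ρ * ∑ a ∈ Ioc s e, f a| ≤ E * f (s + 1) := by
  obtain ⟨x, hx⟩ : ∃ x : ℤ → ℝ, x = fun a => (if P a then 1 else 0) - ρ := ⟨_, rfl⟩
  have hS : ∀ t, s ≤ t → ∑ a ∈ Ioc s t, x a =
      ((((Ioc s t).filter P).card : ℕ) : ℝ) - ρ * ((t - s : ℤ) : ℝ) := by
    intro t ht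
    rw [hx]
    simp only
    rw [sum_sub_distrib, sum_boole, sum_const, Int.card_Ioc, nsmul_eq_mul, mul_comm ρ]
    congr 2
    have : ((t - s).toNat : ℤ) = t - s := Int.toNat_of_nonneg (by omega)
    exact_mod_cast this
  have hT : ∑ a ∈ (Ioc s e).filter P, f a - ρ * ∑ a ∈ Ioc s e, f a = ∑ a ∈ Ioc s e, f a * x a := by
    rw [sum_filter, mul_sum, ← sum_sub_distrib]
    refine sum_congr rfl fun a _ => ?_
    rw [hx]
    simp only
    split_ifs <;> ring
  rcases eq_or_lt_of_le hse with h | h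
  · subst h
    simp
    exact mul_nonneg hE (h0 _)
  have key : ∀ t : ℤ, s + 1 ≤ t → t ≤ e →
      |∑ a ∈ Ioc s t, f a * x a - f t * ∑ a ∈ Ioc s t, x a| ≤ E * (f (s + 1) - f t) := by
    intro t ht
    induction t, ht using Int.le_induction with
    | base =>
      intro _
      rw [sum_succ _ s s le_rfl, sum_succ _ s s le_rfl]
      simp
    | succ t ht ih =>
      intro hte
      have ih' := ih (by omega)
      rw [sum_succ _ s t (by omega), sum_succ _ s t (by omega)]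
      have e1 : ∑ a ∈ Ioc s t, f a * x a + f (t + 1) * x (t + 1) -
          f (t + 1) * (∑ a ∈ Ioc s t, x a + x (t + 1)) =
          (∑ a ∈ Ioc s t, f a * x a - f t * ∑ a ∈ Ioc s t, x a) +
            (f t - f (t + 1)) * ∑ a ∈ Ioc s t, x a := by ring
      rw [e1]
      have h5 : |∑ a ∈ Ioc s t, x a| ≤ E := by
        rw [hS t (by omega)]
        exact h2 t (by omega) (by omega)
      have h6 : 0 ≤ f t - f (t + 1) := by
        have := h1 t (by rw [mem_Ioo]; omega)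
        linarith
      calc _ ≤ |∑ a ∈ Ioc s t, f a * x a - f t * ∑ a ∈ Ioc s t, x a| +
            |(f t - f (t + 1)) * ∑ a ∈ Ioc s t, x a| := abs_add_le _ _
        _ ≤ E * (f (s + 1) - f t) + (f t - f (t + 1)) * E := by
            refine add_le_add ih' ?_
            rw [abs_mul, abs_of_nonneg h6]
            exact mul_le_mul_of_nonneg_left h5 h6
        _ = E * (f (s + 1) - f (t + 1)) := by ring
  have hk := key e (by omega) le_rfl
  rw [hT]
  have h7 : |f e * ∑ a ∈ Ioc s e, x a| ≤ E * f e := by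
    rw [abs_mul, abs_of_nonneg (h0 e), mul_comm, hS e hse]
    exact mul_le_mul_of_nonneg_right (h2 e hse le_rfl) (h0 e)
  calc |∑ a ∈ Ioc s e, f a * x a| =
        |(∑ a ∈ Ioc s e, f a * x a - f e * ∑ a ∈ Ioc s e, x a) + f e * ∑ a ∈ Ioc s e, x a| := by
        congr 1
        ring
    _ ≤ E * (f (s + 1) - f e) + E * f e := (abs_add_le _ _).trans (add_le_add hk h7)
    _ = E * f (s + 1) := by ring

end H23.LP
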