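import Pool.Agent.H23.LP.Def

/-!
# [LP ALG] divisibility: the class of `(a, b, c)` consists of roots of `m ^ 3 + k`
-/

set_option autoImplicit false

namespace H23.LP

open Finset

theorem cop_CN (k a b c : ℤ) (h : Int.gcd (CC a b c) (DD k b c) = 1) :
    Int.gcd (CC a b c) (nn k a b c) = 1 := by
  obtain ⟨q, hq⟩ := id_c3n' k a b c
  have h1 : IsCoprime (CC a b c) (DD k b c) := Int.isCoprime_iff_gcd_eq_one.2 h
  have h2 : IsCoprime (CC a b c) (c ^ 3 * nn k a b c) := by
    rw [hq]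
    exact (h1.pow_right (n := 2)).add_mul_left_right q
  exact Int.isCoprime_iff_gcd_eq_one.1 h2.of_mul_right_right

theorem dvd_root (k a b c m : ℤ) (h : Int.gcd (CC a b c) (nn k a b c) = 1)
    (hm : nn k a b c ∣ CC a b c * m + BB k a b c) : nn k a b c ∣ m ^ 3 + k := by
  have h1 : IsCoprime (CC a b c) (nn k a b c) := Int.isCoprime_iff_gcd_eq_one.2 h
  have h2 : IsCoprime (nn k a b c) (CC a b c ^ 3) := h1.symm.pow_right
  refine h2.dvd_of_dvd_mul_left ?_
  have h3 := id_kCB k a b c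
  have h4 : CC a b c ^ 3 * (m ^ 3 + k) = (CC a b c * m + BB k a b c) *
      ((CC a b c * m) ^ 2 - CC a b c * m * BB k a b c + BB k a b c ^ 2) +
      nn k a b c * DD k b c := by
    rw [← h3]; ring
  rw [h4]
  exact dvd_add (dvd_mul_of_dvd_left hm _) (dvd_mul_right _ _)

/-- `gcd (c, D) = 1` for coprime `b`, `c` -/
theorem cop_cD (k b c : ℤ) (h : Int.gcd b c = 1) : Int.gcd c (DD k b c) = 1 := by
  have h1 : IsCoprime c b := (Int.isCoprime_iff_gcd_eq_one.2 h).symm
  have h2 : IsCoprime c (b ^ 3 + c * (-(k * c ^ 2))) := (h1.pow_right (n := 3)).add_mul_left_right _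
  have h3 : DD k b c = b ^ 3 + c * (-(k * c ^ 2)) := by simp only [DD]; ring
  rw [h3]
  exact Int.isCoprime_iff_gcd_eq_one.1 h2

end H23.LP
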