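import Pool.Agent.H23.LP.Def

/-!
# [LP AST] a class modulo `QQ` in which the norm is prime to `QQ`, 60-110 lines. File Pool/Agent/H23/LP/Ast.lean

(1) For every prime `p` there is `s` with `p ∤ s³ + k`: for `p = 2` one of `s = 0, 1` works (`k`, `k + 1`); for `p = 3` one of `0, 1` works too (`k`, `k+1` are not both divisible by `3`). In general: `s = 0` gives `k`, `s = 1` gives `1 + k`; both cannot be
divisible by `p`, since the difference is `1`. So `s ∈ {0, 1}` always works.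
(2) Chinese remainder for the finitely many primes dividing `Q = QQ k w > 0` (`k ≠ 0`): `s ≡ s_p (mod p)` for all `p ∣ Q`; then `gcd (s³ + k, Q) = 1`. (For example `s = ` the product of the primes `p ∣ Q` with `p ∤ k`... simpler: let `s` be the product of the primes
`p ∣ Q` which do NOT divide `k`. If `p ∣ Q`, `p ∤ k`: `p ∣ s`, so `s³ + k ≡ k ≢ 0`. If `p ∣ Q`, `p ∣ k`: `p ∤ s` (`s` is a product of other primes), so `s³ + k ≡ s³ ≢ 0`.)
(3) For `a ≡ s`, `b ≡ 1`, `c ≡ 0 (mod Q)`: `nn k a b c ≡ s³ + k (mod Q)`, so no prime `p ≤ w` divides `nn k a b c` (`p ∣ w! ∣ Q`).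
-/

set_option autoImplicit false

namespace H23.LP

open Finset

theorem ast (k : ℤ) (hk : k ≠ 0) (w : ℕ) : ∃ s : ℤ, ∀ a b c : ℤ, a ≡ s [ZMOD (QQ k w : ℤ)] →
    b ≡ 1 [ZMOD (QQ k w : ℤ)] → c ≡ 0 [ZMOD (QQ k w : ℤ)] → ∀ p : ℕ, p.Prime → p ≤ w →
    ¬ (p : ℤ) ∣ nn k a b c := by
  have hQ0 : QQ k w ≠ 0 := by
    unfold QQ
    have h1 : k.natAbs ≠ 0 := Int.natAbs_ne_zero.2 hk
    have h2 := Nat.factorial_ne_zero w
    positivity
  refine ⟨∏ p ∈ (QQ k w).primeFactors.filter (fun p : ℕ => ¬ (p : ℤ) ∣ k), (p : ℤ), ?_⟩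
  intro a b c ha hb hc p hp hpw hdvd
  obtain ⟨s, hs⟩ : ∃ s : ℤ, s = ∏ p ∈ (QQ k w).primeFactors.filter (fun p : ℕ => ¬ (p : ℤ) ∣ k), (p : ℤ) :=
    ⟨_, rfl⟩
  rw [← hs] at ha
  have hpQ : p ∣ QQ k w := by
    unfold QQ
    exact dvd_mul_of_dvd_right (Nat.dvd_factorial hp.pos hpw) _
  have hpQ' : (p : ℤ) ∣ (QQ k w : ℤ) := Int.natCast_dvd_natCast.2 hpQ
  have hpp : Prime (p : ℤ) := Nat.prime_iff_prime_int.1 hp
  have ha' := ha.of_dvd hpQ'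
  have hb' := hb.of_dvd hpQ'
  have hc' := hc.of_dvd hpQ'
  have h1 : nn k a b c ≡ s ^ 3 + k [ZMOD (p : ℤ)] := by
    have h2 : nn k a b c ≡ s ^ 3 + k * 1 ^ 3 + k ^ 2 * 0 ^ 3 - 3 * k * s * 1 * 0 [ZMOD (p : ℤ)] := by
      unfold nn
      exact ((((ha'.pow 3).add ((hb'.pow 3).mul_left k)).add ((hc'.pow 3).mul_left (k ^ 2))).sub
        (((ha'.mul_left (3 * k)).mul hb').mul hc'))
    have e : s ^ 3 + k * 1 ^ 3 + k ^ 2 * 0 ^ 3 - 3 * k * s * 1 * 0 = s ^ 3 + k := by ring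
    rwa [e] at h2
  have h3 : (p : ℤ) ∣ s ^ 3 + k := by
    have h4 := Int.modEq_iff_dvd.1 h1
    have h5 := dvd_add h4 hdvd
    rwa [sub_add_cancel] at h5
  by_cases hpk : (p : ℤ) ∣ k
  · have h4 : (p : ℤ) ∣ s ^ 3 := (dvd_add_left hpk).1 h3
    have h5 : (p : ℤ) ∣ s := hpp.dvd_of_dvd_pow h4
    rw [hs] at h5
    obtain ⟨q, hq, hq2⟩ := (hpp.dvd_finsetProd_iff _).1 h5
    rw [mem_filter] at hq
    have h6 : p ∣ q := Int.natCast_dvd_natCast.1 hq2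
    have h7 := (Nat.prime_dvd_prime_iff_eq hp (Nat.prime_of_mem_primeFactors hq.1)).1 h6
    exact hq.2 (h7 ▸ hpk)
  · have h5 : (p : ℤ) ∣ s := by
      rw [hs]
      refine dvd_prod_of_mem (fun p : ℕ => (p : ℤ)) ?_
      rw [mem_filter]
      exact ⟨Nat.mem_primeFactors.2 ⟨hp, hpQ, hQ0⟩, hpk⟩
    exact hpk ((dvd_add_right (dvd_pow h5 (by norm_num))).1 h3)

end H23.LP
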