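import Pool.Agent.H23.LP.Def

/-!
# [LP BOX] sizes in the box, 120-200 lines. File Pool/Agent/H23/LP/Box.lean

Write `κ = |k|`, `L = κ + 2 ≥ 2`, `P = M * A` (real), `0 < A ≤ P / M`. In the box `c ∈ (P, P + A]`, `b ∈ (L P, L P + A]`, `a ∈ (2 L² P, 2 L² P + A]`.
Put `c = P (1 + x)`, `b = P (L + y)`, `a = P (2 L² + z)` with `x, y, z ∈ [0, 1/M]`.
(1) `-CC / P² = (2 L² + z)(1 + x) - (L + y)² ≥ 2 L² - L² - 2 L y - y² ≥ L² - 3 L / M ≥ 1` for `M ≥ 3` (`L ≥ 2`), and `≤ (2 L² + 1) * 2`.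
(2) `DD / P³ = (L + y)³ - k (1 + x)³ ≥ L³ - κ (1 + 1/M)³ ≥ L³ - 2 κ ≥ 8 + 4 κ ≥ 1` for `M ≥ 4` (`(5/4)³ < 2`), and `≤ (L + 1)³ + 8 κ`.
(3) `nn / P³` is a polynomial in `x, y, z` with value `N = 8 L⁶ - 5 k L³ + k²` at `0`; all of `|x|, |y|, |z| ≤ 1/M ≤ 1`, so
`|nn / P³ - N| ≤ K₁ / M` with `K₁ = K₁(k)` (expand: every monomial other than the constant contains one of `x, y, z`; bound the coefficients crudely, e.g. `K₁ = 1000 L⁶`).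
 `N ≥ 8 L⁶ - 5 L⁴ ≥ L⁶ ≥ 64` (`κ ≤ L`, `L² ≥ 4`, so `5 L⁴ ≤ (5/4) L⁶`). With `M ≥ 20 K₁` the claim `|nn - N P³| ≤ N P³ / 20` follows.
(4) `|BB| = |k c² - a b| ≤ κ (2 P)² + (2 L² + 1)(L + 1) P²`.
(5) `c, b, a ≤ K P`.
So with one constant `K = K(k)` and `M0` large everything holds. (Work with real casts; `push_cast`, `nlinarith` after substituting `x, y, z`, or bound monomial by monomial.)
-/

set_option autoImplicit false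

namespace H23.LP

open Finset

/-- the value of the norm at the corner `(2 L², L, 1)` -/
def NS (k : ℤ) : ℤ := 8 * LL k ^ 6 - 5 * k * LL k ^ 3 + k ^ 2

private theorem LLc (k : ℤ) : ((LL k : ℤ) : ℝ) = |(k : ℝ)| + 2 := by
  simp [LL]

private theorem cube_low (u v e P B : ℝ) (hv : 0 ≤ v) (huv : v ≤ u) (hue : u ≤ v + e) (hu : u ≤ B * P)
    (hP : 0 < P) (he : 0 ≤ e) : 0 ≤ u ^ 3 - v ^ 3 ∧ u ^ 3 - v ^ 3 ≤ 3 * B ^ 2 * P ^ 2 * e := by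
  have hu0 : 0 ≤ u := le_trans hv huv
  have h1 : u ^ 3 - v ^ 3 = (u - v) * (u ^ 2 + u * v + v ^ 2) := by ring
  have h2 : u ^ 2 + u * v + v ^ 2 ≤ 3 * u ^ 2 := by nlinarith
  have h3 : u ^ 2 ≤ (B * P) ^ 2 := pow_le_pow_left₀ hu0 hu 2
  have h4 : 0 ≤ u ^ 2 + u * v + v ^ 2 := by positivity
  constructor
  · rw [h1]; exact mul_nonneg (by linarith) h4
  · rw [h1]
    calc (u - v) * (u ^ 2 + u * v + v ^ 2) ≤ e * (3 * (B * P) ^ 2) :=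
          mul_le_mul (by linarith) (by linarith) h4 he
      _ = 3 * B ^ 2 * P ^ 2 * e := by ring

private theorem tri_low (a b c P e L : ℝ) (hL : 2 ≤ L) (hP : 0 < P) (he : 0 ≤ e) (heP : e ≤ P)
    (ha1 : 2 * L ^ 2 * P ≤ a) (ha2 : a ≤ 2 * L ^ 2 * P + e) (hb1 : L * P ≤ b) (hb2 : b ≤ L * P + e)
    (hc1 : P ≤ c) (hc2 : c ≤ P + e) :
    0 ≤ a * b * c - 2 * L ^ 3 * P ^ 3 ∧
      a * b * c - 2 * L ^ 3 * P ^ 3 ≤ (2 * (L + 1) + 4 * L ^ 2 + 2 * L ^ 3) * P ^ 2 * e := by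
  have hL0 : 0 < L := by linarith
  have hLP : 0 < L * P := by positivity
  have ha0 : 0 < 2 * L ^ 2 * P := by positivity
  have hb0 : 0 < b := lt_of_lt_of_le hLP hb1
  have hc0 : 0 < c := lt_of_lt_of_le hP hc1
  have hbu : b ≤ (L + 1) * P := by nlinarith
  have hcu : c ≤ 2 * P := by linarith
  have key : a * b * c - 2 * L ^ 3 * P ^ 3 = (a - 2 * L ^ 2 * P) * (b * c) +
      2 * L ^ 2 * P * (b - L * P) * c + 2 * L ^ 2 * P * (L * P) * (c - P) := by ring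
  have k1 : 0 ≤ (a - 2 * L ^ 2 * P) * (b * c) := mul_nonneg (by linarith) (by positivity)
  have k2 : 0 ≤ 2 * L ^ 2 * P * (b - L * P) * c :=
    mul_nonneg (mul_nonneg ha0.le (by linarith)) hc0.le
  have k3 : 0 ≤ 2 * L ^ 2 * P * (L * P) * (c - P) :=
    mul_nonneg (mul_nonneg ha0.le hLP.le) (by linarith)
  have u1 : (a - 2 * L ^ 2 * P) * (b * c) ≤ e * (((L + 1) * P) * (2 * P)) :=
    mul_le_mul (by linarith) (mul_le_mul hbu hcu hc0.le (by positivity)) (by positivity) he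
  have u2 : 2 * L ^ 2 * P * (b - L * P) * c ≤ 2 * L ^ 2 * P * e * (2 * P) :=
    mul_le_mul (mul_le_mul_of_nonneg_left (by linarith) ha0.le) hcu hc0.le (by positivity)
  have u3 : 2 * L ^ 2 * P * (L * P) * (c - P) ≤ 2 * L ^ 2 * P * (L * P) * e :=
    mul_le_mul_of_nonneg_left (by linarith) (by positivity)
  rw [key]
  constructor
  · linarith
  · calc _ ≤ e * (((L + 1) * P) * (2 * P)) + 2 * L ^ 2 * P * e * (2 * P) +
          2 * L ^ 2 * P * (L * P) * e := by linarith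
      _ = _ := by ring

private noncomputable def K1 (L : ℝ) : ℝ :=
  3 * (2 * L ^ 2 + 1) ^ 2 + L * (3 * (L + 1) ^ 2) + L ^ 2 * 12 +
    3 * L * (2 * (L + 1) + 4 * L ^ 2 + 2 * L ^ 3)

private theorem absmul_le (k t s : ℝ) (L : ℝ) (hk : |k| ≤ L) (h0 : 0 ≤ t) (h1 : t ≤ s) :
    |k * t| ≤ L * s := by
  rw [abs_mul, abs_of_nonneg h0]
  exact mul_le_mul hk h1 h0 (le_trans (abs_nonneg _) hk)

private theorem nn_err (k a b c P e L : ℝ) (hL : 2 ≤ L) (hk : |k| ≤ L) (hP : 0 < P) (he : 0 ≤ e)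
    (heP : e ≤ P)
    (ha1 : 2 * L ^ 2 * P ≤ a) (ha2 : a ≤ 2 * L ^ 2 * P + e) (hb1 : L * P ≤ b) (hb2 : b ≤ L * P + e)
    (hc1 : P ≤ c) (hc2 : c ≤ P + e) :
    |a ^ 3 + k * b ^ 3 + k ^ 2 * c ^ 3 - 3 * k * a * b * c -
      (8 * L ^ 6 - 5 * k * L ^ 3 + k ^ 2) * P ^ 3| ≤ K1 L * P ^ 2 * e := by
  have hL0 : 0 < L := by linarith
  have A := cube_low a (2 * L ^ 2 * P) e P (2 * L ^ 2 + 1) (by positivity) ha1 ha2
    (by nlinarith) hP he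
  have B := cube_low b (L * P) e P (L + 1) (by positivity) hb1 hb2 (by nlinarith) hP he
  have C := cube_low c P e P 2 hP.le hc1 hc2 (by linarith) hP he
  have T := tri_low a b c P e L hL hP he heP ha1 ha2 hb1 hb2 hc1 hc2
  have e1 : a ^ 3 + k * b ^ 3 + k ^ 2 * c ^ 3 - 3 * k * a * b * c -
      (8 * L ^ 6 - 5 * k * L ^ 3 + k ^ 2) * P ^ 3 =
      (a ^ 3 - (2 * L ^ 2 * P) ^ 3) + k * (b ^ 3 - (L * P) ^ 3) + k ^ 2 * (c ^ 3 - P ^ 3) -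
        3 * (k * (a * b * c - 2 * L ^ 3 * P ^ 3)) := by ring
  have b1 := absmul_le k _ _ L hk B.1 B.2
  have hk2 : |k ^ 2| ≤ L ^ 2 := by
    rw [abs_pow]; exact pow_le_pow_left₀ (abs_nonneg _) hk 2
  have b2 := absmul_le (k ^ 2) _ _ (L ^ 2) hk2 C.1 C.2
  have b3 := absmul_le k _ _ L hk T.1 T.2
  have b0 : |a ^ 3 - (2 * L ^ 2 * P) ^ 3| ≤ 3 * (2 * L ^ 2 + 1) ^ 2 * P ^ 2 * e := by
    rw [abs_of_nonneg A.1]; exact A.2
  rw [e1]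
  rw [abs_le] at b0 b1 b2 b3 ⊢
  unfold K1
  constructor
  · nlinarith
  · nlinarith

private theorem C_low (a b c P e L M : ℝ) (hL : 2 ≤ L) (hP : 0 < P) (he : 0 ≤ e)
    (heM : 4 * e ≤ P)
    (ha1 : 2 * L ^ 2 * P ≤ a) (ha2 : a ≤ 2 * L ^ 2 * P + e) (hb1 : L * P ≤ b) (hb2 : b ≤ L * P + e)
    (hc1 : P ≤ c) (hc2 : c ≤ P + e) :
    P ^ 2 ≤ -(b ^ 2 - a * c) ∧ -(b ^ 2 - a * c) ≤ (2 * (2 * L ^ 2 + 1)) * P ^ 2 := by
  have hL0 : 0 < L := by linarith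
  have hLP : 0 < L * P := by positivity
  have ha0 : 0 < 2 * L ^ 2 * P := by positivity
  have hb0 : 0 < b := lt_of_lt_of_le hLP hb1
  have hc0 : 0 < c := lt_of_lt_of_le hP hc1
  have h1 : 2 * L ^ 2 * P * P ≤ a * c := mul_le_mul ha1 hc1 hP.le (by linarith)
  have h2 : b ^ 2 ≤ (L * P + P / 4) ^ 2 := pow_le_pow_left₀ hb0.le (by linarith) 2
  have h3 : a * c ≤ ((2 * L ^ 2 + 1) * P) * (2 * P) :=
    mul_le_mul (by nlinarith) (by linarith) hc0.le (by positivity)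
  have h4 : (L * P + P / 4) ^ 2 = (L + 1 / 4) ^ 2 * P ^ 2 := by ring
  have h5 : (L + 1 / 4) ^ 2 + 1 ≤ 2 * L ^ 2 := by nlinarith
  have hP2 : 0 < P ^ 2 := by positivity
  have h6 : ((L + 1 / 4) ^ 2 + 1) * P ^ 2 ≤ 2 * L ^ 2 * P ^ 2 :=
    mul_le_mul_of_nonneg_right h5 hP2.le
  constructor
  · nlinarith
  · nlinarith [sq_nonneg b]

private theorem D_low (k b c P e L : ℝ) (hL : 2 ≤ L) (hk : |k| ≤ L - 2) (hP : 0 < P) (he : 0 ≤ e)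
    (heM : 4 * e ≤ P) (hb1 : L * P ≤ b) (hb2 : b ≤ L * P + e)
    (hc1 : P ≤ c) (hc2 : c ≤ P + e) :
    P ^ 3 ≤ b ^ 3 - k * c ^ 3 ∧ b ^ 3 - k * c ^ 3 ≤ ((L + 1) ^ 3 + 2 * L) * P ^ 3 := by
  have hL0 : 0 < L := by linarith
  have hLP : 0 < L * P := by positivity
  have hb0 : 0 < b := lt_of_lt_of_le hLP hb1
  have hc0 : 0 < c := lt_of_lt_of_le hP hc1
  have hP3 : 0 < P ^ 3 := by positivity
  have h1 : (L * P) ^ 3 ≤ b ^ 3 := pow_le_pow_left₀ hLP.le hb1 3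
  have h2 : b ^ 3 ≤ ((L + 1) * P) ^ 3 := pow_le_pow_left₀ hb0.le (by nlinarith) 3
  have h3 : c ^ 3 ≤ (5 / 4 * P) ^ 3 := pow_le_pow_left₀ hc0.le (by linarith) 3
  have h3' : c ^ 3 ≤ 2 * P ^ 3 := by
    have : (5 / 4 * P) ^ 3 = 125 / 64 * P ^ 3 := by ring
    linarith
  have h4 := absmul_le k (c ^ 3) (2 * P ^ 3) (L - 2) hk (by positivity) h3'
  rw [abs_le] at h4
  have h5 : (L * P) ^ 3 = L ^ 3 * P ^ 3 := by ring
  have h6 : ((L + 1) * P) ^ 3 = (L + 1) ^ 3 * P ^ 3 := by ring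
  have h7 : 1 + (L - 2) * 2 ≤ L ^ 3 := by nlinarith [mul_self_nonneg (L - 2), sq_nonneg L]
  have h8 : (1 + (L - 2) * 2) * P ^ 3 ≤ L ^ 3 * P ^ 3 := mul_le_mul_of_nonneg_right h7 hP3.le
  constructor
  · nlinarith
  · nlinarith

private theorem B_low (k a b c P e L : ℝ) (hL : 2 ≤ L) (hk : |k| ≤ L) (hP : 0 < P) (he : 0 ≤ e)
    (heM : e ≤ P)
    (ha1 : 2 * L ^ 2 * P ≤ a) (ha2 : a ≤ 2 * L ^ 2 * P + e) (hb1 : L * P ≤ b) (hb2 : b ≤ L * P + e)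
    (hc1 : P ≤ c) (hc2 : c ≤ P + e) :
    |k * c ^ 2 - a * b| ≤ (4 * L + (2 * L ^ 2 + 1) * (L + 1)) * P ^ 2 := by
  have hL0 : 0 < L := by linarith
  have hLP : 0 < L * P := by positivity
  have ha0 : 0 < 2 * L ^ 2 * P := by positivity
  have hb0 : 0 < b := lt_of_lt_of_le hLP hb1
  have haa : 0 < a := lt_of_lt_of_le ha0 ha1
  have hc0 : 0 < c := lt_of_lt_of_le hP hc1
  have h1 : c ^ 2 ≤ (2 * P) ^ 2 := pow_le_pow_left₀ hc0.le (by linarith) 2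
  have h2 := absmul_le k (c ^ 2) ((2 * P) ^ 2) L hk (by positivity) h1
  have h3 : a * b ≤ ((2 * L ^ 2 + 1) * P) * ((L + 1) * P) :=
    mul_le_mul (by nlinarith) (by nlinarith) hb0.le (by positivity)
  have h4 : 0 < a * b := by positivity
  rw [abs_le] at h2 ⊢
  constructor
  · nlinarith
  · nlinarith

private theorem N_low (k L : ℝ) (hL : 2 ≤ L) (hk : |k| ≤ L) :
    L ^ 6 ≤ 8 * L ^ 6 - 5 * k * L ^ 3 + k ^ 2 ∧ 8 * L ^ 6 - 5 * k * L ^ 3 + k ^ 2 ≤ 14 * L ^ 6 := by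
  have hL0 : 0 < L := by linarith
  have h2 := absmul_le k (L ^ 3) (L ^ 3) L hk (by positivity) le_rfl
  have hk2 : k ^ 2 ≤ L ^ 2 := by
    rw [← sq_abs k]; exact pow_le_pow_left₀ (abs_nonneg _) hk 2
  rw [abs_le] at h2
  have h4 : 4 ≤ L ^ 2 := by nlinarith
  have h5 : 4 * L ^ 4 ≤ L ^ 6 := by
    have : L ^ 6 = L ^ 2 * L ^ 4 := by ring
    rw [this]; exact mul_le_mul_of_nonneg_right h4 (by positivity)
  have h6 : L * L ^ 3 = L ^ 4 := by ring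
  have h7 : L ^ 2 ≤ L ^ 4 := by
    have : L ^ 4 = L ^ 2 * L ^ 2 := by ring
    rw [this]; nlinarith
  rw [h6] at h2
  constructor
  · nlinarith [sq_nonneg k]
  · nlinarith

private theorem NS_cast (k : ℤ) : (NS k : ℝ) = 8 * ((LL k : ℤ) : ℝ) ^ 6 - 5 * k * ((LL k : ℤ) : ℝ) ^ 3 + (k : ℝ) ^ 2 := by
  simp [NS]

private theorem pw_le (L : ℝ) (hL : 2 ≤ L) (i : ℕ) (hi : i ≤ 6) : L ^ i ≤ L ^ 6 :=
  pow_le_pow_right₀ (by linarith) hi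

theorem NS_pos (k : ℤ) : 1 ≤ NS k := by
  have h := (N_low (k : ℝ) (LL k : ℤ) (by rw [LLc]; have := abs_nonneg (k : ℝ); linarith)
    (by rw [LLc]; linarith)).1
  rw [← NS_cast] at h
  have hL : (2 : ℝ) ≤ ((LL k : ℤ) : ℝ) := by rw [LLc]; have := abs_nonneg (k : ℝ); linarith
  have h2 : (1 : ℝ) ≤ ((LL k : ℤ) : ℝ) ^ 6 := one_le_pow₀ (by linarith)
  have h3 : (1 : ℝ) ≤ (NS k : ℝ) := le_trans h2 h
  exact_mod_cast h3

theorem box (k : ℤ) : ∃ K : ℝ, 1 ≤ K ∧ ∃ M0 : ℕ, 1 ≤ M0 ∧ ∀ M A : ℕ, M0 ≤ M → 1 ≤ A →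
    ∀ a ∈ Ia k M A, ∀ b ∈ Ib k M A, ∀ c ∈ Ic M A,
      |(nn k a b c : ℝ) - NS k * ((M : ℝ) * A) ^ 3| ≤ NS k * ((M : ℝ) * A) ^ 3 / 20 ∧
      ((M : ℝ) * A) ^ 3 / 2 ≤ nn k a b c ∧ (nn k a b c : ℝ) ≤ K * ((M : ℝ) * A) ^ 3 ∧
      ((M : ℝ) * A) ^ 2 ≤ -(CC a b c : ℝ) ∧ -(CC a b c : ℝ) ≤ K * ((M : ℝ) * A) ^ 2 ∧
      ((M : ℝ) * A) ^ 3 ≤ DD k b c ∧ (DD k b c : ℝ) ≤ K * ((M : ℝ) * A) ^ 3 ∧
      |(BB k a b c : ℝ)| ≤ K * ((M : ℝ) * A) ^ 2 ∧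
      ((M : ℝ) * A) ≤ a ∧ (a : ℝ) ≤ K * ((M : ℝ) * A) ∧ ((M : ℝ) * A) ≤ b ∧ (b : ℝ) ≤ K * ((M : ℝ) * A) ∧
      ((M : ℝ) * A) ≤ c ∧ (c : ℝ) ≤ K * ((M : ℝ) * A) := by
  obtain ⟨L, hLdef⟩ : ∃ L : ℝ, L = ((LL k : ℤ) : ℝ) := ⟨_, rfl⟩
  have hLk : L = |(k : ℝ)| + 2 := by rw [hLdef, LLc]
  have hL : 2 ≤ L := by rw [hLk]; have := abs_nonneg (k : ℝ); linarith
  have hkL2 : |(k : ℝ)| ≤ L - 2 := by rw [hLk]; linarith
  have hkL : |(k : ℝ)| ≤ L := by linarith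
  have hL0 : 0 < L := by linarith
  have p1 : 1 ≤ L ^ 6 := one_le_pow₀ (by linarith)
  have q1 : L ≤ L ^ 6 := by simpa using pw_le L hL 1 (by norm_num)
  have q2 := pw_le L hL 2 (by norm_num)
  have q3 := pw_le L hL 3 (by norm_num)
  have hK1 : 0 ≤ K1 L := by unfold K1; positivity
  refine ⟨100 * L ^ 6, by linarith, ⌈20 * K1 L⌉₊ + 4, by omega, ?_⟩
  intro M A hM hA a ha b hb c hc
  have hMr : ((⌈20 * K1 L⌉₊ + 4 : ℕ) : ℝ) ≤ M := by exact_mod_cast hM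
  have hMK : 20 * K1 L ≤ M := by
    have := Nat.le_ceil (20 * K1 L)
    push_cast at hMr
    linarith
  have hM4 : (4 : ℝ) ≤ M := by
    have : (0 : ℝ) ≤ (⌈20 * K1 L⌉₊ : ℝ) := Nat.cast_nonneg _
    push_cast at hMr
    linarith
  have hAr : (1 : ℝ) ≤ A := by exact_mod_cast hA
  obtain ⟨P, hPdef⟩ : ∃ P : ℝ, P = (M : ℝ) * A := ⟨_, rfl⟩
  obtain ⟨e, hedef⟩ : ∃ e : ℝ, e = (A : ℝ) := ⟨_, rfl⟩
  have he : 0 ≤ e := by rw [hedef]; linarith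
  have he4 : 4 * e ≤ P := by
    rw [hPdef, hedef]; exact mul_le_mul_of_nonneg_right hM4 (by linarith)
  have hP : 0 < P := by rw [hPdef]; positivity
  have heP : e ≤ P := by linarith
  have ha' := Finset.mem_Ioc.mp ha
  have hb' := Finset.mem_Ioc.mp hb
  have hc' := Finset.mem_Ioc.mp hc
  have ha1 : 2 * L ^ 2 * P ≤ a := by
    rw [hLdef, hPdef]
    have h := ha'.1.le
    exact_mod_cast h
  have ha2 : (a : ℝ) ≤ 2 * L ^ 2 * P + e := by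
    rw [hLdef, hPdef, hedef]
    have h := ha'.2
    exact_mod_cast h
  have hb1 : L * P ≤ b := by
    rw [hLdef, hPdef]
    have h := hb'.1.le
    exact_mod_cast h
  have hb2 : (b : ℝ) ≤ L * P + e := by
    rw [hLdef, hPdef, hedef]
    have h := hb'.2
    exact_mod_cast h
  have hc1 : P ≤ c := by
    rw [hPdef]
    have h := hc'.1.le
    exact_mod_cast h
  have hc2 : (c : ℝ) ≤ P + e := by
    rw [hPdef, hedef]
    have h := hc'.2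
    exact_mod_cast h
  have hnn : (nn k a b c : ℝ) = (a : ℝ) ^ 3 + k * b ^ 3 + k ^ 2 * c ^ 3 - 3 * k * a * b * c := by
    simp [nn]
  have hCC : (CC a b c : ℝ) = (b : ℝ) ^ 2 - a * c := by simp [CC]
  have hDD : (DD k b c : ℝ) = (b : ℝ) ^ 3 - k * c ^ 3 := by simp [DD]
  have hBB : (BB k a b c : ℝ) = (k : ℝ) * c ^ 2 - a * b := by simp [BB]
  have hN := N_low (k : ℝ) L hL hkL
  have hNS : (NS k : ℝ) = 8 * L ^ 6 - 5 * k * L ^ 3 + (k : ℝ) ^ 2 := by rw [hLdef, NS_cast]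
  have E := nn_err (k : ℝ) a b c P e L hL hkL hP he heP ha1 ha2 hb1 hb2 hc1 hc2
  have hP3 : 0 < P ^ 3 := by positivity
  have hP2 : 0 < P ^ 2 := by positivity
  have E2 : |(nn k a b c : ℝ) - NS k * P ^ 3| ≤ NS k * P ^ 3 / 20 := by
    rw [hnn, hNS]
    refine le_trans E ?_
    have h1 : K1 L * P ^ 2 * e * 20 ≤ P ^ 3 := by
      have h2 : 20 * K1 L * e ≤ P := by
        rw [hPdef, hedef]; exact mul_le_mul_of_nonneg_right hMK (by linarith)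
      calc K1 L * P ^ 2 * e * 20 = (20 * K1 L * e) * P ^ 2 := by ring
        _ ≤ P * P ^ 2 := mul_le_mul_of_nonneg_right h2 hP2.le
        _ = P ^ 3 := by ring
    have h3 : P ^ 3 ≤ (8 * L ^ 6 - 5 * k * L ^ 3 + (k : ℝ) ^ 2) * P ^ 3 := by
      nlinarith [hN.1]
    linarith
  have hCl := C_low (a : ℝ) b c P e L 0 hL hP he he4 ha1 ha2 hb1 hb2 hc1 hc2
  have hDl := D_low (k : ℝ) b c P e L hL hkL2 hP he he4 hb1 hb2 hc1 hc2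
  have hBl := B_low (k : ℝ) a b c P e L hL hkL hP he heP ha1 ha2 hb1 hb2 hc1 hc2
  rw [← hPdef]
  have hNr1 : P ^ 3 ≤ NS k * P ^ 3 := by
    rw [hNS]; nlinarith [hN.1]
  have hNr2 : NS k * P ^ 3 ≤ 14 * L ^ 6 * P ^ 3 := by
    rw [hNS]; exact mul_le_mul_of_nonneg_right hN.2 hP3.le
  have E3 := abs_le.mp E2
  have hLP6 : P ≤ L ^ 6 * P := by nlinarith
  have hLL2 : L ^ 2 * P ≤ L ^ 6 * P := mul_le_mul_of_nonneg_right q2 hP.le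
  have hLL1 : L * P ≤ L ^ 6 * P := mul_le_mul_of_nonneg_right q1 hP.le
  have hLge : P ≤ L * P := by nlinarith
  have hL2ge : P ≤ 2 * L ^ 2 * P := by nlinarith [sq_nonneg (L - 1)]
  refine ⟨E2, by linarith, by nlinarith, ?_, ?_, ?_, ?_, ?_, ?_, ?_, ?_, ?_, ?_, ?_⟩
  · rw [hCC]; exact hCl.1
  · rw [hCC]; refine le_trans hCl.2 (mul_le_mul_of_nonneg_right ?_ hP2.le)
    linarith
  · rw [hDD]; exact hDl.1
  · rw [hDD]; refine le_trans hDl.2 (mul_le_mul_of_nonneg_right ?_ hP3.le)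
    have : (L + 1) ^ 3 = L ^ 3 + 3 * L ^ 2 + 3 * L + 1 := by ring
    linarith
  · rw [hBB]; refine le_trans hBl (mul_le_mul_of_nonneg_right ?_ hP2.le)
    have : (2 * L ^ 2 + 1) * (L + 1) = 2 * L ^ 3 + 2 * L ^ 2 + L + 1 := by ring
    linarith
  · linarith
  · linarith
  · linarith
  · linarith
  · linarith
  · linarith

end H23.LP
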