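import Pool.Agent.H23.LP.Alg

/-!
# [LP CMU] counting a class with the condition `gcd (CC, D) = 1`, 120-180 lines. File Pool/Agent/H23/LP/Cmu.lean

Let `Q` be the set of the primes `p ∣ D` with `p ∤ g`. For `a ≡ r (mod g)`: a prime `p ∣ D`, `p ∣ g` does not divide `CC a b c` because `CC a b c ≡ CC r b c (mod p)` and the hypothesis `hr`. So `gcd (CC a b c, D) = 1` iff no `p ∈ Q` divides `CC a b c`
(`D` squarefree or not, a common prime factor exists iff the gcd is not 1). Inclusion-exclusion (`Finset.prod_one_sub_ite..`, or: `∏_{p ∈ Q} (1 - 1_{p ∣ C_a}) = ∑_{T ⊆ Q} (-1)^|T| 1_{∀ p ∈ T, p ∣ C_a}`, `Finset.prod_one_sub`/`prod_sub`).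
For `T ⊆ Q`, `π = ∏_{p ∈ T} p`: `∀ p ∈ T, p ∣ b² - a c ↔ π ∣ b² - a c ↔ a ≡ b² c' (mod π)`, `c c' ≡ 1 (mod π)` (`gcd (c, D) = 1`); together with `a ≡ r (mod g)`, `gcd (g, π) = 1`, this is one class modulo `g π`
(`Int.modEq_and_modEq_iff_modEq_mul`, Chinese remainder). Number of integers of one class modulo `q` in `Ioc s e`: `(e-s)/q + θ`, `|θ| ≤ 1` (`Int.Ioc_filter_modEq_card`).
Sum: `(e-s)/g ∑_T (-1)^|T| /π_T = (e-s)/g ∏_{p ∈ Q} (1 - 1/p)`; error `≤ 2^|Q| ≤ 2^ω(D)`.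
-/

set_option autoImplicit false

namespace H23.LP

open Finset

private theorem crt2 (m q x y : ℤ) (h : IsCoprime m q) : ∃ z : ℤ, ∀ a : ℤ,
    (a ≡ x [ZMOD m] ∧ a ≡ y [ZMOD q]) ↔ a ≡ z [ZMOD m * q] := by
  obtain ⟨u, v, huv⟩ := h
  refine ⟨x * (v * q) + y * (u * m), fun a => ?_⟩
  have h1 : x * (v * q) + y * (u * m) ≡ x [ZMOD m] := by
    rw [Int.modEq_iff_dvd]
    refine ⟨(x - y) * u, ?_⟩
    linear_combination (-x) * huv
  have h2 : x * (v * q) + y * (u * m) ≡ y [ZMOD q] := by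
    rw [Int.modEq_iff_dvd]
    refine ⟨(y - x) * v, ?_⟩
    linear_combination (-y) * huv
  have hco : m.natAbs.Coprime q.natAbs := by
    have : IsCoprime m q := ⟨u, v, huv⟩
    exact Int.isCoprime_iff_gcd_eq_one.mp this
  rw [← Int.modEq_and_modEq_iff_modEq_mul hco]
  constructor
  · rintro ⟨ha, hb⟩; exact ⟨ha.trans h1.symm, hb.trans h2.symm⟩
  · rintro ⟨ha, hb⟩; exact ⟨ha.trans h1, hb.trans h2⟩

private theorem dvd_cls (b c : ℤ) (q : ℕ) (hq : q.Prime) (hc : ¬ (q : ℤ) ∣ c) :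
    ∃ y : ℤ, ∀ a : ℤ, (q : ℤ) ∣ CC a b c ↔ a ≡ y [ZMOD (q : ℤ)] := by
  have hqp : Prime (q : ℤ) := Nat.prime_iff_prime_int.mp hq
  have hco : IsCoprime (q : ℤ) c := (Prime.coprime_iff_not_dvd hqp).mpr hc
  obtain ⟨u, v, huv⟩ := hco
  refine ⟨b ^ 2 * v, fun a => ?_⟩
  rw [Int.modEq_iff_dvd]
  simp only [CC]
  constructor
  · rintro ⟨t, ht⟩
    refine ⟨v * t - a * u, ?_⟩
    linear_combination v * ht + a * huv
  · rintro ⟨t, ht⟩
    refine ⟨c * t + b ^ 2 * u, ?_⟩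
    linear_combination c * ht - b ^ 2 * huv

private theorem cls (b c r : ℤ) (g : ℕ) (T : Finset ℕ)
    (hT : ∀ p ∈ T, p.Prime ∧ ¬ p ∣ g ∧ ¬ (p : ℤ) ∣ c) :
    ∃ x : ℤ, ∀ a : ℤ, (a ≡ r [ZMOD (g : ℤ)] ∧ ∀ p ∈ T, (p : ℤ) ∣ CC a b c) ↔
      a ≡ x [ZMOD ((g * ∏ p ∈ T, p : ℕ) : ℤ)] := by
  induction T using Finset.induction_on with
  | empty => exact ⟨r, fun a => by simp⟩
  | insert q T hqT ih =>
    obtain ⟨x, hx⟩ := ih fun p hp => hT p (mem_insert_of_mem hp)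
    obtain ⟨hq, hqg, hqc⟩ := hT q (mem_insert_self q T)
    obtain ⟨y, hy⟩ := dvd_cls b c q hq hqc
    have hco : IsCoprime ((g * ∏ p ∈ T, p : ℕ) : ℤ) (q : ℤ) := by
      rw [Int.isCoprime_iff_gcd_eq_one, Int.gcd_natCast_natCast]
      apply Nat.Coprime.mul_left
      · exact ((Nat.Prime.coprime_iff_not_dvd hq).mpr hqg).symm
      · apply Nat.Coprime.prod_left
        intro p hp
        exact (Nat.coprime_primes (hT p (mem_insert_of_mem hp)).1 hq).mpr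
          fun h => hqT (h ▸ hp)
    obtain ⟨z, hz⟩ := crt2 _ _ x y hco
    refine ⟨z, fun a => ?_⟩
    have e1 : ((g * ∏ p ∈ insert q T, p : ℕ) : ℤ) = ((g * ∏ p ∈ T, p : ℕ) : ℤ) * (q : ℤ) := by
      rw [Finset.prod_insert hqT]; push_cast; ring
    rw [e1, ← hz a, ← hx a, ← hy a]
    constructor
    · rintro ⟨h1, h2⟩
      exact ⟨⟨h1, fun p hp => h2 p (mem_insert_of_mem hp)⟩, h2 q (mem_insert_self q T)⟩
    · rintro ⟨⟨h1, h2⟩, h3⟩
      refine ⟨h1, fun p hp => ?_⟩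
      rcases mem_insert.mp hp with h | h
      · rw [h]; exact h3
      · exact h2 p h

private theorem cnt1 (s e x : ℤ) (m : ℕ) (hm : 0 < m) (hse : s ≤ e) :
    |((((Ioc s e).filter fun a => a ≡ x [ZMOD (m : ℤ)]).card : ℕ) : ℝ) - ((e - s : ℤ) : ℝ) / m| ≤ 1 := by
  have hm' : (0 : ℤ) < m := by exact_mod_cast hm
  have h1 := Int.Ioc_filter_modEq_card s e hm' x
  have hmq : (0 : ℚ) < ((m : ℤ) : ℚ) := by exact_mod_cast hm
  have hseq : (s : ℚ) ≤ e := by exact_mod_cast hse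
  have h2 : ((s : ℚ) - x) / ((m : ℤ) : ℚ) ≤ ((e : ℚ) - x) / ((m : ℤ) : ℚ) :=
    div_le_div_of_nonneg_right (by linarith) hmq.le
  rw [max_eq_left (sub_nonneg.mpr (Int.floor_le_floor h2))] at h1
  have a1 := Int.floor_le (((e : ℚ) - x) / ((m : ℤ) : ℚ))
  have a2 := Int.lt_floor_add_one (((e : ℚ) - x) / ((m : ℤ) : ℚ))
  have b1 := Int.floor_le (((s : ℚ) - x) / ((m : ℤ) : ℚ))
  have b2 := Int.lt_floor_add_one (((s : ℚ) - x) / ((m : ℤ) : ℚ))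
  have h3 : ((((Ioc s e).filter fun a => a ≡ x [ZMOD (m : ℤ)]).card : ℕ) : ℚ) =
      (⌊((e : ℚ) - x) / ((m : ℤ) : ℚ)⌋ : ℚ) - (⌊((s : ℚ) - x) / ((m : ℤ) : ℚ)⌋ : ℚ) := by
    exact_mod_cast h1
  have h4 : ((e : ℚ) - x) / ((m : ℤ) : ℚ) - ((s : ℚ) - x) / ((m : ℤ) : ℚ) =
      ((e - s : ℤ) : ℚ) / ((m : ℕ) : ℚ) := by
    push_cast; ring
  have h5 : |((((Ioc s e).filter fun a => a ≡ x [ZMOD (m : ℤ)]).card : ℕ) : ℚ) -
      ((e - s : ℤ) : ℚ) / (m : ℚ)| ≤ 1 := by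
    rw [abs_le]
    constructor <;> linarith
  exact_mod_cast h5

private theorem gcd_iff (b c : ℤ) (D g : ℕ) (r : ℤ) (hD : 0 < D)
    (hr : ∀ p : ℕ, p.Prime → p ∣ g → p ∣ D → ¬ (p : ℤ) ∣ CC r b c) (a : ℤ)
    (ha : a ≡ r [ZMOD (g : ℤ)]) :
    Int.gcd (CC a b c) D = 1 ↔
      ∀ p ∈ D.primeFactors.filter (fun p => ¬ p ∣ g), ¬ (p : ℤ) ∣ CC a b c := by
  constructor
  · intro h p hp hdv
    rw [mem_filter, Nat.mem_primeFactors] at hp
    have h1 : (p : ℤ) ∣ Int.gcd (CC a b c) D :=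
      Int.dvd_coe_gcd hdv (by exact_mod_cast hp.1.2.1)
    rw [h] at h1
    have h2 : p ∣ 1 := by exact_mod_cast h1
    exact hp.1.1.one_lt.ne' (Nat.dvd_one.mp h2)
  · intro h
    by_contra hne
    obtain ⟨p, hp, hpd⟩ := Nat.exists_prime_and_dvd hne
    have h1 : (p : ℤ) ∣ CC a b c := dvd_trans (by exact_mod_cast hpd) (Int.gcd_dvd_left _ _)
    have h2 : (p : ℤ) ∣ (D : ℤ) := dvd_trans (by exact_mod_cast hpd) (Int.gcd_dvd_right _ _)
    have h3 : p ∣ D := by exact_mod_cast h2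
    by_cases hg : p ∣ g
    · apply hr p hp hg h3
      have h4 : (p : ℤ) ∣ r - a := dvd_trans (by exact_mod_cast hg) (Int.modEq_iff_dvd.mp ha)
      have h5 : CC r b c = CC a b c - c * (r - a) := by simp only [CC]; ring
      rw [h5]
      exact dvd_sub h1 (dvd_mul_of_dvd_right h4 _)
    · exact h p (by rw [mem_filter, Nat.mem_primeFactors]; exact ⟨⟨hp, h3, hD.ne'⟩, hg⟩) h1

theorem cmu (b c : ℤ) (D g : ℕ) (r s e : ℤ) (hD : 0 < D) (hc : Int.gcd c D = 1) (hg : 0 < g) (hse : s ≤ e)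
    (hr : ∀ p : ℕ, p.Prime → p ∣ g → p ∣ D → ¬ (p : ℤ) ∣ CC r b c) :
    |((((Ioc s e).filter fun a => a ≡ r [ZMOD (g : ℤ)] ∧ Int.gcd (CC a b c) D = 1).card : ℕ) : ℝ) -
      ((e - s : ℤ) : ℝ) / g * ∏ p ∈ D.primeFactors.filter (fun p => ¬ p ∣ g), (1 - 1 / (p : ℝ))| ≤
      2 ^ D.primeFactors.card := by
  classical
  obtain ⟨Q, hQ⟩ : ∃ Q : Finset ℕ, Q = D.primeFactors.filter (fun p => ¬ p ∣ g) := ⟨_, rfl⟩
  rw [← hQ]
  have hQm : ∀ p ∈ Q, p.Prime ∧ ¬ p ∣ g ∧ ¬ (p : ℤ) ∣ c := by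
    intro p hp
    rw [hQ, mem_filter, Nat.mem_primeFactors] at hp
    refine ⟨hp.1.1, hp.2, fun hdv => ?_⟩
    have h1 : (p : ℤ) ∣ Int.gcd c D := Int.dvd_coe_gcd hdv (by exact_mod_cast hp.1.2.1)
    rw [hc] at h1
    have h2 : p ∣ 1 := by exact_mod_cast h1
    exact hp.1.1.one_lt.ne' (Nat.dvd_one.mp h2)
  -- count as a sum
  have e1 : ((((Ioc s e).filter fun a => a ≡ r [ZMOD (g : ℤ)] ∧ Int.gcd (CC a b c) D = 1).card : ℕ) : ℝ) =
      ∑ a ∈ (Ioc s e).filter (fun a => a ≡ r [ZMOD (g : ℤ)]),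
        ∏ p ∈ Q, (1 + (-(if (p : ℤ) ∣ CC a b c then (1 : ℝ) else 0))) := by
    rw [← Finset.filter_filter, Finset.card_filter]
    push_cast
    refine Finset.sum_congr rfl fun a ha => ?_
    rw [mem_filter] at ha
    have h1 := gcd_iff b c D g r hD hr a ha.2
    rw [← hQ] at h1
    by_cases h : Int.gcd (CC a b c) D = 1
    · rw [if_pos h]
      rw [Finset.prod_eq_one]
      intro p hp
      rw [if_neg (h1.mp h p hp)]; ring
    · rw [if_neg h]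
      have h2 : ∃ p ∈ Q, (p : ℤ) ∣ CC a b c := by
        by_contra h3
        push Not at h3
        exact h (h1.mpr h3)
      obtain ⟨p, hp, hdv⟩ := h2
      symm
      apply Finset.prod_eq_zero hp
      rw [if_pos hdv]; ring
  have e2 : ∑ a ∈ (Ioc s e).filter (fun a => a ≡ r [ZMOD (g : ℤ)]),
        ∏ p ∈ Q, (1 + (-(if (p : ℤ) ∣ CC a b c then (1 : ℝ) else 0))) =
      ∑ T ∈ Q.powerset, (-1 : ℝ) ^ T.card *
        ((((Ioc s e).filter fun a => a ≡ r [ZMOD (g : ℤ)] ∧ ∀ p ∈ T, (p : ℤ) ∣ CC a b c).card : ℕ) : ℝ) := by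
    simp_rw [Finset.prod_one_add]
    rw [Finset.sum_comm]
    refine Finset.sum_congr rfl fun T _ => ?_
    rw [← Finset.filter_filter, Finset.card_filter]
    push_cast
    rw [Finset.mul_sum]
    refine Finset.sum_congr rfl fun a _ => ?_
    by_cases h : ∀ p ∈ T, (p : ℤ) ∣ CC a b c
    · rw [if_pos h, mul_one]
      rw [Finset.prod_congr rfl (g := fun _ => (-1 : ℝ)) fun p hp => by rw [if_pos (h p hp)]]
      rw [Finset.prod_const]
    · rw [if_neg h, mul_zero]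
      push Not at h
      obtain ⟨p, hp, hdv⟩ := h
      apply Finset.prod_eq_zero hp
      rw [if_neg hdv]; ring
  have e3 : ((e - s : ℤ) : ℝ) / g * ∏ p ∈ Q, (1 - 1 / (p : ℝ)) =
      ∑ T ∈ Q.powerset, (-1 : ℝ) ^ T.card * (((e - s : ℤ) : ℝ) / ((g * ∏ p ∈ T, p : ℕ) : ℝ)) := by
    have h1 : ∏ p ∈ Q, (1 - 1 / (p : ℝ)) = ∑ T ∈ Q.powerset, ∏ p ∈ T, (-(1 / (p : ℝ))) := by
      rw [← Finset.prod_one_add]
      exact Finset.prod_congr rfl fun p _ => by ring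
    rw [h1, Finset.mul_sum]
    refine Finset.sum_congr rfl fun T _ => ?_
    have h2 : ∏ p ∈ T, (-(1 / (p : ℝ))) = (-1 : ℝ) ^ T.card * (∏ p ∈ T, (p : ℝ))⁻¹ := by
      rw [← Finset.prod_inv_distrib, ← Finset.prod_const, ← Finset.prod_mul_distrib]
      exact Finset.prod_congr rfl fun p _ => by rw [one_div]; ring
    rw [h2]
    push_cast
    rw [div_eq_mul_inv, div_eq_mul_inv, mul_inv]
    ring
  rw [e1, e2, e3, ← Finset.sum_sub_distrib]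
  refine le_trans (Finset.abs_sum_le_sum_abs _ _) ?_
  have h4 : ∀ T ∈ Q.powerset, |(-1 : ℝ) ^ T.card *
        ((((Ioc s e).filter fun a => a ≡ r [ZMOD (g : ℤ)] ∧ ∀ p ∈ T, (p : ℤ) ∣ CC a b c).card : ℕ) : ℝ) -
        (-1 : ℝ) ^ T.card * (((e - s : ℤ) : ℝ) / ((g * ∏ p ∈ T, p : ℕ) : ℝ))| ≤ 1 := by
    intro T hT
    rw [← mul_sub, abs_mul, abs_pow, abs_neg, abs_one, one_pow, one_mul]
    have hTm : ∀ p ∈ T, p.Prime ∧ ¬ p ∣ g ∧ ¬ (p : ℤ) ∣ c := fun p hp => hQm p (Finset.mem_powerset.mp hT hp)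
    obtain ⟨x, hx⟩ := cls b c r g T hTm
    have h5 : ((Ioc s e).filter fun a => a ≡ r [ZMOD (g : ℤ)] ∧ ∀ p ∈ T, (p : ℤ) ∣ CC a b c) =
        (Ioc s e).filter fun a => a ≡ x [ZMOD ((g * ∏ p ∈ T, p : ℕ) : ℤ)] :=
      Finset.filter_congr fun a _ => hx a
    rw [h5]
    exact cnt1 s e x _ (Nat.mul_pos hg (Finset.prod_pos fun p hp => (hTm p hp).1.pos)) hse
  refine le_trans (Finset.sum_le_sum h4) ?_
  rw [Finset.sum_const, Finset.card_powerset, nsmul_eq_mul, mul_one]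
  push_cast
  apply pow_le_pow_right₀ (by norm_num)
  rw [hQ]
  exact Finset.card_filter_le _ _

end H23.LP
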