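import Pool.Agent.H23.LP.Fej

/-!
# [LP PSH] the smoothed sawtooth function is a trigonometric polynomial, 120-180 lines. File Pool/Agent/H23/LP/Psh.lean

`ψ t = Int.fract t - 1/2`, `G t = ∫_{-1/2}^{1/2} ψ (t - u) F u du`, `F = fej H`.
(1) `(F u : ℂ) = (1/H) ∑_{j, j'} ee ((j - j') u)`. For an integer `h`: `∫_{-1/2}^{1/2} ψ (t - u) ee (h u) du = ee (h t) ∫_{t-1/2}^{t+1/2} ψ v ee (-h v) dv`
(substitution `v = t - u`, `intervalIntegral.integral_comp_sub_left`) `= ee (h t) ∫_0^1 ψ v ee (-h v) dv` (period 1: `Function.Periodic.intervalIntegral_add_eq`), and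
`∫_0^1 (v - 1/2) ee (-h v) dv = 0` for `h = 0` and `= i/(2 π h)` for `h ≠ 0`, absolute value `1/(2 π |h|)` (on `(0,1)` `fract v = v`; integration by parts, or antiderivative
`(v - 1/2) ee(-h v)/(-2 π i h) - ee (-h v)/(-2 π i h)²`).
(2) So `(G t : ℂ) = (1/H) ∑_{j ≠ j'} c_{j-j'} ee ((j - j') t)` with `|c_h| = 1/(2 π |h|)`; there are `≤ H` pairs with `j - j' = h`. Hence for a finite family:
`|∑_i G (τ i)| ≤ (1/H) ∑_{j ≠ j'} (1/(2 π |j - j'|)) ‖∑_i ee ((j - j') τ i)‖ ≤ ∑_{h=1}^{H} (1/h) ‖∑_i ee (h τ i)‖` (for negative `h` the norm is the same: complex conjugation; group the pairs by `|j - j'|`: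
for every `j` and every `h` there are at most two `j'`; `2/(2π) ≤ 1`).
(3) G with shifted argument: replacing `τ i` by `τ i + s` does not change `‖∑_i ee (h τ i)‖`.
-/

set_option autoImplicit false

namespace H23.LP

open Finset MeasureTheory intervalIntegral

noncomputable def saw (t : ℝ) : ℝ := Int.fract t - 1 / 2

noncomputable def sawF (H : ℕ) (t : ℝ) : ℝ := ∫ u in (-(1 / 2) : ℝ)..(1 / 2), saw (t - u) * fej H u

private theorem psh_cont : Continuous ee := by
  unfold ee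
  fun_prop

private theorem psh_add (x y : ℝ) : ee (x + y) = ee x * ee y := by
  unfold ee
  rw [← Complex.exp_add]
  congr 1
  push_cast
  ring

private theorem psh_norm (x : ℝ) : ‖ee x‖ = 1 := by
  unfold ee
  rw [show 2 * (Real.pi : ℂ) * x * Complex.I = ((2 * Real.pi * x : ℝ) : ℂ) * Complex.I by
    push_cast; ring]
  exact Complex.norm_exp_ofReal_mul_I _

private theorem psh_conj (x : ℝ) : (starRingEnd ℂ) (ee x) = ee (-x) := by
  unfold ee
  rw [← Complex.exp_conj]
  congr 1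
  simp only [map_mul, Complex.conj_ofReal, Complex.conj_I, map_ofNat]
  push_cast
  ring

private theorem psh_int (n : ℤ) : ee n = 1 := by
  unfold ee
  rw [Complex.exp_eq_one_iff]
  exact ⟨n, by push_cast; ring⟩

private theorem psh_meas : Measurable (fun v : ℝ => (saw v : ℂ)) := by
  unfold saw
  exact Complex.measurable_ofReal.comp (measurable_fract.sub_const _)

private theorem psh_bd (v : ℝ) : ‖(saw v : ℂ)‖ ≤ 1 := by
  rw [Complex.norm_real, Real.norm_eq_abs]
  unfold saw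
  have h1 := Int.fract_nonneg v
  have h2 := (Int.fract_lt_one v).le
  rw [abs_le]
  constructor <;> linarith

private theorem psh_ii (t : ℝ) {g : ℝ → ℂ} (hg : Continuous g) (a b : ℝ) :
    IntervalIntegrable (fun u => (saw (t - u) : ℂ) * g u) volume a b := by
  rw [intervalIntegrable_iff]
  exact (intervalIntegrable_iff.1 (hg.intervalIntegrable a b)).bdd_mul (c := 1)
    (psh_meas.comp (measurable_const.sub measurable_id)).aestronglyMeasurable
    (Filter.Eventually.of_forall fun u => psh_bd _)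

/-- Fourier coefficients of the sawtooth function -/
private noncomputable def cc (h : ℤ) : ℂ := ∫ v in (0 : ℝ)..1, ((v - 1 / 2 : ℝ) : ℂ) * ee (-(h * v))

private theorem psh_cc0 : cc 0 = 0 := by
  unfold cc
  have h1 : ∀ v : ℝ, ((v - 1 / 2 : ℝ) : ℂ) * ee (-(((0 : ℤ) : ℝ) * v)) = ((v - 1 / 2 : ℝ) : ℂ) := by
    intro v
    have h2 : -(((0 : ℤ) : ℝ) * v) = ((0 : ℤ) : ℝ) := by push_cast; ring
    rw [h2, psh_int, mul_one]
  simp only [h1]
  rw [intervalIntegral.integral_ofReal]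
  have h2 : ∫ v in (0 : ℝ)..1, (v - 1 / 2) = 0 := by
    rw [intervalIntegral.integral_sub (by simp) (by simp)]
    simp
  rw [h2, Complex.ofReal_zero]

private theorem psh_cc {h : ℤ} (hh : h ≠ 0) : ‖cc h‖ ≤ 1 / (2 * Real.pi * (h.natAbs : ℝ)) := by
  obtain ⟨b, hb⟩ : ∃ b : ℂ, b = -(2 * Real.pi * h * Complex.I) := ⟨_, rfl⟩
  have hpi := Real.pi_pos
  have hhr : (h : ℝ) ≠ 0 := by exact_mod_cast hh
  have hb0 : b ≠ 0 := by
    rw [hb, neg_ne_zero]
    have h1 : (Real.pi : ℂ) ≠ 0 := by exact_mod_cast hpi.ne'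
    have h2 : (h : ℂ) ≠ 0 := by exact_mod_cast hh
    simp [h1, h2, Complex.I_ne_zero]
  have h1 : ∀ v : ℝ, ee (-(h * v)) = Complex.exp (b * v) := by
    intro v
    unfold ee
    rw [hb]
    congr 1
    push_cast
    ring
  have hG : ∀ v : ℝ, HasDerivAt (fun v : ℝ => ((v : ℂ) - 1 / 2) * Complex.exp (b * v) / b -
      Complex.exp (b * v) / b ^ 2) (((v - 1 / 2 : ℝ) : ℂ) * ee (-(h * v))) v := by
    intro v
    have d1 : HasDerivAt (fun z : ℂ => (z - 1 / 2) * Complex.exp (b * z) / b -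
        Complex.exp (b * z) / b ^ 2) (((v : ℂ) - 1 / 2) * Complex.exp (b * v)) (v : ℂ) := by
      have e1 : HasDerivAt (fun z : ℂ => Complex.exp (b * z)) (Complex.exp (b * v) * (b * 1))
          (v : ℂ) := ((hasDerivAt_id (v : ℂ)).const_mul b).cexp
      have e2 : HasDerivAt (fun z : ℂ => z - 1 / 2) 1 (v : ℂ) :=
        (hasDerivAt_id (v : ℂ)).sub_const _
      have e3 := ((e2.mul e1).div_const b).sub (e1.div_const (b ^ 2))
      refine e3.congr_deriv ?_
      field_simp
      ring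
    have d2 := d1.comp_ofReal
    rw [h1]
    push_cast
    exact d2
  have h2 : cc h = 1 / b := by
    unfold cc
    rw [intervalIntegral.integral_eq_sub_of_hasDerivAt (fun v _ => hG v)
      ((Continuous.intervalIntegrable (by
        have := psh_cont
        fun_prop)) _ _)]
    have e1 : Complex.exp (b * ((1 : ℝ) : ℂ)) = 1 := by
      rw [← h1]
      have : -((h : ℝ) * 1) = ((-h : ℤ) : ℝ) := by push_cast; ring
      rw [this, psh_int]
    have e0 : Complex.exp (b * ((0 : ℝ) : ℂ)) = 1 := by simp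
    rw [e1, e0]
    field_simp
    push_cast
    ring
  rw [h2, norm_div, norm_one, hb, norm_neg, norm_mul, norm_mul, norm_mul, Complex.norm_I, mul_one,
    Complex.norm_real, Real.norm_of_nonneg hpi.le, Complex.norm_intCast]
  have e2 : ‖(2 : ℂ)‖ = 2 := by norm_num
  rw [e2, Nat.cast_natAbs, Int.cast_abs]

private theorem psh_coef (h : ℤ) (t : ℝ) :
    ∫ u in (-(1 / 2) : ℝ)..(1 / 2), (saw (t - u) : ℂ) * ee (h * u) = ee (h * t) * cc h := by
  have h1 := intervalIntegral.integral_comp_sub_left (a := -(1 / 2)) (b := 1 / 2)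
    (fun v => (saw v : ℂ) * ee (h * (t - v))) t
  have h2 : ∫ u in (-(1 / 2) : ℝ)..(1 / 2), (saw (t - u) : ℂ) * ee (h * u) =
      ∫ u in (-(1 / 2) : ℝ)..(1 / 2), (saw (t - u) : ℂ) * ee (h * (t - (t - u))) := by
    refine intervalIntegral.integral_congr fun u _ => ?_
    show (saw (t - u) : ℂ) * ee (h * u) = (saw (t - u) : ℂ) * ee (h * (t - (t - u)))
    rw [sub_sub_cancel]
  rw [h2, h1]
  have hper : Function.Periodic (fun v => (saw v : ℂ) * ee (h * (t - v))) 1 := by
    intro v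
    show (saw (v + 1) : ℂ) * ee (h * (t - (v + 1))) = (saw v : ℂ) * ee (h * (t - v))
    have e1 : saw (v + 1) = saw v := by
      unfold saw
      rw [Int.fract_add_one]
    have e2 : (h : ℝ) * (t - (v + 1)) = h * (t - v) + ((-h : ℤ) : ℝ) := by push_cast; ring
    rw [e1, e2, psh_add, psh_int, mul_one]
  have h3 := hper.intervalIntegral_add_eq (t - 1 / 2) 0
  have h4 : t - 1 / 2 + 1 = t - -(1 / 2) := by ring
  rw [h4, zero_add] at h3
  rw [h3]
  unfold cc
  rw [← intervalIntegral.integral_const_mul]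
  rw [intervalIntegral.integral_of_le zero_le_one, intervalIntegral.integral_of_le zero_le_one,
    integral_Ioc_eq_integral_Ioo, integral_Ioc_eq_integral_Ioo]
  refine setIntegral_congr_fun measurableSet_Ioo fun v hv => ?_
  show (saw v : ℂ) * ee (h * (t - v)) = ee (h * t) * (((v - 1 / 2 : ℝ) : ℂ) * ee (-(h * v)))
  have e1 : saw v = v - 1 / 2 := by
    unfold saw
    rw [Int.fract_eq_self.2 ⟨hv.1.le, hv.2⟩]
  have e2 : (h : ℝ) * (t - v) = h * t + -(h * v) := by ring
  rw [e1, e2, psh_add]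
  ring

private theorem psh_sawF (H : ℕ) (t : ℝ) : (sawF H t : ℂ) =
    (∑ j ∈ range H, ∑ j' ∈ range H, ee (((j : ℤ) - j' : ℤ) * t) * cc ((j : ℤ) - j')) / H := by
  unfold sawF
  rw [← intervalIntegral.integral_ofReal]
  have h1 : ∀ u : ℝ, ((saw (t - u) * fej H u : ℝ) : ℂ) =
      (∑ j ∈ range H, ∑ j' ∈ range H, (saw (t - u) : ℂ) * ee (((j : ℤ) - j' : ℤ) * u)) / H := by
    intro u
    rw [Complex.ofReal_mul, fej_expand, mul_div_assoc', mul_sum]
    congr 1
    refine sum_congr rfl fun j _ => ?_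
    rw [mul_sum]
    refine sum_congr rfl fun j' _ => ?_
    push_cast
    rfl
  simp only [h1]
  have hc : ∀ h : ℤ, Continuous (fun u : ℝ => ee (h * u)) := fun h =>
    psh_cont.comp (continuous_const.mul continuous_id)
  rw [intervalIntegral.integral_div, intervalIntegral.integral_finsetSum]
  · congr 1
    refine sum_congr rfl fun j _ => ?_
    rw [intervalIntegral.integral_finsetSum]
    · exact sum_congr rfl fun j' _ => psh_coef _ t
    · exact fun j' _ => psh_ii t (hc _) _ _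
  · intro j _
    have := IntervalIntegrable.sum (μ := volume) (a := -(1 / 2)) (b := 1 / 2) (range H)
      (f := fun (j' : ℕ) (u : ℝ) => (saw (t - u) : ℂ) * ee (((j : ℤ) - j' : ℤ) * u))
      (fun j' _ => psh_ii t (hc _) _ _)
    refine this.congr ?_
    intro u _
    simp

private theorem psh_row (H : ℕ) (w : ℕ → ℝ) (hw : ∀ h, 0 ≤ w h) (w0 : w 0 = 0) {j : ℕ}
    (hj : j ∈ range H) :
    ∑ j' ∈ range H, w ((j : ℤ) - j').natAbs ≤ 2 * ∑ h ∈ Icc 1 H, w h := by
  rw [mem_range] at hj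
  have h1 : ∑ j' ∈ (range H).filter (fun j' => j' < j), w ((j : ℤ) - j').natAbs ≤
      ∑ h ∈ Icc 1 H, w h := by
    have e1 : Set.InjOn (fun j' : ℕ => ((j : ℤ) - j').natAbs)
        ((range H).filter (fun j' => j' < j) : Finset ℕ) := by
      intro a ha b hb hab
      simp only [coe_filter, mem_range, Set.mem_setOf_eq] at ha hb
      simp only at hab
      omega
    rw [← sum_image (f := w) e1]
    refine sum_le_sum_of_subset_of_nonneg ?_ fun h _ _ => hw h
    intro h hh
    obtain ⟨j', hj', rfl⟩ := mem_image.1 hh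
    rw [mem_filter, mem_range] at hj'
    rw [mem_Icc]
    omega
  have h2 : ∑ j' ∈ (range H).filter (fun j' => ¬ j' < j), w ((j : ℤ) - j').natAbs ≤
      ∑ h ∈ Icc 1 H, w h := by
    have e1 : Set.InjOn (fun j' : ℕ => ((j : ℤ) - j').natAbs)
        ((range H).filter (fun j' => ¬ j' < j) : Finset ℕ) := by
      intro a ha b hb hab
      simp only [coe_filter, mem_range, Set.mem_setOf_eq] at ha hb
      simp only at hab
      omega
    rw [← sum_image (f := w) e1]
    have e2 : ∑ h ∈ ((range H).filter (fun j' => ¬ j' < j)).image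
        (fun j' : ℕ => ((j : ℤ) - j').natAbs), w h ≤ ∑ h ∈ insert 0 (Icc 1 H), w h := by
      refine sum_le_sum_of_subset_of_nonneg ?_ fun h _ _ => hw h
      intro h hh
      obtain ⟨j', hj', rfl⟩ := mem_image.1 hh
      rw [mem_filter, mem_range] at hj'
      rw [mem_insert, mem_Icc]
      omega
    rw [sum_insert (by simp), w0, zero_add] at e2
    exact e2
  rw [← sum_filter_add_sum_filter_not (range H) (fun j' => j' < j)]
  linarith

theorem sawF_sum {ι : Type} (S : Finset ι) (τ : ι → ℝ) (s : ℝ) (H : ℕ) (hH : 1 ≤ H) :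
    |∑ i ∈ S, sawF H (τ i + s)| ≤ ∑ h ∈ Icc 1 H, (1 / (h : ℝ)) * ‖∑ i ∈ S, ee (h * τ i)‖ := by
  have hpi := Real.pi_gt_three
  have hH0 : (0 : ℝ) < H := by exact_mod_cast hH
  obtain ⟨B, hB⟩ : ∃ B : ℕ → ℝ, ∀ h, B h = ‖∑ i ∈ S, ee (h * τ i)‖ := ⟨_, fun _ => rfl⟩
  have hB0 : ∀ h, 0 ≤ B h := fun h => by rw [hB]; exact norm_nonneg _
  have hBi : ∀ h : ℤ, ‖∑ i ∈ S, ee (h * τ i)‖ = B h.natAbs := by
    intro h
    rw [hB]
    obtain ⟨m, rfl | rfl⟩ := h.eq_nat_or_neg
    · rw [Int.natAbs_natCast, Int.cast_natCast]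
    · rw [Int.natAbs_neg, Int.natAbs_natCast]
      have h2 : ∑ i ∈ S, ee (((-(m : ℤ) : ℤ) : ℝ) * τ i) =
          (starRingEnd ℂ) (∑ i ∈ S, ee ((m : ℝ) * τ i)) := by
        rw [map_sum]
        refine sum_congr rfl fun i _ => ?_
        rw [psh_conj]
        congr 1
        push_cast
        ring
      rw [h2]
      exact Complex.norm_conj _
  obtain ⟨w, hw⟩ : ∃ w : ℕ → ℝ, ∀ h, w h = if h = 0 then 0 else 1 / (2 * Real.pi * h) * B h :=
    ⟨_, fun _ => rfl⟩
  have hw0 : ∀ h, 0 ≤ w h := by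
    intro h
    rw [hw]
    split_ifs
    · exact le_rfl
    · have := hB0 h
      positivity
  have hwz : w 0 = 0 := by rw [hw, if_pos rfl]
  have hcw : ∀ h : ℤ, ‖cc h‖ * B h.natAbs ≤ w h.natAbs := by
    intro h
    rw [hw]
    by_cases hh : h = 0
    · rw [hh, psh_cc0]
      simp
    · rw [if_neg (by simpa using hh)]
      exact mul_le_mul_of_nonneg_right (psh_cc hh) (hB0 _)
  have h1 : ((∑ i ∈ S, sawF H (τ i + s) : ℝ) : ℂ) =
      (∑ j ∈ range H, ∑ j' ∈ range H, (cc ((j : ℤ) - j') * ee (((j : ℤ) - j' : ℤ) * s)) *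
        ∑ i ∈ S, ee (((j : ℤ) - j' : ℤ) * τ i)) / H := by
    rw [Complex.ofReal_sum]
    simp only [psh_sawF]
    rw [← sum_div, sum_comm]
    congr 1
    refine sum_congr rfl fun j _ => ?_
    rw [sum_comm]
    refine sum_congr rfl fun j' _ => ?_
    rw [mul_sum]
    refine sum_congr rfl fun i _ => ?_
    rw [mul_add, psh_add]
    ring
  have h2 : |∑ i ∈ S, sawF H (τ i + s)| = ‖((∑ i ∈ S, sawF H (τ i + s) : ℝ) : ℂ)‖ := by
    rw [Complex.norm_real, Real.norm_eq_abs]
  rw [h2, h1, norm_div, Complex.norm_natCast, div_le_iff₀ hH0]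
  calc ‖∑ j ∈ range H, ∑ j' ∈ range H, (cc ((j : ℤ) - j') * ee (((j : ℤ) - j' : ℤ) * s)) *
        ∑ i ∈ S, ee (((j : ℤ) - j' : ℤ) * τ i)‖
      ≤ ∑ j ∈ range H, ∑ j' ∈ range H, w ((j : ℤ) - j').natAbs := by
        refine (norm_sum_le _ _).trans (sum_le_sum fun j _ => ?_)
        refine (norm_sum_le _ _).trans (sum_le_sum fun j' _ => ?_)
        rw [norm_mul, norm_mul, psh_norm, mul_one, hBi]
        exact hcw _
    _ ≤ ∑ j ∈ range H, 2 * ∑ h ∈ Icc 1 H, w h :=
        sum_le_sum fun j hj => psh_row H w hw0 hwz hj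
    _ = (2 * ∑ h ∈ Icc 1 H, w h) * H := by
        rw [sum_const, card_range, nsmul_eq_mul]
        ring
    _ ≤ (∑ h ∈ Icc 1 H, 1 / (h : ℝ) * ‖∑ i ∈ S, ee (h * τ i)‖) * H := by
        refine mul_le_mul_of_nonneg_right ?_ hH0.le
        rw [mul_sum]
        refine sum_le_sum fun h hh => ?_
        rw [mem_Icc] at hh
        have hh0 : (0 : ℝ) < h := by exact_mod_cast hh.1
        rw [hw, if_neg (by omega), ← hB h, ← mul_assoc]
        refine mul_le_mul_of_nonneg_right ?_ (hB0 h)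
        rw [mul_one_div, div_le_div_iff₀ (by positivity) hh0]
        nlinarith

end H23.LP
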