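import Pool.Agent.H23.LP.Alg
import Pool.Agent.H23.LP.Psh

/-!
# [LP CNN] counting `m` in a class, 50-90 lines. File Pool/Agent/H23/LP/Cnn.lean

`n = nn k a b c > 0`, `C` prime to `n`: there is `C'` with `C C' ≡ 1 (mod n)`; put `m = -B C'`, then `n ∣ C m + B`, and for every integer `m'`: `n ∣ C m' + B ↔ n ∣ C (m' - m) ↔ m' ≡ m [ZMOD n]`.
`Int.Ioc_filter_modEq_card`: the number of `m' ∈ (X, 2X]` with `m' ≡ m [ZMOD n]` is `max (⌊(2X - m)/n⌋ - ⌊(X - m)/n⌋) 0`, and the difference is `≥ 0`. With `⌊y⌋ = y - fract y`: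
`NN = X/n - fract ((2X - m)/n) + fract ((X - m)/n) = X/n - saw ((2X-m)/n) + saw ((X-m)/n)`.
-/

set_option autoImplicit false

namespace H23.LP

open Finset

theorem NN_eq (k : ℤ) (X : ℕ) (a b c : ℤ) (hn : 0 < nn k a b c)
    (h : Int.gcd (CC a b c) (nn k a b c) = 1) :
    ∃ m : ℤ, nn k a b c ∣ CC a b c * m + BB k a b c ∧
      (NN k X a b c : ℝ) = X / nn k a b c - saw (((2 * X : ℝ) - m) / nn k a b c) +
        saw (((X : ℝ) - m) / nn k a b c) := by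
  obtain ⟨n, hn'⟩ : ∃ n : ℤ, n = nn k a b c := ⟨_, rfl⟩
  obtain ⟨C, hC⟩ : ∃ C : ℤ, C = CC a b c := ⟨_, rfl⟩
  obtain ⟨B, hB⟩ : ∃ B : ℤ, B = BB k a b c := ⟨_, rfl⟩
  rw [← hn', ← hC] at h
  rw [← hn'] at hn
  have hbz := Int.gcd_eq_gcd_ab C n
  rw [h] at hbz
  obtain ⟨m, hm⟩ : ∃ m : ℤ, m = -(B * Int.gcdA C n) := ⟨_, rfl⟩
  have hroot : n ∣ C * m + B := by
    refine ⟨B * Int.gcdB C n, ?_⟩
    rw [hm]
    push_cast at hbz
    linear_combination B * hbz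
  refine ⟨m, by rw [← hn', ← hC, ← hB]; exact hroot, ?_⟩
  have hiff : ∀ m' : ℤ, n ∣ C * m' + B ↔ m' ≡ m [ZMOD n] := by
    intro m'
    have hcop : IsCoprime n C := (Int.isCoprime_iff_gcd_eq_one.2 h).symm
    rw [Int.modEq_iff_dvd]
    have e : C * m' + B = (C * m + B) - C * (m - m') := by ring
    rw [e, dvd_sub_right hroot]
    exact ⟨fun h' => hcop.dvd_of_dvd_mul_left h', fun h' => dvd_mul_of_dvd_right h' _⟩
  have hcard : ((NN k X a b c : ℕ) : ℤ) =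
      max (⌊(((2 * (X : ℤ) : ℤ) : ℚ) - (m : ℚ)) / (n : ℚ)⌋ - ⌊(((X : ℤ) : ℚ) - (m : ℚ)) / (n : ℚ)⌋) 0 := by
    unfold NN
    rw [← hn', ← hC, ← hB, ← Int.Ioc_filter_modEq_card _ _ hn m]
    congr 2
    exact filter_congr fun m' _ => hiff m'
  have hnR : (0 : ℝ) < n := by exact_mod_cast hn
  have f2 : ⌊(((2 * (X : ℤ) : ℤ) : ℚ) - (m : ℚ)) / (n : ℚ)⌋ = ⌊((2 * X : ℝ) - m) / n⌋ := by
    rw [← Rat.floor_cast (α := ℝ)]
    push_cast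
    rfl
  have f1 : ⌊(((X : ℤ) : ℚ) - (m : ℚ)) / (n : ℚ)⌋ = ⌊((X : ℝ) - m) / n⌋ := by
    rw [← Rat.floor_cast (α := ℝ)]
    push_cast
    rfl
  rw [f1, f2] at hcard
  have hmono : ⌊((X : ℝ) - m) / n⌋ ≤ ⌊((2 * X : ℝ) - m) / n⌋ := by
    refine Int.floor_le_floor ?_
    refine div_le_div_of_nonneg_right ?_ hnR.le
    have : (0 : ℝ) ≤ X := Nat.cast_nonneg _
    linarith
  rw [max_eq_left (by linarith)] at hcard
  have hcR : ((NN k X a b c : ℕ) : ℝ) = (⌊((2 * X : ℝ) - m) / n⌋ : ℝ) - (⌊((X : ℝ) - m) / n⌋ : ℝ) := by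
    exact_mod_cast congrArg (Int.cast (R := ℝ)) hcard
  rw [hcR, ← hn']
  unfold saw Int.fract
  field_simp
  ring

end H23.LP
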