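import Pool.Agent.H23.LP.Psh

/-!
# [LP DSC] mean of the sawtooth function over a finite set, 100-160 lines. File Pool/Agent/H23/LP/Dsc.lean

`ψ = saw`, `G = sawF H`, `F = fej H`, `κ = ∫_{ρ<|u|≤1/2} F ≤ 1/(2 H ρ)` (`fej_tail`), `∫ F = 1`, `|ψ| ≤ 1/2`.
(1) One-sided Lipschitz: for `s ≥ 0`: `ψ (t + s) ≤ ψ t + s` (`fract (t + s) ≤ fract t + s`, because `fract (t+s) = fract (fract t + s) ≤ fract t + s`, `Int.fract_add_..`; or `Int.floor` monotone).
(2) For `|u| ≤ ρ`: `ψ t ≤ ψ ((t - ρ) - u) + 2 ρ` (apply (1) at the point `t - ρ - u` with `s = ρ + u ∈ [0, 2ρ]`) and `ψ t ≥ ψ ((t + ρ) - u) - 2 ρ` (`s = ρ - u`).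
(3) Multiply (2) by `F u ≥ 0` and integrate over `|u| ≤ ρ`: `ψ t (1 - κ) ≤ G (t - ρ) - ∫_{|u|>ρ} ψ (t-ρ-u) F + 2 ρ ≤ G (t - ρ) + κ/2 + 2 ρ`, so `ψ t ≤ G (t - ρ) + κ + 2 ρ`
(`ψ t κ ≤ κ/2`). In the same way `ψ t ≥ G (t + ρ) - κ - 2 ρ`.
(4) Sum over `i` and `sawF_sum` with `s = -ρ`, `s = ρ`: `|∑ ψ (τ i)| ≤ |S| (1/(2Hρ) + 2 ρ) + ∑_h (1/h) ‖..‖`.
Integrability: `u ↦ saw (t - u)` is measurable and bounded (`measurable_fract`), `fej H` is continuous.
-/

set_option autoImplicit false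

namespace H23.LP

open Finset MeasureTheory intervalIntegral

private theorem dsc_meas : Measurable saw := by
  unfold saw
  exact measurable_fract.sub_const _

private theorem dsc_abs (t : ℝ) : -(1 / 2) ≤ saw t ∧ saw t ≤ 1 / 2 := by
  unfold saw
  have h1 := Int.fract_nonneg t
  have h2 := (Int.fract_lt_one t).le
  constructor <;> linarith

private theorem dsc_lip (t s : ℝ) (hs : 0 ≤ s) : saw (t + s) ≤ saw t + s := by
  unfold saw
  have h1 : ⌊t⌋ ≤ ⌊t + s⌋ := Int.floor_le_floor (by linarith)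
  have h2 : (⌊t⌋ : ℝ) ≤ (⌊t + s⌋ : ℝ) := by exact_mod_cast h1
  have h3 : Int.fract (t + s) = t + s - ⌊t + s⌋ := rfl
  have h4 : Int.fract t = t - ⌊t⌋ := rfl
  rw [h3, h4]
  linarith

private theorem dsc_ii (H : ℕ) {φ : ℝ → ℝ} (hφ : Measurable φ) (hb : ∀ u, |φ u| ≤ 1) (a b : ℝ) :
    IntervalIntegrable (fun u => φ u * fej H u) volume a b := by
  rw [intervalIntegrable_iff]
  exact (intervalIntegrable_iff.1 ((fej_cont H).intervalIntegrable a b)).bdd_mul (c := 1)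
    hφ.aestronglyMeasurable (Filter.Eventually.of_forall fun u => hb u)

private theorem dsc_core (H : ℕ) (hH : 1 ≤ H) (ρ : ℝ) (hρ : 0 < ρ) (hρ2 : ρ ≤ 1 / 2) {φ : ℝ → ℝ}
    (hφ : Measurable φ) (hb : ∀ u, |φ u| ≤ 1) (h2 : ∀ u, |u| ≤ ρ → φ u ≤ 2 * ρ) :
    ∫ u in (-(1 / 2) : ℝ)..(1 / 2), φ u * fej H u ≤ 1 / (2 * H * ρ) + 2 * ρ := by
  have ii := dsc_ii H hφ hb
  have jj : ∀ a b : ℝ, IntervalIntegrable (fej H) volume a b :=
    fun a b => (fej_cont H).intervalIntegrable a b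
  rw [← integral_add_adjacent_intervals (ii _ (-ρ)) (ii _ _),
    ← integral_add_adjacent_intervals (ii (-ρ) ρ) (ii _ _)]
  have e1 : ∫ u in (-(1 / 2) : ℝ)..(-ρ), φ u * fej H u ≤ ∫ u in (-(1 / 2) : ℝ)..(-ρ), fej H u := by
    refine integral_mono_on (by linarith) (ii _ _) (jj _ _) fun u _ => ?_
    have := fej_nonneg H u
    have := (abs_le.1 (hb u)).2
    nlinarith
  have e2 : ∫ u in ρ..(1 / 2), φ u * fej H u ≤ ∫ u in ρ..(1 / 2), fej H u := by
    refine integral_mono_on (by linarith) (ii _ _) (jj _ _) fun u _ => ?_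
    have := fej_nonneg H u
    have := (abs_le.1 (hb u)).2
    nlinarith
  have e3 : ∫ u in (-ρ)..ρ, φ u * fej H u ≤ ∫ u in (-ρ)..ρ, 2 * ρ * fej H u := by
    refine integral_mono_on (by linarith) (ii _ _) ((jj _ _).const_mul _) fun u hu => ?_
    exact mul_le_mul_of_nonneg_right (h2 u (abs_le.2 ⟨hu.1, hu.2⟩)) (fej_nonneg H u)
  have e4 : ∫ u in (-ρ)..ρ, fej H u ≤ 1 := by
    rw [← fej_int H hH]
    exact integral_mono_interval (by linarith) (by linarith) (by linarith)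
      (Filter.Eventually.of_forall fun u => fej_nonneg H u) (jj _ _)
  have e5 := fej_tail H hH ρ hρ hρ2
  rw [intervalIntegral.integral_const_mul] at e3
  have e6 : 2 * ρ * ∫ u in (-ρ)..ρ, fej H u ≤ 2 * ρ * 1 :=
    mul_le_mul_of_nonneg_left e4 (by linarith)
  linarith

private theorem dsc_up (H : ℕ) (hH : 1 ≤ H) (ρ : ℝ) (hρ : 0 < ρ) (hρ2 : ρ ≤ 1 / 2) (t : ℝ) :
    saw t ≤ sawF H (t + -ρ) + (1 / (2 * H * ρ) + 2 * ρ) ∧
      sawF H (t + ρ) ≤ saw t + (1 / (2 * H * ρ) + 2 * ρ) := by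
  have hm : ∀ s : ℝ, Measurable (fun u : ℝ => saw (s - u)) := fun s =>
    dsc_meas.comp (measurable_const.sub measurable_id)
  have hbd : ∀ a b : ℝ, |saw a - saw b| ≤ 1 := by
    intro a b
    have h1 := dsc_abs a
    have h2 := dsc_abs b
    rw [abs_le]
    constructor <;> linarith
  have hs1 : ∀ s : ℝ, ∀ u : ℝ, |saw (s - u)| ≤ 1 := by
    intro s u
    have h1 := dsc_abs (s - u)
    rw [abs_le]
    constructor <;> linarith
  have hc1 : ∀ u : ℝ, |(fun _ : ℝ => saw t) u| ≤ 1 := by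
    intro u
    have h1 := dsc_abs t
    show |saw t| ≤ 1
    rw [abs_le]
    constructor <;> linarith
  have hconst : ∫ u in (-(1 / 2) : ℝ)..(1 / 2), saw t * fej H u = saw t := by
    rw [intervalIntegral.integral_const_mul, fej_int H hH, mul_one]
  have ic := dsc_ii H (measurable_const (a := saw t)) hc1 (-(1 / 2)) (1 / 2)
  constructor
  · have h1 := dsc_core H hH ρ hρ hρ2 (φ := fun u => saw t - saw (t + -ρ - u))
      (measurable_const.sub (hm _)) (fun u => hbd _ _) (by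
        intro u hu
        rw [abs_le] at hu
        have h3 := dsc_lip (t + -ρ - u) (ρ + u) (by linarith [hu.1])
        have h4 : t + -ρ - u + (ρ + u) = t := by ring
        rw [h4] at h3
        show saw t - saw (t + -ρ - u) ≤ 2 * ρ
        linarith [hu.2])
    have i1 := dsc_ii H (hm (t + -ρ)) (hs1 _) (-(1 / 2)) (1 / 2)
    have e1 : ∫ u in (-(1 / 2) : ℝ)..(1 / 2), (saw t - saw (t + -ρ - u)) * fej H u =
        saw t - sawF H (t + -ρ) := by
      unfold sawF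
      nth_rewrite 2 [← hconst]
      rw [← integral_sub ic i1]
      refine integral_congr fun u _ => ?_
      ring
    rw [e1] at h1
    linarith
  · have h1 := dsc_core H hH ρ hρ hρ2 (φ := fun u => saw (t + ρ - u) - saw t)
      ((hm _).sub measurable_const) (fun u => hbd _ _) (by
        intro u hu
        rw [abs_le] at hu
        have h3 := dsc_lip t (ρ - u) (by linarith [hu.2])
        have h4 : t + (ρ - u) = t + ρ - u := by ring
        rw [h4] at h3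
        show saw (t + ρ - u) - saw t ≤ 2 * ρ
        linarith [hu.1])
    have i1 := dsc_ii H (hm (t + ρ)) (hs1 _) (-(1 / 2)) (1 / 2)
    have e1 : ∫ u in (-(1 / 2) : ℝ)..(1 / 2), (saw (t + ρ - u) - saw t) * fej H u =
        sawF H (t + ρ) - saw t := by
      unfold sawF
      nth_rewrite 2 [← hconst]
      rw [← integral_sub i1 ic]
      refine integral_congr fun u _ => ?_
      ring
    rw [e1] at h1
    linarith

theorem disc {ι : Type} (S : Finset ι) (τ : ι → ℝ) (H : ℕ) (hH : 1 ≤ H) (ρ : ℝ) (hρ : 0 < ρ) (hρ2 : ρ ≤ 1 / 2) :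
    |∑ i ∈ S, saw (τ i)| ≤ S.card * (1 / (2 * H * ρ) + 2 * ρ) +
      ∑ h ∈ Icc 1 H, (1 / (h : ℝ)) * ‖∑ i ∈ S, ee (h * τ i)‖ := by
  have h1 := sawF_sum S τ (-ρ) H hH
  have h2 := sawF_sum S τ ρ H hH
  rw [abs_le] at h1 h2 ⊢
  have h3 : ∑ i ∈ S, saw (τ i) ≤ ∑ i ∈ S, (sawF H (τ i + -ρ) + (1 / (2 * H * ρ) + 2 * ρ)) :=
    sum_le_sum fun i _ => (dsc_up H hH ρ hρ hρ2 (τ i)).1
  have h4 : ∑ i ∈ S, sawF H (τ i + ρ) ≤ ∑ i ∈ S, (saw (τ i) + (1 / (2 * H * ρ) + 2 * ρ)) :=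
    sum_le_sum fun i _ => (dsc_up H hH ρ hρ hρ2 (τ i)).2
  rw [sum_add_distrib, sum_const, nsmul_eq_mul] at h3 h4
  constructor
  · linarith [h2.1]
  · linarith [h1.2]

end H23.LP
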