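import Pool.Agent.H23.LP.Esm
import Pool.Agent.H23.LP.Dsc
import Pool.Agent.H23.LP.Cnn

/-!
# [LP EQU] equidistribution of the roots in a class, 100-160 lines. File Pool/Agent/H23/LP/Equ.lean

`σ, C, M0` from `esum`; `d0 = min (1/10000) (σ/90)`. `S` = the filter set, `|S| ≤ A` (`card Ia = A`). For `a ∈ S` `NN_eq` (with `cop_CN`, `nn > 0` from the norm bound) gives `m a` (choose; `0` outside `S`), and
`NN - X/nn = - saw ((2X - m a)/nn) + saw ((X - m a)/nn)`.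
`disc` for `τ a = (Y - m a)/nn`, `Y ∈ {X, 2X}`, with `H = ⌊X^(20 d)⌋ ≥ X^(20 d)/2` and `ρ = X^(-(9 d)) ≤ 1/2`; by `esum` (`h ≤ H ≤ X^(20d)`; the argument `h * τ a` as real numbers, `Y : ℤ`):
`|∑ saw| ≤ A (X^(-11 d) + 2 X^(-9 d)) + ∑_{h ≤ H} (1/h) C h A^(1-σ) ≤ A (X^(-11 d) + 2 X^(-9 d)) + C X^(20 d) A^(1-σ)`.
`A^σ`: `X ≤ X^(1+d) ≤ nn ≤ K M³ A³` (`box`; take `M0` also from there), so `A^σ ≥ (X/(K M³))^(σ/3) ≥ c X^(30 d)`, hence the last term is `≤ (C/c) A X^(-10 d)`.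
Twice the sum is `≤ A X^(-9d) (2 + 4 + 2 C/c) ≤ A X^(-8 d)` for `X ≥ X0(d)`.
-/

set_option autoImplicit false

namespace H23.LP

open Finset

theorem equi (k : ℤ) (hk : k ≠ 0) : ∃ d0 : ℝ, 0 < d0 ∧ d0 ≤ 1 / 10000 ∧ ∀ d : ℝ, 0 < d → d ≤ d0 →
    ∃ M0 : ℕ, 1 ≤ M0 ∧ ∀ w M : ℕ, M0 ≤ M → ∃ X0 : ℕ, ∀ X A : ℕ, X0 ≤ X → ∀ b c : ℤ, Good k w M A b c →
    (∀ a ∈ Ia k M A, (X : ℝ) ^ (1 + d) ≤ nn k a b c ∧ (nn k a b c : ℝ) ≤ (X : ℝ) ^ (1 + 2 * d)) →
    ∀ g : ℕ, 0 < g → (g : ℝ) ≤ (X : ℝ) ^ (5 * d) → ∀ a1 : ℤ,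
    |∑ a ∈ (Ia k M A).filter (fun a => a ≡ a1 [ZMOD (g : ℤ)] ∧ Int.gcd (CC a b c) (DD k b c) = 1),
      ((NN k X a b c : ℝ) - X / nn k a b c)| ≤ A * (X : ℝ) ^ (-(8 * d)) := by
  obtain ⟨σ, C, hσ0, hσ1, hC0, M1, hM1, hesum⟩ := esum k hk
  obtain ⟨K1, hK1, M2, hM2, hbox⟩ := box k
  refine ⟨min (1 / 10000) (σ / 90), lt_min (by norm_num) (by positivity), min_le_left _ _, ?_⟩
  intro d hd0 hd
  have hd1 : d ≤ 1 / 10000 := hd.trans (min_le_left _ _)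
  have hd2 : d ≤ σ / 90 := hd.trans (min_le_right _ _)
  refine ⟨max M1 M2, le_max_of_le_left hM1, ?_⟩
  intro w M hM
  have hMa : M1 ≤ M := (le_max_left _ _).trans hM
  have hMb : M2 ≤ M := (le_max_right _ _).trans hM
  obtain ⟨X1, hX1⟩ := hesum w M hMa
  set R : ℝ := K1 * (M : ℝ) ^ 3 with hR
  have hM1r : (1 : ℝ) ≤ M := by exact_mod_cast hM1.trans hMa
  have hR1 : 1 ≤ R := by
    rw [hR]
    have : (1 : ℝ) ≤ (M : ℝ) ^ 3 := one_le_pow₀ hM1r
    nlinarith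
  set W : ℝ := 2 * (3 + C * R) with hW
  have hW6 : 6 ≤ W := by
    have : 0 < C * R := by positivity
    rw [hW]; linarith
  refine ⟨max X1 (⌈W ^ (1 / d)⌉₊ + 1), ?_⟩
  intro X A hX b c hgood hnn g hg0 hg a1
  have hXa : X1 ≤ X := (le_max_left _ _).trans hX
  have hXb : ⌈W ^ (1 / d)⌉₊ + 1 ≤ X := (le_max_right _ _).trans hX
  have hA1 : 1 ≤ A := by
    by_contra hA
    have hA0 : A = 0 := by omega
    have hc := hgood.hc
    unfold Ic at hc
    rw [Finset.mem_Ioc, hA0] at hc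
    simp at hc
    omega
  have hA1r : (1 : ℝ) ≤ A := by exact_mod_cast hA1
  have hA0r : (0 : ℝ) < A := by linarith
  have hX1n : 1 ≤ X := by omega
  have hX1r : (1 : ℝ) ≤ X := by exact_mod_cast hX1n
  have hX0r : (0 : ℝ) < X := by linarith
  have ha : 2 * LL k ^ 2 * ((M : ℤ) * A) + A ∈ Ia k M A := by
    unfold Ia
    rw [Finset.mem_Ioc]
    constructor
    · have : (0 : ℤ) < A := by exact_mod_cast hA1
      linarith
    · exact le_refl _
  have hb := fun a (ha : a ∈ Ia k M A) => hbox M A hMb hA1 a ha b hgood.hb c hgood.hc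
  have hXR : (X : ℝ) ≤ R * (A : ℝ) ^ 3 := by
    have h1 := (hnn _ ha).1
    have h2 : (X : ℝ) ≤ (X : ℝ) ^ (1 + d) := by
      calc (X : ℝ) = (X : ℝ) ^ (1 : ℝ) := (Real.rpow_one _).symm
        _ ≤ _ := Real.rpow_le_rpow_of_exponent_le hX1r (by linarith)
    calc (X : ℝ) ≤ K1 * ((M : ℝ) * A) ^ 3 := h2.trans (h1.trans (hb _ ha).2.2.1)
      _ = R * (A : ℝ) ^ 3 := by rw [hR]; ring
  have hWX : W ≤ (X : ℝ) ^ d := by
    have h1 : W ^ (1 / d) ≤ X := by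
      have h2 : W ^ (1 / d) ≤ (⌈W ^ (1 / d)⌉₊ : ℝ) := Nat.le_ceil _
      have h3 : ((⌈W ^ (1 / d)⌉₊ : ℕ) : ℝ) ≤ X := by
        exact_mod_cast (by omega : ⌈W ^ (1 / d)⌉₊ ≤ X)
      linarith
    calc W = (W ^ (1 / d)) ^ d := by
          rw [← Real.rpow_mul (by linarith)]
          rw [one_div_mul_cancel hd0.ne', Real.rpow_one]
      _ ≤ (X : ℝ) ^ d := Real.rpow_le_rpow (by positivity) h1 hd0.le
  -- A^(1-σ)
  have hAσ : (A : ℝ) ^ (1 - σ) ≤ A * (R * (X : ℝ) ^ (-(30 * d))) := by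
    have h1 : (X : ℝ) ^ (30 * d) ≤ R * (A : ℝ) ^ σ := by
      calc (X : ℝ) ^ (30 * d) ≤ (X : ℝ) ^ (σ / 3) :=
            Real.rpow_le_rpow_of_exponent_le hX1r (by linarith)
        _ ≤ (R * (A : ℝ) ^ 3) ^ (σ / 3) := Real.rpow_le_rpow hX0r.le hXR (by positivity)
        _ = R ^ (σ / 3) * ((A : ℝ) ^ 3) ^ (σ / 3) := Real.mul_rpow (by linarith) (by positivity)
        _ ≤ R * (A : ℝ) ^ σ := by
            apply mul_le_mul _ (le_of_eq _) (by positivity) (by linarith)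
            · calc R ^ (σ / 3) ≤ R ^ (1 : ℝ) := Real.rpow_le_rpow_of_exponent_le hR1 (by linarith)
                _ = R := Real.rpow_one R
            · rw [← Real.rpow_natCast (A : ℝ) 3, ← Real.rpow_mul hA0r.le]
              congr 1
              push_cast
              ring
    have h2 : 1 ≤ R * (A : ℝ) ^ σ * (X : ℝ) ^ (-(30 * d)) := by
      calc (1 : ℝ) = (X : ℝ) ^ (30 * d) * (X : ℝ) ^ (-(30 * d)) := by
            rw [← Real.rpow_add hX0r]; simp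
        _ ≤ _ := mul_le_mul_of_nonneg_right h1 (by positivity)
    calc (A : ℝ) ^ (1 - σ) ≤ (A : ℝ) ^ (1 - σ) * (R * (A : ℝ) ^ σ * (X : ℝ) ^ (-(30 * d))) :=
          le_mul_of_one_le_right (by positivity) h2
      _ = ((A : ℝ) ^ (1 - σ) * (A : ℝ) ^ σ) * (R * (X : ℝ) ^ (-(30 * d))) := by ring
      _ = A * (R * (X : ℝ) ^ (-(30 * d))) := by
          rw [← Real.rpow_add hA0r]
          simp
  set S : Finset ℤ := (Ia k M A).filter
    (fun a => a ≡ a1 [ZMOD (g : ℤ)] ∧ Int.gcd (CC a b c) (DD k b c) = 1) with hS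
  have hScard : (S.card : ℝ) ≤ A := by
    have h1 : S.card ≤ (Ia k M A).card := Finset.card_filter_le _ _
    have h2 : (Ia k M A).card = A := by
      unfold Ia
      rw [Int.card_Ioc]
      simp
    rw [h2] at h1
    exact_mod_cast h1
  have hpos : ∀ a ∈ S, 0 < nn k a b c := by
    intro a haS
    have hba := (hb a (Finset.mem_filter.mp haS).1).2.1
    have h2 : (0 : ℝ) < nn k a b c := lt_of_lt_of_le (by positivity) hba
    exact_mod_cast h2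
  have hex : ∀ a ∈ S, ∃ m : ℤ, nn k a b c ∣ CC a b c * m + BB k a b c ∧
      (NN k X a b c : ℝ) = X / nn k a b c - saw (((2 * X : ℝ) - m) / nn k a b c) +
        saw (((X : ℝ) - m) / nn k a b c) := by
    intro a haS
    have h1 := (Finset.mem_filter.mp haS).2.2
    exact NN_eq k X a b c (hpos a haS) (cop_CN k a b c h1)
  choose! m hm1 hm2 using hex
  -- the bound for one Y
  have hXpow : ∀ x : ℝ, 0 < (X : ℝ) ^ x := fun x => Real.rpow_pos_of_pos hX0r x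
  set H : ℕ := ⌊(X : ℝ) ^ (20 * d)⌋₊ with hH
  have hX20 : W ≤ (X : ℝ) ^ (20 * d) :=
    hWX.trans (Real.rpow_le_rpow_of_exponent_le hX1r (by linarith))
  have hH1 : 1 ≤ H := by
    rw [hH, Nat.one_le_floor_iff]
    linarith
  have hHle : (H : ℝ) ≤ (X : ℝ) ^ (20 * d) := Nat.floor_le (by positivity)
  have hHge : (X : ℝ) ^ (20 * d) / 2 ≤ H := by
    have h1 : (X : ℝ) ^ (20 * d) < H + 1 := Nat.lt_floor_add_one _
    linarith
  set ρ : ℝ := (X : ℝ) ^ (-(9 * d)) with hρ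
  have hρ0 : 0 < ρ := hXpow _
  have hρ2 : ρ ≤ 1 / 2 := by
    have h1 : W ≤ (X : ℝ) ^ (9 * d) :=
      hWX.trans (Real.rpow_le_rpow_of_exponent_le hX1r (by linarith))
    rw [hρ, Real.rpow_neg hX0r.le, ← one_div]
    exact one_div_le_one_div_of_le (by norm_num) (by linarith)
  have hone : ∀ Y : ℤ, |Y| ≤ 2 * X →
      |∑ a ∈ S, saw (((Y : ℝ) - m a) / nn k a b c)| ≤ A * (X : ℝ) ^ (-(9 * d)) * (3 + C * R) := by
    intro Y hY
    have h1 := disc S (fun a => ((Y : ℝ) - m a) / nn k a b c) H hH1 ρ hρ0 hρ2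
    refine h1.trans ?_
    have h2 : ∀ h ∈ Icc 1 H, (1 / (h : ℝ)) * ‖∑ a ∈ S, ee (h * (((Y : ℝ) - m a) / nn k a b c))‖ ≤
        C * (A : ℝ) ^ (1 - σ) := by
      intro h hh
      rw [Finset.mem_Icc] at hh
      have hhr : (0 : ℝ) < h := by exact_mod_cast hh.1
      have hhX : (h : ℝ) ≤ (X : ℝ) ^ (20 * d) := by
        have : (h : ℝ) ≤ H := by exact_mod_cast hh.2
        linarith
      have h3 := hX1 X A hXa d hd0 hd1 b c hgood hnn g h hg0 hg hh.1 hhX a1 Y hY m hm1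
      calc (1 / (h : ℝ)) * ‖∑ a ∈ S, ee (h * (((Y : ℝ) - m a) / nn k a b c))‖
          ≤ (1 / (h : ℝ)) * (C * h * (A : ℝ) ^ (1 - σ)) :=
            mul_le_mul_of_nonneg_left h3 (by positivity)
        _ = C * (A : ℝ) ^ (1 - σ) := by field_simp
    have h4 : ∑ h ∈ Icc 1 H, (1 / (h : ℝ)) * ‖∑ a ∈ S, ee (h * (((Y : ℝ) - m a) / nn k a b c))‖ ≤
        H * (C * (A : ℝ) ^ (1 - σ)) := by
      refine (Finset.sum_le_sum h2).trans ?_
      rw [Finset.sum_const, Nat.card_Icc, nsmul_eq_mul]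
      simp
    have h5 : (H : ℝ) * (C * (A : ℝ) ^ (1 - σ)) ≤ A * (X : ℝ) ^ (-(9 * d)) * (C * R) := by
      calc (H : ℝ) * (C * (A : ℝ) ^ (1 - σ))
          ≤ (X : ℝ) ^ (20 * d) * (C * (A * (R * (X : ℝ) ^ (-(30 * d))))) := by
            apply mul_le_mul hHle _ (by positivity) (by positivity)
            exact mul_le_mul_of_nonneg_left hAσ hC0.le
        _ = A * ((X : ℝ) ^ (20 * d) * (X : ℝ) ^ (-(30 * d))) * (C * R) := by ring
        _ = A * (X : ℝ) ^ (-(10 * d)) * (C * R) := by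
            rw [← Real.rpow_add hX0r]
            ring_nf
        _ ≤ A * (X : ℝ) ^ (-(9 * d)) * (C * R) := by
            apply mul_le_mul_of_nonneg_right _ (by positivity)
            apply mul_le_mul_of_nonneg_left _ hA0r.le
            exact Real.rpow_le_rpow_of_exponent_le hX1r (by linarith)
    have h6 : 1 / (2 * (H : ℝ) * ρ) ≤ (X : ℝ) ^ (-(9 * d)) := by
      have h7 : (X : ℝ) ^ (11 * d) ≤ 2 * H * ρ := by
        calc (X : ℝ) ^ (11 * d) = (X : ℝ) ^ (20 * d) * (X : ℝ) ^ (-(9 * d)) := by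
              rw [← Real.rpow_add hX0r]; ring_nf
          _ ≤ (2 * H) * ρ := mul_le_mul_of_nonneg_right (by linarith) hρ0.le
      have h8 : (X : ℝ) ^ (9 * d) ≤ 2 * H * ρ :=
        (Real.rpow_le_rpow_of_exponent_le hX1r (by linarith)).trans h7
      rw [Real.rpow_neg hX0r.le, ← one_div]
      exact one_div_le_one_div_of_le (hXpow _) h8
    have h9 : (S.card : ℝ) * (1 / (2 * H * ρ) + 2 * ρ) ≤ A * (3 * (X : ℝ) ^ (-(9 * d))) := by
      apply mul_le_mul hScard _ (by positivity) hA0r.le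
      rw [← hρ] at h6 ⊢
      linarith
    calc (S.card : ℝ) * (1 / (2 * H * ρ) + 2 * ρ) +
          ∑ h ∈ Icc 1 H, (1 / (h : ℝ)) * ‖∑ a ∈ S, ee (h * (((Y : ℝ) - m a) / nn k a b c))‖
        ≤ A * (3 * (X : ℝ) ^ (-(9 * d))) + A * (X : ℝ) ^ (-(9 * d)) * (C * R) :=
          add_le_add h9 (h4.trans h5)
      _ = _ := by ring
  have hsum : ∑ a ∈ S, ((NN k X a b c : ℝ) - X / nn k a b c) =
      -(∑ a ∈ S, saw ((((2 * X : ℤ) : ℝ) - m a) / nn k a b c)) +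
        ∑ a ∈ S, saw ((((X : ℤ) : ℝ) - m a) / nn k a b c) := by
    rw [← Finset.sum_neg_distrib, ← Finset.sum_add_distrib]
    refine Finset.sum_congr rfl fun a haS => ?_
    rw [hm2 a haS]
    push_cast
    ring
  rw [hsum]
  have e1 := hone (2 * X) (by
    rw [abs_of_nonneg (by positivity)])
  have e2 := hone X (by
    rw [abs_of_nonneg (by positivity)]
    have : (0 : ℤ) ≤ X := Int.natCast_nonneg X
    linarith)
  refine (abs_add_le _ _).trans ?_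
  rw [abs_neg]
  refine (add_le_add e1 e2).trans ?_
  have hfin : (X : ℝ) ^ (-(9 * d)) * W ≤ (X : ℝ) ^ (-(8 * d)) := by
    calc (X : ℝ) ^ (-(9 * d)) * W ≤ (X : ℝ) ^ (-(9 * d)) * (X : ℝ) ^ d :=
          mul_le_mul_of_nonneg_left hWX (hXpow _).le
      _ = (X : ℝ) ^ (-(8 * d)) := by
          rw [← Real.rpow_add hX0r]
          ring_nf
  calc A * (X : ℝ) ^ (-(9 * d)) * (3 + C * R) + A * (X : ℝ) ^ (-(9 * d)) * (3 + C * R)
      = A * ((X : ℝ) ^ (-(9 * d)) * W) := by rw [hW]; ring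
    _ ≤ A * (X : ℝ) ^ (-(8 * d)) := mul_le_mul_of_nonneg_left hfin hA0r.le

end H23.LP
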