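import Pool.Agent.H23.LP.Alg

/-!
# [LP IST] the class sum as an interval sum of `fe`, 60-110 lines. File Pool/Agent/H23/LP/Ist.lean

The integers `a ≡ a1 (mod g)` in `Ioc α β` are `a1 + g t` with `t ∈ Ioc ⌊(α - a1)/g⌋ ⌊(β - a1)/g⌋` (integer division `Int.fdiv` = `/` for `g > 0`): a bijection
(`Finset.sum_bij` / `sum_nbij'`, `Int.ediv_lt_iff_lt_mul`, `Int.le_ediv_iff_mul_le`). `CC (a1 + g t) b c = (b² - a1 c) + (-(g c)) t`. The length: `e - s ≤ (β - α)/g + 1`.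
In `sum_cls` the terms with `gcd (CC, DD) ≠ 1` vanish on the right because of the definition of `fe` (`(D : ℤ) = DD k b c`).
-/

set_option autoImplicit false

namespace H23.LP

open Finset

theorem sum_cls (k b c α β a1 : ℤ) (g D : ℕ) (hg : 0 < g) (hD : (D : ℤ) = DD k b c) (l : ℤ) (φ : ℤ → ℝ) :
    ∑ a ∈ (Ioc α β).filter (fun a => a ≡ a1 [ZMOD (g : ℤ)] ∧ Int.gcd (CC a b c) (DD k b c) = 1),
      ee (φ a) * fe D l (CC a b c) =
    ∑ t ∈ Ioc ((α - a1) / g) ((β - a1) / g), ee (φ (a1 + g * t)) *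
      fe D l ((b ^ 2 - a1 * c) + (-(g * c)) * t) := by
  have hg' : (0 : ℤ) < g := by exact_mod_cast hg
  have hg0 : (g : ℤ) ≠ 0 := hg'.ne'
  have h1 : ∑ a ∈ (Ioc α β).filter (fun a => a ≡ a1 [ZMOD (g : ℤ)] ∧ Int.gcd (CC a b c) (DD k b c) = 1),
      ee (φ a) * fe D l (CC a b c) =
      ∑ a ∈ (Ioc α β).filter (fun a => a ≡ a1 [ZMOD (g : ℤ)]), ee (φ a) * fe D l (CC a b c) := by
    rw [← filter_filter]
    refine sum_filter_of_ne fun a _ hne => ?_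
    by_contra hcon
    apply hne
    unfold fe
    rw [hD, if_neg hcon, mul_zero]
  rw [h1]
  symm
  refine sum_bij (fun t _ => a1 + g * t) ?_ ?_ ?_ ?_
  · intro t ht
    rw [mem_Ioc] at ht
    rw [mem_filter, mem_Ioc]
    have h2 := (Int.ediv_lt_iff_lt_mul hg').1 ht.1
    have h3 := (Int.le_ediv_iff_mul_le hg').1 ht.2
    refine ⟨⟨by linarith, by linarith⟩, ?_⟩
    rw [Int.modEq_iff_dvd]
    exact ⟨-t, by ring⟩
  · intro t _ t' _ h
    have h2 : (g : ℤ) * t = g * t' := by linarith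
    exact mul_left_cancel₀ hg0 h2
  · intro a ha
    rw [mem_filter, mem_Ioc] at ha
    obtain ⟨⟨h2, h3⟩, h4⟩ := ha
    obtain ⟨q, hq⟩ := (Int.modEq_iff_dvd.1 h4)
    refine ⟨-q, ?_, by linarith⟩
    rw [mem_Ioc]
    constructor
    · rw [Int.ediv_lt_iff_lt_mul hg']
      linarith
    · rw [Int.le_ediv_iff_mul_le hg']
      linarith
  · intro t _
    congr 2
    unfold CC
    ring

theorem len_cls (α β a1 : ℤ) (g : ℕ) (hg : 0 < g) (h : α ≤ β) :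
    ((((β - a1) / g - (α - a1) / g : ℤ)) : ℝ) ≤ ((β - α : ℤ) : ℝ) / g + 1 := by
  have hg' : (0 : ℤ) < g := by exact_mod_cast hg
  have hgR : (0 : ℝ) < g := by exact_mod_cast hg
  have h1 : (β - a1) / (g : ℤ) * g ≤ β - a1 := Int.ediv_mul_le _ hg'.ne'
  have h2 : α - a1 < ((α - a1) / (g : ℤ) + 1) * g := Int.lt_ediv_add_one_mul_self _ hg'
  have h3 : ((β - a1) / (g : ℤ) - (α - a1) / (g : ℤ) - 1) * g ≤ β - α := by nlinarith
  have h4 : ((((β - a1) / (g : ℤ) - (α - a1) / (g : ℤ) - 1 : ℤ) : ℝ)) * g ≤ ((β - α : ℤ) : ℝ) := by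
    exact_mod_cast h3
  have h5 : ((((β - a1) / (g : ℤ) - (α - a1) / (g : ℤ) - 1 : ℤ) : ℝ)) ≤ ((β - α : ℤ) : ℝ) / g := by
    rw [le_div_iff₀ hgR]
    exact h4
  push_cast at h5 ⊢
  linarith

end H23.LP
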