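import Pool.Agent.H23.LP.Alg

/-!
# [LP PHS] the phase identity (double reciprocity), 60-120 lines. File Pool/Agent/H23/LP/Phs.lean

Write `n = nn k a b c`, `C = CC a b c`, `B = BB k a b c`, `w = Int.gcdA C D`; since `gcd (C, D) = 1` we have
`C * w + D * gcdB = 1` (`Int.gcd_eq_gcd_ab`), so `D ∣ C * w - 1`.
CLAIM: `z := (-D (C m + B) + c^2 n (C w - 1)) / (n C D)` is an integer. Indeed `n * D` divides both summands (`n ∣ C m + B`, `D ∣ C w - 1`), and
`C` divides the sum: the sum is `C * (..) - (D B + c^2 n)` and `D B + c^2 n = C * (..)` (`id_DB`). `C` is prime to `n` (`cop_CN`) and to `D`, so `C` is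
prime to `n * D` and the product `n * D * C` divides the sum (`IsCoprime.mul_dvd`).
Dividing: `- m / n + c^2 w / D - B / (n C) - c^2 / (C D) = z` in `ℝ` (`field_simp`, all of `n, C, D` are nonzero). Multiply by `h` and add `h Y / n`:
`h (Y - m) / n = h (Y / n + B / (n C) + c^2 / (C D)) + (- h c^2) w / D + h z`. `ee (x + y) = ee x * ee y`, `ee (integer) = 1`
(`Complex.exp_int_mul_two_pi_mul_I`), and `fe D l C = ee (l w / D)` because `Int.gcd C D = 1`.
-/

set_option autoImplicit false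

namespace H23.LP

open Finset

theorem phase (k a b c m h Y : ℤ) (D : ℕ) (hD0 : 0 < D) (hD : (D : ℤ) = DD k b c)
    (hn : 0 < nn k a b c) (hC : CC a b c ≠ 0) (hg : Int.gcd (CC a b c) (DD k b c) = 1)
    (hm : nn k a b c ∣ CC a b c * m + BB k a b c) :
    ee (h * (((Y : ℝ) - m) / nn k a b c)) =
      ee (h * ((Y : ℝ) / nn k a b c + BB k a b c / (nn k a b c * CC a b c) + c ^ 2 / (CC a b c * D))) *
        fe D (-(h * c ^ 2)) (CC a b c) := by
  have hcop := cop_CN k a b c hg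
  have hidDB := id_DB k a b c
  obtain ⟨n, hn'⟩ : ∃ n : ℤ, n = nn k a b c := ⟨_, rfl⟩
  obtain ⟨C, hC'⟩ : ∃ C : ℤ, C = CC a b c := ⟨_, rfl⟩
  obtain ⟨B, hB⟩ : ∃ B : ℤ, B = BB k a b c := ⟨_, rfl⟩
  rw [← hD, ← hB, ← hn', ← hC'] at hidDB
  rw [← hn', ← hC'] at hcop
  rw [← hC', ← hD] at hg
  rw [← hn'] at hn
  rw [← hC'] at hC
  rw [← hn', ← hC', ← hB] at hm
  rw [← hn', ← hC', ← hB]
  obtain ⟨w, hw⟩ : ∃ w : ℤ, w = Int.gcdA C D := ⟨_, rfl⟩
  have hbz := Int.gcd_eq_gcd_ab C D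
  rw [hg, ← hw] at hbz
  push_cast at hbz
  have hcn : IsCoprime C n := Int.isCoprime_iff_gcd_eq_one.2 hcop
  have hcd : IsCoprime C (D : ℤ) := Int.isCoprime_iff_gcd_eq_one.2 hg
  have hdw : (D : ℤ) ∣ C * w - 1 := ⟨-Int.gcdB C D, by linear_combination -hbz⟩
  have hsum1 : n * D ∣ -(D * (C * m + B)) + c ^ 2 * n * (C * w - 1) := by
    refine dvd_add ?_ ?_
    · rw [dvd_neg, mul_comm (D : ℤ)]
      exact mul_dvd_mul hm dvd_rfl
    · rw [show c ^ 2 * n * (C * w - 1) = c ^ 2 * (n * (C * w - 1)) by ring]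
      exact dvd_mul_of_dvd_right (mul_dvd_mul dvd_rfl hdw) _
  have hsum2 : C ∣ -(D * (C * m + B)) + c ^ 2 * n * (C * w - 1) := by
    refine ⟨-(D * m) + c ^ 2 * n * w - (2 * k * b * c ^ 2 - a * (a * c + b ^ 2)), ?_⟩
    linear_combination -hidDB
  obtain ⟨z, hz⟩ := (hcn.mul_right hcd).symm.mul_dvd hsum1 hsum2
  have hnR : (n : ℝ) ≠ 0 := by exact_mod_cast hn.ne'
  have hCR : (C : ℝ) ≠ 0 := by exact_mod_cast hC
  have hDR : (D : ℝ) ≠ 0 := by exact_mod_cast hD0.ne'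
  have hzR : -((D : ℝ) * (C * m + B)) + c ^ 2 * n * (C * w - 1) = n * D * C * z := by
    exact_mod_cast congrArg (Int.cast (R := ℝ)) hz
  have hmain : (h : ℝ) * (((Y : ℝ) - m) / n) =
      (h : ℝ) * ((Y : ℝ) / n + B / (n * C) + c ^ 2 / (C * D)) +
        (((-(h * c ^ 2) * w : ℤ) : ℝ) / D) + ((h * z : ℤ) : ℝ) := by
    have h1 : (z : ℝ) = (-((D : ℝ) * (C * m + B)) + c ^ 2 * n * (C * w - 1)) / (n * D * C) := by
      rw [hzR]
      field_simp
    push_cast
    rw [h1]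
    field_simp
    ring
  have hee : ∀ x y : ℝ, ee (x + y) = ee x * ee y := by
    intro x y
    unfold ee
    rw [← Complex.exp_add]
    congr 1
    push_cast
    ring
  have hei : ∀ t : ℤ, ee (t : ℝ) = 1 := by
    intro t
    unfold ee
    have := Complex.exp_int_mul_two_pi_mul_I t
    rw [← this]
    congr 1
    push_cast
    ring
  rw [hmain, hee, hee, hei, mul_one]
  congr 1
  unfold fe
  rw [if_pos hg, hw]

end H23.LP
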