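import Pool.Agent.H23.LP.Def

/-!
# [LP PSM] partial summation, 60-100 lines. File Pool/Agent/H23/LP/Psm.lean

Let `S t = ∑_{Ioc s t} u` for `s ≤ t ≤ e`, `‖S t‖ ≤ K`, `S s = 0`. Abel: `∑_{t ∈ Ioc s e} ee (φ t) * u t = ee (φ e) * S e - ∑_{t ∈ Ioo s e} (ee (φ (t+1)) - ee (φ t)) * S t`
(induction on `e`, `Int.le_induction` from `s`). `‖ee x‖ = 1`, `‖ee x - ee y‖ ≤ 2 π |x - y|` (`Complex.norm_exp_I_mul_ofReal_sub_one_le` or `‖exp (i t) - 1‖ ≤ |t|`).
So the norm is at most `K + 2 π K ∑ |φ (t+1) - φ t| ≤ K (1 + 2 π V)`. If `e ≤ s` the sum is empty.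
(Proof by induction: prove for all `e ≥ s`: `‖∑_{Ioc s e} ee (φ t) u t - ee (φ e) S e‖ ≤ 2 π K ∑_{t ∈ Ioo s e} |φ (t+1) - φ t|`.)
-/

set_option autoImplicit false

namespace H23.LP

open Finset

private lemma norm_ee (x : ℝ) : ‖ee x‖ = 1 := by
  unfold ee
  rw [show (2 * Real.pi * x * Complex.I : ℂ) = ((2 * Real.pi * x : ℝ) : ℂ) * Complex.I by push_cast; ring]
  exact Complex.norm_exp_ofReal_mul_I _

private lemma ee_sub (x y : ℝ) : ‖ee x - ee y‖ ≤ 2 * Real.pi * |x - y| := by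
  have h1 : ee x - ee y = ee y * (Complex.exp (Complex.I * ((2 * Real.pi * (x - y) : ℝ) : ℂ)) - 1) := by
    unfold ee
    rw [mul_sub, mul_one, ← Complex.exp_add]
    congr 2
    push_cast
    ring
  rw [h1, norm_mul, norm_ee, one_mul]
  refine (Real.norm_exp_I_mul_ofReal_sub_one_le).trans (le_of_eq ?_)
  rw [Real.norm_eq_abs, abs_mul, abs_of_pos (by positivity)]

private lemma Ioc_succ (s e : ℤ) (h : s ≤ e) : Ioc s (e + 1) = insert (e + 1) (Ioc s e) := by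
  ext a
  simp only [mem_Ioc, mem_insert]
  omega

private lemma sum_succ (g : ℤ → ℂ) (s e : ℤ) (h : s ≤ e) :
    ∑ a ∈ Ioc s (e + 1), g a = ∑ a ∈ Ioc s e, g a + g (e + 1) := by
  rw [Ioc_succ s e h, sum_insert (by simp), add_comm]

theorem psum (u : ℤ → ℂ) (φ : ℤ → ℝ) (s e : ℤ) (K V : ℝ) (hK : 0 ≤ K)
    (h1 : ∀ t : ℤ, t ≤ e → ‖∑ i ∈ Ioc s t, u i‖ ≤ K)
    (h2 : ∑ t ∈ Ioo s e, |φ (t + 1) - φ t| ≤ V) :
    ‖∑ t ∈ Ioc s e, ee (φ t) * u t‖ ≤ K * (1 + 2 * Real.pi * V) := by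
  have hV : 0 ≤ V := (sum_nonneg fun _ _ => abs_nonneg _).trans h2
  have hpi := Real.pi_pos
  rcases le_or_gt e s with h | h
  · rw [Ioc_eq_empty (by omega), sum_empty, norm_zero]
    positivity
  have key : ∀ t : ℤ, s ≤ t → t ≤ e →
      ‖∑ a ∈ Ioc s t, ee (φ a) * u a - ee (φ t) * ∑ a ∈ Ioc s t, u a‖ ≤
        2 * Real.pi * K * ∑ a ∈ Ioo s t, |φ (a + 1) - φ a| := by
    intro t ht
    induction t, ht using Int.le_induction with
    | base =>
      intro _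
      simp
    | succ t ht ih =>
      intro hte
      have ih' := ih (by omega)
      rw [sum_succ _ s t ht, sum_succ _ s t ht]
      have e1 : ∑ a ∈ Ioc s t, ee (φ a) * u a + ee (φ (t + 1)) * u (t + 1) -
          ee (φ (t + 1)) * (∑ a ∈ Ioc s t, u a + u (t + 1)) =
          (∑ a ∈ Ioc s t, ee (φ a) * u a - ee (φ t) * ∑ a ∈ Ioc s t, u a) +
            (ee (φ t) - ee (φ (t + 1))) * ∑ a ∈ Ioc s t, u a := by ring
      rw [e1]
      rcases eq_or_lt_of_le ht with h' | h'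
      · subst h'
        simp only [Ioc_self, sum_empty, mul_zero, sub_zero, add_zero, norm_zero]
        exact mul_nonneg (by positivity) (sum_nonneg fun _ _ => abs_nonneg _)
      · have e2 : Ioo s (t + 1) = insert t (Ioo s t) := by
          ext a
          simp only [mem_Ioo, mem_insert]
          omega
        rw [e2, sum_insert (by simp)]
        have h5 := h1 t (by omega)
        have h6 := ee_sub (φ t) (φ (t + 1))
        rw [abs_sub_comm] at h6
        have h7 : ‖(ee (φ t) - ee (φ (t + 1))) * ∑ a ∈ Ioc s t, u a‖ ≤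
            2 * Real.pi * |φ (t + 1) - φ t| * K := by
          rw [norm_mul]
          exact mul_le_mul h6 h5 (norm_nonneg _) (by positivity)
        have h8 := norm_add_le (∑ a ∈ Ioc s t, ee (φ a) * u a - ee (φ t) * ∑ a ∈ Ioc s t, u a)
          ((ee (φ t) - ee (φ (t + 1))) * ∑ a ∈ Ioc s t, u a)
        nlinarith
  have hk := key e h.le le_rfl
  have h3 : ‖ee (φ e) * ∑ a ∈ Ioc s e, u a‖ ≤ K := by
    rw [norm_mul, norm_ee, one_mul]
    exact h1 e le_rfl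
  have h4 : 2 * Real.pi * K * ∑ a ∈ Ioo s e, |φ (a + 1) - φ a| ≤ 2 * Real.pi * K * V :=
    mul_le_mul_of_nonneg_left h2 (by positivity)
  calc ‖∑ t ∈ Ioc s e, ee (φ t) * u t‖ =
        ‖(∑ a ∈ Ioc s e, ee (φ a) * u a - ee (φ e) * ∑ a ∈ Ioc s e, u a) +
          ee (φ e) * ∑ a ∈ Ioc s e, u a‖ := by
        congr 1
        ring
    _ ≤ 2 * Real.pi * K * V + K := (norm_add_le _ _).trans (add_le_add (hk.trans h4) h3)
    _ = K * (1 + 2 * Real.pi * V) := by ring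

end H23.LP
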