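import Pool.Agent.H23.LP.Box

/-!
# [LP VAR] variation of the smooth phase, 80-140 lines. File Pool/Agent/H23/LP/Var.lean

`phi Y a = Y / n + B / (n C) + c² / (C D)` with `n = nn k a b c` etc. Let `P = M A`, `δ = a' - a ≥ 0`, primes for the values at `a'`. All quantities are bounded by `box` (with its `K`,
`M0`): `P³/2 ≤ n, n' ≤ K P³`, `P² ≤ |C|, |C'| ≤ K P²`, `|B|, |B'| ≤ K P²`, `D ≥ P³`, `c, b ≤ K P`, `a, a' ≤ K P`.
`C' - C = -c δ`, `B' - B = -b δ`, `n' - n = δ (a'² + a a' + a² - 3 k b c)`, so `|C' - C| ≤ K P δ`, `|B' - B| ≤ K P δ`, `|n' - n| ≤ (3 + 3 |k|) K² P² δ`.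
(1) `|1/n' - 1/n| = |n' - n| / (n n') ≤ 4 (3 + 3|k|) K² δ / P⁴`.
(2) `|B'/(n' C') - B/(n C)| ≤ |B' - B| / (n' |C'|) + |B| |1/(n' C') - 1/(n C)|`, `|n' C' - n C| ≤ n' |C' - C| + |C| |n' - n| ≤ K₂ P⁴ δ`, so the sum is `≤ K₃ δ / P⁴`.
(3) `c² / D * |1/C' - 1/C| = c² |C' - C| / (D C C') ≤ K⁴ δ / P⁴`.
Hence `|phi Y a' - phi Y a| ≤ K₄ (|Y| + 1) δ / P⁴` with `K₄ = K₄(k)`.
-/

set_option autoImplicit false

namespace H23.LP

open Finset

noncomputable def phi (k : ℤ) (b c : ℤ) (Y : ℝ) (a : ℤ) : ℝ :=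
  Y / nn k a b c + BB k a b c / (nn k a b c * CC a b c) + c ^ 2 / (CC a b c * DD k b c)

private theorem inv_diff (n n' P δ K2 : ℝ) (hP : 0 < P) (hn : P ^ 3 / 2 ≤ n) (hn' : P ^ 3 / 2 ≤ n')
    (h : |n' - n| ≤ K2 * P ^ 2 * δ) : |1 / n' - 1 / n| ≤ 4 * K2 * δ / P ^ 4 := by
  have hP3 : 0 < P ^ 3 / 2 := by positivity
  have hn0 : 0 < n := lt_of_lt_of_le hP3 hn
  have hn0' : 0 < n' := lt_of_lt_of_le hP3 hn'
  have e1 : 1 / n' - 1 / n = (n - n') / (n' * n) := by field_simp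
  have hK : 0 ≤ K2 * P ^ 2 * δ := le_trans (abs_nonneg _) h
  rw [e1, abs_div, abs_of_pos (mul_pos hn0' hn0), abs_sub_comm]
  have h2 : (P ^ 3 / 2) * (P ^ 3 / 2) ≤ n' * n := mul_le_mul hn' hn hP3.le hn0'.le
  calc |n' - n| / (n' * n) ≤ (K2 * P ^ 2 * δ) / ((P ^ 3 / 2) * (P ^ 3 / 2)) :=
        div_le_div₀ hK h (by positivity) h2
    _ = 4 * K2 * δ / P ^ 4 := by field_simp; ring

private theorem frac_diff (n n' C C' B B' P δ K K2 : ℝ) (hP : 0 < P) (hK : 0 ≤ K) (hK2 : 0 ≤ K2) (hδ : 0 ≤ δ)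
    (hn : P ^ 3 / 2 ≤ n) (hn' : P ^ 3 / 2 ≤ n') (hnu' : n' ≤ K * P ^ 3)
    (hC : P ^ 2 ≤ -C) (hC' : P ^ 2 ≤ -C') (hCu : -C ≤ K * P ^ 2)
    (hB : |B| ≤ K * P ^ 2) (dC : |C' - C| ≤ K * P * δ) (dB : |B' - B| ≤ K * P * δ)
    (h : |n' - n| ≤ K2 * P ^ 2 * δ) :
    |B' / (n' * C') - B / (n * C)| ≤ (2 * K + 4 * K * (K ^ 2 + K * K2)) * δ / P ^ 4 := by
  have hP3 : 0 < P ^ 3 / 2 := by positivity
  have hP2 : 0 < P ^ 2 := by positivity
  have hn0 : 0 < n := lt_of_lt_of_le hP3 hn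
  have hn0' : 0 < n' := lt_of_lt_of_le hP3 hn'
  have hC0 : 0 < -C := lt_of_lt_of_le hP2 hC
  have hC0' : 0 < -C' := lt_of_lt_of_le hP2 hC'
  have hCne : C ≠ 0 := by intro h0; rw [h0] at hC0; simp at hC0
  have hCne' : C' ≠ 0 := by intro h0; rw [h0] at hC0'; simp at hC0'
  have e1 : B' / (n' * C') - B / (n * C) =
      (B' - B) / (n' * C') + B * (n * C - n' * C') / ((n' * C') * (n * C)) := by
    field_simp
    ring
  have a1 : |n' * C'| = n' * -C' := by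
    rw [abs_mul, abs_of_pos hn0', abs_of_neg (by linarith)]
  have a2 : |n * C| = n * -C := by
    rw [abs_mul, abs_of_pos hn0, abs_of_neg (by linarith)]
  have l1 : P ^ 3 / 2 * P ^ 2 ≤ n' * -C' := mul_le_mul hn' hC' hP2.le hn0'.le
  have l2 : P ^ 3 / 2 * P ^ 2 ≤ n * -C := mul_le_mul hn hC hP2.le hn0.le
  have t1 : |(B' - B) / (n' * C')| ≤ (K * P * δ) / (P ^ 3 / 2 * P ^ 2) := by
    rw [abs_div, a1]
    exact div_le_div₀ (by positivity) dB (by positivity) l1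
  have d1 : |n * C - n' * C'| ≤ (K ^ 2 + K * K2) * P ^ 4 * δ := by
    have e2 : n * C - n' * C' = -(n' * (C' - C)) + (-C) * (n' - n) := by ring
    rw [e2]
    refine le_trans (abs_add_le _ _) ?_
    rw [abs_neg, abs_mul, abs_mul, abs_of_pos hn0', abs_of_pos hC0]
    have s1 : n' * |C' - C| ≤ (K * P ^ 3) * (K * P * δ) :=
      mul_le_mul hnu' dC (abs_nonneg _) (by positivity)
    have s2 : -C * |n' - n| ≤ (K * P ^ 2) * (K2 * P ^ 2 * δ) :=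
      mul_le_mul hCu h (abs_nonneg _) (by positivity)
    calc _ ≤ (K * P ^ 3) * (K * P * δ) + (K * P ^ 2) * (K2 * P ^ 2 * δ) := add_le_add s1 s2
      _ = _ := by ring
  have t2 : |B * (n * C - n' * C') / ((n' * C') * (n * C))| ≤
      (K * P ^ 2 * ((K ^ 2 + K * K2) * P ^ 4 * δ)) / ((P ^ 3 / 2 * P ^ 2) * (P ^ 3 / 2 * P ^ 2)) := by
    rw [abs_div, abs_mul, abs_mul (n' * C'), a1, a2]
    refine div_le_div₀ (by positivity) (mul_le_mul hB d1 (abs_nonneg _) (by positivity))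
      (by positivity) (mul_le_mul l1 l2 (by positivity) (by positivity))
  rw [e1]
  refine le_trans (abs_add_le _ _) (le_trans (add_le_add t1 t2) (le_of_eq ?_))
  field_simp
  ring

private theorem third_diff (C C' D c P δ K : ℝ) (hP : 0 < P) (hK : 0 ≤ K) (hδ : 0 ≤ δ)
    (hC : P ^ 2 ≤ -C) (hC' : P ^ 2 ≤ -C') (hD : P ^ 3 ≤ D) (hc : 0 ≤ c) (hcu : c ≤ K * P)
    (dC : |C' - C| ≤ K * P * δ) :
    |c ^ 2 / (C' * D) - c ^ 2 / (C * D)| ≤ K ^ 3 * δ / P ^ 4 := by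
  have hP2 : 0 < P ^ 2 := by positivity
  have hP3 : 0 < P ^ 3 := by positivity
  have hD0 : 0 < D := lt_of_lt_of_le hP3 hD
  have hC0 : 0 < -C := lt_of_lt_of_le hP2 hC
  have hC0' : 0 < -C' := lt_of_lt_of_le hP2 hC'
  have hCne : C ≠ 0 := by intro h0; rw [h0] at hC0; simp at hC0
  have hCne' : C' ≠ 0 := by intro h0; rw [h0] at hC0'; simp at hC0'
  have e1 : c ^ 2 / (C' * D) - c ^ 2 / (C * D) = c ^ 2 * (C - C') / (D * (C' * C)) := by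
    field_simp
  have a1 : |D * (C' * C)| = D * (-C' * -C) := by
    have : C' * C = -C' * -C := by ring
    rw [this, abs_of_pos (by positivity)]
  rw [e1, abs_div, a1, abs_mul, abs_of_nonneg (by positivity : (0:ℝ) ≤ c ^ 2), abs_sub_comm]
  have h1 : c ^ 2 ≤ (K * P) ^ 2 := pow_le_pow_left₀ hc hcu 2
  calc c ^ 2 * |C' - C| / (D * (-C' * -C)) ≤
      ((K * P) ^ 2 * (K * P * δ)) / (P ^ 3 * (P ^ 2 * P ^ 2)) := by
        refine div_le_div₀ (by positivity) (mul_le_mul h1 dC (abs_nonneg _) (by positivity))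
          (by positivity) (mul_le_mul hD (mul_le_mul hC' hC hP2.le hC0'.le) (by positivity) hD0.le)
    _ = K ^ 3 * δ / P ^ 4 := by field_simp

theorem var (k : ℤ) : ∃ K : ℝ, 1 ≤ K ∧ ∃ M0 : ℕ, 1 ≤ M0 ∧ ∀ M A : ℕ, M0 ≤ M → 1 ≤ A →
    ∀ a ∈ Ia k M A, ∀ a' ∈ Ia k M A, a ≤ a' → ∀ b ∈ Ib k M A, ∀ c ∈ Ic M A, ∀ Y : ℝ,
      |phi k b c Y a' - phi k b c Y a| ≤ K * (|Y| + 1) * (a' - a) / ((M : ℝ) * A) ^ 4 := by
  obtain ⟨K, hK1, M0, hM0, H⟩ := box k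
  have hK0 : 0 ≤ K := by linarith
  obtain ⟨K2, hK2def⟩ : ∃ K2 : ℝ, K2 = (3 + 3 * |(k : ℝ)|) * K ^ 2 := ⟨_, rfl⟩
  have hk0 : 0 ≤ |(k : ℝ)| := abs_nonneg _
  have hK20 : 0 ≤ K2 := by rw [hK2def]; positivity
  refine ⟨4 * K2 + (2 * K + 4 * K * (K ^ 2 + K * K2)) + K ^ 3 + 1, ?_, M0, hM0, ?_⟩
  · have : 0 ≤ 4 * K2 + (2 * K + 4 * K * (K ^ 2 + K * K2)) + K ^ 3 := by positivity
    linarith
  intro M A hM hA a ha a' ha' haa b hb c hc Y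
  obtain ⟨-, n1, n2, C1, C2, D1, -, B1, -, a2, b1, b2, c1, c2⟩ := H M A hM hA a ha b hb c hc
  obtain ⟨-, n1', n2', C1', C2', -, -, -, a1', a2', -, -, -, -⟩ := H M A hM hA a' ha' b hb c hc
  obtain ⟨-, -, -, -, -, -, -, -, a1, -, -, -, -, -⟩ := H M A hM hA a ha b hb c hc
  have hM1 : 1 ≤ M := le_trans hM0 hM
  obtain ⟨P, hPdef⟩ : ∃ P : ℝ, P = (M : ℝ) * A := ⟨_, rfl⟩
  have hP : 0 < P := by
    rw [hPdef]
    have h1 : (1 : ℝ) ≤ M := by exact_mod_cast hM1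
    have h2 : (1 : ℝ) ≤ A := by exact_mod_cast hA
    positivity
  rw [← hPdef] at n1 n2 C1 C2 D1 B1 a2 b1 b2 c1 c2 n1' n2' C1' C2' a1' a2' a1 ⊢
  obtain ⟨δ, hδdef⟩ : ∃ δ : ℝ, δ = (a' : ℝ) - a := ⟨_, rfl⟩
  have hδ : 0 ≤ δ := by
    rw [hδdef]
    have : (a : ℝ) ≤ a' := by exact_mod_cast haa
    linarith
  have hb0 : (0 : ℝ) ≤ b := by linarith
  have hc0 : (0 : ℝ) ≤ c := by linarith
  have ha0 : (0 : ℝ) ≤ a := by linarith
  have ha0' : (0 : ℝ) ≤ a' := by linarith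
  have dC : |(CC a' b c : ℝ) - CC a b c| ≤ K * P * δ := by
    have : (CC a' b c : ℝ) - CC a b c = -(c * δ) := by
      rw [hδdef]; simp only [CC]; push_cast; ring
    rw [this, abs_neg, abs_of_nonneg (by positivity)]
    exact mul_le_mul_of_nonneg_right c2 hδ
  have dB : |(BB k a' b c : ℝ) - BB k a b c| ≤ K * P * δ := by
    have : (BB k a' b c : ℝ) - BB k a b c = -(b * δ) := by
      rw [hδdef]; simp only [BB]; push_cast; ring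
    rw [this, abs_neg, abs_of_nonneg (by positivity)]
    exact mul_le_mul_of_nonneg_right b2 hδ
  have dn : |(nn k a' b c : ℝ) - nn k a b c| ≤ K2 * P ^ 2 * δ := by
    have e1 : (nn k a' b c : ℝ) - nn k a b c =
        (((a' : ℝ) ^ 2 + a' * a + (a : ℝ) ^ 2) - 3 * k * (b * c)) * δ := by
      rw [hδdef]; simp only [nn]; push_cast; ring
    rw [e1, abs_mul, abs_of_nonneg hδ]
    refine mul_le_mul_of_nonneg_right ?_ hδ
    have q1 : (a' : ℝ) ^ 2 ≤ (K * P) ^ 2 := pow_le_pow_left₀ ha0' a2' 2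
    have q2 : (a : ℝ) ^ 2 ≤ (K * P) ^ 2 := pow_le_pow_left₀ ha0 a2 2
    have q3 : (a' : ℝ) * a ≤ (K * P) * (K * P) := mul_le_mul a2' a2 ha0 (by positivity)
    have q4 : (b : ℝ) * c ≤ (K * P) * (K * P) := mul_le_mul b2 c2 hc0 (by positivity)
    have q5 : |(k : ℝ) * (b * c)| ≤ |(k : ℝ)| * ((K * P) * (K * P)) := by
      rw [abs_mul, abs_of_nonneg (by positivity : (0:ℝ) ≤ (b : ℝ) * c)]
      exact mul_le_mul_of_nonneg_left q4 hk0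
    have q6 : 0 ≤ (a' : ℝ) ^ 2 + a' * a + (a : ℝ) ^ 2 := by positivity
    rw [hK2def]
    rw [abs_le] at q5 ⊢
    have e2 : (3 + 3 * |(k : ℝ)|) * K ^ 2 * P ^ 2 =
        3 * (K * P) ^ 2 + 3 * (|(k : ℝ)| * ((K * P) * (K * P))) := by ring
    have e3 : (K * P) * (K * P) = (K * P) ^ 2 := by ring
    have e4 : 3 * (k : ℝ) * (b * c) = 3 * (k * (b * c)) := by ring
    rw [e2, e4]
    constructor
    · nlinarith [sq_nonneg (K * P)]
    · nlinarith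
  have I1 := inv_diff _ _ P δ K2 hP n1 n1' dn
  have I2 := frac_diff _ _ _ _ _ (BB k a' b c : ℝ) P δ K K2 hP hK0 hK20 hδ n1 n1' n2' C1 C1' C2 B1 dC dB dn
  have I3 := third_diff _ _ (DD k b c : ℝ) c P δ K hP hK0 hδ C1 C1' D1 hc0 c2 dC
  have e0 : phi k b c Y a' - phi k b c Y a = Y * (1 / (nn k a' b c : ℝ) - 1 / nn k a b c) +
      (BB k a' b c / (nn k a' b c * CC a' b c) - (BB k a b c : ℝ) / (nn k a b c * CC a b c)) +
      ((c : ℝ) ^ 2 / (CC a' b c * DD k b c) - (c : ℝ) ^ 2 / (CC a b c * DD k b c)) := by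
    unfold phi; ring
  rw [e0, ← hδdef]
  have hP4 : 0 < P ^ 4 := by positivity
  have hY : 0 ≤ |Y| := abs_nonneg Y
  have J1 : |Y * (1 / (nn k a' b c : ℝ) - 1 / nn k a b c)| ≤ |Y| * (4 * K2 * δ / P ^ 4) := by
    rw [abs_mul]; exact mul_le_mul_of_nonneg_left I1 hY
  refine le_trans (abs_add_le _ _) ?_
  refine le_trans (add_le_add (le_trans (abs_add_le _ _) (add_le_add J1 I2)) I3) ?_
  obtain ⟨t, htdef⟩ : ∃ t : ℝ, t = δ / P ^ 4 := ⟨_, rfl⟩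
  have ht : 0 ≤ t := by rw [htdef]; positivity
  have g1 : 4 * K2 * δ / P ^ 4 = 4 * K2 * t := by rw [htdef]; ring
  have g2 : (2 * K + 4 * K * (K ^ 2 + K * K2)) * δ / P ^ 4 =
      (2 * K + 4 * K * (K ^ 2 + K * K2)) * t := by rw [htdef]; ring
  have g3 : K ^ 3 * δ / P ^ 4 = K ^ 3 * t := by rw [htdef]; ring
  have g4 : (4 * K2 + (2 * K + 4 * K * (K ^ 2 + K * K2)) + K ^ 3 + 1) * (|Y| + 1) * δ / P ^ 4 =
      (4 * K2 + (2 * K + 4 * K * (K ^ 2 + K * K2)) + K ^ 3 + 1) * (|Y| + 1) * t := by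
    rw [htdef]; ring
  rw [g1, g2, g3, g4]
  have w1 : 0 ≤ K2 * t := by positivity
  have w2 : 0 ≤ (2 * K + 4 * K * (K ^ 2 + K * K2)) * t := by positivity
  have w3 : 0 ≤ K ^ 3 * t := by positivity
  have w4 : 0 ≤ (2 * K + 4 * K * (K ^ 2 + K * K2)) * t * |Y| := by positivity
  have w5 : 0 ≤ K ^ 3 * t * |Y| := by positivity
  have w6 : 0 ≤ |Y| * t := by positivity
  nlinarith

end H23.LP
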