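import Pool.Agent.H23.LP.Qap
import Pool.Agent.H23.LP.Ist
import Pool.Agent.H23.LP.Phs
import Pool.Agent.H23.LP.Var
import Pool.Agent.H23.LP.Psm

/-!
# [LP ESM] the exponential sums over a class, 120-180 lines. File Pool/Agent/H23/LP/Esm.lean

`σ, C, M0, X0` from `qap`, `K` from `box` and `var` (maximum; `M0` the maximum). `P = M A`, `n = nn k a b c > 0`, `CC < 0`, `DD > 0` in the box.
(1) `phase` (with `h`, `Y`, `m a`): `ee (h (Y - m a)/n) = ee (h * phi k b c Y a) * fe D (-(h c²)) (CC a b c)` for `a` in the filter (`gcd (CC, DD) = 1`; `(D : ℝ) = DD`).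
(2) `sum_cls` with `φ a = h * phi k b c Y a`: the sum is `∑_{t ∈ Ioc s e} ee (φ (a1 + g t)) * fe D l (u + v t)`, `s, e` as there, `len_cls`: `e - s ≤ A/g + 1` (`β - α = A`).
(3) `psum` with the bound `C A^(1-σ)` of `qap` for all partial sums (for `t ≤ e` the interval `Ioc s t` is not longer) and `V = ∑_{t ∈ Ioo s e} |φ (a1 + g(t+1)) - φ (a1 + g t)|`: for `t ∈ Ioo s e` both `a1 + g t` and `a1 + g (t+1)` lie in `Ia`
(`t > s` and `t + 1 ≤ e`), so by `var` each term is `≤ h K (|Y| + 1) g / P⁴`; the number of terms is `≤ e - s ≤ A/g + 1 ≤ 2A/g` (`g ≤ A` for `X ≥ X0`: `g ≤ X^(5d) ≤ X^0.0005`, `X ≤ 2 K M³ A³`), so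
`V ≤ 2 h K (2X + 1) A / P⁴ ≤ 6 h K X / P³ ≤ 6 h K²` (`A ≤ P`, `X ≤ X^(1+d) ≤ nn ≤ K P³`).
(4) Total `≤ C A^(1-σ) (1 + 12 π K² h) ≤ C (1 + 12 π K²) h A^(1-σ)`.
-/

set_option autoImplicit false

namespace H23.LP

open Finset

theorem esum (k : ℤ) (hk : k ≠ 0) : ∃ σ C : ℝ, 0 < σ ∧ σ ≤ 1 / 10 ∧ 0 < C ∧ ∃ M0 : ℕ, 1 ≤ M0 ∧ ∀ w M : ℕ, M0 ≤ M → ∃ X0 : ℕ,
    ∀ X A : ℕ, X0 ≤ X → ∀ d : ℝ, 0 < d → d ≤ 1 / 10000 → ∀ b c : ℤ, Good k w M A b c →
    (∀ a ∈ Ia k M A, (X : ℝ) ^ (1 + d) ≤ nn k a b c ∧ (nn k a b c : ℝ) ≤ (X : ℝ) ^ (1 + 2 * d)) →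
    ∀ g h : ℕ, 0 < g → (g : ℝ) ≤ (X : ℝ) ^ (5 * d) → 1 ≤ h → (h : ℝ) ≤ (X : ℝ) ^ (20 * d) →
    ∀ a1 Y : ℤ, |Y| ≤ 2 * X → ∀ m : ℤ → ℤ,
    (∀ a ∈ (Ia k M A).filter (fun a => a ≡ a1 [ZMOD (g : ℤ)] ∧ Int.gcd (CC a b c) (DD k b c) = 1),
      nn k a b c ∣ CC a b c * m a + BB k a b c) →
    ‖∑ a ∈ (Ia k M A).filter (fun a => a ≡ a1 [ZMOD (g : ℤ)] ∧ Int.gcd (CC a b c) (DD k b c) = 1),
      ee (h * (((Y : ℝ) - m a) / nn k a b c))‖ ≤ C * h * (A : ℝ) ^ (1 - σ) := by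
  obtain ⟨σ, C, hσ0, hσ1, hC0, M1, hM1, hqap⟩ := qap k hk
  obtain ⟨K1, hK1, M2, hM2, hbox⟩ := box k
  obtain ⟨K2, hK2, M3, hM3, hvar⟩ := var k
  refine ⟨σ, C * (1 + 12 * Real.pi * (K1 * K2)), hσ0, hσ1, ?_, max M1 (max M2 M3), ?_, ?_⟩
  · have := Real.pi_pos
    positivity
  · exact le_max_of_le_left hM1
  intro w M hM
  have hMa : M1 ≤ M := (le_max_left _ _).trans hM
  have hMb : M2 ≤ M := (le_max_left _ _).trans ((le_max_right _ _).trans hM)
  have hMc : M3 ≤ M := (le_max_right _ _).trans ((le_max_right _ _).trans hM)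
  obtain ⟨X1, hX1⟩ := hqap w M hMa
  set R : ℝ := K1 * (M : ℝ) ^ 3 with hR
  have hM1r : (1 : ℝ) ≤ M := by exact_mod_cast hM1.trans hMa
  have hR1 : 1 ≤ R := by
    rw [hR]
    have : (1 : ℝ) ≤ (M : ℝ) ^ 3 := one_le_pow₀ hM1r
    nlinarith
  refine ⟨max X1 (⌈R ^ 2⌉₊ + 1), ?_⟩
  intro X A hX d hd0 hd b c hgood hnn g h hg0 hg hh1 hh a1 Y hY m hm
  have hXa : X1 ≤ X := (le_max_left _ _).trans hX
  have hXb : ⌈R ^ 2⌉₊ + 1 ≤ X := (le_max_right _ _).trans hX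
  have hA1 : 1 ≤ A := by
    by_contra hA
    have hA0 : A = 0 := by omega
    have hc := hgood.hc
    unfold Ic at hc
    rw [Finset.mem_Ioc, hA0] at hc
    simp at hc
    omega
  have hA1r : (1 : ℝ) ≤ A := by exact_mod_cast hA1
  have hA0r : (0 : ℝ) < A := by linarith
  have hX1n : 1 ≤ X := by omega
  have hX1r : (1 : ℝ) ≤ X := by exact_mod_cast hX1n
  have hX0r : (0 : ℝ) < X := by linarith
  have hg1r : (1 : ℝ) ≤ g := by exact_mod_cast hg0
  have hg0r : (0 : ℝ) < g := by linarith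
  have hh1r : (1 : ℝ) ≤ h := by exact_mod_cast hh1
  have ha : 2 * LL k ^ 2 * ((M : ℤ) * A) + A ∈ Ia k M A := by
    unfold Ia
    rw [Finset.mem_Ioc]
    constructor
    · have : (0 : ℤ) < A := by exact_mod_cast hA1
      linarith
    · exact le_refl _
  set P : ℝ := (M : ℝ) * A with hP
  have hP1 : (1 : ℝ) ≤ P := by rw [hP]; nlinarith
  have hP0 : 0 < P := by linarith
  have hb := fun a (ha : a ∈ Ia k M A) => hbox M A hMb hA1 a ha b hgood.hb c hgood.hc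
  have hXK : (X : ℝ) ≤ K1 * P ^ 3 := by
    have h1 := (hnn _ ha).1
    have h2 : (X : ℝ) ≤ (X : ℝ) ^ (1 + d) := by
      calc (X : ℝ) = (X : ℝ) ^ (1 : ℝ) := (Real.rpow_one _).symm
        _ ≤ _ := Real.rpow_le_rpow_of_exponent_le hX1r (by linarith)
    exact h2.trans (h1.trans (hb _ ha).2.2.1)
  have hXR : (X : ℝ) ≤ R * (A : ℝ) ^ 3 := by
    refine hXK.trans (le_of_eq ?_)
    rw [hR, hP]; ring
  have hRX : R ^ 2 ≤ X := by
    have h2 : R ^ 2 ≤ (⌈R ^ 2⌉₊ : ℝ) := Nat.le_ceil _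
    have h3 : ((⌈R ^ 2⌉₊ : ℕ) : ℝ) ≤ X := by exact_mod_cast (by omega : ⌈R ^ 2⌉₊ ≤ X)
    linarith
  -- g ≤ A
  have hgA : (g : ℝ) ≤ A := by
    have h1 : (g : ℝ) ≤ (X : ℝ) ^ (1 / 6 : ℝ) := by
      refine hg.trans (Real.rpow_le_rpow_of_exponent_le hX1r ?_)
      linarith
    have h2 : (g : ℝ) ^ 3 ≤ (X : ℝ) ^ (1 / 2 : ℝ) := by
      calc (g : ℝ) ^ 3 ≤ ((X : ℝ) ^ (1 / 6 : ℝ)) ^ 3 := pow_le_pow_left₀ hg0r.le h1 3
        _ = (X : ℝ) ^ (1 / 2 : ℝ) := by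
            rw [← Real.rpow_natCast ((X : ℝ) ^ (1 / 6 : ℝ)) 3, ← Real.rpow_mul hX0r.le]
            norm_num
    have h3 : R ≤ (X : ℝ) ^ (1 / 2 : ℝ) := by
      rw [← Real.sqrt_eq_rpow]
      exact Real.le_sqrt_of_sq_le hRX
    have h4 : (X : ℝ) ^ (1 / 2 : ℝ) * (X : ℝ) ^ (1 / 2 : ℝ) = X := by
      rw [← Real.rpow_add hX0r]
      norm_num
    have h5 : R * (g : ℝ) ^ 3 ≤ R * (A : ℝ) ^ 3 := by
      calc R * (g : ℝ) ^ 3 ≤ (X : ℝ) ^ (1 / 2 : ℝ) * (X : ℝ) ^ (1 / 2 : ℝ) :=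
            mul_le_mul h3 h2 (by positivity) (by positivity)
        _ = X := h4
        _ ≤ _ := hXR
    have h6 : (g : ℝ) ^ 3 ≤ (A : ℝ) ^ 3 := le_of_mul_le_mul_left h5 (by linarith)
    exact le_of_pow_le_pow_left₀ (by norm_num) hA0r.le h6
  -- D
  have hDpos : 0 < DD k b c := by
    have h1 := (hb _ ha).2.2.2.2.2.1
    have h2 : (0 : ℝ) < DD k b c := lt_of_lt_of_le (by positivity) h1
    exact_mod_cast h2
  obtain ⟨D, hD⟩ : ∃ D : ℕ, (D : ℤ) = DD k b c := ⟨(DD k b c).toNat, Int.toNat_of_nonneg hDpos.le⟩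
  have hD0 : 0 < D := by
    have : (0 : ℤ) < D := by rw [hD]; exact hDpos
    exact_mod_cast this
  have hDr : (D : ℝ) = DD k b c := by exact_mod_cast congrArg (Int.cast : ℤ → ℝ) hD
  -- the phase identity
  set l : ℤ := -((h : ℤ) * c ^ 2) with hl
  set φ : ℤ → ℝ := fun a => h * phi k b c Y a with hφ
  have hterm : ∀ a ∈ (Ia k M A).filter (fun a => a ≡ a1 [ZMOD (g : ℤ)] ∧ Int.gcd (CC a b c) (DD k b c) = 1),
      ee (h * (((Y : ℝ) - m a) / nn k a b c)) = ee (φ a) * fe D l (CC a b c) := by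
    intro a haf
    have haf' := Finset.mem_filter.mp haf
    have hba := hb a haf'.1
    have hn0 : 0 < nn k a b c := by
      have h2 : (0 : ℝ) < nn k a b c := lt_of_lt_of_le (by positivity) hba.2.1
      exact_mod_cast h2
    have hC0' : CC a b c ≠ 0 := by
      intro h0
      have h3 := hba.2.2.2.1
      rw [h0, Int.cast_zero, neg_zero, ← hP] at h3
      have : (0 : ℝ) < P ^ 2 := by positivity
      linarith
    have h4 := phase k a b c (m a) h Y D hD0 hD hn0 hC0' haf'.2.2 (hm a haf)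
    rw [Int.cast_natCast] at h4
    rw [h4]
    simp only [hφ, phi, hl, hDr]
  rw [Finset.sum_congr rfl hterm]
  have hIa : Ia k M A = Ioc (2 * LL k ^ 2 * ((M : ℤ) * A)) (2 * LL k ^ 2 * ((M : ℤ) * A) + A) := rfl
  set α : ℤ := 2 * LL k ^ 2 * ((M : ℤ) * A) with hα
  rw [hIa, sum_cls k b c α (α + A) a1 g D hg0 hD l φ]
  set s : ℤ := (α - a1) / g with hs
  set e : ℤ := (α + A - a1) / g with he
  have hlen : ((e - s : ℤ) : ℝ) ≤ (A : ℝ) / g + 1 := by
    have h1 := len_cls α (α + A) a1 g hg0 (by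
      have : (0 : ℤ) ≤ A := Int.natCast_nonneg A
      linarith)
    rw [show (α + (A : ℤ) - α : ℤ) = A by ring, Int.cast_natCast] at h1
    exact h1
  have hpart : ∀ t : ℤ, t ≤ e →
      ‖∑ i ∈ Ioc s t, fe D l ((b ^ 2 - a1 * c) + (-(g * c)) * i)‖ ≤ C * (A : ℝ) ^ (1 - σ) := by
    intro t ht
    refine hX1 X A hXa d hd0 hd b c hgood hnn D g h hD hg0 hg hh1 hh (b ^ 2 - a1 * c) s t ?_
    refine le_trans ?_ hlen
    have : (t - s : ℤ) ≤ e - s := by omega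
    exact_mod_cast this
  set V : ℝ := 6 * h * (K1 * K2) with hV
  have hvarsum : ∑ t ∈ Ioo s e, |φ (a1 + g * (t + 1)) - φ (a1 + g * t)| ≤ V := by
    have hgz : (0 : ℤ) < g := by exact_mod_cast hg0
    have hone : ∀ t ∈ Ioo s e, |φ (a1 + g * (t + 1)) - φ (a1 + g * t)| ≤
        h * (K2 * (3 * X) * g / P ^ 4) := by
      intro t ht
      rw [Finset.mem_Ioo] at ht
      have h1 : α - a1 < t * g := by
        have := ht.1
        rw [hs] at this
        exact (Int.ediv_lt_iff_lt_mul hgz).mp this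
      have h2 : (t + 1) * g ≤ α + A - a1 := by
        have h3 : t + 1 ≤ e := by omega
        rw [he] at h3
        exact (Int.le_ediv_iff_mul_le hgz).mp h3
      have hm1 : a1 + g * t ∈ Ia k M A := by
        rw [hIa, Finset.mem_Ioc]
        constructor <;> nlinarith
      have hm2 : a1 + g * (t + 1) ∈ Ia k M A := by
        rw [hIa, Finset.mem_Ioc]
        constructor <;> nlinarith
      have h4 := hvar M A hMc hA1 _ hm1 _ hm2 (by nlinarith) b hgood.hb c hgood.hc Y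
      simp only [hφ]
      rw [← mul_sub, abs_mul, abs_of_nonneg (by positivity : (0 : ℝ) ≤ h)]
      apply mul_le_mul_of_nonneg_left _ (by positivity)
      refine h4.trans ?_
      rw [← hP]
      apply div_le_div_of_nonneg_right _ (by positivity)
      have h5 : ((a1 + g * (t + 1) : ℤ) : ℝ) - ((a1 + g * t : ℤ) : ℝ) = g := by push_cast; ring
      rw [h5]
      apply mul_le_mul_of_nonneg_right _ hg0r.le
      apply mul_le_mul_of_nonneg_left _ (by linarith)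
      have h6 : |(Y : ℝ)| ≤ 2 * X := by exact_mod_cast hY
      linarith
    have hcard : ((Ioo s e).card : ℝ) ≤ (A : ℝ) / g + 1 := by
      rw [Int.card_Ioo]
      rcases le_or_gt e s with hes | hes
      · rw [show (e - s - 1).toNat = 0 by omega]
        have : 0 ≤ (A : ℝ) / g := by positivity
        simp
        linarith
      · refine le_trans ?_ hlen
        have h1 : (((e - s - 1).toNat : ℕ) : ℤ) ≤ e - s := by omega
        exact_mod_cast h1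
    refine (Finset.sum_le_sum hone).trans ?_
    rw [Finset.sum_const, nsmul_eq_mul]
    have hstep : ((Ioo s e).card : ℝ) * (h * (K2 * (3 * X) * g / P ^ 4)) ≤
        ((A : ℝ) / g + 1) * (h * (K2 * (3 * X) * g / P ^ 4)) :=
      mul_le_mul_of_nonneg_right hcard (by positivity)
    refine hstep.trans ?_
    have h7 : ((A : ℝ) / g + 1) * (h * (K2 * (3 * X) * g / P ^ 4)) =
        (A + g) * (3 * h * K2 * X / P ^ 4) := by
      field_simp
    rw [h7]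
    have h8 : (A : ℝ) + g ≤ 2 * P := by
      have : (A : ℝ) ≤ P := by rw [hP]; nlinarith
      linarith
    have h9 : ((A : ℝ) + g) * (3 * h * K2 * X / P ^ 4) ≤ (2 * P) * (3 * h * K2 * X / P ^ 4) :=
      mul_le_mul_of_nonneg_right h8 (by positivity)
    refine h9.trans ?_
    have h10 : (2 * P) * (3 * h * K2 * X / P ^ 4) = 6 * h * K2 * (X / P ^ 3) := by
      field_simp
      ring
    rw [h10, hV]
    have h11 : (X : ℝ) / P ^ 3 ≤ K1 := by
      rw [div_le_iff₀ (by positivity)]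
      exact hXK
    calc 6 * h * K2 * ((X : ℝ) / P ^ 3) ≤ 6 * h * K2 * K1 := mul_le_mul_of_nonneg_left h11 (by positivity)
      _ = _ := by ring
  have key := psum (fun t => fe D l ((b ^ 2 - a1 * c) + (-(g * c)) * t)) (fun t => φ (a1 + g * t)) s e
    (C * (A : ℝ) ^ (1 - σ)) V (by positivity) hpart hvarsum
  refine key.trans ?_
  have hpi := Real.pi_pos
  have hAσ : 0 ≤ (A : ℝ) ^ (1 - σ) := by positivity
  have h12 : 1 + 2 * Real.pi * V ≤ (1 + 12 * Real.pi * (K1 * K2)) * h := by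
    rw [hV]
    have h13 : 0 ≤ Real.pi * (K1 * K2) := by positivity
    nlinarith
  calc C * (A : ℝ) ^ (1 - σ) * (1 + 2 * Real.pi * V)
      ≤ C * (A : ℝ) ^ (1 - σ) * ((1 + 12 * Real.pi * (K1 * K2)) * h) :=
        mul_le_mul_of_nonneg_left h12 (by positivity)
    _ = _ := by ring

end H23.LP
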