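import Pool.Agent.H23.LP.Def

/-!
# [LP FEJ] the Fejer kernel, 100-160 lines. File Pool/Agent/H23/LP/Fej.lean

`F u = (1/H) ‖∑_{j < H} ee (j u)‖²`.
(1) `F u ≥ 0`: clear. Continuous.
(2) As a trigonometric sum: `‖∑_j ee (j u)‖² = ∑_{j, j' < H} ee ((j - j') u)` (`‖z‖² = z * conj z`, `conj (ee x) = ee (-x)`). State it as the double sum.
(3) `∫_{-1/2}^{1/2} F = 1`: only the `H` terms `j = j'` survive (`∫_{-1/2}^{1/2} ee (h u) du = 0` for an integer `h ≠ 0`: antiderivative `ee (h u) / (2 π i h)`, equal values at `±1/2`;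
`integral_exp_mul_complex`).
(4) For `0 < |u| ≤ 1/2`: `‖∑_{j<H} ee (j u)‖ = |ee (H u) - 1| / |ee u - 1| ≤ 2 / (4 |u|) = 1/(2|u|)`, because `|ee u - 1| = 2 |sin (π u)| ≥ 4 |u|` (`Real.mul_le_sin`:
`2/π * x ≤ sin x` on `[0, π/2]`; geometric sum `geom_sum_eq`). So `F u ≤ 1/(4 H u²)`.
(5) `∫_{ρ}^{1/2} F + ∫_{-1/2}^{-ρ} F ≤ 2 ∫_ρ^∞ du/(4 H u²) ≤ 1/(2 H ρ)` for `0 < ρ ≤ 1/2` (`F` is even, or treat both sides; antiderivative `-1/(4 H u)`).
-/

set_option autoImplicit false

namespace H23.LP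

open Finset MeasureTheory intervalIntegral

private theorem ee_cont : Continuous ee := by
  unfold ee; fun_prop

private theorem ee_add (x y : ℝ) : ee (x + y) = ee x * ee y := by
  unfold ee; rw [← Complex.exp_add]; congr 1; push_cast; ring

private theorem ee_norm (x : ℝ) : ‖ee x‖ = 1 := by
  unfold ee
  have : (2 * Real.pi * x * Complex.I : ℂ) = ((2 * Real.pi * x : ℝ) : ℂ) * Complex.I := by push_cast; ring
  rw [this, Complex.norm_exp_ofReal_mul_I]

private theorem ee_conj (x : ℝ) : (starRingEnd ℂ) (ee x) = ee (-x) := by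
  unfold ee
  rw [← Complex.exp_conj]
  congr 1
  rw [map_mul, map_mul, map_mul, Complex.conj_I, Complex.conj_ofReal, Complex.conj_ofReal,
    map_ofNat]
  push_cast; ring

private theorem ee_zero : ee 0 = 1 := by simp [ee]

private theorem ee_nat (n : ℕ) (u : ℝ) : ee (n * u) = ee u ^ n := by
  unfold ee; rw [← Complex.exp_nat_mul]; congr 1; push_cast; ring

noncomputable def fej (H : ℕ) (u : ℝ) : ℝ := ‖∑ j ∈ range H, ee (j * u)‖ ^ 2 / H

theorem fej_nonneg (H : ℕ) (u : ℝ) : 0 ≤ fej H u := by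
  unfold fej; positivity

theorem fej_cont (H : ℕ) : Continuous (fej H) := by
  unfold fej
  have h : Continuous fun u : ℝ => ∑ j ∈ range H, ee (j * u) := by
    refine continuous_finsetSum _ fun j _ => ?_
    exact ee_cont.comp (by fun_prop)
  exact (h.norm.pow 2).div_const _

theorem fej_expand (H : ℕ) (u : ℝ) :
    (fej H u : ℂ) = (∑ j ∈ range H, ∑ j' ∈ range H, ee (((j : ℝ) - j') * u)) / H := by
  unfold fej
  push_cast
  congr 1
  have h1 : ((‖∑ j ∈ range H, ee (j * u)‖ : ℂ)) ^ 2 =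
      (∑ j ∈ range H, ee (j * u)) * (starRingEnd ℂ) (∑ j ∈ range H, ee (j * u)) := by
    rw [Complex.mul_conj, Complex.normSq_eq_norm_sq]; push_cast; rfl
  rw [h1, map_sum, Finset.sum_mul_sum]
  refine Finset.sum_congr rfl fun j _ => Finset.sum_congr rfl fun j' _ => ?_
  rw [ee_conj, ← ee_add]
  congr 1; ring

theorem ee_int (h : ℤ) (hh : h ≠ 0) : ∫ u in (-(1 / 2) : ℝ)..(1 / 2), ee (h * u) = 0 := by
  have hpi : (Real.pi : ℂ) ≠ 0 := by exact_mod_cast Real.pi_ne_zero
  have hc : (2 * Real.pi * h * Complex.I : ℂ) ≠ 0 := by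
    have : (h : ℂ) ≠ 0 := by exact_mod_cast hh
    simp [hpi, this]
  have h1 : ∀ u : ℝ, ee (h * u) = Complex.exp ((2 * Real.pi * h * Complex.I : ℂ) * u) := by
    intro u; unfold ee; congr 1; push_cast; ring
  simp_rw [h1]
  rw [integral_exp_mul_complex hc]
  have h2 : Complex.exp ((2 * Real.pi * h * Complex.I : ℂ) * ((1 / 2 : ℝ) : ℂ)) =
      Complex.exp ((2 * Real.pi * h * Complex.I : ℂ) * ((-(1 / 2) : ℝ) : ℂ)) := by
    have e1 : (2 * Real.pi * h * Complex.I : ℂ) * ((1 / 2 : ℝ) : ℂ) =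
        (2 * Real.pi * h * Complex.I : ℂ) * ((-(1 / 2) : ℝ) : ℂ) + h * (2 * Real.pi * Complex.I) := by
      push_cast; ring
    rw [e1, Complex.exp_add, Complex.exp_int_mul_two_pi_mul_I, mul_one]
  rw [h2]; simp

theorem fej_int (H : ℕ) (hH : 1 ≤ H) : ∫ u in (-(1 / 2) : ℝ)..(1 / 2), fej H u = 1 := by
  have hH0 : (H : ℂ) ≠ 0 := by
    have : H ≠ 0 := by omega
    exact_mod_cast this
  have h1 : (((∫ u in (-(1 / 2) : ℝ)..(1 / 2), fej H u : ℝ)) : ℂ) = 1 := by
    rw [← intervalIntegral.integral_ofReal]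
    have h2 : ∀ u : ℝ, (fej H u : ℂ) =
        (∑ j ∈ range H, ∑ j' ∈ range H, ee (((((j : ℤ) - (j' : ℤ) : ℤ)) : ℝ) * u)) / H := by
      intro u
      rw [fej_expand]
      congr 1
      refine Finset.sum_congr rfl fun j _ => Finset.sum_congr rfl fun j' _ => ?_
      push_cast; rfl
    simp_rw [h2]
    rw [intervalIntegral.integral_div]
    have hcont : ∀ h : ℤ, Continuous fun u : ℝ => ee ((h : ℝ) * u) := fun h => ee_cont.comp (by fun_prop)
    rw [intervalIntegral.integral_finsetSum]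
    · have h3 : ∀ j ∈ range H, (∫ u in (-(1 / 2) : ℝ)..(1 / 2),
          ∑ j' ∈ range H, ee (((((j : ℤ) - (j' : ℤ) : ℤ)) : ℝ) * u)) = 1 := by
        intro j hj
        rw [intervalIntegral.integral_finsetSum]
        · rw [Finset.sum_eq_single j]
          · simp [ee_zero]
            norm_num
          · intro j' _ hne
            apply ee_int
            intro h0
            apply hne
            omega
          · intro h; exact absurd hj h
        · intro j' _
          exact (hcont _).intervalIntegrable _ _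
      rw [Finset.sum_congr rfl h3]
      simp [hH0]
    · intro j _
      exact (continuous_finsetSum _ fun j' _ => hcont _).intervalIntegrable _ _
  exact_mod_cast h1

theorem fej_tail (H : ℕ) (hH : 1 ≤ H) (ρ : ℝ) (hρ : 0 < ρ) (hρ2 : ρ ≤ 1 / 2) :
    (∫ u in ρ..(1 / 2), fej H u) + ∫ u in (-(1 / 2) : ℝ)..(-ρ), fej H u ≤ 1 / (2 * H * ρ) := by
  have hHr : (0 : ℝ) < H := by exact_mod_cast (by omega : 0 < H)
  have key : ∀ u : ℝ, 0 < |u| → |u| ≤ 1 / 2 → fej H u ≤ 1 / (4 * H) * (u ^ 2)⁻¹ := by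
    intro u hu0 hu2
    have hs : 2 * |u| ≤ |Real.sin (Real.pi * u)| := by
      have h1 : 2 / Real.pi * (Real.pi * |u|) ≤ Real.sin (Real.pi * |u|) := by
        apply Real.mul_le_sin (by positivity)
        nlinarith [Real.pi_pos]
      have h2 : 2 / Real.pi * (Real.pi * |u|) = 2 * |u| := by
        field_simp
      have h3 : |Real.sin (Real.pi * u)| = |Real.sin (Real.pi * |u|)| := by
        rcases abs_cases u with ⟨h, -⟩ | ⟨h, -⟩
        · rw [h]
        · rw [h, mul_neg, Real.sin_neg, abs_neg]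
      rw [h3]
      rw [h2] at h1
      exact le_trans h1 (le_abs_self _)
    have hd : ‖ee u - 1‖ = 2 * |Real.sin (Real.pi * u)| := by
      have e1 : (2 * Real.pi * u * Complex.I : ℂ) = Complex.I * ((2 * Real.pi * u : ℝ) : ℂ) := by
        push_cast; ring
      have h1 := Complex.norm_exp_I_mul_ofReal_sub_one (2 * Real.pi * u)
      unfold ee
      rw [e1, h1]
      have e2 : 2 * Real.pi * u / 2 = Real.pi * u := by ring
      rw [e2, Real.norm_eq_abs, abs_mul, abs_of_pos (by norm_num : (0:ℝ) < 2)]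
    have hd2 : 4 * |u| ≤ ‖ee u - 1‖ := by rw [hd]; linarith
    have hne : ee u ≠ 1 := by
      intro h
      rw [h, sub_self, norm_zero] at hd2
      linarith
    have hsum : ∑ j ∈ range H, ee (j * u) = (ee u ^ H - 1) / (ee u - 1) := by
      rw [← geom_sum_eq hne]
      exact Finset.sum_congr rfl fun j _ => ee_nat j u
    have hn : ‖∑ j ∈ range H, ee (j * u)‖ ≤ 1 / (2 * |u|) := by
      rw [hsum, norm_div]
      have h1 : ‖ee u ^ H - 1‖ ≤ 2 := by
        refine le_trans (norm_sub_le _ _) ?_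
        rw [norm_pow, ee_norm]; norm_num
      calc ‖ee u ^ H - 1‖ / ‖ee u - 1‖ ≤ 2 / (4 * |u|) :=
            div_le_div₀ (by norm_num) h1 (by positivity) hd2
        _ = 1 / (2 * |u|) := by field_simp; norm_num
    unfold fej
    rw [div_le_iff₀ hHr]
    have h2 : ‖∑ j ∈ range H, ee (j * u)‖ ^ 2 ≤ (1 / (2 * |u|)) ^ 2 :=
      pow_le_pow_left₀ (norm_nonneg _) hn 2
    refine le_trans h2 (le_of_eq ?_)
    have h3 : u ^ 2 = |u| ^ 2 := (sq_abs u).symm
    rw [h3]
    field_simp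
    norm_num
  have int1 : (∫ u in ρ..(1 / 2), fej H u) ≤ ∫ u in ρ..(1 / 2), 1 / (4 * (H : ℝ)) * (u ^ 2)⁻¹ := by
    apply intervalIntegral.integral_mono_on hρ2 ((fej_cont H).intervalIntegrable _ _)
    · apply ContinuousOn.intervalIntegrable
      rw [Set.uIcc_of_le hρ2]
      refine ContinuousOn.mul continuousOn_const (ContinuousOn.inv₀ (by fun_prop) ?_)
      intro u hu
      have : 0 < u := lt_of_lt_of_le hρ hu.1
      positivity
    · intro u hu
      have h0 : 0 < u := lt_of_lt_of_le hρ hu.1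
      apply key u (by rw [abs_of_pos h0]; exact h0) (by rw [abs_of_pos h0]; exact hu.2)
  have val1 : (∫ u in ρ..(1 / 2), 1 / (4 * (H : ℝ)) * (u ^ 2)⁻¹) = 1 / (4 * (H : ℝ)) * (ρ⁻¹ - 2) := by
    rw [intervalIntegral.integral_const_mul]
    congr 1
    have hder : ∀ u ∈ Set.uIcc ρ (1 / 2), HasDerivAt (fun u : ℝ => -u⁻¹) ((u ^ 2)⁻¹) u := by
      intro u hu
      rw [Set.uIcc_of_le hρ2] at hu
      have h0 : u ≠ 0 := (lt_of_lt_of_le hρ hu.1).ne'
      have h1 : HasDerivAt (fun u : ℝ => -u⁻¹) (-(-(u ^ 2)⁻¹)) u := (hasDerivAt_inv h0).neg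
      rw [neg_neg] at h1
      exact h1
    rw [intervalIntegral.integral_eq_sub_of_hasDerivAt hder]
    · norm_num; ring
    · apply ContinuousOn.intervalIntegrable
      rw [Set.uIcc_of_le hρ2]
      refine ContinuousOn.inv₀ (by fun_prop) ?_
      intro u hu
      have : 0 < u := lt_of_lt_of_le hρ hu.1
      positivity
  have heven : ∀ u : ℝ, fej H (-u) = fej H u := by
    intro u
    unfold fej
    have h1 : ∑ j ∈ range H, ee (j * -u) = (starRingEnd ℂ) (∑ j ∈ range H, ee (j * u)) := by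
      rw [map_sum]
      refine Finset.sum_congr rfl fun j _ => ?_
      rw [ee_conj]; congr 1; ring
    rw [h1, RCLike.norm_conj]
  have int2 : (∫ u in (-(1 / 2) : ℝ)..(-ρ), fej H u) = ∫ u in ρ..(1 / 2), fej H u := by
    rw [← intervalIntegral.integral_comp_neg]
    exact intervalIntegral.integral_congr fun u _ => heven u
  rw [int2]
  have h5 : 1 / (4 * (H : ℝ)) * (ρ⁻¹ - 2) ≤ 1 / (4 * (H : ℝ)) * ρ⁻¹ :=
    mul_le_mul_of_nonneg_left (by linarith) (by positivity)
  have h6 : 1 / (4 * (H : ℝ)) * ρ⁻¹ + 1 / (4 * (H : ℝ)) * ρ⁻¹ = 1 / (2 * H * ρ) := by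
    field_simp; norm_num
  rw [val1] at int1
  linarith

end H23.LP
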