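import Mathlib

/-!
# [LP RGH] divisors without small prime factors, 60-100 lines. Mathlib only. File Pool/Agent/H23/LP/Rgh.lean

Let `P' = F.primeFactors.filter (z < ·)`, `e p = F.factorization p`, `E = ∑_{p ∈ P'} e p`. `z^E ≤ ∏_{p ∈ P'} p^(e p) ≤ ∏_{p ∣ F} p^(e p) = F < z^(R+1)` (`Nat.prod_factorization_pow_eq_self`), and `z > 1`, so `E ≤ R`.
(1) `|P'| ≤ E ≤ R` since `e p ≥ 1` on `P'`.
(2) A divisor `n` of `F` all of whose primes are `> z` is determined by the numbers `n.factorization p ≤ e p`, `p ∈ P'` (`Nat.factorization_le_iff_dvd`, `Nat.eq_of_factorization_eq`): the map `n ↦ (p ↦ n.factorization p)` into `Finset.pi P' (fun p => range (e p + 1))` (or `Fintype.piFinset`, or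
`P'.finsuppAntidiag`...) is injective, so their number is `≤ ∏_{p ∈ P'} (e p + 1) ≤ ∏ 2^(e p) = 2^E ≤ 2^R` (`Nat.lt_two_pow_self`: `e + 1 ≤ 2^e`).
Alternative for (2): these `n` divide `F' = ∏_{p ∈ P'} p^(e p)`, and `Nat.card_divisors`/`Nat.Coprime.card_divisors_mul`.
-/

set_option autoImplicit false

namespace H23.LP

open Finset

theorem rgh (F R : ℕ) (z : ℝ) (hF : 0 < F) (hz : 1 < z) (hR : (F : ℝ) < z ^ (R + 1)) :
    Set.ncard {n : ℕ | n ∣ F ∧ ∀ p : ℕ, p.Prime → p ∣ n → z < p} ≤ 2 ^ R ∧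
    Set.ncard {p : ℕ | p.Prime ∧ p ∣ F ∧ z < p} ≤ R := by
  classical
  set P' : Finset ℕ := F.primeFactors.filter (fun p => z < (p : ℝ)) with hP'
  have hmem : ∀ p, p ∈ P' ↔ p.Prime ∧ p ∣ F ∧ z < (p : ℝ) := by
    intro p
    rw [hP', mem_filter, Nat.mem_primeFactors]
    constructor
    · rintro ⟨⟨h1, h2, -⟩, h3⟩
      exact ⟨h1, h2, h3⟩
    · rintro ⟨h1, h2, h3⟩
      exact ⟨⟨h1, h2, hF.ne'⟩, h3⟩
  set E : ℕ := ∑ p ∈ P', F.factorization p with hE
  have h1 : z ^ E ≤ (F : ℝ) := by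
    have e1 : z ^ E = ∏ p ∈ P', z ^ (F.factorization p) := by
      rw [hE, prod_pow_eq_pow_sum]
    have e2 : ∏ p ∈ P', z ^ (F.factorization p) ≤ ∏ p ∈ P', (p : ℝ) ^ (F.factorization p) := by
      refine prod_le_prod (fun p _ => by positivity) fun p hp => ?_
      exact pow_le_pow_left₀ (by linarith) ((hmem p).1 hp).2.2.le _
    have e3 : ∏ p ∈ P', p ^ (F.factorization p) ≤ F := by
      refine Nat.le_of_dvd hF ?_
      have e4 : ∏ p ∈ P', p ^ (F.factorization p) ∣ ∏ p ∈ F.primeFactors,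
          p ^ (F.factorization p) := prod_dvd_prod_of_subset _ _ _ (filter_subset _ _)
      have e5 : ∏ p ∈ F.primeFactors, p ^ (F.factorization p) = F :=
        Nat.prod_factorization_pow_eq_self hF.ne'
      rwa [e5] at e4
    rw [e1]
    refine e2.trans ?_
    exact_mod_cast e3
  have hER : E ≤ R := by
    have h2 : z ^ E < z ^ (R + 1) := lt_of_le_of_lt h1 hR
    have h3 := (pow_lt_pow_iff_right₀ hz).1 h2
    omega
  constructor
  · have e1 : Set.ncard {n : ℕ | n ∣ F ∧ ∀ p : ℕ, p.Prime → p ∣ n → z < p} ≤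
        Set.ncard ((P'.pi fun p => range (F.factorization p + 1) :
          Finset ((p : ℕ) → p ∈ P' → ℕ)) : Set ((p : ℕ) → p ∈ P' → ℕ)) := by
      refine Set.ncard_le_ncard_of_injOn (fun n p _ => n.factorization p) ?_ ?_
        (Finset.finite_toSet _)
      · rintro n ⟨hn1, hn2⟩
        rw [mem_coe, mem_pi]
        intro p hp
        have hn0 : n ≠ 0 := by
          rintro rfl
          exact hF.ne' (zero_dvd_iff.1 hn1)
        have h3 := (Nat.factorization_le_iff_dvd hn0 hF.ne').2 hn1 p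
        rw [mem_range]
        omega
      · rintro n ⟨hn1, hn2⟩ m ⟨hm1, hm2⟩ hnm
        have hn0 : n ≠ 0 := by
          rintro rfl
          exact hF.ne' (zero_dvd_iff.1 hn1)
        have hm0 : m ≠ 0 := by
          rintro rfl
          exact hF.ne' (zero_dvd_iff.1 hm1)
        have hz0 : ∀ l : ℕ, l ∣ F → (∀ p : ℕ, p.Prime → p ∣ l → z < (p : ℝ)) → ∀ p, p ∉ P' →
            l.factorization p = 0 := by
          intro l hl1 hl2 p hp
          by_contra h0
          have h4 : p ∈ l.primeFactors := by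
            rw [← Nat.support_factorization, Finsupp.mem_support_iff]
            exact h0
          rw [Nat.mem_primeFactors] at h4
          exact hp ((hmem p).2 ⟨h4.1, h4.2.1.trans hl1, hl2 p h4.1 h4.2.1⟩)
        refine Nat.eq_of_factorization_eq hn0 hm0 fun p => ?_
        by_cases hp : p ∈ P'
        · exact congrFun (congrFun hnm p) hp
        · rw [hz0 n hn1 hn2 p hp, hz0 m hm1 hm2 p hp]
    refine e1.trans ?_
    rw [Set.ncard_coe_finset, card_pi]
    simp only [card_range]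
    calc ∏ p ∈ P', (F.factorization p + 1) ≤ ∏ p ∈ P', 2 ^ (F.factorization p) :=
          prod_le_prod (fun _ _ => Nat.zero_le _) fun p _ => Nat.lt_two_pow_self
      _ = 2 ^ E := by rw [hE, prod_pow_eq_pow_sum]
      _ ≤ 2 ^ R := Nat.pow_le_pow_right (by norm_num) hER
  · have e1 : {p : ℕ | p.Prime ∧ p ∣ F ∧ z < p} = (P' : Set ℕ) := by
      ext p
      rw [mem_coe, hmem]
      rfl
    rw [e1, Set.ncard_coe_finset]
    refine le_trans ?_ hER
    rw [hE, card_eq_sum_ones]
    refine sum_le_sum fun p hp => ?_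
    have h2 := (hmem p).1 hp
    exact h2.1.factorization_pos_of_dvd hF.ne' h2.2.1

end H23.LP
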