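import Pool.Agent.H23.LP.Box

/-!
# [LP SCL] the scales `A = 2^i`, 80-130 lines. File Pool/Agent/H23/LP/Scl.lean

`scl`: let `q = N M³ ≥ 1`, `y i = q 8^i = N (M 2^i)³`. Conditions: `X^(1+d) ≤ (19/20) y i` and `(21/20) y i ≤ X^(1+2d)`. Let `i0` be the least `i` with `X^(1+d) ≤ (19/20) q 8^i`; then (if `i0 ≥ 1`, true for `X` large) `(19/20) q 8^(i0-1) < X^(1+d)`, so
`(21/20) q 8^(i0 + j) ≤ (21/19) 8^(j+1) X^(1+d) ≤ 8^(j+2) X^(1+d)`, which is `≤ X^(1+2d)` as soon as `8^(j+2) ≤ X^d`, i.e. `(j + 2) log 8 ≤ d log X`. `I = {i0 + j : j < J}`, `J = ⌊d log X / log 8⌋ - 1` (natural), `log 8 < 2.1`, so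
`J ≥ d log X/2.1 - 2 ≥ (d/4) log X` for `X` large. `2^i ≥ 2^i0 → ∞`: `8^i0 ≥ X^(1+d) / q ≥ A0³` for `X` large.
(Or directly: `I` = the filter of the two conditions over a range, or `i0 = ⌈log (20 X^(1+d)/(19 q)) / log 8⌉₊`.)
`scl_inj`: if `n` lies in both ranges and `i < j` then `(19/20) N (M 2^j)³ ≤ n ≤ (21/20) N (M 2^i)³` and `(M 2^j)³ ≥ 8 (M 2^i)³ > 0`: contradiction. By symmetry `i = j`.
-/

set_option autoImplicit false

namespace H23.LP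

open Finset

theorem scl (N d : ℝ) (M A0 : ℕ) (hN : 1 ≤ N) (hM : 1 ≤ M) (hd : 0 < d) : ∃ X0 : ℕ, ∀ X : ℕ, X0 ≤ X →
    ∃ I : Finset ℕ, d / 4 * Real.log X ≤ I.card ∧ ∀ i ∈ I, A0 ≤ 2 ^ i ∧
      (X : ℝ) ^ (1 + d) ≤ 19 / 20 * (N * ((M : ℝ) * ((2 ^ i : ℕ) : ℝ)) ^ 3) ∧
      21 / 20 * (N * ((M : ℝ) * ((2 ^ i : ℕ) : ℝ)) ^ 3) ≤ (X : ℝ) ^ (1 + 2 * d) := by
  have h8 : Real.log 8 = 3 * Real.log 2 := by
    rw [show (8 : ℝ) = 2 ^ 3 by norm_num, Real.log_pow]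
    norm_num
  have h82 : Real.log 8 < 2.1 := by
    have := Real.log_two_lt_d9
    rw [h8]
    linarith
  have h80 : 0 < Real.log 8 := Real.log_pos (by norm_num)
  have hM1 : (1 : ℝ) ≤ M := by exact_mod_cast hM
  obtain ⟨q, hq⟩ : ∃ q : ℝ, q = N * (M : ℝ) ^ 3 := ⟨_, rfl⟩
  have hq1 : 1 ≤ q := by
    rw [hq]
    have : (1 : ℝ) ≤ (M : ℝ) ^ 3 := one_le_pow₀ hM1
    nlinarith
  have hq0 : 0 < q := by linarith
  have hlq : 0 ≤ Real.log q := Real.log_nonneg hq1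
  obtain ⟨T0, hT0⟩ : ∃ T0 : ℝ, T0 = 9 / d + (A0 * Real.log 8 + Real.log q) + 1 := ⟨_, rfl⟩
  refine ⟨⌈Real.exp T0⌉₊, fun X hX => ?_⟩
  have hX1 : Real.exp T0 ≤ X := (Nat.le_ceil _).trans (by exact_mod_cast hX)
  have hX0 : (0 : ℝ) < X := lt_of_lt_of_le (Real.exp_pos _) hX1
  obtain ⟨t, ht⟩ : ∃ t : ℝ, t = Real.log X := ⟨_, rfl⟩
  have htT : T0 ≤ t := by
    rw [ht, Real.le_log_iff_exp_le hX0]
    exact hX1
  have hA0 : (0 : ℝ) ≤ A0 * Real.log 8 := by positivity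
  have hd9 : 9 ≤ d * t := by
    have h1 : 9 / d ≤ t := by linarith
    rw [div_le_iff₀ hd] at h1
    linarith
  have ht0 : 0 < t := by
    have : 0 < 9 / d := by positivity
    linarith
  have hdt : 0 < d * t := by linarith
  obtain ⟨α, hα⟩ : ∃ α : ℝ, α = ((1 + d) * t - Real.log (19 / 20) - Real.log q) / Real.log 8 :=
    ⟨_, rfl⟩
  have hα8 : α * Real.log 8 = (1 + d) * t - Real.log (19 / 20) - Real.log q := by
    rw [hα, div_mul_cancel₀ _ h80.ne']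
  have hl1 : Real.log (19 / 20) ≤ 0 := Real.log_nonpos (by norm_num) (by norm_num)
  have hαA : (A0 : ℝ) ≤ α := by
    rw [hα, le_div_iff₀ h80]
    have : 0 < 9 / d := by positivity
    nlinarith
  have hα0 : 0 ≤ α := le_trans (Nat.cast_nonneg _) hαA
  have hc1 := Nat.le_ceil α
  have hc2 := Nat.ceil_lt_add_one hα0
  obtain ⟨J, hJ⟩ : ∃ J : ℕ, J = ⌊d * t / Real.log 8⌋₊ - 1 := ⟨_, rfl⟩
  have hf0 : 0 ≤ d * t / Real.log 8 := by positivity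
  have hf1 := Nat.floor_le hf0
  have hf2 := Nat.lt_floor_add_one (d * t / Real.log 8)
  have hf3 : 4 < d * t / Real.log 8 := by
    rw [lt_div_iff₀ h80]
    linarith
  have hf4 : 4 ≤ ⌊d * t / Real.log 8⌋₊ := Nat.le_floor (by push_cast; linarith)
  have hJ1 : J + 1 = ⌊d * t / Real.log 8⌋₊ := by omega
  have hJr : (J : ℝ) + 1 = (⌊d * t / Real.log 8⌋₊ : ℝ) := by exact_mod_cast hJ1
  refine ⟨(range J).image (fun j => ⌈α⌉₊ + j), ?_, ?_⟩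
  · rw [card_image_of_injective _ (fun a b h => by simpa using h), card_range, ← ht]
    have h1 : d * t / 2.1 ≤ d * t / Real.log 8 :=
      div_le_div_of_nonneg_left hdt.le h80 h82.le
    have h2 : d * t / 2.1 = d * t * (10 / 21) := by ring
    linarith
  · intro i hi
    obtain ⟨j, hj, rfl⟩ := mem_image.1 hi
    have hj1 : j + 1 ≤ J := mem_range.1 hj
    have hj2 : (j : ℝ) + 1 ≤ J := by exact_mod_cast hj1
    have hp : ∀ i : ℕ, N * ((M : ℝ) * ((2 ^ i : ℕ) : ℝ)) ^ 3 = q * 8 ^ i := by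
      intro i
      rw [hq]
      push_cast
      rw [mul_pow, ← pow_mul, mul_comm i 3, pow_mul]
      norm_num
      ring
    have hlp : ∀ (c : ℝ) (i : ℕ), 0 < c → Real.log (c * (q * 8 ^ i)) =
        Real.log c + (Real.log q + i * Real.log 8) := by
      intro c i hc
      rw [Real.log_mul hc.ne' (by positivity), Real.log_mul hq0.ne' (by positivity), Real.log_pow]
    rw [hp]
    refine ⟨?_, ?_, ?_⟩
    · have h1 : A0 ≤ ⌈α⌉₊ + j := by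
        have h2 : (A0 : ℝ) ≤ ((⌈α⌉₊ : ℕ) : ℝ) := hαA.trans hc1
        have h3 : A0 ≤ ⌈α⌉₊ := by exact_mod_cast h2
        omega
      exact h1.trans Nat.lt_two_pow_self.le
    · rw [← Real.log_le_log_iff (by positivity) (by positivity), Real.log_rpow hX0, hlp _ _
        (by norm_num), ← ht]
      push_cast
      have h1 : α * Real.log 8 ≤ ((⌈α⌉₊ : ℝ) + j) * Real.log 8 :=
        mul_le_mul_of_nonneg_right (by have : (0 : ℝ) ≤ j := j.cast_nonneg; linarith) h80.le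
      linarith
    · rw [← Real.log_le_log_iff (by positivity) (by positivity), Real.log_rpow hX0, hlp _ _
        (by norm_num), ← ht]
      push_cast
      have h1 : ((⌈α⌉₊ : ℝ) + j) * Real.log 8 ≤ (α + 1 + j) * Real.log 8 :=
        mul_le_mul_of_nonneg_right (by linarith) h80.le
      have h2 : ((j : ℝ) + 2) * Real.log 8 ≤ d * t := by
        rw [← le_div_iff₀ h80]
        linarith
      have h3 : Real.log (21 / 20) - Real.log (19 / 20) ≤ Real.log 8 := by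
        rw [← Real.log_div (by norm_num) (by norm_num)]
        exact Real.log_le_log (by norm_num) (by norm_num)
      nlinarith

theorem scl_inj (N n : ℝ) (M i j : ℕ) (hN : 0 < N) (hM : 1 ≤ M)
    (h1 : |n - N * ((M : ℝ) * ((2 ^ i : ℕ) : ℝ)) ^ 3| ≤ N * ((M : ℝ) * ((2 ^ i : ℕ) : ℝ)) ^ 3 / 20)
    (h2 : |n - N * ((M : ℝ) * ((2 ^ j : ℕ) : ℝ)) ^ 3| ≤ N * ((M : ℝ) * ((2 ^ j : ℕ) : ℝ)) ^ 3 / 20) : i = j := by
  have hM1 : (0 : ℝ) < M := by exact_mod_cast hM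
  have key : ∀ i j : ℕ, i < j →
      |n - N * ((M : ℝ) * ((2 ^ i : ℕ) : ℝ)) ^ 3| ≤ N * ((M : ℝ) * ((2 ^ i : ℕ) : ℝ)) ^ 3 / 20 →
      |n - N * ((M : ℝ) * ((2 ^ j : ℕ) : ℝ)) ^ 3| ≤ N * ((M : ℝ) * ((2 ^ j : ℕ) : ℝ)) ^ 3 / 20 →
      False := by
    intro i j hij h1 h2
    have h3 : 2 * (M * ((2 ^ i : ℕ) : ℝ)) ≤ (M : ℝ) * ((2 ^ j : ℕ) : ℝ) := by
      have h4 : 2 ^ (i + 1) ≤ 2 ^ j := Nat.pow_le_pow_right (by norm_num) hij
      have h5 : ((2 ^ (i + 1) : ℕ) : ℝ) ≤ ((2 ^ j : ℕ) : ℝ) := by exact_mod_cast h4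
      have h6 : ((2 ^ (i + 1) : ℕ) : ℝ) = 2 * ((2 ^ i : ℕ) : ℝ) := by push_cast; ring
      rw [h6] at h5
      nlinarith
    have h0 : 0 < (M : ℝ) * ((2 ^ i : ℕ) : ℝ) := by positivity
    have h4 : (2 * (M * ((2 ^ i : ℕ) : ℝ))) ^ 3 ≤ ((M : ℝ) * ((2 ^ j : ℕ) : ℝ)) ^ 3 :=
      pow_le_pow_left₀ (by positivity) h3 3
    have h5 : 8 * (N * ((M : ℝ) * ((2 ^ i : ℕ) : ℝ)) ^ 3) ≤
        N * ((M : ℝ) * ((2 ^ j : ℕ) : ℝ)) ^ 3 := by
      calc 8 * (N * ((M : ℝ) * ((2 ^ i : ℕ) : ℝ)) ^ 3)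
          = N * (2 * (M * ((2 ^ i : ℕ) : ℝ))) ^ 3 := by ring
        _ ≤ _ := mul_le_mul_of_nonneg_left h4 hN.le
    have h6 : 0 < N * ((M : ℝ) * ((2 ^ i : ℕ) : ℝ)) ^ 3 := by positivity
    rw [abs_le] at h1 h2
    linarith [h1.1, h1.2, h2.1, h2.2]
  rcases lt_trichotomy i j with h | h | h
  · exact (key i j h h1 h2).elim
  · exact h
  · exact (key j i h h2 h1).elim

end H23.LP
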