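import Pool.Agent.H23.LP.Uni
import Pool.Agent.H23.LP.Scl
import Pool.Agent.H23.LP.Rgh

/-!
# [LP FIB] every `m` has a bounded number of representations, 100-160 lines. File Pool/Agent/H23/LP/Fib.lean

`M0 = max` of the `M0` of `uni` and `box`. `R = ⌊4/α⌋₊`, `X0 ≥ 10 + |k|` such that `X0^α > 1` (automatic). `F = m³ + k`: for `X < m ≤ 2X`: `0 < F ≤ 8 X³ + |k| ≤ 9 X³` (`|k| ≤ X ≤ X³`). `z = X^α > 1`, `z^(R+1) = X^(α (R+1)) ≥ X^4 > 9 X³ ≥ F` because `α (R + 1) > 4`.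
The left side is the cardinality of the sigma type finset of the tuples `(i, x, t)` with `i ∈ I`, `x ∈ G i`, `t = (p₀, a, m) ∈ SS` (`Finset.card_sigma`). Map `(i, x, t) ↦ (nn k a x.1 x.2, p₀)` (natural numbers: `toNat`). By the definition of `SS`: `gcd (CC, DD) = 1`, so `gcd (CC, nn) = 1` (`cop_CN`);
`nn ∣ CC m + BB`, so `nn ∣ m³ + k` (`dvd_root`), `nn > 0` (`box`); all primes of `nn` are `> z`; `p₀ ∣ nn ∣ F`, `p₀` prime, `p₀ > z`. So the image lies in the product of the two sets of `rgh` (finite: divisors of `F`), which has `≤ 2^R R` elements.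
Injective: let two tuples have the same `n`, `p₀` (and the same `m`). The first statement of `box` for both and `scl_inj` (`N = NS k ≥ 1`): the scales are equal, `i = i'`. Then `uni`: `(a, x.1, x.2) = (a', x'.1, x'.2)`.
-/

set_option autoImplicit false

namespace H23.LP

open Finset

theorem fib (k : ℤ) : ∃ M0 : ℕ, 1 ≤ M0 ∧ ∀ M : ℕ, M0 ≤ M → ∀ α : ℝ, 0 < α → ∃ X0 : ℕ, ∀ X : ℕ, X0 ≤ X →
    ∀ P1 P2 : ℝ, (X : ℝ) ^ α ≤ P1 → ∀ I : Finset ℕ, ∀ G : ℕ → Finset (ℤ × ℤ),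
    (∀ i ∈ I, ∀ x ∈ G i, x.1 ∈ Ib k M (2 ^ i) ∧ x.2 ∈ Ic M (2 ^ i)) → ∀ m ∈ Ioc (X : ℤ) (2 * X),
    ∑ i ∈ I, ∑ x ∈ G i, ((SS k M (2 ^ i) X ((X : ℝ) ^ α) P1 P2 x.1 x.2).filter (fun t => t.2.2 = m)).card ≤
      ⌊4 / α⌋₊ * 2 ^ ⌊4 / α⌋₊ := by
  classical
  obtain ⟨M1, hM1, huni⟩ := uni k
  obtain ⟨K, hK, M2, hM2, hbox⟩ := box k
  refine ⟨max M1 M2, hM1.trans (le_max_left _ _), ?_⟩
  intro M hM α hα
  have hMa : M1 ≤ M := (le_max_left _ _).trans hM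
  have hMb : M2 ≤ M := (le_max_right _ _).trans hM
  have hMpos : 1 ≤ M := hM1.trans hMa
  have hN1 : (1 : ℝ) ≤ (NS k : ℝ) := by exact_mod_cast NS_pos k
  refine ⟨k.natAbs + 10, ?_⟩
  intro X hX P1 P2 hP1 I G hG m hm
  rw [mem_Ioc] at hm
  set R : ℕ := ⌊4 / α⌋₊ with hR
  set z : ℝ := (X : ℝ) ^ α with hz
  have hXz : (10 : ℤ) ≤ X := by exact_mod_cast (by omega : 10 ≤ X)
  have hXr : (10 : ℝ) ≤ X := by exact_mod_cast (by omega : 10 ≤ X)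
  have hkX : |k| ≤ (X : ℤ) - 10 := by
    have : (k.natAbs : ℤ) + 10 ≤ X := by exact_mod_cast hX
    rw [Int.abs_eq_natAbs]; linarith
  have hk1 := (abs_le.1 hkX).1
  have hk2 := (abs_le.1 hkX).2
  have hXc : (X : ℤ) ≤ (X : ℤ) ^ 3 := le_self_pow₀ (by linarith) (by norm_num)
  have hm3l : (X : ℤ) ≤ m ^ 3 := by
    have h1 : (X : ℤ) ^ 3 ≤ m ^ 3 := pow_le_pow_left₀ (by linarith) hm.1.le 3
    linarith
  have hm3u : m ^ 3 ≤ 8 * (X : ℤ) ^ 3 := by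
    have h1 : m ^ 3 ≤ (2 * (X : ℤ)) ^ 3 := pow_le_pow_left₀ (by linarith [hm.1]) hm.2 3
    linarith [h1, (by ring : (2 * (X : ℤ)) ^ 3 = 8 * (X : ℤ) ^ 3)]
  have hFpos : 0 < m ^ 3 + k := by linarith
  have hFle : m ^ 3 + k ≤ 9 * (X : ℤ) ^ 3 := by linarith
  set F : ℕ := (m ^ 3 + k).toNat with hF
  have hFcast : (F : ℤ) = m ^ 3 + k := Int.toNat_of_nonneg hFpos.le
  have hF0 : 0 < F := by
    have : (0 : ℤ) < F := by rw [hFcast]; exact hFpos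
    exact_mod_cast this
  have hz1 : 1 < z := Real.one_lt_rpow (by linarith) hα
  have hFz : (F : ℝ) < z ^ (R + 1) := by
    have h1 : (F : ℝ) ≤ 9 * (X : ℝ) ^ 3 := by
      have : (F : ℤ) ≤ 9 * (X : ℤ) ^ 3 := by rw [hFcast]; exact hFle
      exact_mod_cast this
    have h2 : (9 : ℝ) * (X : ℝ) ^ 3 < (X : ℝ) ^ (4 : ℝ) := by
      have h3 : (X : ℝ) ^ (4 : ℝ) = (X : ℝ) ^ 4 := by norm_cast
      rw [h3]
      have : 0 < (X : ℝ) ^ 3 := by positivity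
      nlinarith
    have h4 : z ^ (R + 1) = (X : ℝ) ^ (α * (R + 1)) := by
      rw [hz, Real.rpow_mul (by linarith), ← Real.rpow_natCast]
      push_cast
      rfl
    have h5 : (4 : ℝ) < α * (R + 1) := by
      have h6 := Nat.lt_floor_add_one (4 / α)
      rw [div_lt_iff₀ hα] at h6
      rw [hR]
      linarith
    rw [h4]
    exact lt_of_le_of_lt h1 (h2.trans (Real.rpow_lt_rpow_of_exponent_lt (by linarith) h5))
  obtain ⟨r1, r2⟩ := rgh F R z hF0 hz1 hFz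
  set T1 : Finset ℕ := F.divisors.filter (fun n => ∀ p : ℕ, p.Prime → p ∣ n → z < p) with hT1
  set T2 : Finset ℕ := F.divisors.filter (fun p => p.Prime ∧ z < p) with hT2
  have hT1c : T1.card ≤ 2 ^ R := by
    rw [← Set.ncard_coe_finset]
    refine le_trans (le_of_eq ?_) r1
    congr 1
    ext n
    simp only [hT1, coe_filter, Nat.mem_divisors, Set.mem_setOf_eq]
    exact ⟨fun h => ⟨h.1.1, h.2⟩, fun h => ⟨⟨h.1, hF0.ne'⟩, h.2⟩⟩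
  have hT2c : T2.card ≤ R := by
    rw [← Set.ncard_coe_finset]
    refine le_trans (le_of_eq ?_) r2
    congr 1
    ext n
    simp only [hT2, coe_filter, Nat.mem_divisors, Set.mem_setOf_eq]
    exact ⟨fun h => ⟨h.2.1, h.1.1, h.2.2⟩, fun h => ⟨⟨h.2.1, hF0.ne'⟩, h.1, h.2.2⟩⟩
  -- the tuples
  set V : Finset (Σ _ : ℕ, Σ _ : ℤ × ℤ, ℕ × ℤ × ℤ) := I.sigma fun i => (G i).sigma fun x =>
    (SS k M (2 ^ i) X z P1 P2 x.1 x.2).filter (fun t => t.2.2 = m) with hV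
  have hVc : V.card = ∑ i ∈ I, ∑ x ∈ G i,
      ((SS k M (2 ^ i) X z P1 P2 x.1 x.2).filter (fun t => t.2.2 = m)).card := by
    rw [hV, card_sigma]
    refine sum_congr rfl fun i _ => ?_
    rw [card_sigma]
  rw [← hVc]
  have hfacts : ∀ v ∈ V, v.1 ∈ I ∧ v.2.1 ∈ G v.1 ∧ v.2.2.2.2 = m ∧ v.2.2.2.1 ∈ Ia k M (2 ^ v.1) ∧ v.2.2.1.Prime ∧
      P1 < v.2.2.1 ∧ (v.2.2.1 : ℤ) ∣ nn k v.2.2.2.1 v.2.1.1 v.2.1.2 ∧
      Int.gcd (CC v.2.2.2.1 v.2.1.1 v.2.1.2) (DD k v.2.1.1 v.2.1.2) = 1 ∧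
      (∀ p : ℕ, p.Prime → (p : ℤ) ∣ nn k v.2.2.2.1 v.2.1.1 v.2.1.2 → z < p) ∧
      nn k v.2.2.2.1 v.2.1.1 v.2.1.2 ∣ CC v.2.2.2.1 v.2.1.1 v.2.1.2 * m + BB k v.2.2.2.1 v.2.1.1 v.2.1.2 := by
    rintro ⟨i, x, p0, a, m'⟩ hv
    rw [hV, mem_sigma, mem_sigma, mem_filter, SS, mem_filter, mem_product, mem_product] at hv
    obtain ⟨h1, h2, ⟨h3, h4, h5, h6, h7, h8, h9, h10⟩, h11⟩ := hv
    simp only at h1 h2 h3 h4 h5 h6 h7 h8 h9 h10 h11 ⊢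
    rw [h11] at h10
    exact ⟨h1, h2, h11, h3.2.1, h4, h5, h7, h8, h9, h10⟩
  have hpos : ∀ v ∈ V, 0 < nn k v.2.2.2.1 v.2.1.1 v.2.1.2 := by
    intro v hv
    obtain ⟨h1, h2, h3, h4, -⟩ := hfacts v hv
    have hb := (hbox M (2 ^ v.1) hMb Nat.one_le_two_pow _ h4 _ (hG _ h1 _ h2).1 _ (hG _ h1 _ h2).2).2.1
    have h5 : (0 : ℝ) < nn k v.2.2.2.1 v.2.1.1 v.2.1.2 := lt_of_lt_of_le (by positivity) hb
    exact_mod_cast h5
  have hcard : V.card ≤ (T1 ×ˢ T2).card := by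
    refine card_le_card_of_injOn (fun v => ((nn k v.2.2.2.1 v.2.1.1 v.2.1.2).toNat, v.2.2.1)) ?_ ?_
    · intro v hv
      obtain ⟨h1, h2, h3, h4, h5, h6, h7, h8, h9, h10⟩ := hfacts v hv
      have hn0 := hpos v hv
      have hcast : (((nn k v.2.2.2.1 v.2.1.1 v.2.1.2).toNat : ℕ) : ℤ) = nn k v.2.2.2.1 v.2.1.1 v.2.1.2 :=
        Int.toNat_of_nonneg hn0.le
      have hdvd : nn k v.2.2.2.1 v.2.1.1 v.2.1.2 ∣ m ^ 3 + k :=
        dvd_root k _ _ _ m (cop_CN k _ _ _ h8) h10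
      have hdvdN : (nn k v.2.2.2.1 v.2.1.1 v.2.1.2).toNat ∣ F := by
        rw [← Int.natCast_dvd_natCast, hcast, hFcast]; exact hdvd
      rw [mem_coe, mem_product]
      refine ⟨?_, ?_⟩
      · rw [hT1, mem_filter, Nat.mem_divisors]
        refine ⟨⟨hdvdN, hF0.ne'⟩, fun p hp hpn => h9 p hp ?_⟩
        rw [← hcast]; exact Int.natCast_dvd_natCast.2 hpn
      · rw [hT2, mem_filter, Nat.mem_divisors]
        refine ⟨⟨?_, hF0.ne'⟩, h5, lt_of_le_of_lt hP1 h6⟩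
        rw [← Int.natCast_dvd_natCast, hFcast]
        exact h7.trans hdvd
    · intro v hv v' hv' hvv
      obtain ⟨h1, h2, h3, h4, h5, h6, h7, h8, h9, h10⟩ := hfacts v hv
      obtain ⟨g1, g2, g3, g4, g5, g6, g7, g8, g9, g10⟩ := hfacts v' hv'
      have hn0 := hpos v hv
      have hn0' := hpos v' hv'
      simp only [Prod.mk.injEq] at hvv
      obtain ⟨e1, e2⟩ := hvv
      have e3 : nn k v.2.2.2.1 v.2.1.1 v.2.1.2 = nn k v'.2.2.2.1 v'.2.1.1 v'.2.1.2 := by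
        rw [← Int.toNat_of_nonneg hn0.le, ← Int.toNat_of_nonneg hn0'.le, e1]
      have b1 := (hbox M (2 ^ v.1) hMb Nat.one_le_two_pow _ h4 _ (hG _ h1 _ h2).1 _ (hG _ h1 _ h2).2).1
      have b2 := (hbox M (2 ^ v'.1) hMb Nat.one_le_two_pow _ g4 _ (hG _ g1 _ g2).1 _ (hG _ g1 _ g2).2).1
      rw [← e3] at b2
      have e4 : v.1 = v'.1 := scl_inj (NS k) _ M v.1 v'.1 (by linarith) hMpos b1 b2
      obtain ⟨i, x, p0, a, m1⟩ := v
      obtain ⟨i', x', p0', a', m1'⟩ := v'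
      simp only at *
      subst e4
      have e5 := huni M (2 ^ i) hMa Nat.one_le_two_pow a h4 x.1 (hG _ h1 _ h2).1 x.2 (hG _ h1 _ h2).2 a' g4 x'.1
        (hG _ g1 _ g2).1 x'.2 (hG _ g1 _ g2).2 m e3 (cop_CN k _ _ _ h8) (cop_CN k _ _ _ g8) h10 g10
      obtain ⟨e6, e7, e8⟩ := e5
      have e9 : x = x' := Prod.ext e7 e8
      subst e9 e6 e2
      rw [h3, g3]
  rw [card_product] at hcard
  calc V.card ≤ T1.card * T2.card := hcard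
    _ ≤ 2 ^ R * R := Nat.mul_le_mul hT1c hT2c
    _ = R * 2 ^ R := Nat.mul_comm _ _

end H23.LP
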