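import Pool.Agent.H23.LP.Def
import Pool.Agent.H6.LP.Br

/-!
# [LP GC] chapter G (helper6): a positive proportion of the pairs `(b, c)` is good
-/

set_option autoImplicit false

namespace H23.LP

open Finset

theorem good_count (k : ℤ) (hk : ∀ t : ℤ, t ^ 3 ≠ k) : ∃ w0 : ℕ, ∀ w M : ℕ, w0 ≤ w → 1 ≤ M →
    ∃ c : ℝ, 0 < c ∧ ∃ A0 : ℕ, ∀ A : ℕ, A0 ≤ A → ∃ G : Finset (ℤ × ℤ),
      (∀ x ∈ G, Good k w M A x.1 x.2) ∧ c * (A : ℝ) ^ 2 ≤ G.card := by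
  exact Pool.Agent.H6.LP.good_count k hk

end H23.LP
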