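import Pool.Agent.H23.LP.Pba

/-!
# [LP HL] the interface with the Chebyshev argument, 50-90 lines. File Pool/Agent/H23/LP/Hl.lean

`partB` (`d`, `η`, `X0`) with `X = x / 2` (natural division), `x ≥ 2 X0 + 6`: `x/3 ≤ X`, `2 X ≤ x`. The map `Int.toNat` sends the `m ∈ Ioc X (2X)` with `PS k X (X^(1+d)) m` injectively into the set of the claim: `1 ≤ m ≤ 2 X ≤ x`; `n > X^(1+d) ≥ (x/3)^(1+d) ≥ x^(1+d/2)` for `x` large
(`x^(d/2) ≥ 3^(1+d)`, `(x/3)^(1+d) = x^(1+d/2) x^(d/2) / 3^(1+d)`); the primes of `n` are `≤ X ≤ x`. Take `δ = d/2` and `η/3`.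
-/

set_option autoImplicit false

namespace H23.LP

open Finset

open Classical in
theorem hlo (k : ℤ) (hk : ∀ t : ℤ, t ^ 3 ≠ k) : ∃ η δ : ℝ, 0 < η ∧ 0 < δ ∧ ∃ x0 : ℕ, ∀ x : ℕ, x0 ≤ x →
    η * x ≤ (((Icc 1 x).filter fun m : ℕ => ∃ n : ℕ, (x : ℝ) ^ (1 + δ) < n ∧ (n : ℤ) ∣ (m : ℤ) ^ 3 + k ∧
      ∀ p : ℕ, p.Prime → p ∣ n → p ≤ x).card : ℝ) := by
  obtain ⟨d, η, hd, hη, X0, hX0⟩ := partB k hk
  -- threshold for x^(d/2) ≥ 3^(1+d)
  obtain ⟨x1, hx1⟩ := Filter.eventually_atTop.1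
    (((tendsto_rpow_atTop (by linarith : 0 < d / 2)).comp tendsto_natCast_atTop_atTop).eventually
      (Filter.eventually_ge_atTop ((3 : ℝ) ^ (1 + d))))
  refine ⟨η / 3, d / 2, by linarith, by linarith, max x1 (2 * X0 + 6), ?_⟩
  intro x hx
  have hxa : x1 ≤ x := (le_max_left _ _).trans hx
  have hxb : 2 * X0 + 6 ≤ x := (le_max_right _ _).trans hx
  obtain ⟨X, hX⟩ : ∃ X : ℕ, X = x / 2 := ⟨_, rfl⟩
  have hX1 : X0 ≤ X := by omega
  have hX2 : x ≤ 3 * X := by omega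
  have hX3 : 2 * X ≤ x := by omega
  have hXx : X ≤ x := by omega
  have hx0 : (0 : ℝ) < x := by
    have : 0 < x := by omega
    exact_mod_cast this
  have hX3R : (x : ℝ) / 3 ≤ X := by
    have : (x : ℝ) ≤ 3 * X := by exact_mod_cast hX2
    linarith
  have hpow : (x : ℝ) ^ (1 + d / 2) ≤ (X : ℝ) ^ (1 + d) := by
    have h1 := hx1 x hxa
    simp only [Function.comp] at h1
    have h2 : (x : ℝ) ^ (1 + d) = (x : ℝ) ^ (1 + d / 2) * (x : ℝ) ^ (d / 2) := by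
      rw [← Real.rpow_add hx0]
      congr 1
      ring
    have h3 : ((x : ℝ) / 3) ^ (1 + d) ≤ (X : ℝ) ^ (1 + d) :=
      Real.rpow_le_rpow (by positivity) hX3R (by linarith)
    rw [Real.div_rpow hx0.le (by norm_num), div_le_iff₀ (by positivity), h2] at h3
    have h4 : 0 < (3 : ℝ) ^ (1 + d) := by positivity
    have h5 : 0 < (x : ℝ) ^ (1 + d / 2) := by positivity
    have h6 : (x : ℝ) ^ (1 + d / 2) * (3 : ℝ) ^ (1 + d) ≤ (x : ℝ) ^ (1 + d / 2) * (x : ℝ) ^ (d / 2) :=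
      mul_le_mul_of_nonneg_left h1 h5.le
    exact le_of_mul_le_mul_right (h6.trans h3) h4
  have hB := hX0 X hX1
  have hcard : ((Ioc (X : ℤ) (2 * X)).filter (PS k X ((X : ℝ) ^ (1 + d)))).card ≤
      ((Icc 1 x).filter fun m : ℕ => ∃ n : ℕ, (x : ℝ) ^ (1 + d / 2) < n ∧ (n : ℤ) ∣ (m : ℤ) ^ 3 + k ∧
      ∀ p : ℕ, p.Prime → p ∣ n → p ≤ x).card := by
    refine card_le_card_of_injOn Int.toNat ?_ ?_
    · intro m hm
      have hm' := mem_filter.1 (mem_coe.1 hm)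
      obtain ⟨hm1, n, hn1, hn2, hn3⟩ := hm'
      rw [mem_Ioc] at hm1
      refine mem_coe.2 (mem_filter.2 ⟨?_, n, ?_, ?_, ?_⟩)
      · rw [mem_Icc]
        omega
      · exact lt_of_le_of_lt hpow hn2
      · have : (m.toNat : ℤ) = m := Int.toNat_of_nonneg (by omega)
        rw [this]
        exact hn1
      · intro p hp hpn
        exact (hn3 p hp hpn).trans hXx
    · intro a ha b hb hab
      have ha' := mem_Ioc.1 (mem_filter.1 (mem_coe.1 ha)).1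
      have hb' := mem_Ioc.1 (mem_filter.1 (mem_coe.1 hb)).1
      have h1 : (a.toNat : ℤ) = a := Int.toNat_of_nonneg (by omega)
      have h2 : (b.toNat : ℤ) = b := Int.toNat_of_nonneg (by omega)
      rw [← h1, ← h2, hab]
  have hcR := (Nat.cast_le (α := ℝ)).2 hcard
  have h7 : η / 3 * x ≤ η * X := by
    have : η * ((x : ℝ) / 3) ≤ η * X := mul_le_mul_of_nonneg_left hX3R hη.le
    linarith
  linarith

end H23.LP
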