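import Pool.Agent.H23.LP.Def
import Pool.Agent.H6.LP.Br

/-!
# [LP M1] chapter M (helper6): Mertens for the number of cube roots of `k`, first form
-/

set_option autoImplicit false

namespace H23.LP

open Finset

theorem mer1 (k : ℤ) (hk : ∀ t : ℤ, t ^ 3 ≠ k) (ε : ℝ) (hε : 0 < ε) : ∃ x0 : ℝ, ∀ x : ℝ, x0 ≤ x →
    |∑ p ∈ (Icc 1 ⌊x⌋₊).filter Nat.Prime, (nu k p : ℝ) * Real.log p / p - Real.log x| ≤ ε * Real.log x := by
  exact Pool.Agent.H6.LP.mer1 k hk ε hε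

end H23.LP
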