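import Pool.Agent.H23.LP.Def
import Pool.Agent.H6.LP.Br

/-!
# [LP M2] chapter M (helper6): Mertens for the number of cube roots of `k`, second form (upper bound)
-/

set_option autoImplicit false

namespace H23.LP

open Finset

theorem mer2 (k : ℤ) (hk : ∀ t : ℤ, t ^ 3 ≠ k) : ∃ C : ℝ, ∀ x : ℝ, 2 ≤ x →
    ∑ p ∈ (Icc 1 ⌊x⌋₊).filter Nat.Prime, (nu k p : ℝ) / p ≤ Real.log (Real.log x) + C := by
  exact Pool.Agent.H6.LP.mer2 k hk

end H23.LP
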