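import Pool.Agent.H23.LP.Box
import Pool.Agent.H23.LP.Cmu
import Pool.Agent.H23.LP.Abl
import Pool.Agent.H23.LP.Alg

/-!
# [LP MNC] the main term of one class, 80-140 lines. File Pool/Agent/H23/LP/Mnc.lean

`D = (DD k b c).natAbs`, `(D : ℤ) = DD k b c > 0` by `box`; `α = 2 L² P`, `Ia = Ioc α (α + A)`. For `s = α ≤ t ≤ α + A`: `cmu` (with `g`, `r`): `|#{..} - (t - s) ρ| ≤ 2^ω(D)`, `ρ = (1/g) ∏_{p ∣ D, p ∤ g} (1 - 1/p)`.
`f a = X / nn k a b c` if `a ∈ Ia`, extended by `0`... To have `f ≥ 0` everywhere and `f (a+1) ≤ f a` on `Ioo`, take `f a = if a ∈ Ia then X / nn k a b c else 0`, and `f (s+1) = X / nn k (s+1) b c ≤ 2 X / P³` (`A ≥ 1`).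
Monotone: `nn k (a+1) b c - nn k a b c = 3 a² + 3 a + 1 - 3 k b c > 0` in the box: `a ≥ 2 L² P`, so `3 a² ≥ 12 L⁴ P²`, and `3 |k| b c ≤ 3 |k| (L + 1) 2 P² ≤ 9 L² P²` (`b ≤ (L+1) P`, `c ≤ 2 P`).
`abl` gives the claim (the filter condition `Int.gcd (CC a b c) (DD k b c) = 1`, `(D : ℤ) = DD`).
-/

set_option autoImplicit false

namespace H23.LP

open Finset

private theorem LLc (k : ℤ) : ((LL k : ℤ) : ℝ) = |(k : ℝ)| + 2 := by
  simp [LL]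

private theorem mono_real (k a b c P L : ℝ) (hL : 2 ≤ L) (hk : |k| ≤ L - 2) (hP : 0 < P)
    (ha1 : 2 * L ^ 2 * P ≤ a) (hb1 : 0 ≤ b) (hb2 : b ≤ (L + 1) * P)
    (hc1 : 0 ≤ c) (hc2 : c ≤ 2 * P) :
    a ^ 3 + k * b ^ 3 + k ^ 2 * c ^ 3 - 3 * k * a * b * c ≤
      (a + 1) ^ 3 + k * b ^ 3 + k ^ 2 * c ^ 3 - 3 * k * (a + 1) * b * c := by
  have hL0 : 0 < L := by linarith
  have ha0 : 0 ≤ a := le_trans (by positivity) ha1
  have h1 : (2 * L ^ 2 * P) ^ 2 ≤ a ^ 2 := pow_le_pow_left₀ (by positivity) ha1 2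
  have h2 : b * c ≤ ((L + 1) * P) * (2 * P) := mul_le_mul hb2 hc2 hc1 (by positivity)
  have h3 : k * (b * c) ≤ (L - 2) * (((L + 1) * P) * (2 * P)) := by
    refine le_trans (le_abs_self _) ?_
    rw [abs_mul, abs_of_nonneg (mul_nonneg hb1 hc1)]
    exact mul_le_mul hk h2 (mul_nonneg hb1 hc1) (by linarith)
  have h4 : (L - 2) * (((L + 1) * P) * (2 * P)) ≤ (2 * L ^ 2 * P) ^ 2 := by
    have e1 : (L - 2) * (((L + 1) * P) * (2 * P)) = (2 * (L - 2) * (L + 1)) * P ^ 2 := by ring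
    have e2 : (2 * L ^ 2 * P) ^ 2 = (4 * L ^ 4) * P ^ 2 := by ring
    rw [e1, e2]
    apply mul_le_mul_of_nonneg_right _ (by positivity)
    have e3 : L ^ 2 ≤ L ^ 4 := pow_le_pow_right₀ (by linarith) (by norm_num)
    nlinarith
  nlinarith

private theorem ratio_bd (nn P X : ℝ) (hP : 0 < P) (hX : 0 ≤ X) (h : P ^ 3 / 2 ≤ nn) :
    X / nn ≤ 2 * X / P ^ 3 := by
  have hP3 : 0 < P ^ 3 / 2 := by positivity
  have e1 : 2 * X / P ^ 3 = X / (P ^ 3 / 2) := by field_simp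
  rw [e1]
  exact div_le_div_of_nonneg_left hX hP3 h

theorem mnc (k : ℤ) : ∃ M0 : ℕ, 1 ≤ M0 ∧ ∀ M A X g : ℕ, M0 ≤ M → 1 ≤ A → 0 < g → ∀ b ∈ Ib k M A, ∀ c ∈ Ic M A,
    Int.gcd b c = 1 → ∀ r : ℤ, (∀ p : ℕ, p.Prime → p ∣ g → (p : ℤ) ∣ DD k b c → ¬ (p : ℤ) ∣ CC r b c) →
    |∑ a ∈ (Ia k M A).filter (fun a => a ≡ r [ZMOD (g : ℤ)] ∧ Int.gcd (CC a b c) (DD k b c) = 1),
      (X : ℝ) / nn k a b c -
      (1 / (g : ℝ) * ∏ p ∈ (DD k b c).natAbs.primeFactors.filter (fun p => ¬ p ∣ g), (1 - 1 / (p : ℝ))) *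
        ∑ a ∈ Ia k M A, (X : ℝ) / nn k a b c| ≤
      2 ^ (DD k b c).natAbs.primeFactors.card * (2 * X / ((M : ℝ) * A) ^ 3) := by
  classical
  obtain ⟨K, hK1, M0, hM0, H⟩ := box k
  refine ⟨M0, hM0, ?_⟩
  intro M A X g hM hA hg b hb c hc hbc r hr
  have hM1 : 1 ≤ M := le_trans hM0 hM
  have hMr : (1 : ℝ) ≤ M := by exact_mod_cast hM1
  have hAr : (1 : ℝ) ≤ A := by exact_mod_cast hA
  obtain ⟨P, hPdef⟩ : ∃ P : ℝ, P = (M : ℝ) * A := ⟨_, rfl⟩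
  have hP : 0 < P := by rw [hPdef]; positivity
  obtain ⟨α, hα⟩ : ∃ α : ℤ, α = 2 * LL k ^ 2 * (M * A) := ⟨_, rfl⟩
  have hIa : Ia k M A = Ioc α (α + A) := by rw [hα]; rfl
  have hAz : (1 : ℤ) ≤ A := by exact_mod_cast hA
  have hfirst : α + 1 ∈ Ia k M A := by rw [hIa, mem_Ioc]; omega
  obtain ⟨L, hLdef⟩ : ∃ L : ℝ, L = ((LL k : ℤ) : ℝ) := ⟨_, rfl⟩
  have hLk : L = |(k : ℝ)| + 2 := by rw [hLdef, LLc]
  have hL : 2 ≤ L := by rw [hLk]; have := abs_nonneg (k : ℝ); linarith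
  have hkL2 : |(k : ℝ)| ≤ L - 2 := by rw [hLk]; linarith
  have hAP : (A : ℝ) ≤ P := by rw [hPdef]; nlinarith
  have hb' := Finset.mem_Ioc.mp hb
  have hc' := Finset.mem_Ioc.mp hc
  have hb1 : L * P ≤ b := by
    rw [hLdef, hPdef]; have h := hb'.1.le; exact_mod_cast h
  have hb2 : (b : ℝ) ≤ (L + 1) * P := by
    have h1 : (b : ℝ) ≤ L * P + A := by
      rw [hLdef, hPdef]; have h := hb'.2; exact_mod_cast h
    linarith
  have hc1 : P ≤ c := by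
    rw [hPdef]; have h := hc'.1.le; exact_mod_cast h
  have hc2 : (c : ℝ) ≤ 2 * P := by
    have h1 : (c : ℝ) ≤ P + A := by
      rw [hPdef]; have h := hc'.2; exact_mod_cast h
    linarith
  have hLP : 0 < L * P := by positivity
  have hαr : (α : ℝ) = 2 * L ^ 2 * P := by
    rw [hα, hLdef, hPdef]; push_cast; ring
  have hnlow : ∀ a ∈ Ia k M A, P ^ 3 / 2 ≤ nn k a b c := by
    intro a ha
    have := (H M A hM hA a ha b hb c hc).2.1
    rw [← hPdef] at this; exact this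
  have hP3 : 0 < P ^ 3 / 2 := by positivity
  have hDpos : (0 : ℝ) < DD k b c := by
    have := (H M A hM hA (α + 1) hfirst b hb c hc).2.2.2.2.2.1
    rw [← hPdef] at this
    exact lt_of_lt_of_le (by positivity) this
  have hDz : 0 < DD k b c := by exact_mod_cast hDpos
  obtain ⟨D, hDdef⟩ : ∃ D : ℕ, D = (DD k b c).natAbs := ⟨_, rfl⟩
  have hDD : (D : ℤ) = DD k b c := by rw [hDdef]; omega
  have hD0 : 0 < D := by omega
  obtain ⟨ρ, hρ⟩ : ∃ ρ : ℝ, ρ = 1 / (g : ℝ) * ∏ p ∈ D.primeFactors.filter (fun p => ¬ p ∣ g), (1 - 1 / (p : ℝ)) := ⟨_, rfl⟩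
  obtain ⟨f, hf⟩ : ∃ f : ℤ → ℝ, f = fun a => if a ∈ Ia k M A then (X : ℝ) / nn k a b c else 0 := ⟨_, rfl⟩
  have hfin : ∀ a ∈ Ia k M A, f a = (X : ℝ) / nn k a b c := by
    intro a ha; rw [hf]; simp only; rw [if_pos ha]
  have hX0 : (0 : ℝ) ≤ X := Nat.cast_nonneg X
  have hf0 : ∀ a, 0 ≤ f a := by
    intro a
    rw [hf]; simp only
    by_cases ha : a ∈ Ia k M A
    · rw [if_pos ha]
      exact div_nonneg hX0 (le_trans hP3.le (hnlow a ha))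
    · rw [if_neg ha]
  have hf1 : ∀ a ∈ Ioo α (α + A), f (a + 1) ≤ f a := by
    intro a ha
    have ha' := Finset.mem_Ioo.mp ha
    have m1 : a ∈ Ia k M A := by rw [hIa, mem_Ioc]; omega
    have m2 : a + 1 ∈ Ia k M A := by rw [hIa, mem_Ioc]; omega
    rw [hfin a m1, hfin (a + 1) m2]
    apply div_le_div_of_nonneg_left hX0 (lt_of_lt_of_le hP3 (hnlow a m1))
    have haα : 2 * L ^ 2 * P ≤ (a : ℝ) := by
      rw [← hαr]; exact_mod_cast ha'.1.le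
    have h1 := mono_real (k : ℝ) a b c P L hL hkL2 hP haα (by linarith) hb2 (by linarith) hc2
    simp only [nn]
    push_cast
    exact h1
  have hcnt : ∀ t : ℤ, α ≤ t → t ≤ α + A →
      |((((Ioc α t).filter fun a => a ≡ r [ZMOD (g : ℤ)] ∧ Int.gcd (CC a b c) (DD k b c) = 1).card : ℕ) : ℝ) -
        ρ * ((t - α : ℤ) : ℝ)| ≤ 2 ^ D.primeFactors.card := by
    intro t ht1 ht2
    have hcD : Int.gcd c D = 1 := by rw [hDD]; exact cop_cD k b c hbc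
    have h1 := cmu b c D g r α t hD0 hcD hg ht1 (by
      intro p hp hpg hpD
      exact hr p hp hpg (by rw [← hDD]; exact_mod_cast hpD))
    rw [hDD] at h1
    have e1 : ρ * ((t - α : ℤ) : ℝ) = ((t - α : ℤ) : ℝ) / g *
        ∏ p ∈ D.primeFactors.filter (fun p => ¬ p ∣ g), (1 - 1 / (p : ℝ)) := by
      rw [hρ]; ring
    rw [e1]
    exact h1
  have key := abl f (fun a => a ≡ r [ZMOD (g : ℤ)] ∧ Int.gcd (CC a b c) (DD k b c) = 1) α (α + A)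
    ρ (2 ^ D.primeFactors.card) (by omega) (by positivity) hf0 hf1 hcnt
  rw [hIa] at hfin hfirst hnlow
  have s1 : ∑ a ∈ (Ioc α (α + A)).filter (fun a => a ≡ r [ZMOD (g : ℤ)] ∧ Int.gcd (CC a b c) (DD k b c) = 1),
      f a = ∑ a ∈ (Ioc α (α + A)).filter (fun a => a ≡ r [ZMOD (g : ℤ)] ∧ Int.gcd (CC a b c) (DD k b c) = 1),
      (X : ℝ) / nn k a b c :=
    Finset.sum_congr rfl fun a ha => hfin a (Finset.mem_filter.mp ha).1
  have s2 : ∑ a ∈ Ioc α (α + A), f a = ∑ a ∈ Ioc α (α + A), (X : ℝ) / nn k a b c :=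
    Finset.sum_congr rfl fun a ha => hfin a ha
  rw [s1, s2, hfin _ hfirst] at key
  rw [hIa, ← hDdef, ← hρ, ← hPdef]
  refine le_trans key ?_
  apply mul_le_mul_of_nonneg_left _ (by positivity)
  exact ratio_bd _ P X hP hX0 (hnlow _ hfirst)

end H23.LP
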