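import Pool.Agent.H23.LP.Nup

/-!
# [LP RCL] the number of classes modulo `QQ ∏ S`, 120-180 lines. File Pool/Agent/H23/LP/Rcl.lean

`Q = QQ k w > 0` (`k ≠ 0`), `w ≥ |k| + 3`: a prime `p > w` does not divide `Q = 6 |k| w!` (all prime factors of `w!` are `≤ w`, those of `6 |k|` are `≤ max(3, |k|) ≤ w`), so `p ∤ 6 k`.
Induction on the finite set `S` (`Finset.induction_on`): for `S = ∅` the set is `{r < Q : r ≡ s}`, one element. Step: `S' = insert q S`, `g = Q ∏ S`, `q ∤ g`: the map `r ↦ (r mod g, r mod q)` is a bijection between the set for `S'` and the product of the set for `S` and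
`{r < q : q ∣ nn k r b c ∧ ¬ (q ∣ CC r b c ∧ q ∣ DD k b c)}` (`Nat.chineseRemainder` / `ZMod.chineseRemainder`; the conditions for the primes of `S` and `≡ s [ZMOD Q]` depend only on `r mod g`, those for `q` only on `r mod q`, because `nn`, `CC` are polynomials in `a`:
`Int.ModEq` of `nn k r b c` and `nn k r' b c`). The second factor has `if q ∣ DD then 1 else nu k q` elements (`nup`).
The condition `∏ S ∣ nn` is the same as `∀ p ∈ S, p ∣ nn` (distinct primes: `Finset.prod_primes_dvd`).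
-/

set_option autoImplicit false

namespace H23.LP

open Finset

private theorem crt_card (g q : ℕ) (h : g.Coprime q) (hg : 0 < g) (hq : 0 < q) (U V : ℕ → Prop)
    [DecidablePred U] [DecidablePred V] (hU : ∀ r, U r ↔ U (r % g)) (hV : ∀ r, V r ↔ V (r % q)) :
    ((range (g * q)).filter (fun r => U r ∧ V r)).card =
      ((range g).filter U).card * ((range q).filter V).card := by
  rw [← Finset.card_product]
  refine Finset.card_nbij' (fun r => (r % g, r % q))
    (fun x => (Nat.chineseRemainder h x.1 x.2 : ℕ)) ?_ ?_ ?_ ?_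
  · intro r hr
    rw [Finset.mem_coe, Finset.mem_filter, Finset.mem_range] at hr
    rw [Finset.mem_coe, Finset.mem_product, Finset.mem_filter, Finset.mem_filter,
      Finset.mem_range, Finset.mem_range]
    exact ⟨⟨Nat.mod_lt _ hg, (hU r).mp hr.2.1⟩, ⟨Nat.mod_lt _ hq, (hV r).mp hr.2.2⟩⟩
  · intro x hx
    rw [Finset.mem_coe, Finset.mem_product, Finset.mem_filter, Finset.mem_filter,
      Finset.mem_range, Finset.mem_range] at hx
    rw [Finset.mem_coe, Finset.mem_filter, Finset.mem_range]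
    obtain ⟨⟨h1, h2⟩, ⟨h3, h4⟩⟩ := hx
    have c1 : (Nat.chineseRemainder h x.1 x.2 : ℕ) % g = x.1 := by
      have := (Nat.chineseRemainder h x.1 x.2).2.1
      rw [Nat.ModEq, Nat.mod_eq_of_lt h1] at this
      exact this
    have c2 : (Nat.chineseRemainder h x.1 x.2 : ℕ) % q = x.2 := by
      have := (Nat.chineseRemainder h x.1 x.2).2.2
      rw [Nat.ModEq, Nat.mod_eq_of_lt h3] at this
      exact this
    refine ⟨Nat.chineseRemainder_lt_mul h x.1 x.2 hg.ne' hq.ne', ?_, ?_⟩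
    · rw [hU, c1]; exact h2
    · rw [hV, c2]; exact h4
  · intro r hr
    rw [Finset.mem_coe, Finset.mem_filter, Finset.mem_range] at hr
    have h1 : r ≡ (Nat.chineseRemainder h (r % g) (r % q) : ℕ) [MOD g * q] :=
      Nat.chineseRemainder_modEq_unique h (Nat.mod_modEq r g).symm (Nat.mod_modEq r q).symm
    exact (Nat.ModEq.eq_of_lt_of_lt h1 hr.1
      (Nat.chineseRemainder_lt_mul h _ _ hg.ne' hq.ne')).symm
  · intro x hx
    rw [Finset.mem_coe, Finset.mem_product, Finset.mem_filter, Finset.mem_filter,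
      Finset.mem_range, Finset.mem_range] at hx
    obtain ⟨⟨h1, h2⟩, ⟨h3, h4⟩⟩ := hx
    have c1 : (Nat.chineseRemainder h x.1 x.2 : ℕ) % g = x.1 := by
      have := (Nat.chineseRemainder h x.1 x.2).2.1
      rw [Nat.ModEq, Nat.mod_eq_of_lt h1] at this
      exact this
    have c2 : (Nat.chineseRemainder h x.1 x.2 : ℕ) % q = x.2 := by
      have := (Nat.chineseRemainder h x.1 x.2).2.2
      rw [Nat.ModEq, Nat.mod_eq_of_lt h3] at this
      exact this
    exact Prod.ext c1 c2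

private theorem nn_dvd (k b c x y m : ℤ) (h : m ∣ x - y) : m ∣ nn k x b c ↔ m ∣ nn k y b c := by
  have e1 : nn k x b c - nn k y b c = (x - y) * (x ^ 2 + x * y + y ^ 2 - 3 * k * b * c) := by
    simp only [nn]; ring
  have h1 : m ∣ nn k x b c - nn k y b c := by rw [e1]; exact dvd_mul_of_dvd_left h _
  exact ⟨fun h2 => (dvd_sub_right h2).mp h1, fun h2 => (dvd_sub_left h2).mp h1⟩

private theorem CC_dvd (b c x y m : ℤ) (h : m ∣ x - y) : m ∣ CC x b c ↔ m ∣ CC y b c := by
  have e1 : CC x b c - CC y b c = (x - y) * (-c) := by simp only [CC]; ring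
  have h1 : m ∣ CC x b c - CC y b c := by rw [e1]; exact dvd_mul_of_dvd_left h _
  exact ⟨fun h2 => (dvd_sub_right h2).mp h1, fun h2 => (dvd_sub_left h2).mp h1⟩

private theorem mod_dvd (r g m : ℕ) (h : m ∣ g) : (m : ℤ) ∣ (r : ℤ) - ((r % g : ℕ) : ℤ) := by
  have h1 : (g : ℤ) ∣ (r : ℤ) - ((r % g : ℕ) : ℤ) := by
    refine ⟨((r / g : ℕ) : ℤ), ?_⟩
    have := Nat.mod_add_div r g
    have h2 : ((r % g : ℕ) : ℤ) + (g : ℤ) * ((r / g : ℕ) : ℤ) = r := by exact_mod_cast this
    linarith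
  exact dvd_trans (by exact_mod_cast h) h1

private theorem big_not (k : ℤ) (hk : k ≠ 0) (w : ℕ) (hw : k.natAbs + 3 ≤ w) (q : ℕ) (hq : q.Prime)
    (hwq : w < q) : ¬ q ∣ QQ k w ∧ ¬ (q : ℤ) ∣ 6 * k := by
  have h6 : ¬ q ∣ 6 := by
    intro h
    have h2 : q ∣ 2 * 3 := h
    rcases (Nat.Prime.dvd_mul hq).mp h2 with h3 | h3
    · have := Nat.le_of_dvd (by norm_num) h3; omega
    · have := Nat.le_of_dvd (by norm_num) h3; omega
  have hkn : ¬ q ∣ k.natAbs := by
    intro h
    have := Nat.le_of_dvd (by omega) h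
    omega
  constructor
  · intro h
    unfold QQ at h
    rcases (Nat.Prime.dvd_mul hq).mp h with h1 | h1
    · rcases (Nat.Prime.dvd_mul hq).mp h1 with h2 | h2
      · exact h6 h2
      · exact hkn h2
    · have := (Nat.Prime.dvd_factorial hq).mp h1
      omega
  · intro h
    have h1 : q ∣ (6 * k).natAbs := Int.natCast_dvd.mp h
    rw [Int.natAbs_mul] at h1
    rcases (Nat.Prime.dvd_mul hq).mp h1 with h2 | h2
    · exact h6 h2
    · exact hkn h2

private theorem QQ_pos (k : ℤ) (hk : k ≠ 0) (w : ℕ) : 0 < QQ k w := by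
  unfold QQ
  have h1 : 0 < k.natAbs := by omega
  have h2 := Nat.factorial_pos w
  positivity

/-- the classes modulo `QQ k w * ∏ S` -/
noncomputable def RR (k : ℤ) (w : ℕ) (s b c : ℤ) (S : Finset ℕ) : Finset ℕ :=
  (range (QQ k w * ∏ p ∈ S, p)).filter fun r : ℕ => (r : ℤ) ≡ s [ZMOD (QQ k w : ℤ)] ∧
    ∀ p ∈ S, (p : ℤ) ∣ nn k r b c ∧ ¬ ((p : ℤ) ∣ CC r b c ∧ (p : ℤ) ∣ DD k b c)

theorem rcl (k : ℤ) (hk : k ≠ 0) (w : ℕ) (hw : k.natAbs + 3 ≤ w) (s b c : ℤ) (hbc : Int.gcd b c = 1)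
    (S : Finset ℕ) (hS : ∀ p ∈ S, p.Prime ∧ w < p) :
    (RR k w s b c S).card = ∏ p ∈ S, (if (p : ℤ) ∣ DD k b c then 1 else nu k p) := by
  classical
  induction S using Finset.induction_on with
  | empty =>
    have hQ : (0 : ℤ) < (QQ k w : ℤ) := by exact_mod_cast QQ_pos k hk w
    rw [Finset.prod_empty, Finset.card_eq_one]
    refine ⟨(s % (QQ k w : ℤ)).toNat, ?_⟩
    ext r
    unfold RR
    rw [mem_filter, mem_range, Finset.prod_empty, mul_one, mem_singleton]
    have h0 := Int.emod_nonneg s hQ.ne'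
    have h1 := Int.emod_lt_of_pos s hQ
    constructor
    · rintro ⟨h2, h3, -⟩
      have h4 : (r : ℤ) % (QQ k w : ℤ) = s % (QQ k w : ℤ) := h3
      rw [Int.emod_eq_of_lt (by omega) (by exact_mod_cast h2)] at h4
      omega
    · intro h2
      have h3 : (r : ℤ) = s % (QQ k w : ℤ) := by rw [h2]; omega
      refine ⟨by have : (r : ℤ) < QQ k w := by rw [h3]; exact h1
                 exact_mod_cast this, ?_, fun p hp => absurd hp (Finset.notMem_empty p)⟩
      rw [h3]
      exact Int.mod_modEq s _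
  | insert q T hqT ih =>
    have ih' := ih fun p hp => hS p (mem_insert_of_mem hp)
    obtain ⟨hq, hwq⟩ := hS q (mem_insert_self q T)
    obtain ⟨hn1, hn2⟩ := big_not k hk w hw q hq hwq
    obtain ⟨g, hg⟩ : ∃ g : ℕ, g = QQ k w * ∏ p ∈ T, p := ⟨_, rfl⟩
    have hgpos : 0 < g := by
      rw [hg]
      exact Nat.mul_pos (QQ_pos k hk w) (Finset.prod_pos fun p hp => (hS p (mem_insert_of_mem hp)).1.pos)
    have hco : g.Coprime q := by
      rw [hg]
      apply Nat.Coprime.mul_left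
      · exact ((Nat.Prime.coprime_iff_not_dvd hq).mpr hn1).symm
      · apply Nat.Coprime.prod_left
        intro p hp
        exact (Nat.coprime_primes (hS p (mem_insert_of_mem hp)).1 hq).mpr
          fun h => hqT (h ▸ hp)
    have hnup := nup k b c q hq hn2 hbc
    have key := crt_card g q hco hgpos hq.pos
      (fun r => (r : ℤ) ≡ s [ZMOD (QQ k w : ℤ)] ∧
        ∀ p ∈ T, (p : ℤ) ∣ nn k r b c ∧ ¬ ((p : ℤ) ∣ CC r b c ∧ (p : ℤ) ∣ DD k b c))
      (fun r => (q : ℤ) ∣ nn k r b c ∧ ¬ ((q : ℤ) ∣ CC r b c ∧ (q : ℤ) ∣ DD k b c))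
      (by
        intro r
        have hQg : QQ k w ∣ g := by rw [hg]; exact dvd_mul_right _ _
        apply and_congr
        · have h1 : ((QQ k w : ℕ) : ℤ) ∣ (r : ℤ) - ((r % g : ℕ) : ℤ) := mod_dvd r g _ hQg
          have h2 : ((r % g : ℕ) : ℤ) ≡ (r : ℤ) [ZMOD (QQ k w : ℤ)] := Int.modEq_iff_dvd.mpr h1
          exact ⟨fun h => h2.trans h, fun h => h2.symm.trans h⟩
        · refine forall₂_congr fun p hp => ?_
          have hpg : p ∣ g := by
            rw [hg]; exact dvd_mul_of_dvd_right (Finset.dvd_prod_of_mem _ hp) _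
          have h1 := mod_dvd r g p hpg
          rw [nn_dvd k b c _ _ _ h1, CC_dvd b c _ _ _ h1])
      (by
        intro r
        have h1 := mod_dvd r q q (dvd_refl q)
        rw [nn_dvd k b c _ _ _ h1, CC_dvd b c _ _ _ h1])
    rw [Finset.prod_insert hqT, ← ih', ← hnup]
    have e1 : RR k w s b c (insert q T) = (range (g * q)).filter (fun r : ℕ =>
        ((r : ℤ) ≡ s [ZMOD (QQ k w : ℤ)] ∧
        ∀ p ∈ T, (p : ℤ) ∣ nn k r b c ∧ ¬ ((p : ℤ) ∣ CC r b c ∧ (p : ℤ) ∣ DD k b c)) ∧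
        ((q : ℤ) ∣ nn k r b c ∧ ¬ ((q : ℤ) ∣ CC r b c ∧ (q : ℤ) ∣ DD k b c))) := by
      unfold RR
      have e2 : QQ k w * ∏ p ∈ insert q T, p = g * q := by
        rw [Finset.prod_insert hqT, hg]; ring
      rw [e2]
      apply Finset.filter_congr
      intro r _
      constructor
      · rintro ⟨h1, h2⟩
        exact ⟨⟨h1, fun p hp => h2 p (mem_insert_of_mem hp)⟩, h2 q (mem_insert_self q T)⟩
      · rintro ⟨⟨h1, h2⟩, h3⟩
        refine ⟨h1, fun p hp => ?_⟩
        rcases mem_insert.mp hp with h | h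
        · rw [h]; exact h3
        · exact h2 p h
    have e3 : RR k w s b c T = (range g).filter (fun r : ℕ =>
        (r : ℤ) ≡ s [ZMOD (QQ k w : ℤ)] ∧
        ∀ p ∈ T, (p : ℤ) ∣ nn k r b c ∧ ¬ ((p : ℤ) ∣ CC r b c ∧ (p : ℤ) ∣ DD k b c)) := by
      unfold RR; rw [← hg]
    rw [e1, e3]
    exact key.trans (mul_comm _ _)

end H23.LP
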