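import Pool.Agent.H23.LP.Equ
import Pool.Agent.H23.LP.Mnc
import Pool.Agent.H23.LP.Rcl

/-!
# [LP MNS] the sum over the multiples of `∏ S`, 120-180 lines. File Pool/Agent/H23/LP/Mns.lean

`g = QQ k w * ∏ S`. (1) The set `{a ∈ Ia : a ≡ s [ZMOD QQ], (∀ p ∈ S, p ∣ nn k a b c), gcd (CC, DD) = 1}` is the disjoint union over `r ∈ RR k w s b c S` of `{a ∈ Ia : a ≡ r [ZMOD g], gcd (CC, DD) = 1}`: for such `a` take `r = a mod g`
(`nn`, `CC` are polynomials; if `p ∣ CC` and `p ∣ DD` then the gcd is not 1). (`Finset.sum_biUnion` or `Finset.sum_fiberwise`.)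
(2) For every `r ∈ RR`: `equi` (hypothesis `h1` here, `g ≤ X^(5d)`): `|∑ (NN - X/nn)| ≤ A X^(-8d)`; `mnc` (hypothesis `h2`): for `p ∣ g`, `p ∣ DD`: `p ∈ S` (`DD` is prime to `QQ` since `DD ≡ 1 (mod QQ)`), so `p ∤ CC r` by the definition of `RR`.
(3) `|RR| = ∏_{p ∈ S} ν' p ≤ 3^|S|`, `ν' p = if p ∣ DD then 1 else nu k p` (`rcl`, `nu_le`). Main term: `|RR| (1/g) ∏_{p ∣ D, p ∤ g} (1 - 1/p) = (1/QQ) ∏_{p ∣ D} (1 - 1/p) ∏_{p ∈ S} hh p`, because `p ∣ D, p ∣ g ↔ p ∈ S, p ∣ D` and for `p ∣ D`: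
`(1/p)/(1 - 1/p) = 1/(p-1) = hh p`; for `p ∤ D`: `nu k p / p = hh p`.
-/

set_option autoImplicit false

namespace H23.LP

open Finset

/-- the density of the sieve -/
noncomputable def hh (k b c : ℤ) (p : ℕ) : ℝ :=
  if (p : ℤ) ∣ DD k b c then 1 / ((p : ℝ) - 1) else (nu k p : ℝ) / p

private theorem nn_mod {m k a a' b c : ℤ} (h : a ≡ a' [ZMOD m]) : nn k a b c ≡ nn k a' b c [ZMOD m] := by
  unfold nn
  have h1 : a ^ 3 ≡ a' ^ 3 [ZMOD m] := h.pow 3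
  have h2 : 3 * k * a * b * c ≡ 3 * k * a' * b * c [ZMOD m] :=
    ((h.mul_left (3 * k)).mul_right b).mul_right c
  exact ((h1.add_right _).add_right _).sub h2

private theorem CC_mod {m a a' b c : ℤ} (h : a ≡ a' [ZMOD m]) : CC a b c ≡ CC a' b c [ZMOD m] := by
  unfold CC
  exact (Int.ModEq.refl _).sub (h.mul_right c)

private theorem dvd_iff_of {m x y : ℤ} (h : x ≡ y [ZMOD m]) : m ∣ x ↔ m ∣ y := by
  rw [← Int.modEq_zero_iff_dvd, ← Int.modEq_zero_iff_dvd]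
  exact ⟨fun h' => h.symm.trans h', fun h' => h.trans h'⟩

private theorem dens (k b c : ℤ) (q D : ℕ) (hq : 0 < q) (hD : (D : ℤ) = DD k b c) (hD0 : 0 < D)
    (hqD : ∀ p : ℕ, p.Prime → p ∣ D → ¬ p ∣ q) (S : Finset ℕ) (hS : ∀ p ∈ S, p.Prime) :
    ((∏ p ∈ S, (if (p : ℤ) ∣ DD k b c then 1 else nu k p) : ℕ) : ℝ) *
      (1 / ((q * ∏ p ∈ S, p : ℕ) : ℝ) *
        ∏ p ∈ D.primeFactors.filter (fun p => ¬ p ∣ q * ∏ p ∈ S, p), (1 - 1 / (p : ℝ))) =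
      (1 / (q : ℝ) * ∏ p ∈ D.primeFactors, (1 - 1 / (p : ℝ))) * ∏ p ∈ S, hh k b c p := by
  have h1 : D.primeFactors.filter (fun p => p ∣ q * ∏ p ∈ S, p) = S.filter (fun p => p ∣ D) := by
    ext p
    simp only [mem_filter, Nat.mem_primeFactors]
    constructor
    · rintro ⟨⟨hp, hpD, _⟩, hpg⟩
      refine ⟨?_, hpD⟩
      rcases (hp.dvd_mul).1 hpg with h | h
      · exact absurd h (hqD p hp hpD)
      · obtain ⟨r, hr, hpr⟩ := (hp.prime.dvd_finset_prod_iff _).1 h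
        rwa [(Nat.prime_dvd_prime_iff_eq hp (hS r hr)).1 hpr]
    · rintro ⟨hpS, hpD⟩
      exact ⟨⟨hS p hpS, hpD, hD0.ne'⟩, (dvd_prod_of_mem _ hpS).mul_left _⟩
  have h2 : ∏ p ∈ D.primeFactors, (1 - 1 / (p : ℝ)) =
      (∏ p ∈ S.filter (fun p => p ∣ D), (1 - 1 / (p : ℝ))) *
        ∏ p ∈ D.primeFactors.filter (fun p => ¬ p ∣ q * ∏ p ∈ S, p), (1 - 1 / (p : ℝ)) := by
    rw [← h1, prod_filter_mul_prod_filter_not]
  have h3 : ((∏ p ∈ S, (if (p : ℤ) ∣ DD k b c then 1 else nu k p) : ℕ) : ℝ) =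
      (∏ p ∈ S, (p : ℝ)) * ((∏ p ∈ S.filter (fun p => p ∣ D), (1 - 1 / (p : ℝ))) * ∏ p ∈ S, hh k b c p) := by
    rw [prod_filter, ← prod_mul_distrib, ← prod_mul_distrib]
    push_cast
    refine prod_congr rfl fun p hp => ?_
    have hp2 : (2 : ℝ) ≤ p := by exact_mod_cast (hS p hp).two_le
    have hiff : ((p : ℤ) ∣ DD k b c) ↔ p ∣ D := by rw [← hD, Int.natCast_dvd_natCast]
    unfold hh
    by_cases hpD : p ∣ D
    · rw [if_pos hpD, if_pos (hiff.2 hpD), if_pos (hiff.2 hpD)]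
      have h4 : (p : ℝ) - 1 ≠ 0 := by linarith
      field_simp
    · rw [if_neg hpD, if_neg (fun h => hpD (hiff.1 h)), if_neg (fun h => hpD (hiff.1 h))]
      field_simp
  have hq' : (q : ℝ) ≠ 0 := by positivity
  have hP : (∏ p ∈ S, (p : ℝ)) ≠ 0 := by
    rw [prod_ne_zero_iff]
    intro p hp
    exact_mod_cast (hS p hp).ne_zero
  rw [h2, h3]
  push_cast
  field_simp

theorem mns (k : ℤ) (hk : k ≠ 0) (w : ℕ) (hw : k.natAbs + 3 ≤ w) (M A X : ℕ) (E1 E2 : ℝ) (b c s : ℤ)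
    (hG : Good k w M A b c) (hD : 0 < DD k b c) (S : Finset ℕ) (hS : ∀ p ∈ S, p.Prime ∧ w < p) (hE1 : 0 ≤ E1)
    (hE2 : 0 ≤ E2)
    (h1 : ∀ r : ℤ, |∑ a ∈ (Ia k M A).filter (fun a => a ≡ r [ZMOD ((QQ k w * ∏ p ∈ S, p : ℕ) : ℤ)] ∧
      Int.gcd (CC a b c) (DD k b c) = 1), ((NN k X a b c : ℝ) - X / nn k a b c)| ≤ E1)
    (h2 : ∀ r : ℤ, (∀ p : ℕ, p.Prime → p ∣ QQ k w * ∏ p ∈ S, p → (p : ℤ) ∣ DD k b c → ¬ (p : ℤ) ∣ CC r b c) →
    |∑ a ∈ (Ia k M A).filter (fun a => a ≡ r [ZMOD ((QQ k w * ∏ p ∈ S, p : ℕ) : ℤ)] ∧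
      Int.gcd (CC a b c) (DD k b c) = 1), (X : ℝ) / nn k a b c -
      (1 / ((QQ k w * ∏ p ∈ S, p : ℕ) : ℝ) *
        ∏ p ∈ (DD k b c).natAbs.primeFactors.filter (fun p => ¬ p ∣ QQ k w * ∏ p ∈ S, p), (1 - 1 / (p : ℝ))) *
        ∑ a ∈ Ia k M A, (X : ℝ) / nn k a b c| ≤ E2) :
    |∑ a ∈ (Ia k M A).filter (fun a => a ≡ s [ZMOD (QQ k w : ℤ)] ∧ (∀ p ∈ S, (p : ℤ) ∣ nn k a b c) ∧
      Int.gcd (CC a b c) (DD k b c) = 1), (NN k X a b c : ℝ) -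
      (1 / (QQ k w : ℝ) * ∏ p ∈ (DD k b c).natAbs.primeFactors, (1 - 1 / (p : ℝ))) * (∏ p ∈ S, hh k b c p) *
        ∑ a ∈ Ia k M A, (X : ℝ) / nn k a b c| ≤ 3 ^ S.card * (E1 + E2) := by
  classical
  set D : ℕ := (DD k b c).natAbs with hDdef
  have hDabs : (D : ℤ) = DD k b c := Int.natAbs_of_nonneg hD.le
  have hDN : 0 < D := Int.natAbs_pos.2 hD.ne'
  have hQpos : 0 < QQ k w := by
    unfold QQ
    have := Int.natAbs_pos.2 hk
    have := Nat.factorial_pos w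
    positivity
  set g : ℕ := QQ k w * ∏ p ∈ S, p with hg
  have hgpos : 0 < g := Nat.mul_pos hQpos (prod_pos fun p hp => (hS p hp).1.pos)
  have hgz : (0 : ℤ) < g := by exact_mod_cast hgpos
  have hpg : ∀ p ∈ S, (p : ℤ) ∣ (g : ℤ) := fun p hp =>
    Int.natCast_dvd_natCast.2 ((dvd_prod_of_mem _ hp).mul_left _)
  have hQg : ((QQ k w : ℕ) : ℤ) ∣ (g : ℤ) := Int.natCast_dvd_natCast.2 (dvd_mul_right _ _)
  -- `D` is prime to `QQ`
  have hDQ : ∀ p : ℕ, p.Prime → p ∣ D → ¬ p ∣ QQ k w := by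
    intro p hp hpD hpQ
    have h3 : ((QQ k w : ℕ) : ℤ) ∣ DD k b c - 1 := by
      have h4 : DD k b c ≡ 1 [ZMOD (QQ k w : ℤ)] := by
        unfold DD
        have h5 : b ^ 3 ≡ 1 ^ 3 [ZMOD (QQ k w : ℤ)] := hG.b1.pow 3
        have h6 : k * c ^ 3 ≡ k * 0 ^ 3 [ZMOD (QQ k w : ℤ)] := (hG.c0.pow 3).mul_left k
        have h7 := h5.sub h6
        simpa using h7
      exact h4.symm.dvd
    have h8 : (p : ℤ) ∣ DD k b c := by rw [← hDabs]; exact Int.natCast_dvd_natCast.2 hpD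
    have h9 : (p : ℤ) ∣ DD k b c - 1 := (Int.natCast_dvd_natCast.2 hpQ).trans h3
    have h10 : (p : ℤ) ∣ 1 := by
      have := dvd_sub h8 h9
      simpa using this
    have h11 : p ∣ 1 := by exact_mod_cast h10
    exact hp.one_lt.ne' (Nat.dvd_one.1 h11)
  set R := RR k w s b c S with hR
  have hRmem : ∀ r : ℕ, r ∈ R ↔ r < g ∧ (r : ℤ) ≡ s [ZMOD (QQ k w : ℤ)] ∧
      ∀ p ∈ S, (p : ℤ) ∣ nn k r b c ∧ ¬ ((p : ℤ) ∣ CC r b c ∧ (p : ℤ) ∣ DD k b c) := by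
    intro r
    rw [hR, RR, mem_filter, mem_range]
  -- decomposition
  have hdec : ∑ a ∈ (Ia k M A).filter (fun a => a ≡ s [ZMOD (QQ k w : ℤ)] ∧ (∀ p ∈ S, (p : ℤ) ∣ nn k a b c) ∧
      Int.gcd (CC a b c) (DD k b c) = 1), (NN k X a b c : ℝ) =
      ∑ r ∈ R, ∑ a ∈ (Ia k M A).filter (fun a => a ≡ (r : ℤ) [ZMOD (g : ℤ)] ∧
        Int.gcd (CC a b c) (DD k b c) = 1), (NN k X a b c : ℝ) := by
    have hmaps : ∀ a ∈ (Ia k M A).filter (fun a => a ≡ s [ZMOD (QQ k w : ℤ)] ∧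
        (∀ p ∈ S, (p : ℤ) ∣ nn k a b c) ∧ Int.gcd (CC a b c) (DD k b c) = 1), (a % g).toNat ∈ R := by
      intro a ha
      obtain ⟨_, ha1, ha2, ha3⟩ := mem_filter.1 ha
      have h0 : 0 ≤ a % g := Int.emod_nonneg _ hgz.ne'
      have hlt : a % g < g := Int.emod_lt_of_pos _ hgz
      have hcast : (((a % g).toNat : ℕ) : ℤ) = a % g := Int.toNat_of_nonneg h0
      have hmod : (((a % g).toNat : ℕ) : ℤ) ≡ a [ZMOD (g : ℤ)] := by
        rw [hcast]; exact Int.mod_modEq _ _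
      rw [hRmem]
      refine ⟨by zify; rw [hcast]; exact hlt, (hmod.of_dvd hQg).trans ha1, ?_⟩
      intro p hp
      have hmp := hmod.of_dvd (hpg p hp)
      refine ⟨(dvd_iff_of (nn_mod hmp)).2 (ha2 p hp), ?_⟩
      rintro ⟨h4, h5⟩
      have h6 : (p : ℤ) ∣ CC a b c := (dvd_iff_of (CC_mod hmp)).1 h4
      have h7 : p ∣ Int.gcd (CC a b c) (DD k b c) := Int.dvd_gcd h6 h5
      rw [ha3] at h7
      exact (hS p hp).1.one_lt.ne' (Nat.dvd_one.1 h7)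
    rw [← sum_fiberwise_of_maps_to hmaps]
    refine sum_congr rfl fun r hr => ?_
    refine sum_congr ?_ fun _ _ => rfl
    obtain ⟨hr1, hr2, hr3⟩ := (hRmem r).1 hr
    ext a
    simp only [mem_filter]
    have h0 : 0 ≤ a % g := Int.emod_nonneg _ hgz.ne'
    have hcast : (((a % g).toNat : ℕ) : ℤ) = a % g := Int.toNat_of_nonneg h0
    constructor
    · rintro ⟨⟨h1, h2, h3, h4⟩, h5⟩
      refine ⟨h1, ?_, h4⟩
      have h6 : (r : ℤ) = a % g := by rw [← h5, hcast]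
      rw [h6]
      exact (Int.mod_modEq _ _).symm
    · rintro ⟨h1, h2, h4⟩
      refine ⟨⟨h1, (h2.of_dvd hQg).trans hr2, ?_, h4⟩, ?_⟩
      · intro p hp
        exact (dvd_iff_of (nn_mod (h2.of_dvd (hpg p hp)))).2 (hr3 p hp).1
      · have h6 : a % g = (r : ℤ) := by
          have h7 : a % g = (r : ℤ) % g := h2
          rw [h7]
          exact Int.emod_eq_of_lt (by positivity) (by exact_mod_cast hr1)
        rw [h6]
        exact Int.toNat_natCast r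
  have hcardR : R.card = ∏ p ∈ S, (if (p : ℤ) ∣ DD k b c then 1 else nu k p) :=
    rcl k hk w hw s b c hG.cop S hS
  have hcard3 : (R.card : ℝ) ≤ 3 ^ S.card := by
    rw [hcardR]
    push_cast
    rw [← prod_const]
    refine prod_le_prod (fun p _ => by positivity) fun p hp => ?_
    split_ifs
    · norm_num
    · exact_mod_cast nu_le k p (hS p hp).1
  set ρ : ℝ := 1 / (g : ℝ) * ∏ p ∈ D.primeFactors.filter (fun p => ¬ p ∣ g), (1 - 1 / (p : ℝ)) with hρ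
  set W : ℝ := ∑ a ∈ Ia k M A, (X : ℝ) / nn k a b c with hW
  have hden : (1 / (QQ k w : ℝ) * ∏ p ∈ D.primeFactors, (1 - 1 / (p : ℝ))) * ∏ p ∈ S, hh k b c p =
      R.card * ρ := by
    rw [hcardR, hρ, hg]
    exact (dens k b c (QQ k w) D hQpos hDabs hDN hDQ S fun p hp => (hS p hp).1).symm
  rw [hden, hdec]
  have hcls : ∀ r ∈ R, |∑ a ∈ (Ia k M A).filter (fun a => a ≡ (r : ℤ) [ZMOD (g : ℤ)] ∧
        Int.gcd (CC a b c) (DD k b c) = 1), (NN k X a b c : ℝ) - ρ * W| ≤ E1 + E2 := by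
    intro r hr
    obtain ⟨hr1, hr2, hr3⟩ := (hRmem r).1 hr
    have e1 := h1 r
    have e2 := h2 r (by
      intro p hp hpg' hpD
      have hpD' : p ∣ D := by
        rw [← hDabs] at hpD; exact Int.natCast_dvd_natCast.1 hpD
      rcases (hp.dvd_mul).1 hpg' with h | h
      · exact absurd h (hDQ p hp hpD')
      · obtain ⟨r', hr', hpr⟩ := (hp.prime.dvd_finset_prod_iff _).1 h
        have hpp := (Nat.prime_dvd_prime_iff_eq hp (hS r' hr').1).1 hpr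
        intro hC
        rw [← hpp] at hr'
        exact (hr3 p hr').2 ⟨hC, hpD⟩)
    rw [sum_sub_distrib] at e1
    rw [abs_le] at e1 e2 ⊢
    constructor <;> linarith [e1.1, e1.2, e2.1, e2.2]
  have hsum : ∑ r ∈ R, ∑ a ∈ (Ia k M A).filter (fun a => a ≡ (r : ℤ) [ZMOD (g : ℤ)] ∧
        Int.gcd (CC a b c) (DD k b c) = 1), (NN k X a b c : ℝ) - R.card * ρ * W =
      ∑ r ∈ R, (∑ a ∈ (Ia k M A).filter (fun a => a ≡ (r : ℤ) [ZMOD (g : ℤ)] ∧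
        Int.gcd (CC a b c) (DD k b c) = 1), (NN k X a b c : ℝ) - ρ * W) := by
    rw [sum_sub_distrib, sum_const, nsmul_eq_mul]
    ring
  rw [hsum]
  refine (abs_sum_le_sum_abs _ _).trans ((sum_le_sum hcls).trans ?_)
  rw [sum_const, nsmul_eq_mul]
  exact mul_le_mul_of_nonneg_right hcard3 (by linarith)

end H23.LP
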