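import Pool.Agent.H23.LP.Alg

/-!
# [LP NUP] the number of classes modulo a prime, 120-200 lines. File Pool/Agent/H23/LP/Nup.lean

Work in the field `F = ZMod p`, `2, 3, k ≠ 0` in `F`; write `b, c, k` for the residues; `D = b³ - k c³`. All identities below are `ring` identities, see `Def.lean`.
CASE 1, `p ∤ D`. If `nn r = 0` then `C := b² - r c ≠ 0` (from `c³ n = D² + C q`, `id_c3n'`: `C = 0` would give `D² = 0`), so the second condition is automatic. Bijection between `{t : t³ = k}` and `{r : nn r = 0}`: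
`t ↦ r = -b t - c t²`, inverse `r ↦ t = B/C` with `B = k c² - r b`.
 `nn (-b t - c t²) = (t³ - k) * (..)` (`ring` finds the factor: it is zero because `nn k r b c = r³ + k b³ + k² c³ - 3 k r b c` with `k = t³` and `r = -b t - c t²`: substitute `k = t³`, then `ring`). `B³ = k C³` (`id_kCB`, `n = 0`), so `(B/C)³ = k`; and
 `r C² + b B C + c B² = c² n = 0` (`id_abc`), so `r = -b (B/C) - c (B/C)²`. Conversely for `r = -b t - c t²`, `k = t³`: `B - t C = t³ c² - r b - t b² + t r c = ...`; by direct computation `B - t C = 0`: (`k c² - r b - t b² + t r c` with `r = -t (b + c t)`: `= t³ c² + t b (b + c t) - t b² - t² c (b + c t) = 0`), so `t = B/C`.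
 Hence the two sets have the same cardinality (`Finset.card_bij` / `card_nbij'`, transport between `range p` and `ZMod p` by `ZMod.natCast_zmod_val`, `(ZMod.intCast_zmod_eq_zero_iff_dvd)`).
CASE 2, `p ∣ D`. `c ≠ 0` and `b ≠ 0` in `F` (`gcd (c, D) = 1`, `cop_cD`; `p ∣ b` would give `p ∣ k c³`, impossible). By `id_c3n`: `c³ n = (r c + 2 b²) C²`. So `n = 0 ∧ C ≠ 0 ↔ r c + 2 b² = 0 ∧ C ≠ 0`; the only `r` is `r = -2 b²/c`, and there
`C = b² + 2 b² = 3 b² ≠ 0`. One element.
-/

set_option autoImplicit false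

namespace H23.LP

open Finset

private theorem tr (p : ℕ) [NeZero p] (Q : ZMod p → Prop) [DecidablePred Q] :
    ((range p).filter fun r : ℕ => Q (r : ZMod p)).card = (univ.filter Q).card := by
  refine Finset.card_nbij' (fun r => (r : ZMod p)) (fun x => x.val) ?_ ?_ ?_ ?_
  · intro r hr
    simp only [coe_filter, mem_range, Set.mem_ofPred_eq, mem_univ, true_and] at hr ⊢
    exact hr.2
  · intro x hx
    simp only [coe_filter, mem_range, Set.mem_ofPred_eq, mem_univ, true_and] at hx ⊢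
    refine ⟨ZMod.val_lt x, ?_⟩
    rw [ZMod.natCast_zmod_val]; exact hx
  · intro r hr
    simp only [coe_filter, mem_range, Set.mem_ofPred_eq] at hr
    exact ZMod.val_cast_of_lt hr.1
  · intro x _
    exact ZMod.natCast_zmod_val x

private theorem case1 {F : Type} [Field F] [Fintype F] [DecidableEq F] (k b c : F)
    (hD : b ^ 3 - k * c ^ 3 ≠ 0) :
    (univ.filter fun x : F => (x ^ 3 + k * b ^ 3 + k ^ 2 * c ^ 3 - 3 * k * x * b * c = 0) ∧
      ¬ (b ^ 2 - x * c = 0 ∧ b ^ 3 - k * c ^ 3 = 0)).card =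
    (univ.filter fun t : F => t ^ 3 - k = 0).card := by
  have hC : ∀ x : F, x ^ 3 + k * b ^ 3 + k ^ 2 * c ^ 3 - 3 * k * x * b * c = 0 →
      b ^ 2 - x * c ≠ 0 := by
    intro x hx h0
    apply hD
    have h1 : (b ^ 3 - k * c ^ 3) ^ 2 = 0 := by
      linear_combination c ^ 3 * hx -
        ((x * c + 2 * b ^ 2) * (b ^ 2 - x * c) - 3 * b * (b ^ 3 - k * c ^ 3)) * h0
    exact pow_eq_zero_iff (two_ne_zero) |>.mp h1
  refine Finset.card_nbij' (fun x => (k * c ^ 2 - x * b) / (b ^ 2 - x * c))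
    (fun t => -b * t - c * t ^ 2) ?_ ?_ ?_ ?_
  · intro x hx
    simp only [coe_filter, Set.mem_ofPred_eq, mem_univ, true_and] at hx ⊢
    have h1 := hC x hx.1
    rw [div_pow, sub_eq_zero, div_eq_iff (pow_ne_zero 3 h1)]
    linear_combination -(b ^ 3 - k * c ^ 3) * hx.1
  · intro t ht
    simp only [coe_filter, Set.mem_ofPred_eq, mem_univ, true_and] at ht ⊢
    refine ⟨?_, fun h => hD h.2⟩
    linear_combination (-(c ^ 3 * (k + t ^ 3) + b ^ 3 - 3 * (-b * t - c * t ^ 2) * b * c)) * ht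
  · intro x hx
    simp only [coe_filter, Set.mem_ofPred_eq, mem_univ, true_and] at hx
    have h1 := hC x hx.1
    show -b * ((k * c ^ 2 - x * b) / (b ^ 2 - x * c)) -
      c * ((k * c ^ 2 - x * b) / (b ^ 2 - x * c)) ^ 2 = x
    have h2 : (-b * ((k * c ^ 2 - x * b) / (b ^ 2 - x * c)) -
      c * ((k * c ^ 2 - x * b) / (b ^ 2 - x * c)) ^ 2) =
      (-b * (k * c ^ 2 - x * b) * (b ^ 2 - x * c) - c * (k * c ^ 2 - x * b) ^ 2) /
        (b ^ 2 - x * c) ^ 2 := by
      field_simp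
    rw [h2, div_eq_iff (pow_ne_zero 2 h1)]
    linear_combination -c ^ 2 * hx.1
  · intro t ht
    simp only [coe_filter, Set.mem_ofPred_eq, mem_univ, true_and] at ht
    have hn : (-b * t - c * t ^ 2) ^ 3 + k * b ^ 3 + k ^ 2 * c ^ 3 -
        3 * k * (-b * t - c * t ^ 2) * b * c = 0 := by
      linear_combination (-(c ^ 3 * (k + t ^ 3) + b ^ 3 - 3 * (-b * t - c * t ^ 2) * b * c)) * ht
    have h1 := hC _ hn
    show (k * c ^ 2 - (-b * t - c * t ^ 2) * b) / (b ^ 2 - (-b * t - c * t ^ 2) * c) = t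
    rw [div_eq_iff h1]
    linear_combination -c ^ 2 * ht

private theorem case2 {F : Type} [Field F] [Fintype F] [DecidableEq F] (k b c : F)
    (hD : b ^ 3 - k * c ^ 3 = 0) (hb : b ≠ 0) (hc : c ≠ 0) (h3 : (3 : F) ≠ 0) :
    (univ.filter fun x : F => (x ^ 3 + k * b ^ 3 + k ^ 2 * c ^ 3 - 3 * k * x * b * c = 0) ∧
      ¬ (b ^ 2 - x * c = 0 ∧ b ^ 3 - k * c ^ 3 = 0)).card = 1 := by
  rw [Finset.card_eq_one]
  refine ⟨-2 * b ^ 2 / c, ?_⟩
  ext x
  simp only [mem_filter, mem_univ, true_and, mem_singleton]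
  have hk : k = b ^ 3 / c ^ 3 := by
    rw [eq_div_iff (pow_ne_zero 3 hc)]
    linear_combination -hD
  constructor
  · rintro ⟨h1, h2⟩
    have h4 : b ^ 2 - x * c ≠ 0 := fun h => h2 ⟨h, hD⟩
    have h5 : (x * c + 2 * b ^ 2) * (b ^ 2 - x * c) ^ 2 = 0 := by
      linear_combination c ^ 3 * h1 -
        ((b ^ 3 - k * c ^ 3) - 3 * b ^ 3 + 3 * x * b * c) * hD
    rcases mul_eq_zero.mp h5 with h | h
    · rw [eq_div_iff hc]; linear_combination h
    · exact absurd (pow_eq_zero_iff (two_ne_zero) |>.mp h) h4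
  · intro hx
    have hxc : x * c = -2 * b ^ 2 := by rw [hx]; field_simp
    constructor
    · have h6 : c ^ 3 * (x ^ 3 + k * b ^ 3 + k ^ 2 * c ^ 3 - 3 * k * x * b * c) = 0 := by
        linear_combination (b ^ 2 - x * c) ^ 2 * hxc +
          ((b ^ 3 - k * c ^ 3) - 3 * b ^ 3 + 3 * x * b * c) * hD
      rcases mul_eq_zero.mp h6 with h | h
      · exact absurd h (pow_ne_zero 3 hc)
      · exact h
    · rintro ⟨h7, -⟩
      have h8 : 3 * b ^ 2 = 0 := by linear_combination h7 + hxc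
      rcases mul_eq_zero.mp h8 with h | h
      · exact h3 h
      · exact pow_ne_zero 2 hb h

theorem nup (k b c : ℤ) (p : ℕ) (hp : p.Prime) (h6 : ¬ (p : ℤ) ∣ 6 * k) (hbc : Int.gcd b c = 1) :
    ((range p).filter fun r : ℕ => (p : ℤ) ∣ nn k r b c ∧
      ¬ ((p : ℤ) ∣ CC r b c ∧ (p : ℤ) ∣ DD k b c)).card =
      if (p : ℤ) ∣ DD k b c then 1 else nu k p := by
  have : Fact p.Prime := ⟨hp⟩
  have hdv : ∀ z : ℤ, (p : ℤ) ∣ z ↔ ((z : ℤ) : ZMod p) = 0 := fun z =>
    (ZMod.intCast_zmod_eq_zero_iff_dvd z p).symm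
  have hp6 : ((6 * k : ℤ) : ZMod p) ≠ 0 := fun h => h6 ((hdv _).mpr h)
  have hk0 : (k : ZMod p) ≠ 0 := by
    intro h; apply hp6; push_cast; rw [h, mul_zero]
  have h30 : (3 : ZMod p) ≠ 0 := by
    intro h; apply hp6; push_cast
    have : (6 : ZMod p) = 3 * 2 := by norm_num
    rw [this, h]; ring
  have e1 : ((range p).filter fun r : ℕ => (p : ℤ) ∣ nn k r b c ∧
      ¬ ((p : ℤ) ∣ CC r b c ∧ (p : ℤ) ∣ DD k b c)).card =
      (univ.filter fun x : ZMod p => (x ^ 3 + (k : ZMod p) * b ^ 3 + (k : ZMod p) ^ 2 * c ^ 3 -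
        3 * k * x * b * c = 0) ∧
      ¬ ((b : ZMod p) ^ 2 - x * c = 0 ∧ (b : ZMod p) ^ 3 - k * c ^ 3 = 0)).card := by
    rw [← tr p]
    congr 1
    apply Finset.filter_congr
    intro r _
    rw [hdv, hdv, hdv]
    simp only [nn, CC, DD]
    push_cast
    rfl
  rw [e1]
  by_cases hD : (p : ℤ) ∣ DD k b c
  · rw [if_pos hD]
    have hD0 : (b : ZMod p) ^ 3 - k * c ^ 3 = 0 := by
      have := (hdv _).mp hD
      simp only [DD] at this
      push_cast at this
      exact this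
    have hnot : ¬ ((b : ZMod p) = 0 ∧ (c : ZMod p) = 0) := by
      rintro ⟨hb, hc⟩
      have h1 : (p : ℤ) ∣ Int.gcd b c := Int.dvd_coe_gcd ((hdv b).mpr hb) ((hdv c).mpr hc)
      rw [hbc] at h1
      have h2 : p ∣ 1 := by exact_mod_cast h1
      exact hp.one_lt.ne' (Nat.dvd_one.mp h2)
    have hc : (c : ZMod p) ≠ 0 := by
      intro h
      apply hnot
      refine ⟨?_, h⟩
      rw [h] at hD0
      have : (b : ZMod p) ^ 3 = 0 := by linear_combination hD0
      exact pow_eq_zero_iff (three_ne_zero) |>.mp this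
    have hb : (b : ZMod p) ≠ 0 := by
      intro h
      apply hnot
      refine ⟨h, ?_⟩
      rw [h] at hD0
      have h1 : (k : ZMod p) * c ^ 3 = 0 := by linear_combination -hD0
      rcases mul_eq_zero.mp h1 with h2 | h2
      · exact absurd h2 hk0
      · exact pow_eq_zero_iff (three_ne_zero) |>.mp h2
    exact case2 _ _ _ hD0 hb hc h30
  · rw [if_neg hD]
    have hD0 : (b : ZMod p) ^ 3 - k * c ^ 3 ≠ 0 := by
      intro h
      apply hD
      rw [hdv]
      simp only [DD]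
      push_cast
      exact h
    rw [case1 _ _ _ hD0, ← tr p, nu]
    congr 1
    apply Finset.filter_congr
    intro r _
    rw [hdv]
    push_cast
    rfl

theorem nu_le (k : ℤ) (p : ℕ) (hp : p.Prime) : nu k p ≤ 3 := by
  have : Fact p.Prime := ⟨hp⟩
  have e1 : nu k p = (univ.filter fun t : ZMod p => t ^ 3 - (k : ZMod p) = 0).card := by
    rw [← tr p, nu]
    congr 1
    apply Finset.filter_congr
    intro r _
    rw [← ZMod.intCast_zmod_eq_zero_iff_dvd]
    push_cast
    rfl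
  rw [e1]
  have h1 : (univ.filter fun t : ZMod p => t ^ 3 - (k : ZMod p) = 0) ⊆
      (Polynomial.nthRoots 3 (k : ZMod p)).toFinset := by
    intro t ht
    rw [mem_filter] at ht
    rw [Multiset.mem_toFinset, Polynomial.mem_nthRoots (by norm_num)]
    exact sub_eq_zero.mp ht.2
  exact le_trans (Finset.card_le_card h1)
    (le_trans (Multiset.toFinset_card_le _) (Polynomial.card_nthRoots 3 _))

end H23.LP
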