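import Pool.Agent.H23.LP.Mns
import Pool.Agent.H23.LP.M2

/-!
# [LP PRH] lower bound for the sieve product, 100-160 lines. File Pool/Agent/H23/LP/Prh.lean

`mer2`: `∑_{p ≤ z} nu/p ≤ loglog z + C` for `z ≥ 2`. Let `w ≥ 6`; for `p > w`: `nu ≤ 3`, so `nu/p ≤ 3/7 < 1/2` and `hh ≤ 1/2`.
For every `p > w`: `1 - hh p ≥ (1 - nu/p) (1 - (2/p) 1_{p ∣ D})`: if `p ∤ D` equality; if `p ∣ D`: `1 - 1/(p-1) ≥ 1 - 2/p` and `1 - nu/p ≤ 1`.
`∏_{p ∣ D} (1 - 2/p) ≥ 1 - 2 ∑_{p ∣ D} 1/p ≥ 98/100 ≥ 1/2` (Weierstrass; `Finset.one_sub_sum_le_prod_one_sub`).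
`∏_{w < p ≤ z} (1 - nu/p) ≥ exp (- ∑ (nu/p + (nu/p)²)) ≥ exp (- loglog z - C - 9 ∑_{n ≥ 1} 1/n²)` (`log (1 - t) ≥ - t - t²` for `0 ≤ t ≤ 1/2`), i.e. `≥ c / log z` with `c = exp (-C - 18)`.
-/

set_option autoImplicit false

namespace H23.LP

open Finset

private theorem prh_w {P : Finset ℕ} {f : ℕ → ℝ} (h0 : ∀ p ∈ P, 0 ≤ f p) (h1 : ∀ p ∈ P, f p ≤ 1) :
    1 - ∑ p ∈ P, f p ≤ ∏ p ∈ P, (1 - f p) := by
  classical
  induction P using Finset.induction_on with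
  | empty => simp
  | insert a P ha ih =>
    rw [sum_insert ha, prod_insert ha]
    have h2 := ih (fun p hp => h0 p (mem_insert_of_mem hp)) (fun p hp => h1 p (mem_insert_of_mem hp))
    have h3 := h0 a (mem_insert_self a P)
    have h4 := h1 a (mem_insert_self a P)
    have h5 : 0 ≤ ∑ p ∈ P, f p := sum_nonneg fun p hp => h0 p (mem_insert_of_mem hp)
    have h6 : (1 - f a) * (1 - ∑ p ∈ P, f p) ≤ (1 - f a) * ∏ p ∈ P, (1 - f p) :=
      mul_le_mul_of_nonneg_left h2 (by linarith)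
    have h7 : 0 ≤ f a * ∑ p ∈ P, f p := mul_nonneg h3 h5
    nlinarith

private theorem prh_e {t : ℝ} (h0 : 0 ≤ t) (h1 : t ≤ 1 / 2) : Real.exp (-(t + t ^ 2)) ≤ 1 - t := by
  have h2 : 0 ≤ t + t ^ 2 := by positivity
  have h3 := Real.quadratic_le_exp_of_nonneg h2
  rw [Real.exp_neg, inv_eq_one_div, div_le_iff₀ (Real.exp_pos _)]
  have h4 : (1 - t) * (1 + (t + t ^ 2) + (t + t ^ 2) ^ 2 / 2) ≤ (1 - t) * Real.exp (t + t ^ 2) :=
    mul_le_mul_of_nonneg_left h3 (by linarith)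
  have h5 : 1 ≤ (1 - t) * (1 + (t + t ^ 2) + (t + t ^ 2) ^ 2 / 2) := by
    have h6 : (1 - t) * (1 + (t + t ^ 2) + (t + t ^ 2) ^ 2 / 2) - 1 =
        t ^ 2 * (1 - t - t ^ 2 - t ^ 3) / 2 := by ring
    have h7 : t ^ 2 ≤ 1 / 4 := by nlinarith
    have h8 : t ^ 3 ≤ 1 / 8 := by
      have : t ^ 3 = t * t ^ 2 := by ring
      rw [this]
      nlinarith [sq_nonneg t]
    have h9 : 0 ≤ 1 - t - t ^ 2 - t ^ 3 := by linarith
    have h10 : 0 ≤ t ^ 2 * (1 - t - t ^ 2 - t ^ 3) / 2 := by positivity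
    linarith
  linarith

theorem prh (k : ℤ) (hk : ∀ t : ℤ, t ^ 3 ≠ k) : ∃ c : ℝ, 0 < c ∧ ∀ w : ℕ, 6 ≤ w → ∀ z : ℝ, 2 ≤ z → ∀ b c' : ℤ,
    DD k b c' ≠ 0 → ∑ p ∈ (DD k b c').natAbs.primeFactors, (1 : ℝ) / p ≤ 1 / 100 →
    c / Real.log z ≤ ∏ p ∈ (Icc 1 ⌊z⌋₊).filter (fun p => p.Prime ∧ w < p), (1 - hh k b c' p) := by
  classical
  obtain ⟨C, hC⟩ := mer2 k hk
  refine ⟨Real.exp (-C - 18) / 2, by positivity, fun w hw z hz b c' hD hsum => ?_⟩
  obtain ⟨P, hP⟩ : ∃ P : Finset ℕ, P = (Icc 1 ⌊z⌋₊).filter (fun p => p.Prime ∧ w < p) := ⟨_, rfl⟩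
  rw [← hP]
  have hPm : ∀ p ∈ P, p.Prime ∧ 7 ≤ p ∧ p ≤ ⌊z⌋₊ := by
    intro p hp
    rw [hP, mem_filter, mem_Icc] at hp
    exact ⟨hp.2.1, by omega, hp.1.2⟩
  have hlz : 0 < Real.log z := Real.log_pos (by linarith)
  obtain ⟨t, ht⟩ : ∃ t : ℕ → ℝ, ∀ p, t p = (nu k p : ℝ) / p := ⟨_, fun _ => rfl⟩
  obtain ⟨f, hf⟩ : ∃ f : ℕ → ℝ, ∀ p, f p = if (p : ℤ) ∣ DD k b c' then 2 * ((1 : ℝ) / p) else 0 :=
    ⟨_, fun _ => rfl⟩
  have ht0 : ∀ p, 0 ≤ t p := fun p => by rw [ht]; positivity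
  have ht1 : ∀ p ∈ P, t p ≤ 3 / p ∧ t p ≤ 1 / 2 := by
    intro p hp
    obtain ⟨h1, h2, _⟩ := hPm p hp
    have hp7 : (7 : ℝ) ≤ p := by exact_mod_cast h2
    have h3 : (nu k p : ℝ) ≤ 3 := by exact_mod_cast nu_le k p h1
    have h4 : t p ≤ 3 / p := by
      rw [ht]
      exact div_le_div_of_nonneg_right h3 (by linarith)
    refine ⟨h4, h4.trans ?_⟩
    rw [div_le_iff₀ (by linarith)]
    linarith
  have hf0 : ∀ p ∈ P, 0 ≤ f p ∧ f p ≤ 1 := by
    intro p hp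
    obtain ⟨h1, h2, _⟩ := hPm p hp
    have hp7 : (7 : ℝ) ≤ p := by exact_mod_cast h2
    rw [hf]
    split_ifs
    · constructor
      · positivity
      · rw [mul_one_div, div_le_one (by linarith)]
        linarith
    · exact ⟨le_rfl, zero_le_one⟩
  -- pointwise
  have hpt : ∀ p ∈ P, (1 - t p) * (1 - f p) ≤ 1 - hh k b c' p := by
    intro p hp
    obtain ⟨h1, h2, _⟩ := hPm p hp
    have hp7 : (7 : ℝ) ≤ p := by exact_mod_cast h2
    have h3 := ht1 p hp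
    have h4 := hf0 p hp
    have h5 := ht0 p
    unfold hh
    rw [hf] at h4 ⊢
    split_ifs with h
    · rw [if_pos h] at h4
      have h6 : 1 / ((p : ℝ) - 1) ≤ 2 * ((1 : ℝ) / p) := by
        rw [mul_one_div, div_le_div_iff₀ (by linarith) (by linarith)]
        linarith
      have h7 : (1 - t p) * (1 - 2 * ((1 : ℝ) / p)) ≤ 1 * (1 - 2 * ((1 : ℝ) / p)) :=
        mul_le_mul_of_nonneg_right (by linarith) (by linarith)
      linarith
    · rw [ht]
      linarith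
  have hprod : (∏ p ∈ P, (1 - t p)) * ∏ p ∈ P, (1 - f p) ≤ ∏ p ∈ P, (1 - hh k b c' p) := by
    rw [← prod_mul_distrib]
    refine prod_le_prod (fun p hp => ?_) hpt
    exact mul_nonneg (by linarith [(ht1 p hp).2]) (by linarith [(hf0 p hp).2])
  -- the second product
  have hB : (1 : ℝ) / 2 ≤ ∏ p ∈ P, (1 - f p) := by
    refine le_trans ?_ (prh_w (fun p hp => (hf0 p hp).1) (fun p hp => (hf0 p hp).2))
    have h1 : ∑ p ∈ P, f p ≤ 2 / 100 := by
      have h2 : ∑ p ∈ P, f p = 2 * ∑ p ∈ P.filter (fun p : ℕ => (p : ℤ) ∣ DD k b c'), (1 : ℝ) / p := by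
        rw [mul_sum, sum_filter]
        exact sum_congr rfl fun p _ => hf p
      rw [h2]
      have h3 : ∑ p ∈ P.filter (fun p : ℕ => (p : ℤ) ∣ DD k b c'), (1 : ℝ) / p ≤
          ∑ p ∈ (DD k b c').natAbs.primeFactors, (1 : ℝ) / p := by
        apply sum_le_sum_of_subset_of_nonneg
        · intro p hp
          rw [mem_filter] at hp
          rw [Nat.mem_primeFactors]
          refine ⟨(hPm p hp.1).1, ?_, Int.natAbs_ne_zero.2 hD⟩
          exact Int.natCast_dvd.1 hp.2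
        · intro p _ _
          positivity
      linarith
    linarith
  -- the first product
  have hA : Real.exp (-C - 18) / Real.log z ≤ ∏ p ∈ P, (1 - t p) := by
    have h1 : ∏ p ∈ P, Real.exp (-(t p + t p ^ 2)) ≤ ∏ p ∈ P, (1 - t p) :=
      prod_le_prod (fun p _ => (Real.exp_pos _).le) fun p hp => prh_e (ht0 p) (ht1 p hp).2
    refine le_trans ?_ h1
    rw [← Real.exp_sum, sum_neg_distrib, sum_add_distrib]
    have h2 : ∑ p ∈ P, t p ≤ Real.log (Real.log z) + C := by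
      refine le_trans ?_ (hC z hz)
      simp_rw [ht]
      apply sum_le_sum_of_subset_of_nonneg
      · intro p hp
        rw [hP, mem_filter] at hp
        rw [mem_filter]
        exact ⟨hp.1, hp.2.1⟩
      · intro p _ _
        positivity
    have h3 : ∑ p ∈ P, t p ^ 2 ≤ 18 := by
      have h4 : ∑ p ∈ P, t p ^ 2 ≤ 9 * ∑ p ∈ P, ((p : ℝ) ^ 2)⁻¹ := by
        rw [mul_sum]
        refine sum_le_sum fun p hp => ?_
        obtain ⟨g1, g2, _⟩ := hPm p hp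
        have hp7 : (7 : ℝ) ≤ p := by exact_mod_cast g2
        have h5 := pow_le_pow_left₀ (ht0 p) (ht1 p hp).1 2
        refine h5.trans (le_of_eq ?_)
        field_simp
        norm_num
      have h5 : ∑ p ∈ P, ((p : ℝ) ^ 2)⁻¹ ≤ 2 := by
        have h6 := sum_Ioo_inv_sq_le (α := ℝ) 0 (⌊z⌋₊ + 1)
        refine le_trans ?_ (h6.trans (by norm_num))
        apply sum_le_sum_of_subset_of_nonneg
        · intro p hp
          obtain ⟨g1, g2, g3⟩ := hPm p hp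
          rw [mem_Ioo]
          omega
        · intro p _ _
          positivity
      linarith
    have h4 : Real.exp (-C - 18) / Real.log z = Real.exp (-(Real.log (Real.log z) + C + 18)) := by
      rw [show -(Real.log (Real.log z) + C + 18) = (-C - 18) - Real.log (Real.log z) by ring,
        Real.exp_sub (-C - 18), Real.exp_log hlz]
    rw [h4]
    apply Real.exp_le_exp.2
    linarith
  have hA0 : 0 ≤ Real.exp (-C - 18) / Real.log z := by positivity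
  refine le_trans ?_ hprod
  calc Real.exp (-C - 18) / 2 / Real.log z = (Real.exp (-C - 18) / Real.log z) * (1 / 2) := by ring
    _ ≤ (∏ p ∈ P, (1 - t p)) * ∏ p ∈ P, (1 - f p) :=
        mul_le_mul hA hB (by norm_num) (hA0.trans hA)

theorem hh_bd (k : ℤ) (b c : ℤ) (p : ℕ) (hp : p.Prime) (h7 : 7 ≤ p) : 0 ≤ hh k b c p ∧ hh k b c p ≤ 6 / p := by
  have hp7 : (7 : ℝ) ≤ p := by exact_mod_cast h7
  unfold hh
  split_ifs with h
  · constructor
    · apply div_nonneg zero_le_one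
      linarith
    · rw [div_le_div_iff₀ (by linarith) (by linarith)]
      linarith
  · constructor
    · positivity
    · have h3 : (nu k p : ℝ) ≤ 3 := by exact_mod_cast nu_le k p hp
      exact div_le_div_of_nonneg_right (by linarith) (by linarith)

end H23.LP
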