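import Pool.Agent.H23.LP.Mns
import Pool.Agent.H23.LP.M1

/-!
# [LP PZS] the sum over the auxiliary prime `p₀`, 80-120 lines. File Pool/Agent/H23/LP/Pzs.lean

`mer1` with `ε = 1/100`: for `y ≥ x0`: `|∑_{p ≤ y} nu log p/p - log y| ≤ (1/100) log y`. With `u = X^(2d)`, `v = X^(3d)` (both `≥ x0` for `X ≥ X0`): `∑_{u < p ≤ v} nu log p/p ≥ (3d - 2d) log X - (1/100)(3d + 2d) log X = 0.95 d log X`; `log p ≤ 3 d log X`, so
`∑_{u < p ≤ v} nu/p ≥ 0.95/3 ≥ 0.31`. For `p ∣ D`: `hh p ≥ 0 ≥ nu/p - 3/p`; for `p ∤ D`: `hh p = nu/p`. So `∑ hh ≥ 0.31 - 3 ∑_{p ∣ D} 1/p ≥ 0.31 - 0.03 ≥ 1/5`.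
-/

set_option autoImplicit false

namespace H23.LP

open Finset

theorem pzs (k : ℤ) (hk : ∀ t : ℤ, t ^ 3 ≠ k) (d : ℝ) (hd : 0 < d) : ∃ X0 : ℕ, ∀ X : ℕ, X0 ≤ X → ∀ b c : ℤ,
    DD k b c ≠ 0 → ∑ p ∈ (DD k b c).natAbs.primeFactors, (1 : ℝ) / p ≤ 1 / 100 →
    1 / 5 ≤ ∑ p ∈ (range (⌊(X : ℝ) ^ (3 * d)⌋₊ + 1)).filter (fun p : ℕ => p.Prime ∧ (X : ℝ) ^ (2 * d) < p ∧
      (p : ℝ) ≤ (X : ℝ) ^ (3 * d)), hh k b c p := by
  classical
  obtain ⟨x0, hx0⟩ := mer1 k hk (1 / 100) (by norm_num)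
  have ht : Filter.Tendsto (fun X : ℕ => (X : ℝ) ^ (2 * d)) Filter.atTop Filter.atTop :=
    (tendsto_rpow_atTop (by linarith)).comp tendsto_natCast_atTop_atTop
  obtain ⟨X1, hX1⟩ := Filter.eventually_atTop.1 (ht.eventually_ge_atTop x0)
  refine ⟨max X1 3, fun X hX b c hD hsum => ?_⟩
  have hX3 : 3 ≤ X := le_trans (le_max_right _ _) hX
  have hXR : (3 : ℝ) ≤ X := by exact_mod_cast hX3
  have hu0 := hX1 X (le_trans (le_max_left _ _) hX)
  obtain ⟨u, hu⟩ : ∃ u : ℝ, u = (X : ℝ) ^ (2 * d) := ⟨_, rfl⟩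
  obtain ⟨v, hv⟩ : ∃ v : ℝ, v = (X : ℝ) ^ (3 * d) := ⟨_, rfl⟩
  rw [← hu] at hu0
  have huv : u ≤ v := by
    rw [hu, hv]
    exact Real.rpow_le_rpow_of_exponent_le (by linarith) (by linarith)
  have hu1 : 1 ≤ u := by
    rw [hu]
    exact Real.one_le_rpow (by linarith) (by linarith)
  have hlX : 0 < Real.log X := Real.log_pos (by linarith)
  have hlu : Real.log u = 2 * d * Real.log X := by rw [hu, Real.log_rpow (by linarith)]
  have hlv : Real.log v = 3 * d * Real.log X := by rw [hv, Real.log_rpow (by linarith)]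
  have h1 := (abs_le.1 (hx0 u hu0)).2
  have h2 := (abs_le.1 (hx0 v (hu0.trans huv))).1
  rw [← hu, ← hv]
  obtain ⟨P, hP⟩ : ∃ P : Finset ℕ, P = (range (⌊v⌋₊ + 1)).filter (fun p : ℕ => p.Prime ∧ u < p ∧
      (p : ℝ) ≤ v) := ⟨_, rfl⟩
  rw [← hP]
  have hPm : ∀ p ∈ P, p.Prime ∧ u < p ∧ (p : ℝ) ≤ v := by
    intro p hp
    rw [hP, mem_filter] at hp
    exact hp.2
  have hnn : ∀ p : ℕ, 0 ≤ (nu k p : ℝ) * Real.log p / p := by
    intro p
    have := Real.log_natCast_nonneg p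
    positivity
  have hsub : (Icc 1 ⌊v⌋₊).filter Nat.Prime ⊆ (Icc 1 ⌊u⌋₊).filter Nat.Prime ∪ P := by
    intro p hp
    rw [mem_filter, mem_Icc] at hp
    rw [mem_union]
    have hpv : (p : ℝ) ≤ v := (Nat.le_floor_iff (by linarith)).1 hp.1.2
    by_cases h : (p : ℝ) ≤ u
    · left
      rw [mem_filter, mem_Icc]
      exact ⟨⟨hp.1.1, Nat.le_floor h⟩, hp.2⟩
    · right
      push Not at h
      rw [hP, mem_filter, mem_range]
      exact ⟨by omega, hp.2, h, hpv⟩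
  have h3 : ∑ p ∈ (Icc 1 ⌊v⌋₊).filter Nat.Prime, (nu k p : ℝ) * Real.log p / p ≤
      ∑ p ∈ (Icc 1 ⌊u⌋₊).filter Nat.Prime, (nu k p : ℝ) * Real.log p / p +
      ∑ p ∈ P, (nu k p : ℝ) * Real.log p / p := by
    refine (sum_le_sum_of_subset_of_nonneg hsub fun p _ _ => hnn p).trans ?_
    rw [← sum_union_inter]
    have : 0 ≤ ∑ p ∈ (Icc 1 ⌊u⌋₊).filter Nat.Prime ∩ P, (nu k p : ℝ) * Real.log p / p :=
      sum_nonneg fun p _ => hnn p
    linarith
  have h4 : ∑ p ∈ P, (nu k p : ℝ) * Real.log p / p ≤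
      3 * d * Real.log X * ∑ p ∈ P, (nu k p : ℝ) / p := by
    rw [mul_sum]
    refine sum_le_sum fun p hp => ?_
    obtain ⟨hp1, hp2, hp3⟩ := hPm p hp
    have hp0 : (0 : ℝ) < p := by linarith
    have h5 : Real.log p ≤ 3 * d * Real.log X := by
      rw [← hlv]
      exact Real.log_le_log hp0 hp3
    have h6 : 0 ≤ (nu k p : ℝ) / p := by positivity
    calc (nu k p : ℝ) * Real.log p / p = Real.log p * ((nu k p : ℝ) / p) := by ring
      _ ≤ 3 * d * Real.log X * ((nu k p : ℝ) / p) := mul_le_mul_of_nonneg_right h5 h6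
  have h5 : (19 : ℝ) / 60 ≤ ∑ p ∈ P, (nu k p : ℝ) / p := by
    have h6 : 0 < d * Real.log X := by positivity
    rw [hlu] at h1
    rw [hlv] at h2
    by_contra hcon
    push Not at hcon
    have h7 : d * Real.log X * ∑ p ∈ P, (nu k p : ℝ) / p < d * Real.log X * (19 / 60) :=
      mul_lt_mul_of_pos_left hcon h6
    linarith
  have h6 : ∀ p ∈ P, (nu k p : ℝ) / p - (if (p : ℤ) ∣ DD k b c then 3 * ((1 : ℝ) / p) else 0) ≤
      hh k b c p := by
    intro p hp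
    obtain ⟨hp1, hp2, hp3⟩ := hPm p hp
    have hp0 : (1 : ℝ) < p := by linarith
    unfold hh
    split_ifs with h
    · have h7 : (nu k p : ℝ) ≤ 3 := by exact_mod_cast nu_le k p hp1
      have h8 : (nu k p : ℝ) / p ≤ 3 * ((1 : ℝ) / p) := by
        rw [mul_one_div]
        exact div_le_div_of_nonneg_right h7 (by linarith)
      have h9 : 0 ≤ 1 / ((p : ℝ) - 1) := by
        apply div_nonneg zero_le_one
        linarith
      linarith
    · linarith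
  have h7 : ∑ p ∈ P, (if (p : ℤ) ∣ DD k b c then 3 * ((1 : ℝ) / p) else 0) ≤ 3 / 100 := by
    rw [← sum_filter, ← mul_sum]
    have h8 : ∑ p ∈ P.filter (fun p : ℕ => (p : ℤ) ∣ DD k b c), (1 : ℝ) / p ≤
        ∑ p ∈ (DD k b c).natAbs.primeFactors, (1 : ℝ) / p := by
      apply sum_le_sum_of_subset_of_nonneg
      · intro p hp
        rw [mem_filter] at hp
        rw [Nat.mem_primeFactors]
        refine ⟨(hPm p hp.1).1, ?_, Int.natAbs_ne_zero.2 hD⟩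
        exact Int.natCast_dvd.1 hp.2
      · intro p _ _
        positivity
    linarith
  have h8 := sum_le_sum h6
  rw [sum_sub_distrib] at h8
  linarith

end H23.LP
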