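import Pool.Agent.H23.LP.Mns

/-!
# [LP SIA] the triples counted by the sieve weights, 80-130 lines. File Pool/Agent/H23/LP/Sia.lean

`SS` is the set of the triples `(p₀, a, m)`. Sorting by `p₀` and `a`: `|SS| = ∑_{p₀} ∑_{a ∈ Ia} [p₀ ∣ nn, gcd (CC, DD) = 1, all primes of nn are > z] * NN k X a b c` (the last sum runs over `m`, `NN` is the number of the admissible `m`), `p₀` in the set `Q` of the outer
sum of the claim (`p₀ ∈ range (⌊P2⌋₊ + 1)` iff `p₀ ≤ P2`, `Nat.le_floor`, for `P2 ≥ 0`; if `p₀` satisfies `(p₀ : ℝ) ≤ P2` then `P2 ≥ 0`). Drop all `a` with `a ≢ s (mod QQ)` (all terms are `≥ 0`).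
For `a ≡ s`: let `D_a = P.filter (· ∣ nn k a b c)`. If `D_a = ∅` then all prime factors of `nn` are `> z` (those `≤ w` are excluded by `hs`, those in `(w, z]` lie in `P` by `hP`). So the indicator of (all primes of nn are > z) is `≥ ∑_{S ⊆ D_a} phim S` (`hphi`), hence
`|SS| ≥ ∑_{p₀ ∈ Q} ∑_{a ≡ s, p₀ ∣ nn, gcd = 1} NN(a) ∑_{S ⊆ D_a} phim S`. Exchange the sums: `S ⊆ D_a` iff `S ⊆ P` and `∀ p ∈ S, p ∣ nn k a b c`; together with `p₀ ∣ nn` this is the condition `∀ p ∈ insert p₀ S, p ∣ nn` of `TT`.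
-/

set_option autoImplicit false

namespace H23.LP

open Finset

/-- the sum over the `a` in the class `s` with `∏ S ∣ nn` -/
noncomputable def TT (k : ℤ) (w M A X : ℕ) (b c s : ℤ) (S : Finset ℕ) : ℝ :=
  ∑ a ∈ (Ia k M A).filter (fun a => a ≡ s [ZMOD (QQ k w : ℤ)] ∧ (∀ p ∈ S, (p : ℤ) ∣ nn k a b c) ∧
    Int.gcd (CC a b c) (DD k b c) = 1), (NN k X a b c : ℝ)

theorem sia (k : ℤ) (w M A X : ℕ) (z P1 P2 : ℝ) (b c s : ℤ) (P : Finset ℕ) (phim : Finset ℕ → ℝ)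
    (hP : ∀ p : ℕ, p.Prime → w < p → (p : ℝ) ≤ z → p ∈ P)
    (hs : ∀ a : ℤ, a ≡ s [ZMOD (QQ k w : ℤ)] → ∀ p : ℕ, p.Prime → p ≤ w → ¬ (p : ℤ) ∣ nn k a b c)
    (hphi : ∀ D, D ⊆ P → ∑ S ∈ D.powerset, phim S ≤ (if D = ∅ then 1 else 0)) :
    ∑ p0 ∈ (range (⌊P2⌋₊ + 1)).filter (fun p : ℕ => p.Prime ∧ P1 < p ∧ (p : ℝ) ≤ P2),
      ∑ S ∈ P.powerset, phim S * TT k w M A X b c s (insert p0 S) ≤ ((SS k M A X z P1 P2 b c).card : ℝ) := by
  classical
  have hcard : ((SS k M A X z P1 P2 b c).card : ℝ) = ∑ p0 ∈ range (⌊P2⌋₊ + 1), ∑ a ∈ Ia k M A,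
      ∑ m ∈ Ioc (X : ℤ) (2 * X), (if p0.Prime ∧ P1 < p0 ∧ (p0 : ℝ) ≤ P2 ∧ (p0 : ℤ) ∣ nn k a b c ∧
        Int.gcd (CC a b c) (DD k b c) = 1 ∧ (∀ p : ℕ, p.Prime → (p : ℤ) ∣ nn k a b c → z < p) ∧
        nn k a b c ∣ CC a b c * m + BB k a b c then (1 : ℝ) else 0) := by
    rw [SS, card_filter]
    push_cast
    rw [sum_product]
    refine sum_congr rfl fun p0 _ => ?_
    rw [sum_product]
  have key : ∀ p0 : ℕ, p0.Prime → P1 < p0 → (p0 : ℝ) ≤ P2 → ∀ a ∈ Ia k M A,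
      ∑ S ∈ P.powerset, phim S * (if a ≡ s [ZMOD (QQ k w : ℤ)] ∧ (∀ p ∈ insert p0 S, (p : ℤ) ∣ nn k a b c) ∧
        Int.gcd (CC a b c) (DD k b c) = 1 then (NN k X a b c : ℝ) else 0) ≤
      ∑ m ∈ Ioc (X : ℤ) (2 * X), (if p0.Prime ∧ P1 < p0 ∧ (p0 : ℝ) ≤ P2 ∧ (p0 : ℤ) ∣ nn k a b c ∧
        Int.gcd (CC a b c) (DD k b c) = 1 ∧ (∀ p : ℕ, p.Prime → (p : ℤ) ∣ nn k a b c → z < p) ∧
        nn k a b c ∣ CC a b c * m + BB k a b c then (1 : ℝ) else 0) := by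
    intro p0 hp0 hp1 hp2 a ha
    have hnn : (0 : ℝ) ≤ ∑ m ∈ Ioc (X : ℤ) (2 * X), (if p0.Prime ∧ P1 < p0 ∧ (p0 : ℝ) ≤ P2 ∧ (p0 : ℤ) ∣ nn k a b c ∧
        Int.gcd (CC a b c) (DD k b c) = 1 ∧ (∀ p : ℕ, p.Prime → (p : ℤ) ∣ nn k a b c → z < p) ∧
        nn k a b c ∣ CC a b c * m + BB k a b c then (1 : ℝ) else 0) := by
      refine sum_nonneg fun m _ => ?_
      split_ifs <;> norm_num
    by_cases hc : a ≡ s [ZMOD (QQ k w : ℤ)] ∧ (p0 : ℤ) ∣ nn k a b c ∧ Int.gcd (CC a b c) (DD k b c) = 1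
    · obtain ⟨hc1, hc2, hc3⟩ := hc
      have hL : ∑ S ∈ P.powerset, phim S * (if a ≡ s [ZMOD (QQ k w : ℤ)] ∧
          (∀ p ∈ insert p0 S, (p : ℤ) ∣ nn k a b c) ∧
          Int.gcd (CC a b c) (DD k b c) = 1 then (NN k X a b c : ℝ) else 0) =
          (NN k X a b c : ℝ) * ∑ S ∈ (P.filter fun p : ℕ => (p : ℤ) ∣ nn k a b c).powerset, phim S := by
        have he : (P.filter fun p : ℕ => (p : ℤ) ∣ nn k a b c).powerset =
            P.powerset.filter (fun S : Finset ℕ => ∀ p : ℕ, p ∈ S → (p : ℤ) ∣ nn k a b c) := by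
          ext S
          simp only [mem_powerset, mem_filter, subset_iff]
          constructor
          · intro h
            exact ⟨fun x hx => (h hx).1, fun x hx => (h hx).2⟩
          · rintro ⟨h1, h2⟩ x hx
            exact ⟨h1 hx, h2 x hx⟩
        rw [he, sum_filter, mul_sum]
        refine sum_congr rfl fun S _ => ?_
        by_cases hS : ∀ p : ℕ, p ∈ S → (p : ℤ) ∣ nn k a b c
        · rw [if_pos hS, if_pos, mul_comm]
          refine ⟨hc1, ?_, hc3⟩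
          intro p hp
          rcases mem_insert.1 hp with rfl | hp
          · exact hc2
          · exact hS p hp
        · rw [if_neg hS, if_neg, mul_zero, mul_zero]
          rintro ⟨_, h2, _⟩
          exact hS fun p hp => h2 p (mem_insert_of_mem hp)
      rw [hL]
      have hD := hphi (P.filter fun p : ℕ => (p : ℤ) ∣ nn k a b c) (filter_subset _ _)
      by_cases hDe : (P.filter fun p : ℕ => (p : ℤ) ∣ nn k a b c) = ∅
      · rw [hDe] at hD ⊢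
        rw [if_pos rfl] at hD
        have hrough : ∀ p : ℕ, p.Prime → (p : ℤ) ∣ nn k a b c → z < p := by
          intro p hp hpn
          by_contra hlt
          have hw : w < p := by
            by_contra hwp
            exact hs a hc1 p hp (not_lt.1 hwp) hpn
          have hmem : p ∈ (P.filter fun p : ℕ => (p : ℤ) ∣ nn k a b c) :=
            mem_filter.2 ⟨hP p hp hw (not_lt.1 hlt), hpn⟩
          rw [hDe] at hmem
          simp at hmem
        have hR : ∑ m ∈ Ioc (X : ℤ) (2 * X), (if p0.Prime ∧ P1 < p0 ∧ (p0 : ℝ) ≤ P2 ∧ (p0 : ℤ) ∣ nn k a b c ∧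
            Int.gcd (CC a b c) (DD k b c) = 1 ∧ (∀ p : ℕ, p.Prime → (p : ℤ) ∣ nn k a b c → z < p) ∧
            nn k a b c ∣ CC a b c * m + BB k a b c then (1 : ℝ) else 0) = (NN k X a b c : ℝ) := by
          rw [NN, card_filter]
          push_cast
          refine sum_congr rfl fun m _ => ?_
          by_cases hm : nn k a b c ∣ CC a b c * m + BB k a b c
          · rw [if_pos hm, if_pos ⟨hp0, hp1, hp2, hc2, hc3, hrough, hm⟩]
          · rw [if_neg hm, if_neg]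
            rintro ⟨_, _, _, _, _, _, h⟩
            exact hm h
        rw [hR]
        calc (NN k X a b c : ℝ) * ∑ S ∈ (∅ : Finset ℕ).powerset, phim S ≤ (NN k X a b c : ℝ) * 1 :=
              mul_le_mul_of_nonneg_left hD (Nat.cast_nonneg _)
          _ = _ := mul_one _
      · rw [if_neg hDe] at hD
        exact (mul_nonpos_of_nonneg_of_nonpos (Nat.cast_nonneg _) hD).trans hnn
    · refine le_trans (le_of_eq ?_) hnn
      refine sum_eq_zero fun S _ => ?_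
      rw [if_neg, mul_zero]
      rintro ⟨h1, h2, h3⟩
      exact hc ⟨h1, h2 p0 (mem_insert_self _ _), h3⟩
  rw [hcard]
  calc ∑ p0 ∈ (range (⌊P2⌋₊ + 1)).filter (fun p : ℕ => p.Prime ∧ P1 < p ∧ (p : ℝ) ≤ P2),
      ∑ S ∈ P.powerset, phim S * TT k w M A X b c s (insert p0 S)
      = ∑ p0 ∈ (range (⌊P2⌋₊ + 1)).filter (fun p : ℕ => p.Prime ∧ P1 < p ∧ (p : ℝ) ≤ P2),
      ∑ a ∈ Ia k M A, ∑ S ∈ P.powerset, phim S * (if a ≡ s [ZMOD (QQ k w : ℤ)] ∧
        (∀ p ∈ insert p0 S, (p : ℤ) ∣ nn k a b c) ∧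
        Int.gcd (CC a b c) (DD k b c) = 1 then (NN k X a b c : ℝ) else 0) := by
        refine sum_congr rfl fun p0 _ => ?_
        rw [sum_comm]
        refine sum_congr rfl fun S _ => ?_
        rw [TT, sum_filter, mul_sum]
    _ ≤ ∑ p0 ∈ (range (⌊P2⌋₊ + 1)).filter (fun p : ℕ => p.Prime ∧ P1 < p ∧ (p : ℝ) ≤ P2),
      ∑ a ∈ Ia k M A, ∑ m ∈ Ioc (X : ℤ) (2 * X), (if p0.Prime ∧ P1 < p0 ∧ (p0 : ℝ) ≤ P2 ∧ (p0 : ℤ) ∣ nn k a b c ∧
        Int.gcd (CC a b c) (DD k b c) = 1 ∧ (∀ p : ℕ, p.Prime → (p : ℤ) ∣ nn k a b c → z < p) ∧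
        nn k a b c ∣ CC a b c * m + BB k a b c then (1 : ℝ) else 0) := by
        refine sum_le_sum fun p0 hp0 => sum_le_sum fun a ha => ?_
        obtain ⟨_, h1, h2, h3⟩ := mem_filter.1 hp0
        exact key p0 h1 h2 h3 a ha
    _ ≤ _ := by
        refine sum_le_sum_of_subset_of_nonneg (filter_subset _ _) fun p0 _ _ => ?_
        refine sum_nonneg fun a _ => sum_nonneg fun m _ => ?_
        split_ifs <;> norm_num

end H23.LP
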