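import Pool.Agent.H23.LP.Def

/-!
# [LP SNM] the numerical inequality of the sieve, 60-110 lines. File Pool/Agent/H23/LP/Snm.lean

Let `x = X` (real), `Q = (M A)³`. Claim: `3 x^(4d) (A x^(-8d) + C (K Q)^(1/10) 2 x / Q) ≤ c2 x / (A² log x)` for `X ≥ X0`.
(1) `A³ ≤ Q ≤ 2 x^(1+2d)`, so `A x^(-4d) = A³ x^(-4d) / A² ≤ 2 x^(1-2d) / A²`: the first term is `3 A x^(-4d) ≤ 6 x^(-2d) x / A²`, and `6 x^(-2d) ≤ c2 / (2 log x)` for `x` large (`isLittleO_log_rpow_atTop`).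
(2) `Q ≥ x^(1+d)/K ≥ x/K` (`x ≥ 1`). `Q = M³ A³`, so `A² = Q^(2/3)/M²` and the second term is `6 C K^(1/10) x^(4d) x Q^(-9/10) = (x / A²) 6 C K^(1/10) x^(4d) Q^(2/3 - 9/10) / M² ≤ (x/A²) 6 C K^(1/10) x^(4d) (x/K)^(-7/30)`
(`2/3 - 9/10 = -7/30 < 0`, `M ≥ 1`). Since `4 d ≤ 1/2500`, this is `≤ (x/A²) C' x^(-1/5)`, and `C' x^(-1/5) ≤ c2/(2 log x)` for `x` large.
(Without real powers of `Q`: multiply the claim by `A²`; `A² x^(4d) (K Q)^(1/10) x / Q ≤ x^(4d) x K^(1/10) Q^(1/10) / A` (`Q ≥ A³`) and `Q^(1/10) = M^(3/10) A^(3/10)`, so `≤ x K^(1/10) M^(3/10) x^(4d) A^(-7/10)`, and `A ≥ (x/(K M³))^(1/3)`.)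
-/

set_option autoImplicit false

namespace H23.LP

open Finset

theorem snm (d c2 C K : ℝ) (M : ℕ) (hd : 0 < d) (hd1 : d ≤ 1 / 10000) (hc : 0 < c2) (hC : 0 ≤ C) (hK : 1 ≤ K)
    (hM : 1 ≤ M) : ∃ X0 : ℕ, 2 ≤ X0 ∧ ∀ X A : ℕ, X0 ≤ X → 1 ≤ A → (X : ℝ) ^ (1 + d) ≤ K * ((M : ℝ) * A) ^ 3 →
    ((M : ℝ) * A) ^ 3 / 2 ≤ (X : ℝ) ^ (1 + 2 * d) →
    3 * (X : ℝ) ^ (4 * d) * (A * (X : ℝ) ^ (-(8 * d)) +
      C * (K * ((M : ℝ) * A) ^ 3) ^ (1 / 10 : ℝ) * (2 * X / ((M : ℝ) * A) ^ 3)) ≤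
      c2 * X / ((A : ℝ) ^ 2 * Real.log X) := by
  have hK0 : 0 < K := by linarith
  have ev1 : ∀ᶠ x : ℝ in Filter.atTop, Real.log x / x ^ (2 * d) < c2 / 12 :=
    (isLittleO_log_rpow_atTop (by positivity : 0 < 2 * d)).tendsto_div_nhds_zero.eventually_lt_const
      (by positivity)
  have ev2 : ∀ᶠ x : ℝ in Filter.atTop, Real.log x / x ^ (1 / 5 : ℝ) < c2 / (12 * (C * K + 1)) :=
    (isLittleO_log_rpow_atTop (by norm_num : (0 : ℝ) < 1 / 5)).tendsto_div_nhds_zero.eventually_lt_const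
      (by positivity)
  have ev := tendsto_natCast_atTop_atTop.eventually (ev1.and ev2)
  obtain ⟨X1, hX1⟩ := Filter.eventually_atTop.1 ev
  refine ⟨max X1 2, le_max_right _ _, ?_⟩
  intro X A hX hA hXK hXP
  obtain ⟨b1, b2⟩ := hX1 X ((le_max_left _ _).trans hX)
  have hx2 : (2 : ℝ) ≤ X := by exact_mod_cast (le_max_right X1 2).trans hX
  have hA1 : (1 : ℝ) ≤ A := by exact_mod_cast hA
  have hM1 : (1 : ℝ) ≤ M := by exact_mod_cast hM
  generalize (X : ℝ) = x at *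
  generalize (A : ℝ) = a at *
  obtain ⟨P, hP⟩ : ∃ P : ℝ, P = ((M : ℝ) * a) ^ 3 := ⟨_, rfl⟩
  rw [← hP] at hXK hXP ⊢
  have hx0 : 0 < x := by linarith
  have ha0 : 0 < a := by linarith
  have haP : a ^ 3 ≤ P := by
    rw [hP]
    exact pow_le_pow_left₀ ha0.le (by nlinarith) 3
  have hP0 : 0 < P := lt_of_lt_of_le (by positivity) haP
  have hlog : 0 < Real.log x := Real.log_pos (by linarith)
  -- first term
  have t1 : 3 * x ^ (4 * d) * (a * x ^ (-(8 * d))) ≤ c2 / 2 * x / (a ^ 2 * Real.log x) := by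
    have e1 : x ^ (4 * d) * x ^ (-(8 * d)) = x ^ (-(4 * d)) := by
      rw [← Real.rpow_add hx0]
      congr 1
      ring
    have e2 : a ^ 3 ≤ 2 * x ^ (1 + 2 * d) := by linarith
    have e3 : x ^ (1 + 2 * d) * x ^ (-(4 * d)) = x / x ^ (2 * d) := by
      rw [← Real.rpow_add hx0, eq_div_iff (by positivity), ← Real.rpow_add hx0]
      nth_rewrite 2 [← Real.rpow_one x]
      congr 1
      ring
    rw [le_div_iff₀ (by positivity)]
    have e4 : 3 * x ^ (4 * d) * (a * x ^ (-(8 * d))) * (a ^ 2 * Real.log x) =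
        3 * Real.log x * (a ^ 3 * x ^ (-(4 * d))) := by
      rw [← e1]
      ring
    rw [e4]
    have e5 : a ^ 3 * x ^ (-(4 * d)) ≤ 2 * (x / x ^ (2 * d)) := by
      rw [← e3, ← mul_assoc]
      exact mul_le_mul_of_nonneg_right e2 (by positivity)
    calc 3 * Real.log x * (a ^ 3 * x ^ (-(4 * d))) ≤ 3 * Real.log x * (2 * (x / x ^ (2 * d))) :=
          mul_le_mul_of_nonneg_left e5 (by positivity)
      _ = 6 * x * (Real.log x / x ^ (2 * d)) := by ring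
      _ ≤ 6 * x * (c2 / 12) := mul_le_mul_of_nonneg_left b1.le (by positivity)
      _ = c2 / 2 * x := by ring
  -- second term
  have t2 : 3 * x ^ (4 * d) * (C * (K * P) ^ (1 / 10 : ℝ) * (2 * x / P)) ≤
      c2 / 2 * x / (a ^ 2 * Real.log x) := by
    have e1 : a ^ 2 ≤ P ^ (2 / 3 : ℝ) := by
      have h1 : (a ^ 3) ^ (2 / 3 : ℝ) ≤ P ^ (2 / 3 : ℝ) :=
        Real.rpow_le_rpow (by positivity) haP (by norm_num)
      have h2 : (a ^ 3) ^ (2 / 3 : ℝ) = a ^ 2 := by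
        rw [← Real.rpow_natCast a 3, ← Real.rpow_mul ha0.le, ← Real.rpow_natCast a 2]
        norm_num
      rwa [h2] at h1
    have e2 : P ^ (2 / 3 : ℝ) * P ^ (1 / 10 : ℝ) / P = P ^ (-(7 / 30) : ℝ) := by
      rw [← Real.rpow_add hP0, div_eq_iff hP0.ne']
      nth_rewrite 3 [← Real.rpow_one P]
      rw [← Real.rpow_add hP0]
      norm_num
    have e3 : P ^ (-(7 / 30) : ℝ) ≤ K * x ^ (-(7 / 30) : ℝ) := by
      have h1 : x / K ≤ P := by
        rw [div_le_iff₀ hK0]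
        have h2 : x ^ (1 : ℝ) ≤ x ^ (1 + d) :=
          Real.rpow_le_rpow_of_exponent_le (by linarith) (by linarith)
        rw [Real.rpow_one] at h2
        linarith
      have h2 : P ^ (-(7 / 30) : ℝ) ≤ (x / K) ^ (-(7 / 30) : ℝ) :=
        Real.rpow_le_rpow_of_nonpos (by positivity) h1 (by norm_num)
      have h3 : (x / K) ^ (-(7 / 30) : ℝ) = x ^ (-(7 / 30) : ℝ) * K ^ (7 / 30 : ℝ) := by
        rw [Real.div_rpow hx0.le hK0.le, Real.rpow_neg hK0.le, div_inv_eq_mul]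
      have h4 : K ^ (7 / 30 : ℝ) ≤ K ^ (9 / 10 : ℝ) :=
        Real.rpow_le_rpow_of_exponent_le hK (by norm_num)
      have h5 : K ^ (9 / 10 : ℝ) ≤ K := by
        nth_rewrite 2 [← Real.rpow_one K]
        exact Real.rpow_le_rpow_of_exponent_le hK (by norm_num)
      rw [h3] at h2
      have h6 : 0 ≤ x ^ (-(7 / 30) : ℝ) := by positivity
      nlinarith
    have e3' : K ^ (1 / 10 : ℝ) * P ^ (-(7 / 30) : ℝ) ≤ K * x ^ (-(7 / 30) : ℝ) := by
      have h1 : x / K ≤ P := by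
        rw [div_le_iff₀ hK0]
        have h2 : x ^ (1 : ℝ) ≤ x ^ (1 + d) :=
          Real.rpow_le_rpow_of_exponent_le (by linarith) (by linarith)
        rw [Real.rpow_one] at h2
        linarith
      have h2 : P ^ (-(7 / 30) : ℝ) ≤ (x / K) ^ (-(7 / 30) : ℝ) :=
        Real.rpow_le_rpow_of_nonpos (by positivity) h1 (by norm_num)
      have h3 : (x / K) ^ (-(7 / 30) : ℝ) = x ^ (-(7 / 30) : ℝ) * K ^ (7 / 30 : ℝ) := by
        rw [Real.div_rpow hx0.le hK0.le, Real.rpow_neg hK0.le, div_inv_eq_mul]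
      have h4 : K ^ (1 / 10 : ℝ) * K ^ (7 / 30 : ℝ) ≤ K := by
        rw [← Real.rpow_add hK0]
        nth_rewrite 2 [← Real.rpow_one K]
        exact Real.rpow_le_rpow_of_exponent_le hK (by norm_num)
      calc K ^ (1 / 10 : ℝ) * P ^ (-(7 / 30) : ℝ)
          ≤ K ^ (1 / 10 : ℝ) * (x ^ (-(7 / 30) : ℝ) * K ^ (7 / 30 : ℝ)) := by
            rw [← h3]
            exact mul_le_mul_of_nonneg_left h2 (by positivity)
        _ = (K ^ (1 / 10 : ℝ) * K ^ (7 / 30 : ℝ)) * x ^ (-(7 / 30) : ℝ) := by ring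
        _ ≤ K * x ^ (-(7 / 30) : ℝ) := mul_le_mul_of_nonneg_right h4 (by positivity)
    have e4 : x ^ (4 * d) * x ^ (-(7 / 30) : ℝ) ≤ 1 / x ^ (1 / 5 : ℝ) := by
      rw [← Real.rpow_add hx0, one_div, ← Real.rpow_neg hx0.le]
      exact Real.rpow_le_rpow_of_exponent_le (by linarith) (by linarith)
    rw [le_div_iff₀ (by positivity)]
    have e5 : 3 * x ^ (4 * d) * (C * (K * P) ^ (1 / 10 : ℝ) * (2 * x / P)) *
        (a ^ 2 * Real.log x) = 6 * C * x * Real.log x * (x ^ (4 * d) * (K ^ (1 / 10 : ℝ) *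
          (a ^ 2 * P ^ (1 / 10 : ℝ) / P))) := by
      rw [Real.mul_rpow hK0.le hP0.le]
      ring
    rw [e5]
    have e6 : a ^ 2 * P ^ (1 / 10 : ℝ) / P ≤ P ^ (-(7 / 30) : ℝ) := by
      rw [← e2]
      exact div_le_div_of_nonneg_right (mul_le_mul_of_nonneg_right e1 (by positivity)) hP0.le
    have e7 : x ^ (4 * d) * (K ^ (1 / 10 : ℝ) * (a ^ 2 * P ^ (1 / 10 : ℝ) / P)) ≤
        K * (1 / x ^ (1 / 5 : ℝ)) := by
      calc x ^ (4 * d) * (K ^ (1 / 10 : ℝ) * (a ^ 2 * P ^ (1 / 10 : ℝ) / P))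
          ≤ x ^ (4 * d) * (K ^ (1 / 10 : ℝ) * P ^ (-(7 / 30) : ℝ)) :=
            mul_le_mul_of_nonneg_left (mul_le_mul_of_nonneg_left e6 (by positivity))
              (by positivity)
        _ ≤ x ^ (4 * d) * (K * x ^ (-(7 / 30) : ℝ)) :=
            mul_le_mul_of_nonneg_left e3' (by positivity)
        _ = K * (x ^ (4 * d) * x ^ (-(7 / 30) : ℝ)) := by ring
        _ ≤ K * (1 / x ^ (1 / 5 : ℝ)) := mul_le_mul_of_nonneg_left e4 hK0.le
    have b3 : Real.log x / x ^ (1 / 5 : ℝ) * (C * K) ≤ c2 / 12 := by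
      have h1 : 0 < C * K + 1 := by positivity
      have h2 : c2 / (12 * (C * K + 1)) * (C * K + 1) = c2 / 12 := by
        field_simp
      rw [← h2]
      have h3 : 0 ≤ Real.log x / x ^ (1 / 5 : ℝ) := by positivity
      have h4 : 0 ≤ C * K := by positivity
      nlinarith
    calc 6 * C * x * Real.log x * (x ^ (4 * d) * (K ^ (1 / 10 : ℝ) *
          (a ^ 2 * P ^ (1 / 10 : ℝ) / P)))
        ≤ 6 * C * x * Real.log x * (K * (1 / x ^ (1 / 5 : ℝ))) :=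
          mul_le_mul_of_nonneg_left e7 (by positivity)
      _ = 6 * x * (Real.log x / x ^ (1 / 5 : ℝ) * (C * K)) := by ring
      _ ≤ 6 * x * (c2 / 12) := mul_le_mul_of_nonneg_left b3 (by positivity)
      _ = c2 / 2 * x := by ring
  have e : c2 * x / (a ^ 2 * Real.log x) = c2 / 2 * x / (a ^ 2 * Real.log x) +
      c2 / 2 * x / (a ^ 2 * Real.log x) := by ring
  rw [mul_add, e]
  exact add_le_add t1 t2

end H23.LP
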