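import Pool.Agent.H23.LP.Def

/-!
# [LP TAU] `2^ω(n) ≤ C n^ε`, 40-80 lines. File Pool/Agent/H23/LP/Tau.lean

Let `y = 2^(1/ε)`. `2^ω(n) = ∏_{p ∣ n} 2 ≤ ∏_{p ∣ n, p ≤ y} 2 · ∏_{p ∣ n, p > y} p^ε ≤ 2^(⌊y⌋ + 1) · (∏_{p ∣ n} p)^ε ≤ 2^(⌊y⌋+1) n^ε` (`∏_{p ∣ n} p ≤ n`: `Nat.prod_primeFactors_dvd`).
-/

set_option autoImplicit false

namespace H23.LP

open Finset

theorem tau (ε : ℝ) (hε : 0 < ε) : ∃ C : ℝ, 0 < C ∧ ∀ n : ℕ, 0 < n →
    (2 : ℝ) ^ n.primeFactors.card ≤ C * (n : ℝ) ^ ε := by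
  obtain ⟨y, hy⟩ : ∃ y : ℝ, y = (2 : ℝ) ^ (1 / ε) := ⟨_, rfl⟩
  have hy0 : 0 < y := by
    rw [hy]
    positivity
  refine ⟨2 ^ (⌊y⌋₊ + 1), by positivity, fun n hn => ?_⟩
  have h1 : ∀ p ∈ n.primeFactors, (2 : ℝ) ≤ (if (p : ℝ) ≤ y then 2 else 1) * (p : ℝ) ^ ε := by
    intro p hp
    have hp1 : (1 : ℝ) ≤ p := by exact_mod_cast (Nat.prime_of_mem_primeFactors hp).one_le
    have hpe : 1 ≤ (p : ℝ) ^ ε := Real.one_le_rpow hp1 hε.le
    split_ifs with h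
    · linarith
    · push Not at h
      have : y ^ ε ≤ (p : ℝ) ^ ε := Real.rpow_le_rpow hy0.le h.le hε.le
      have h2 : y ^ ε = 2 := by
        rw [hy, ← Real.rpow_mul (by norm_num), one_div_mul_cancel hε.ne', Real.rpow_one]
      linarith
  have h2 : (2 : ℝ) ^ n.primeFactors.card ≤
      ∏ p ∈ n.primeFactors, ((if (p : ℝ) ≤ y then 2 else 1) * (p : ℝ) ^ ε) := by
    rw [← prod_const]
    exact prod_le_prod (fun p _ => by norm_num) h1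
  refine h2.trans ?_
  rw [prod_mul_distrib]
  have h3 : ∏ p ∈ n.primeFactors, (if (p : ℝ) ≤ y then (2 : ℝ) else 1) ≤ 2 ^ (⌊y⌋₊ + 1) := by
    rw [prod_ite, prod_const, prod_const_one, mul_one]
    refine pow_le_pow_right₀ (by norm_num) ?_
    have h4 : (n.primeFactors.filter (fun p : ℕ => (p : ℝ) ≤ y)) ⊆ range (⌊y⌋₊ + 1) := by
      intro p hp
      rw [mem_filter] at hp
      rw [mem_range]
      exact Nat.lt_succ_of_le (Nat.le_floor hp.2)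
    have := card_le_card h4
    rwa [card_range] at this
  have h5 : ∏ p ∈ n.primeFactors, (p : ℝ) ^ ε ≤ (n : ℝ) ^ ε := by
    rw [Real.finsetProd_rpow _ _ (fun p _ => by positivity)]
    refine Real.rpow_le_rpow (by positivity) ?_ hε.le
    have := (Nat.cast_le (α := ℝ)).2 (Nat.le_of_dvd hn (Nat.prod_primeFactors_dvd n))
    rwa [Nat.cast_prod] at this
  exact mul_le_mul h3 h5 (prod_nonneg fun p _ => by positivity) (by positivity)

end H23.LP
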