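import Pool.Agent.H95.FL.Main
import Pool.Agent.H23.LP.Sia
import Pool.Agent.H23.LP.Snm
import Pool.Agent.H23.LP.Prh
import Pool.Agent.H23.LP.Pzs
import Pool.Agent.H23.LP.Tau
import Pool.Agent.H23.LP.Ast

/-!
# [LP SIE] the sieve, 150-250 lines. File Pool/Agent/H23/LP/Sie.lean

CHOICE: `k ≠ 0` (`hk 0`). `d0` from `equi`; `w0 = max (w0 of FL for K = 3) (max (|k| + 3) 7)`; `M0` the maximum of the `M0` of `equi` (for this `d`), `mnc`, `box`. `α = d/192`. FL with `K = 3`, `B = 30`, `η = d`, `a = α` (`α (6·30 + 12) = 192 α = d`).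
`K` = constant of `box`, `C` = constant of `tau (1/10)`, `c1` = constant of `prh`. `X0` so large that: `X0 ≥ 2`, `X^α ≥ 2`, `X^(2d) ≥ w + 1`, `QQ k w ≤ X^d`, `X ≥` the `X0` of FL, `equi`, `pzs` (for `d`), and of `snm` (with `c2 = c` below).
Given `X, A, b, c'` write `c` for `c'` in the following. `A ≥ 1` (`Ic M A` is nonempty), `DD > 0` and all sizes from `box`.
(1) `P = (Icc 1 ⌊X^α⌋₊).filter (p.Prime ∧ w < p)`, `z = X^α`, `s` from `ast`, `phim` from FL (`x = X`). `sia`: `|SS| ≥ ∑_{p₀ ∈ Q} ∑_{S ⊆ P} phim S * TT (insert p₀ S)`, `Q = ` the primes in `(X^(2d), X^(3d)]`.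
(2) `p₀ ∉ P` (`p₀ > X^(2d) ≥ X^α`), `p₀ > w`. For `phim S ≠ 0`: `g = QQ ∏ (insert p₀ S) = QQ p₀ ∏ S ≤ X^d X^(3d) X^d = X^(5d)`. `mns` for `insert p₀ S` with `E1 = A X^(-8d)` (`equi`, any class `r`), `E2 = 2^ω(D) 2X/(MA)³` (`mnc`): with
`κ = (1/QQ) ∏_{p ∣ D} (1 - 1/p)`, `W = ∑_{a ∈ Ia} X/nn`, `|TT (insert p₀ S) - κ (hh p₀ ∏_{p ∈ S} hh p) W| ≤ 3^(|S|+1) (E1 + E2)`.
(3) Sum: `|∑∑ phim S TT - κ W (∑_{p₀} hh p₀)(∑_S phim S ∏ hh)| ≤ |Q| ∑_S |phim S| 3^(|S|+1) (E1+E2) ≤ 3 X^(3d) X^d (E1 + E2)` (`|Q| ≤ X^(3d)`; mass bound of FL).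
(4) `∑_{p₀} hh ≥ 1/5` (`pzs`); `∑_S phim S ∏_{p ∈ S} hh p ≥ (1 - 2^(-30)) ∏_{p ∈ P} (1 - hh p) ≥ (1/2) c1 / log (X^α) = c1/(2 α log X)` (FL with `g = hh`, `hh_bd`: `0 ≤ hh ≤ 6/p = 2K/p`, primes of `P` are `> w ≥ 7`; `prh`);
`κ ≥ (1/QQ)(1 - ∑_{p ∣ D} 1/p) ≥ 0.99/QQ` (`Finset.one_sub_sum_le_prod_one_sub` or induction); `W ≥ A X / (K (MA)³)` (`|Ia| = A`, `nn ≤ K (MA)³`) `= X/(K M³ A²)`.
So the main term is `≥ 2 c X/(A² log X)` with `2 c = 0.99 c1 / (10 α QQ K M³)`.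
(5) Error: `2^ω(D) ≤ C D^(1/10) ≤ C (K (MA)³)^(1/10)`, so by `snm` (its hypotheses: `X^(1+d) ≤ nn ≤ K (MA)³`, `(MA)³/2 ≤ nn ≤ X^(1+2d)` for any `a ∈ Ia`, `Ia` is nonempty) it is `≤ c X/(A² log X)`.
-/

set_option autoImplicit false

namespace H23.LP

open Finset

private theorem evr (e B : ℝ) (he : 0 < e) : ∃ X0 : ℕ, ∀ X : ℕ, X0 ≤ X → B ≤ (X : ℝ) ^ e := by
  have h := (tendsto_rpow_atTop he).comp tendsto_natCast_atTop_atTop
  obtain ⟨N, hN⟩ := (h.eventually_ge_atTop B).exists_forall_of_atTop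
  exact ⟨N, fun X hX => hN X hX⟩

private theorem comb (Q : Finset ℕ) (PS : Finset (Finset ℕ)) (phim T : Finset ℕ → ℝ) (h : ℕ → ℝ)
    (κ W E Y1 Y2 : ℝ) (hE : 0 ≤ E) (hY1 : ∑ S ∈ PS, |phim S| * 3 ^ S.card ≤ Y1) (hY2 : (Q.card : ℝ) ≤ Y2)
    (hT : ∀ p0 ∈ Q, ∀ S ∈ PS, phim S ≠ 0 →
      |T (insert p0 S) - κ * (h p0 * ∏ p ∈ S, h p) * W| ≤ 3 ^ (S.card + 1) * E) :
    κ * W * (∑ p ∈ Q, h p) * (∑ S ∈ PS, phim S * ∏ p ∈ S, h p) - 3 * Y2 * Y1 * E ≤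
      ∑ p0 ∈ Q, ∑ S ∈ PS, phim S * T (insert p0 S) := by
  have h0 : (0 : ℝ) ≤ ∑ S ∈ PS, |phim S| * 3 ^ S.card := sum_nonneg fun S _ => by positivity
  have h1 : ∀ p0 ∈ Q, ∀ S ∈ PS, phim S * (κ * (h p0 * ∏ p ∈ S, h p) * W) - |phim S| * 3 ^ S.card * (3 * E) ≤
      phim S * T (insert p0 S) := by
    intro p0 hp0 S hS
    by_cases hz : phim S = 0
    · rw [hz]; simp
    · have h2 := hT p0 hp0 S hS hz
      have h3 : |phim S * (T (insert p0 S) - κ * (h p0 * ∏ p ∈ S, h p) * W)| ≤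
          |phim S| * (3 ^ (S.card + 1) * E) := by
        rw [abs_mul]
        exact mul_le_mul_of_nonneg_left h2 (abs_nonneg _)
      have h4 := (abs_le.1 h3).1
      have h5 : |phim S| * (3 ^ (S.card + 1) * E) = |phim S| * 3 ^ S.card * (3 * E) := by
        rw [pow_succ]; ring
      rw [h5] at h4
      linarith [mul_sub (phim S) (T (insert p0 S)) (κ * (h p0 * ∏ p ∈ S, h p) * W)]
  have h6 : ∑ p0 ∈ Q, ∑ S ∈ PS, (phim S * (κ * (h p0 * ∏ p ∈ S, h p) * W) - |phim S| * 3 ^ S.card * (3 * E)) ≤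
      ∑ p0 ∈ Q, ∑ S ∈ PS, phim S * T (insert p0 S) :=
    sum_le_sum fun p0 hp0 => sum_le_sum fun S hS => h1 p0 hp0 S hS
  refine le_trans ?_ h6
  have h7 : ∑ p0 ∈ Q, ∑ S ∈ PS, (phim S * (κ * (h p0 * ∏ p ∈ S, h p) * W) - |phim S| * 3 ^ S.card * (3 * E)) =
      κ * W * (∑ p ∈ Q, h p) * (∑ S ∈ PS, phim S * ∏ p ∈ S, h p) -
        Q.card * ((∑ S ∈ PS, |phim S| * 3 ^ S.card) * (3 * E)) := by
    simp_rw [sum_sub_distrib]
    congr 1
    · rw [mul_assoc, sum_mul_sum, mul_sum]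
      refine sum_congr rfl fun p0 _ => ?_
      rw [mul_sum]
      refine sum_congr rfl fun S _ => ?_
      ring
    · rw [sum_const, ← sum_mul, nsmul_eq_mul]
  rw [h7]
  have h8 : (Q.card : ℝ) * ((∑ S ∈ PS, |phim S| * 3 ^ S.card) * (3 * E)) ≤ Y2 * (Y1 * (3 * E)) := by
    have hY20 : 0 ≤ Y2 := (Nat.cast_nonneg _).trans hY2
    refine mul_le_mul hY2 (mul_le_mul_of_nonneg_right hY1 (by positivity)) (by positivity) hY20
  linarith

private theorem prod_lb (T : Finset ℕ) (hT : ∀ p ∈ T, 1 ≤ p) (h : ∑ p ∈ T, (1 : ℝ) / p ≤ 1 / 100) :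
    99 / 100 ≤ ∏ p ∈ T, (1 - 1 / (p : ℝ)) := by
  have h1 : 0 ≤ ∏ p ∈ T, (1 - 1 / (p : ℝ)) ∧ ∏ p ∈ T, (1 - 1 / (p : ℝ)) ≤ 1 ∧
      1 - ∑ p ∈ T, (1 : ℝ) / p ≤ ∏ p ∈ T, (1 - 1 / (p : ℝ)) := by
    clear h
    induction T using Finset.induction_on with
    | empty => simp
    | insert q T hq ih =>
      obtain ⟨h1, h2, h3⟩ := ih fun p hp => hT p (mem_insert_of_mem hp)
      have h4 : (1 : ℝ) ≤ q := by exact_mod_cast hT q (mem_insert_self _ _)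
      have h5 : (0 : ℝ) ≤ 1 / q := by positivity
      have h6 : (1 : ℝ) / q ≤ 1 := by rw [div_le_one (by linarith)]; exact h4
      rw [prod_insert hq, sum_insert hq]
      refine ⟨mul_nonneg (by linarith) h1, mul_le_one₀ (by linarith) h1 h2, ?_⟩
      nlinarith
  linarith [h1.2.2]

theorem sieve (k : ℤ) (hk : ∀ t : ℤ, t ^ 3 ≠ k) : ∃ d0 : ℝ, 0 < d0 ∧ d0 ≤ 1 / 10000 ∧ ∀ d : ℝ, 0 < d → d ≤ d0 →
    ∃ w0 M0 : ℕ, 1 ≤ M0 ∧ ∀ w M : ℕ, w0 ≤ w → M0 ≤ M → ∃ α c : ℝ, 0 < α ∧ α ≤ d ∧ 0 < c ∧ ∃ X0 : ℕ,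
    ∀ X A : ℕ, X0 ≤ X → ∀ b c' : ℤ, Good k w M A b c' →
    (∀ a ∈ Ia k M A, (X : ℝ) ^ (1 + d) ≤ nn k a b c' ∧ (nn k a b c' : ℝ) ≤ (X : ℝ) ^ (1 + 2 * d)) →
    c * X / ((A : ℝ) ^ 2 * Real.log X) ≤
      ((SS k M A X ((X : ℝ) ^ α) ((X : ℝ) ^ (2 * d)) ((X : ℝ) ^ (3 * d)) b c').card : ℝ) := by
  have hk0 : k ≠ 0 := fun h => hk 0 (by rw [h]; norm_num)
  obtain ⟨d0, hd0, hd01, heq⟩ := equi k hk0
  refine ⟨d0, hd0, hd01, ?_⟩
  intro d hd hdd
  obtain ⟨M1, hM1, heq2⟩ := heq d hd hdd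
  obtain ⟨M2, hM2, hmnc⟩ := mnc k
  obtain ⟨K, hK, M3, hM3, hbox⟩ := box k
  obtain ⟨wF, hwF, hFL⟩ := Pool.Agent.H95.FL.FL 3 (by norm_num)
  obtain ⟨c1, hc1, hprh⟩ := prh k hk
  obtain ⟨C, hC, htau⟩ := tau (1 / 10) (by norm_num)
  refine ⟨max wF (max (k.natAbs + 3) 7), max M1 (max M2 M3), le_trans hM1 (le_max_left _ _), ?_⟩
  intro w M hw hM
  have hw1 : wF ≤ w := le_trans (le_max_left _ _) hw
  have hw2 : k.natAbs + 3 ≤ w := le_trans ((le_max_left _ _).trans (le_max_right _ _)) hw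
  have hw3 : 7 ≤ w := le_trans ((le_max_right _ _).trans (le_max_right _ _)) hw
  have hMa : M1 ≤ M := le_trans (le_max_left _ _) hM
  have hMb : M2 ≤ M := le_trans ((le_max_left _ _).trans (le_max_right _ _)) hM
  have hMc : M3 ≤ M := le_trans ((le_max_right _ _).trans (le_max_right _ _)) hM
  have hMpos : 1 ≤ M := hM1.trans hMa
  have hQpos : 0 < QQ k w := by
    unfold QQ
    have := Int.natAbs_pos.2 hk0
    have := Nat.factorial_pos w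
    positivity
  have hQr : (0 : ℝ) < QQ k w := by exact_mod_cast hQpos
  have hMr : (1 : ℝ) ≤ M := by exact_mod_cast hMpos
  have hK0 : 0 < K := by linarith
  set α : ℝ := d / 192 with hα
  have hα0 : 0 < α := by rw [hα]; positivity
  have hαd : α ≤ d := by rw [hα]; linarith
  set cc : ℝ := c1 / (25 * α * QQ k w * K * (M : ℝ) ^ 3) with hcc
  have hcc0 : 0 < cc := by rw [hcc]; positivity
  refine ⟨α, cc, hα0, hαd, hcc0, ?_⟩
  obtain ⟨s, hs⟩ := ast k hk0 w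
  obtain ⟨X1, hX1⟩ := heq2 w M hMa
  obtain ⟨xF, hxF, hFL2⟩ := hFL 30 d α (by norm_num) hα0 (by linarith) (by rw [hα]; norm_num)
  obtain ⟨X2, hX2⟩ := pzs k hk d hd
  obtain ⟨X3, hX32, hX3⟩ := snm d cc C K M hd (hdd.trans hd01) hcc0 hC.le hK hMpos
  obtain ⟨X4, hX4⟩ := evr α 2 hα0
  obtain ⟨X5, hX5⟩ := evr (2 * d) (w + 1) (by positivity)
  obtain ⟨X6, hX6⟩ := evr d (QQ k w) hd
  refine ⟨X1 + X2 + X3 + X4 + X5 + X6 + ⌈xF⌉₊, ?_⟩
  intro X A hX b c hG hrange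
  have hXF : xF ≤ X := by
    have h1 : ⌈xF⌉₊ ≤ X := by omega
    exact (Nat.le_ceil _).trans (by exact_mod_cast h1)
  have hX2' : (2 : ℝ) ≤ X := by
    have : 2 ≤ X := by omega
    exact_mod_cast this
  have hX1' : (1 : ℝ) ≤ X := by linarith
  have hX0 : (0 : ℝ) < X := by linarith
  have hlog : 0 < Real.log X := Real.log_pos (by linarith)
  -- the scale
  have hA : 1 ≤ A := by
    by_contra h0
    have hA0 : A = 0 := by omega
    have := hG.hc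
    rw [hA0] at this
    simp [Ic] at this
  have hAr : (1 : ℝ) ≤ A := by exact_mod_cast hA
  have hIa : (Ia k M A).card = A := by
    rw [Ia, Int.card_Ioc]; simp
  have hIane : (Ia k M A).Nonempty := by
    rw [← card_pos, hIa]; omega
  obtain ⟨a₀, ha₀⟩ := hIane
  have hb₀ := hbox M A hMc hA a₀ ha₀ b hG.hb c hG.hc
  have hMA : 0 < (M : ℝ) * A := by positivity
  have hD0 : 0 < DD k b c := by
    have h1 := hb₀.2.2.2.2.2.1
    have h2 : (0 : ℝ) < DD k b c := lt_of_lt_of_le (by positivity) h1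
    exact_mod_cast h2
  have hDabs : ((DD k b c).natAbs : ℤ) = DD k b c := Int.natAbs_of_nonneg hD0.le
  have hDN : 0 < (DD k b c).natAbs := Int.natAbs_pos.2 hD0.ne'
  -- the sieve weights
  set P : Finset ℕ := (Icc 1 ⌊(X : ℝ) ^ α⌋₊).filter (fun p => p.Prime ∧ w < p) with hPdef
  have hXα : (2 : ℝ) ≤ (X : ℝ) ^ α := hX4 X (by omega)
  have hPmem : ∀ p ∈ P, p.Prime ∧ w < p ∧ (p : ℝ) ≤ (X : ℝ) ^ α := by
    intro p hp
    rw [hPdef, mem_filter, mem_Icc] at hp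
    exact ⟨hp.2.1, hp.2.2, (Nat.cast_le.2 hp.1.2).trans (Nat.floor_le (by positivity))⟩
  obtain ⟨phim, phip, hsup, _, _, _, hmass, _, hval, hmean⟩ := hFL2 X hXF P fun p hp =>
    ⟨(hPmem p hp).1, lt_of_le_of_lt hw1 (hPmem p hp).2.1, (hPmem p hp).2.2⟩
  set P1 : ℝ := (X : ℝ) ^ (2 * d) with hP1
  set P2 : ℝ := (X : ℝ) ^ (3 * d) with hP2
  have hsia := sia k w M A X ((X : ℝ) ^ α) P1 P2 b c s P phim
    (fun p hp hwp hpz => by
      rw [hPdef, mem_filter, mem_Icc]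
      exact ⟨⟨hp.one_lt.le, Nat.le_floor hpz⟩, hp, hwp⟩)
    (fun a ha p hp hpw => hs a b c ha hG.b1 hG.c0 p hp hpw)
    (fun D hD => (hval D hD).1)
  refine le_trans ?_ hsia
  set Q : Finset ℕ := (range (⌊P2⌋₊ + 1)).filter (fun p : ℕ => p.Prime ∧ P1 < p ∧ (p : ℝ) ≤ P2) with hQdef
  set κ : ℝ := 1 / (QQ k w : ℝ) * ∏ p ∈ (DD k b c).natAbs.primeFactors, (1 - 1 / (p : ℝ)) with hκ
  set W : ℝ := ∑ a ∈ Ia k M A, (X : ℝ) / nn k a b c with hW
  set E1 : ℝ := A * (X : ℝ) ^ (-(8 * d)) with hE1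
  set E2 : ℝ := 2 ^ (DD k b c).natAbs.primeFactors.card * (2 * X / ((M : ℝ) * A) ^ 3) with hE2
  have hE10 : 0 ≤ E1 := by rw [hE1]; positivity
  have hE20 : 0 ≤ E2 := by rw [hE2]; positivity
  have hP12 : (X : ℝ) ^ α ≤ P1 := Real.rpow_le_rpow_of_exponent_le hX1' (by linarith)
  have hwP1 : (w : ℝ) < P1 := by
    have := hX5 X (by omega)
    linarith
  have hQmem : ∀ p ∈ Q, p.Prime ∧ P1 < p ∧ (p : ℝ) ≤ P2 := fun p hp => (mem_filter.1 hp).2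
  have hcomb := comb Q P.powerset phim (TT k w M A X b c s) (hh k b c) κ W (E1 + E2) ((X : ℝ) ^ d) P2
    (by linarith) (by exact_mod_cast hmass)
    (by
      have hsub : Q ⊆ Ioc 0 ⌊P2⌋₊ := by
        intro p hp
        have h1 := hQmem p hp
        exact mem_Ioc.2 ⟨h1.1.pos, Nat.le_floor h1.2.2⟩
      have h2 := card_le_card hsub
      rw [Nat.card_Ioc, Nat.sub_zero] at h2
      exact (Nat.cast_le.2 h2).trans (Nat.floor_le (by positivity)))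
    (by
      intro p0 hp0 S hS hne
      obtain ⟨hpp, hpl, hpu⟩ := hQmem p0 hp0
      obtain ⟨hSP, hSle⟩ := hsup S hne
      have hnotin : p0 ∉ S := by
        intro hmem
        have := (hPmem p0 (hSP hmem)).2.2
        linarith
      have hw0 : w < p0 := by
        have h1 : (w : ℝ) < p0 := by linarith
        exact_mod_cast h1
      have hSpr : ∀ p ∈ insert p0 S, p.Prime ∧ w < p := by
        intro p hp
        rcases mem_insert.1 hp with rfl | hp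
        · exact ⟨hpp, hw0⟩
        · exact ⟨(hPmem p (hSP hp)).1, (hPmem p (hSP hp)).2.1⟩
      have hgpos : 0 < QQ k w * ∏ p ∈ insert p0 S, p :=
        Nat.mul_pos hQpos (prod_pos fun p hp => (hSpr p hp).1.pos)
      have hgle : ((QQ k w * ∏ p ∈ insert p0 S, p : ℕ) : ℝ) ≤ (X : ℝ) ^ (5 * d) := by
        rw [prod_insert hnotin]
        push_cast
        have h1 : (QQ k w : ℝ) ≤ (X : ℝ) ^ d := hX6 X (by omega)
        have h2 : (∏ p ∈ S, (p : ℝ)) ≤ (X : ℝ) ^ d := by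
          have h20 := hSle
          push_cast at h20
          exact h20
        have h3 : (X : ℝ) ^ (5 * d) = (X : ℝ) ^ d * ((X : ℝ) ^ (3 * d) * (X : ℝ) ^ d) := by
          rw [← Real.rpow_add hX0, ← Real.rpow_add hX0]; congr 1; ring
        rw [h3]
        have h4 : (0 : ℝ) ≤ ∏ p ∈ S, (p : ℝ) := prod_nonneg fun p _ => Nat.cast_nonneg _
        exact mul_le_mul h1 (mul_le_mul hpu h2 h4 (by positivity)) (by positivity) (by positivity)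
      have hm := mns k hk0 w hw2 M A X E1 E2 b c s hG hD0 (insert p0 S) hSpr hE10 hE20
        (fun r => hX1 X A (by omega) b c hG hrange _ hgpos hgle r)
        (fun r hr => hmnc M A X _ hMb hA hgpos b hG.hb c hG.hc hG.cop r hr)
      rw [prod_insert hnotin, card_insert_of_notMem hnotin] at hm
      exact hm)
  refine le_trans ?_ hcomb
  -- main term
  have hD100 : 99 / 100 ≤ ∏ p ∈ (DD k b c).natAbs.primeFactors, (1 - 1 / (p : ℝ)) :=
    prod_lb _ (fun p hp => (Nat.prime_of_mem_primeFactors hp).one_lt.le) hG.sml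
  have hκ1 : 99 / 100 / (QQ k w : ℝ) ≤ κ := by
    rw [hκ, div_eq_mul_inv, one_div, mul_comm]
    exact mul_le_mul_of_nonneg_left hD100 (by positivity)
  have hW1 : X / (K * (M : ℝ) ^ 3 * (A : ℝ) ^ 2) ≤ W := by
    have h1 : ∀ a ∈ Ia k M A, X / (K * ((M : ℝ) * A) ^ 3) ≤ (X : ℝ) / nn k a b c := by
      intro a ha
      have h2 := hbox M A hMc hA a ha b hG.hb c hG.hc
      have h3 : (0 : ℝ) < nn k a b c := lt_of_lt_of_le (by positivity) h2.2.1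
      exact div_le_div_of_nonneg_left hX0.le h3 h2.2.2.1
    have h4 := sum_le_sum h1
    rw [sum_const, hIa, nsmul_eq_mul] at h4
    refine le_trans (le_of_eq ?_) h4
    field_simp
  have hhh := hX2 X (by omega) b c hD0.ne' hG.sml
  have hprod : c1 / (α * Real.log X) ≤ ∏ p ∈ P, (1 - hh k b c p) := by
    have := hprh w (by omega) ((X : ℝ) ^ α) hXα b c hD0.ne' hG.sml
    rwa [Real.log_rpow hX0] at this
  have hmn := (hmean (hh k b c) (fun p hp => by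
    have h1 := hh_bd k b c p (hPmem p hp).1 (by have := (hPmem p hp).2.1; omega)
    refine ⟨h1.1, h1.2.trans (le_of_eq ?_)⟩
    norm_num)).1
  have hV : c1 / (2 * α * Real.log X) ≤ ∑ S ∈ P.powerset, phim S * ∏ p ∈ S, hh k b c p := by
    refine le_trans ?_ hmn
    have h1 : (1 / 2 : ℝ) ≤ 1 - (1 / 2 : ℝ) ^ 30 := by norm_num
    have h2 : c1 / (2 * α * Real.log X) = 1 / 2 * (c1 / (α * Real.log X)) := by
      field_simp
    rw [h2]
    exact mul_le_mul h1 hprod (by positivity) (by norm_num)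
  have hmain : 2 * cc * X / ((A : ℝ) ^ 2 * Real.log X) ≤
      κ * W * (∑ p ∈ Q, hh k b c p) * (∑ S ∈ P.powerset, phim S * ∏ p ∈ S, hh k b c p) := by
    have hκ0 : 0 ≤ κ := le_trans (by positivity) hκ1
    have hW0 : 0 ≤ W := le_trans (by positivity) hW1
    have h1 : 99 / 100 / (QQ k w : ℝ) * (X / (K * (M : ℝ) ^ 3 * (A : ℝ) ^ 2)) * (1 / 5) *
        (c1 / (2 * α * Real.log X)) ≤
        κ * W * (∑ p ∈ Q, hh k b c p) * (∑ S ∈ P.powerset, phim S * ∏ p ∈ S, hh k b c p) := by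
      have h2 : 99 / 100 / (QQ k w : ℝ) * (X / (K * (M : ℝ) ^ 3 * (A : ℝ) ^ 2)) ≤ κ * W :=
        mul_le_mul hκ1 hW1 (by positivity) hκ0
      have h3 : 99 / 100 / (QQ k w : ℝ) * (X / (K * (M : ℝ) ^ 3 * (A : ℝ) ^ 2)) * (1 / 5) ≤
          κ * W * (∑ p ∈ Q, hh k b c p) := mul_le_mul h2 hhh (by norm_num) (by positivity)
      exact mul_le_mul h3 hV (by positivity) (by
        have : (0 : ℝ) ≤ ∑ p ∈ Q, hh k b c p := le_trans (by norm_num) hhh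
        positivity)
    refine le_trans ?_ h1
    have h4 : 99 / 100 / (QQ k w : ℝ) * (X / (K * (M : ℝ) ^ 3 * (A : ℝ) ^ 2)) * (1 / 5) *
        (c1 / (2 * α * Real.log X)) = (99 / 1000) * (c1 * X / (α * QQ k w * K * (M : ℝ) ^ 3 * ((A : ℝ) ^ 2 * Real.log X))) := by
      field_simp
      norm_num
    have h5 : 2 * cc * X / ((A : ℝ) ^ 2 * Real.log X) =
        (2 / 25) * (c1 * X / (α * QQ k w * K * (M : ℝ) ^ 3 * ((A : ℝ) ^ 2 * Real.log X))) := by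
      rw [hcc]
      field_simp
    rw [h4, h5]
    exact mul_le_mul_of_nonneg_right (by norm_num) (by positivity)
  -- error term
  have hE2le : E2 ≤ C * (K * ((M : ℝ) * A) ^ 3) ^ (1 / 10 : ℝ) * (2 * X / ((M : ℝ) * A) ^ 3) := by
    rw [hE2]
    refine mul_le_mul_of_nonneg_right ?_ (by positivity)
    refine (htau _ hDN).trans (mul_le_mul_of_nonneg_left ?_ hC.le)
    refine Real.rpow_le_rpow (Nat.cast_nonneg _) ?_ (by norm_num)
    have h1 : (((DD k b c).natAbs : ℕ) : ℝ) = (DD k b c : ℝ) := by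
      rw [← Int.cast_natCast, hDabs]
    rw [h1]
    exact hb₀.2.2.2.2.2.2.1
  have herr := hX3 X A (by omega) hA ((hrange a₀ ha₀).1.trans hb₀.2.2.1) (hb₀.2.1.trans (hrange a₀ ha₀).2)
  have herr2 : 3 * P2 * (X : ℝ) ^ d * (E1 + E2) ≤ cc * X / ((A : ℝ) ^ 2 * Real.log X) := by
    refine le_trans ?_ herr
    have h1 : P2 * (X : ℝ) ^ d = (X : ℝ) ^ (4 * d) := by
      rw [hP2, ← Real.rpow_add hX0]; congr 1; ring
    rw [mul_assoc 3, h1]
    refine mul_le_mul_of_nonneg_left ?_ (by positivity)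
    linarith
  have hfin : 2 * cc * X / ((A : ℝ) ^ 2 * Real.log X) =
      2 * (cc * X / ((A : ℝ) ^ 2 * Real.log X)) := by ring
  linarith

end H23.LP
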