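import Pool.Agent.H23.LP.Fib
import Pool.Agent.H23.LP.Sie
import Pool.Agent.H23.LP.Gc

/-!
# [LP PBA] a positive proportion of the `m` has a large divisor with small prime factors, 120-200 lines. File Pool/Agent/H23/LP/Pba.lean

CHOICE: `d = d0` of `sieve`; `M` = the maximum of the `M0` of `sieve`, `fib`, `box`; `w` = the maximum of the `w0` of `sieve` and of `good_count`; then `α`, `c1` from `sieve`, `c2`, `A0` from `good_count` (`A0 ≥ 1`), `N = NS k ≥ 1`, `I` from `scl` (with `d`, `A0`). Put `R = ⌊4/α⌋₊`, `B0 = R 2^R` (`≥ 1`: `α ≤ d ≤ 1`).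
For `X ≥ X0` and `i ∈ I` let `A = 2^i ≥ A0`, `G i` the set of `good_count`. For `x ∈ G i`, `a ∈ Ia`: by `box` `|nn - N (MA)³| ≤ N (MA)³/20`, so `X^(1+d) ≤ nn ≤ X^(1+2d)` (the two inequalities of `scl`). `sieve`: `|SS_{i,x}| ≥ c1 X/(A² log X)`; sum over `x ∈ G i`: `≥ c1 c2 X/log X`; sum over `i ∈ I`:
`total ≥ (d/4) c1 c2 X`.
On the other hand `total = ∑_{m ∈ (X, 2X]} ∑_i ∑_x |{t ∈ SS : t.2.2 = m}|` (`t.2.2 ∈ Ioc X (2X)`), and the inner sum is `≤ B0` (`fib`, `P1 = X^(2d) ≥ X^α`), and is zero unless `PS k X (X^(1+d/2)) m`: if `t = (p₀, a, m) ∈ SS_{i,x}`, take `n = nn k a x.1 x.2 > 0` (`toNat`):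
 `n ∣ m³ + k` (`cop_CN`, `dvd_root`); `n ≥ X^(1+d) > X^(1+d/2)` (`X ≥ 2`); a prime `p ∣ n`: if `p = p₀` then `p ≤ X^(3d) ≤ X`; otherwise `p p₀ ∣ n`, so `p ≤ n/p₀ < X^(1+2d)/X^(2d) = X`.
So `B0 * #{m : PS} ≥ total ≥ (d/4) c1 c2 X`. Claim with `d/2` and `η = (d/4) c1 c2/B0`.
-/

set_option autoImplicit false

namespace H23.LP

open Finset

private theorem ps_of (k : ℤ) (M A X : ℕ) (z d : ℝ) (b c : ℤ) (hX : 2 ≤ X) (hd : 0 < d) (hd1 : d ≤ 1 / 10000)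
    (hr : ∀ a ∈ Ia k M A, 0 < nn k a b c ∧ (X : ℝ) ^ (1 + d) ≤ nn k a b c ∧
      (nn k a b c : ℝ) ≤ (X : ℝ) ^ (1 + 2 * d))
    (t : ℕ × ℤ × ℤ) (ht : t ∈ SS k M A X z ((X : ℝ) ^ (2 * d)) ((X : ℝ) ^ (3 * d)) b c) :
    PS k X ((X : ℝ) ^ (1 + d / 2)) t.2.2 := by
  classical
  obtain ⟨p0, a, m⟩ := t
  rw [SS, mem_filter] at ht
  obtain ⟨hmem, hp0, hl, hu, hdvd, hg, hrough, hm⟩ := ht
  rw [mem_product, mem_product] at hmem
  obtain ⟨hn0, hn1, hn2⟩ := hr a hmem.2.1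
  simp only at hp0 hl hu hdvd hg hrough hm ⊢
  have hXr : (2 : ℝ) ≤ X := by exact_mod_cast hX
  have hX0 : (0 : ℝ) < X := by linarith
  have hcast : (((nn k a b c).toNat : ℕ) : ℤ) = nn k a b c := Int.toNat_of_nonneg hn0.le
  have hcastR : (((nn k a b c).toNat : ℕ) : ℝ) = (nn k a b c : ℝ) := by
    rw [← Int.cast_natCast, hcast]
  refine ⟨(nn k a b c).toNat, ?_, ?_, ?_⟩
  · rw [hcast]
    exact dvd_root k a b c m (cop_CN k a b c hg) hm
  · rw [hcastR]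
    refine lt_of_lt_of_le ?_ hn1
    exact Real.rpow_lt_rpow_of_exponent_lt (by linarith) (by linarith)
  · intro p hp hpn
    have hp0n : p0 ∣ (nn k a b c).toNat := by
      rw [← Int.natCast_dvd_natCast, hcast]; exact hdvd
    by_cases hpe : p = p0
    · rw [hpe]
      have h1 : (p0 : ℝ) ≤ X := hu.trans (by
        calc (X : ℝ) ^ (3 * d) ≤ (X : ℝ) ^ (1 : ℝ) :=
              Real.rpow_le_rpow_of_exponent_le (by linarith) (by linarith)
          _ = X := Real.rpow_one _)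
      exact_mod_cast h1
    · have h1 : p * p0 ∣ (nn k a b c).toNat :=
        Nat.Coprime.mul_dvd_of_dvd_of_dvd ((Nat.coprime_primes hp hp0).2 hpe) hpn hp0n
      have h2 : p * p0 ≤ (nn k a b c).toNat := Nat.le_of_dvd (by omega) h1
      have h3 : (p : ℝ) * p0 ≤ (X : ℝ) ^ (1 + 2 * d) := by
        have : ((p * p0 : ℕ) : ℝ) ≤ ((nn k a b c).toNat : ℕ) := by exact_mod_cast h2
        push_cast at this
        rw [hcastR] at this
        linarith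
      have h4 : (X : ℝ) ^ (1 + 2 * d) = X * (X : ℝ) ^ (2 * d) := by
        rw [Real.rpow_add hX0, Real.rpow_one]
      have h5 : (p : ℝ) * (X : ℝ) ^ (2 * d) ≤ X * (X : ℝ) ^ (2 * d) := by
        rw [← h4]
        refine le_trans ?_ h3
        exact mul_le_mul_of_nonneg_left hl.le (Nat.cast_nonneg _)
      have h6 : (p : ℝ) ≤ X := le_of_mul_le_mul_right h5 (by positivity)
      exact_mod_cast h6

open Classical in
theorem partB (k : ℤ) (hk : ∀ t : ℤ, t ^ 3 ≠ k) : ∃ d η : ℝ, 0 < d ∧ 0 < η ∧ ∃ X0 : ℕ, ∀ X : ℕ, X0 ≤ X →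
    η * X ≤ (((Ioc (X : ℤ) (2 * X)).filter (PS k X ((X : ℝ) ^ (1 + d)))).card : ℝ) := by
  obtain ⟨d, hd, hd1, hsv⟩ := sieve k hk
  obtain ⟨w1, M1, hM1, hsv2⟩ := hsv d hd le_rfl
  obtain ⟨w2, hgc⟩ := good_count k hk
  obtain ⟨M2, hM2, hfib⟩ := fib k
  obtain ⟨K, hK, M3, hM3, hbox⟩ := box k
  obtain ⟨w, hwa, hwb⟩ : ∃ w, w1 ≤ w ∧ w2 ≤ w := ⟨max w1 w2, le_max_left _ _, le_max_right _ _⟩
  obtain ⟨M, hMa, hMb, hMc⟩ : ∃ M, M1 ≤ M ∧ M2 ≤ M ∧ M3 ≤ M :=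
    ⟨max M1 (max M2 M3), le_max_left _ _, (le_max_left _ _).trans (le_max_right _ _),
      (le_max_right _ _).trans (le_max_right _ _)⟩
  have hMpos : 1 ≤ M := hM1.trans hMa
  obtain ⟨α, c1, hα0, hαd, hc1, X1, hX1⟩ := hsv2 w M hwa hMa
  obtain ⟨c2, hc2, A0, hA0⟩ := hgc w M hwb hMpos
  obtain ⟨X2, hX2⟩ := hfib M hMb α hα0
  have hN1 : (1 : ℝ) ≤ (NS k : ℝ) := by exact_mod_cast NS_pos k
  obtain ⟨X3, hX3⟩ := scl (NS k) d M A0 hN1 hMpos hd
  have hG : ∀ i : ℕ, ∃ G : Finset (ℤ × ℤ), A0 ≤ 2 ^ i →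
      (∀ x ∈ G, Good k w M (2 ^ i) x.1 x.2) ∧ c2 * ((2 ^ i : ℕ) : ℝ) ^ 2 ≤ G.card := by
    intro i
    by_cases h : A0 ≤ 2 ^ i
    · obtain ⟨G, hG1, hG2⟩ := hA0 (2 ^ i) h
      exact ⟨G, fun _ => ⟨hG1, hG2⟩⟩
    · exact ⟨∅, fun h' => absurd h' h⟩
  choose G hG using hG
  set B0 : ℕ := ⌊4 / α⌋₊ * 2 ^ ⌊4 / α⌋₊ with hB0
  have hB0pos : 0 < B0 := by
    have h1 : 1 ≤ ⌊4 / α⌋₊ := by
      refine Nat.le_floor ?_
      rw [Nat.cast_one, le_div_iff₀ hα0]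
      linarith
    rw [hB0]
    have : 0 < 2 ^ ⌊4 / α⌋₊ := by positivity
    exact Nat.mul_pos h1 this
  have hB0r : (0 : ℝ) < B0 := by exact_mod_cast hB0pos
  refine ⟨d / 2, d / 4 * c1 * c2 / B0, by positivity, by positivity, X1 + X2 + X3 + 2, ?_⟩
  intro X hX
  have hXr : (2 : ℝ) ≤ X := by
    have : 2 ≤ X := by omega
    exact_mod_cast this
  have hX0 : (0 : ℝ) < X := by linarith
  have hlog : 0 < Real.log X := Real.log_pos (by linarith)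
  obtain ⟨I, hIcard, hI⟩ := hX3 X (by omega)
  have hrange : ∀ i ∈ I, ∀ x ∈ G i, ∀ a ∈ Ia k M (2 ^ i), 0 < nn k a x.1 x.2 ∧
      (X : ℝ) ^ (1 + d) ≤ nn k a x.1 x.2 ∧ (nn k a x.1 x.2 : ℝ) ≤ (X : ℝ) ^ (1 + 2 * d) := by
    intro i hi x hx a ha
    obtain ⟨h1, h2, h3⟩ := hI i hi
    have hgood := (hG i h1).1 x hx
    have hb := (hbox M (2 ^ i) hMc Nat.one_le_two_pow a ha x.1 hgood.hb x.2 hgood.hc).1
    rw [abs_le] at hb
    have h4 : (X : ℝ) ^ (1 + d) ≤ nn k a x.1 x.2 := by linarith [hb.1]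
    have h5 : (nn k a x.1 x.2 : ℝ) ≤ (X : ℝ) ^ (1 + 2 * d) := by linarith [hb.2]
    have h6 : (0 : ℝ) < nn k a x.1 x.2 := lt_of_lt_of_le (by positivity) h4
    exact ⟨by exact_mod_cast h6, h4, h5⟩
  set z : ℝ := (X : ℝ) ^ α with hz
  set P1 : ℝ := (X : ℝ) ^ (2 * d) with hP1
  set P2 : ℝ := (X : ℝ) ^ (3 * d) with hP2
  -- lower bound
  have hlow : d / 4 * c1 * c2 * X ≤
      ∑ i ∈ I, ∑ x ∈ G i, ((SS k M (2 ^ i) X z P1 P2 x.1 x.2).card : ℝ) := by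
    have h1 : ∀ i ∈ I, c1 * c2 * X / Real.log X ≤
        ∑ x ∈ G i, ((SS k M (2 ^ i) X z P1 P2 x.1 x.2).card : ℝ) := by
      intro i hi
      obtain ⟨hi1, _, _⟩ := hI i hi
      have hA : (0 : ℝ) < ((2 ^ i : ℕ) : ℝ) := by positivity
      have h2 : ∀ x ∈ G i, c1 * X / ((((2 ^ i : ℕ) : ℝ)) ^ 2 * Real.log X) ≤
          ((SS k M (2 ^ i) X z P1 P2 x.1 x.2).card : ℝ) := fun x hx =>
        hX1 X (2 ^ i) (by omega) x.1 x.2 ((hG i hi1).1 x hx) fun a ha => (hrange i hi x hx a ha).2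
      have h3 := sum_le_sum h2
      rw [sum_const, nsmul_eq_mul] at h3
      refine le_trans ?_ h3
      have h4 := mul_le_mul_of_nonneg_right (hG i hi1).2
        (show (0 : ℝ) ≤ c1 * X / ((((2 ^ i : ℕ) : ℝ)) ^ 2 * Real.log X) by positivity)
      refine le_trans (le_of_eq ?_) h4
      field_simp
    have h5 := sum_le_sum h1
    rw [sum_const, nsmul_eq_mul] at h5
    refine le_trans ?_ h5
    have h6 := mul_le_mul_of_nonneg_right hIcard (show (0 : ℝ) ≤ c1 * c2 * X / Real.log X by positivity)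
    refine le_trans (le_of_eq ?_) h6
    field_simp
  -- upper bound
  have hup : ∑ i ∈ I, ∑ x ∈ G i, (SS k M (2 ^ i) X z P1 P2 x.1 x.2).card ≤
      ((Ioc (X : ℤ) (2 * X)).filter (PS k X ((X : ℝ) ^ (1 + d / 2)))).card * B0 := by
    have h1 : ∑ i ∈ I, ∑ x ∈ G i, (SS k M (2 ^ i) X z P1 P2 x.1 x.2).card =
        ∑ m ∈ Ioc (X : ℤ) (2 * X), ∑ i ∈ I, ∑ x ∈ G i,
          ((SS k M (2 ^ i) X z P1 P2 x.1 x.2).filter (fun t => t.2.2 = m)).card := by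
      rw [sum_comm]
      refine sum_congr rfl fun i _ => ?_
      rw [sum_comm]
      refine sum_congr rfl fun x _ => ?_
      refine card_eq_sum_card_fiberwise fun t ht => ?_
      have ht' := ht
      rw [mem_coe, SS, mem_filter, mem_product, mem_product] at ht'
      exact ht'.1.2.2
    rw [h1]
    have h2 : ∀ m ∈ Ioc (X : ℤ) (2 * X), ∑ i ∈ I, ∑ x ∈ G i,
          ((SS k M (2 ^ i) X z P1 P2 x.1 x.2).filter (fun t => t.2.2 = m)).card ≤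
        if PS k X ((X : ℝ) ^ (1 + d / 2)) m then B0 else 0 := by
      intro m hm
      by_cases hps : PS k X ((X : ℝ) ^ (1 + d / 2)) m
      · rw [if_pos hps]
        refine hX2 X (by omega) P1 P2 ?_ I G ?_ m hm
        · exact Real.rpow_le_rpow_of_exponent_le (by linarith) (by linarith)
        · intro i hi x hx
          have hgood := (hG i (hI i hi).1).1 x hx
          exact ⟨hgood.hb, hgood.hc⟩
      · rw [if_neg hps]
        refine le_of_eq (sum_eq_zero fun i hi => sum_eq_zero fun x hx => ?_)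
        rw [card_eq_zero, filter_eq_empty_iff]
        intro t ht htm
        apply hps
        rw [← htm]
        exact ps_of k M (2 ^ i) X z d x.1 x.2 (by omega) hd hd1 (hrange i hi x hx) t ht
    refine (sum_le_sum h2).trans (le_of_eq ?_)
    rw [← sum_filter, sum_const, smul_eq_mul]
  have hup' : ∑ i ∈ I, ∑ x ∈ G i, ((SS k M (2 ^ i) X z P1 P2 x.1 x.2).card : ℝ) ≤
      (((Ioc (X : ℤ) (2 * X)).filter (PS k X ((X : ℝ) ^ (1 + d / 2)))).card : ℝ) * B0 := by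
    exact_mod_cast hup
  have h := hlow.trans hup'
  rw [div_mul_eq_mul_div, div_le_iff₀ hB0r]
  exact h

end H23.LP
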