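import Pool.Agent.H23.LP.Qv
import Pool.Agent.H23.LP.Box
import Pool.Agent.H23.LP.Alg

/-!
# [LP QAP] application of `qv` to a good pair, 120-200 lines. File Pool/Agent/H23/LP/Qap.lean

`σ, C` from `qv`, `K, M0` from `box`; `d0 = 1/10000`. Let `P = M A`. From the norm bound (any `a ∈ Ia`, nonempty since `A ≥ 1`; `A ≥ 1` because `Good` gives `c ∈ Ic M A`, a nonempty interval):
`X ≤ X^(1+d) ≤ nn ≤ K P³ = K M³ A³`, so `A ≥ (X/(K M³))^(1/3)` is large for `X ≥ X0`, and `X^(25 d) ≤ (K M³ A³)^(25 d) ≤ K M³ A^(75 d) ≤ K M³ A^0.0075` (`25 d ≤ 1`), in particular `g ≤ X^(5d) ≤ K M³ A^0.0015`.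
`T := A/g + 1`. So `A / g ≤ T ≤ 2 A` (`g ≤ A`), `T ≥ A^0.9985/(K M³) ≥ A^0.998`.
Take `q1, q2` from `Good.fac`; `D = q0 q1 q2` (`q1 ≠ q2` since `q1 ≤ A^0.65 < q2`), `D = (DD k b c).natAbs = (DD k b c).toNat > 0` by `box`.
Hypotheses of `qv`: `q0` squarefree, `q0` prime to `q1 q2` (`D` squarefree: `Squarefree (q0 * (q1 q2))` gives coprime, `Nat.squarefree_mul_iff`), `gcd (q0, 6) = 1` because `DD ≡ 1 (mod 6)`
(`b ≡ 1`, `c ≡ 0` modulo `QQ`, `6 ∣ QQ`). `T^0.59 ≤ (2A)^0.59 ≤ A^0.6 < q1`; `q2 ≤ A^0.7 ≤ (A^0.998)^0.72 = A^0.71856 ≤ T^0.72`; same for the others. `q0 = D/(q1 q2) ≤ K M³ A³ / A^1.25 = K M³ A^1.75 ≤ A^1.796 ≤ T^1.8`; `q0 ≥ P³/A^1.35 ≥ A^1.65 ≥ 2A ≥ T`.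
`l v = (-(h c²)) (-(g c)) = h g c³`; `q0` is prime to `c` (`cop_cD`), so `gcd (l v, q0) = gcd (h g, q0) ≤ h g ≤ X^(20 d) X^(5 d) ≤ K M³ A^0.0075 ≤ A^0.00998 ≤ T^0.01`.
`q1 ∤ g c`: `q1` is prime, `q1 ∤ c` (`cop_cD`, `q1 ∣ D`), `0 < g ≤ K M³ A^0.0015 < A^0.6 < q1`. Same for `q2`.
All comparisons `K M³ A^x ≤ A^y`, `x < y`, hold for `A` large, i.e. for `X ≥ X0`. The result is `≤ C T^(1-σ) ≤ C (2A)^(1-σ) ≤ 2 C A^(1-σ)`.
-/

set_option autoImplicit false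

namespace H23.LP

open Finset

/-- the numerical part -/
private theorem nums (R A : ℝ) (hR : 1 ≤ R) (hA1 : 1 ≤ A) (hA : 8 * R ≤ A ^ (0.0001 : ℝ)) (X d : ℝ)
    (hX1 : 1 ≤ X) (hX : X ≤ R * A ^ 3) (hd0 : 0 < d) (hd : d ≤ 1 / 10000) (g h : ℝ) (hg1 : 1 ≤ g)
    (hg : g ≤ X ^ (5 * d)) (hh1 : 1 ≤ h) (hh : h ≤ X ^ (20 * d)) :
    g ≤ A ^ (0.0016 : ℝ) ∧ h * g ≤ (A / g + 1) ^ (0.01 : ℝ) ∧ 1 ≤ A / g + 1 ∧ A / g + 1 ≤ 2 * A ∧
      (A / g + 1) ^ (0.59 : ℝ) ≤ A ^ (0.6 : ℝ) ∧ A ^ (0.7 : ℝ) ≤ (A / g + 1) ^ (0.72 : ℝ) ∧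
      R * A ^ 3 / A ^ (1.25 : ℝ) ≤ (A / g + 1) ^ (1.8 : ℝ) ∧ 2 * A ≤ A ^ 3 / A ^ (1.35 : ℝ) := by
  have hA0 : 0 < A := by linarith
  have hX0 : 0 < X := by linarith
  have hR0 : 0 < R := by linarith
  have hmono : ∀ x y : ℝ, x ≤ y → A ^ x ≤ A ^ y := fun x y hxy =>
    Real.rpow_le_rpow_of_exponent_le hA1 hxy
  have hRA : R ≤ A ^ (0.0001 : ℝ) := by linarith
  have h2A : 2 ≤ A ^ (0.0001 : ℝ) := by linarith
  -- powers of X
  have hXp : ∀ x : ℝ, 0 ≤ x → x ≤ 1 → X ^ x ≤ A ^ (0.0001 + 3 * x : ℝ) := by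
    intro x hx hx1
    calc X ^ x ≤ (R * A ^ 3) ^ x := Real.rpow_le_rpow hX0.le hX hx
      _ = R ^ x * (A ^ 3) ^ x := Real.mul_rpow hR0.le (by positivity)
      _ ≤ R * A ^ (3 * x) := by
          apply mul_le_mul _ (le_of_eq _) (by positivity) hR0.le
          · calc R ^ x ≤ R ^ (1 : ℝ) := Real.rpow_le_rpow_of_exponent_le hR hx1
              _ = R := Real.rpow_one R
          · rw [← Real.rpow_natCast A 3, ← Real.rpow_mul hA0.le]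
            norm_num
      _ ≤ A ^ (0.0001 : ℝ) * A ^ (3 * x) := mul_le_mul_of_nonneg_right hRA (by positivity)
      _ = A ^ (0.0001 + 3 * x : ℝ) := by rw [← Real.rpow_add hA0]
  have hgA : g ≤ A ^ (0.0016 : ℝ) := by
    refine hg.trans ((hXp (5 * d) (by linarith) (by linarith)).trans (hmono _ _ (by linarith)))
  have hhg : h * g ≤ A ^ (0.0076 : ℝ) := by
    calc h * g ≤ X ^ (20 * d) * X ^ (5 * d) := mul_le_mul hh hg (by linarith) (by positivity)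
      _ = X ^ (25 * d) := by rw [← Real.rpow_add hX0]; ring_nf
      _ ≤ A ^ (0.0076 : ℝ) :=
          (hXp (25 * d) (by linarith) (by linarith)).trans (hmono _ _ (by linarith))
  have hg0 : 0 < g := by linarith
  have hT1 : 1 ≤ A / g + 1 := by
    have : 0 ≤ A / g := by positivity
    linarith
  have hT0 : 0 < A / g + 1 := by linarith
  have hTlow : A ^ (0.9984 : ℝ) ≤ A / g + 1 := by
    have h1 : A ^ (0.9984 : ℝ) ≤ A / g := by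
      rw [le_div_iff₀ hg0]
      calc A ^ (0.9984 : ℝ) * g ≤ A ^ (0.9984 : ℝ) * A ^ (0.0016 : ℝ) :=
            mul_le_mul_of_nonneg_left hgA (by positivity)
        _ = A := by rw [← Real.rpow_add hA0]; norm_num
    linarith
  have hTup : A / g + 1 ≤ 2 * A := by
    have h1 : A / g ≤ A := div_le_self hA0.le hg1
    linarith
  have hTpow : ∀ x : ℝ, 0 ≤ x → A ^ (0.9984 * x : ℝ) ≤ (A / g + 1) ^ x := by
    intro x hx
    rw [Real.rpow_mul hA0.le]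
    exact Real.rpow_le_rpow (by positivity) hTlow hx
  refine ⟨hgA, ?_, hT1, hTup, ?_, ?_, ?_, ?_⟩
  · refine hhg.trans ((hmono _ _ ?_).trans (hTpow 0.01 (by norm_num)))
    norm_num
  · calc (A / g + 1) ^ (0.59 : ℝ) ≤ (2 * A) ^ (0.59 : ℝ) :=
          Real.rpow_le_rpow hT0.le hTup (by norm_num)
      _ = 2 ^ (0.59 : ℝ) * A ^ (0.59 : ℝ) := Real.mul_rpow (by norm_num) hA0.le
      _ ≤ 2 * A ^ (0.59 : ℝ) := by
          apply mul_le_mul_of_nonneg_right _ (by positivity)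
          calc (2 : ℝ) ^ (0.59 : ℝ) ≤ 2 ^ (1 : ℝ) :=
                Real.rpow_le_rpow_of_exponent_le (by norm_num) (by norm_num)
            _ = 2 := Real.rpow_one 2
      _ ≤ A ^ (0.0001 : ℝ) * A ^ (0.59 : ℝ) := mul_le_mul_of_nonneg_right h2A (by positivity)
      _ = A ^ (0.5901 : ℝ) := by rw [← Real.rpow_add hA0]; norm_num
      _ ≤ A ^ (0.6 : ℝ) := hmono _ _ (by norm_num)
  · refine (hmono _ _ ?_).trans (hTpow 0.72 (by norm_num))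
    norm_num
  · calc R * A ^ 3 / A ^ (1.25 : ℝ) = R * A ^ (1.75 : ℝ) := by
          rw [mul_div_assoc, ← Real.rpow_natCast A 3, ← Real.rpow_sub hA0]
          norm_num
      _ ≤ A ^ (0.0001 : ℝ) * A ^ (1.75 : ℝ) := mul_le_mul_of_nonneg_right hRA (by positivity)
      _ = A ^ (1.7501 : ℝ) := by rw [← Real.rpow_add hA0]; norm_num
      _ ≤ A ^ (0.9984 * 1.8 : ℝ) := hmono _ _ (by norm_num)
      _ ≤ _ := hTpow 1.8 (by norm_num)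
  · rw [← Real.rpow_natCast A 3, ← Real.rpow_sub hA0]
    calc 2 * A ≤ A ^ (0.0001 : ℝ) * A := mul_le_mul_of_nonneg_right h2A hA0.le
      _ = A ^ (1.0001 : ℝ) := by
          nth_rewrite 2 [← Real.rpow_one A]
          rw [← Real.rpow_add hA0]
          norm_num
      _ ≤ _ := hmono _ _ (by norm_num)

theorem qap (k : ℤ) (hk : k ≠ 0) : ∃ σ C : ℝ, 0 < σ ∧ σ ≤ 1 / 10 ∧ 0 < C ∧ ∃ M0 : ℕ, 1 ≤ M0 ∧ ∀ w M : ℕ, M0 ≤ M → ∃ X0 : ℕ,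
    ∀ X A : ℕ, X0 ≤ X → ∀ d : ℝ, 0 < d → d ≤ 1 / 10000 → ∀ b c : ℤ, Good k w M A b c →
    (∀ a ∈ Ia k M A, (X : ℝ) ^ (1 + d) ≤ nn k a b c ∧ (nn k a b c : ℝ) ≤ (X : ℝ) ^ (1 + 2 * d)) →
    ∀ D g h : ℕ, (D : ℤ) = DD k b c → 0 < g → (g : ℝ) ≤ (X : ℝ) ^ (5 * d) → 1 ≤ h → (h : ℝ) ≤ (X : ℝ) ^ (20 * d) →
    ∀ u s e : ℤ, ((e - s : ℤ) : ℝ) ≤ (A : ℝ) / g + 1 →
    ‖∑ t ∈ Ioc s e, fe D (-(h * c ^ 2)) (u + (-(g * c)) * t)‖ ≤ C * (A : ℝ) ^ (1 - σ) := by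
  obtain ⟨σ, C, hσ0, hσ1, hC0, hqv⟩ := qv
  obtain ⟨K, hK1, M0, hM01, hbox⟩ := box k
  refine ⟨σ, 2 * C, hσ0, hσ1, by positivity, M0, hM01, ?_⟩
  intro w M hM
  set R : ℝ := K * (M : ℝ) ^ 3 with hR
  have hM1 : (1 : ℝ) ≤ M := by exact_mod_cast hM01.trans hM
  have hR1 : 1 ≤ R := by
    rw [hR]
    have : (1 : ℝ) ≤ (M : ℝ) ^ 3 := one_le_pow₀ hM1
    nlinarith
  refine ⟨⌈R * ((8 * R) ^ 10000) ^ 3⌉₊ + 1, ?_⟩
  intro X A hX d hd0 hd b c hgood hnn D g h hD hg0 hg hh1 hh u s e hlen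
  -- A ≥ 1
  have hA1 : 1 ≤ A := by
    by_contra hA
    have hA0 : A = 0 := by omega
    have hc := hgood.hc
    unfold Ic at hc
    rw [Finset.mem_Ioc, hA0] at hc
    simp at hc
    omega
  have hA1r : (1 : ℝ) ≤ A := by exact_mod_cast hA1
  have hA0r : (0 : ℝ) < A := by linarith
  have hX1 : 1 ≤ X := by omega
  have hX1r : (1 : ℝ) ≤ X := by exact_mod_cast hX1
  -- an element of Ia
  have ha : 2 * LL k ^ 2 * ((M : ℤ) * A) + A ∈ Ia k M A := by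
    unfold Ia
    rw [Finset.mem_Ioc]
    constructor
    · have : (0 : ℤ) < A := by exact_mod_cast hA1
      linarith
    · exact le_refl _
  have hb1 := hbox M A hM hA1 _ ha b hgood.hb c hgood.hc
  obtain ⟨_, _, hnK, _, _, hDlow, hDup, _, _⟩ := hb1
  have hXR : (X : ℝ) ≤ R * (A : ℝ) ^ 3 := by
    have h1 := (hnn _ ha).1
    have h2 : (X : ℝ) ≤ (X : ℝ) ^ (1 + d) := by
      calc (X : ℝ) = (X : ℝ) ^ (1 : ℝ) := (Real.rpow_one _).symm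
        _ ≤ _ := Real.rpow_le_rpow_of_exponent_le hX1r (by linarith)
    calc (X : ℝ) ≤ K * ((M : ℝ) * A) ^ 3 := h2.trans (h1.trans hnK)
      _ = R * (A : ℝ) ^ 3 := by rw [hR]; ring
  have hAbig : 8 * R ≤ (A : ℝ) ^ (0.0001 : ℝ) := by
    have h1 : R * ((8 * R) ^ 10000) ^ 3 ≤ X := by
      have h2 : R * ((8 * R) ^ 10000) ^ 3 ≤ (⌈R * ((8 * R) ^ 10000) ^ 3⌉₊ : ℝ) := Nat.le_ceil _
      have h3 : ((⌈R * ((8 * R) ^ 10000) ^ 3⌉₊ : ℕ) : ℝ) ≤ X := by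
        exact_mod_cast (by omega : ⌈R * ((8 * R) ^ 10000) ^ 3⌉₊ ≤ X)
      linarith
    have h4 : ((8 * R) ^ 10000) ^ 3 ≤ (A : ℝ) ^ 3 := by
      have h5 : R * ((8 * R) ^ 10000) ^ 3 ≤ R * (A : ℝ) ^ 3 := h1.trans hXR
      exact le_of_mul_le_mul_left h5 (by linarith)
    have h6 : (8 * R) ^ 10000 ≤ (A : ℝ) := le_of_pow_le_pow_left₀ (by norm_num) hA0r.le h4
    have h7 : ((8 * R) ^ 10000) ^ (0.0001 : ℝ) ≤ (A : ℝ) ^ (0.0001 : ℝ) :=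
      Real.rpow_le_rpow (by positivity) h6 (by norm_num)
    have h8 : ((8 * R) ^ 10000) ^ (0.0001 : ℝ) = 8 * R := by
      rw [← Real.rpow_natCast (8 * R) 10000, ← Real.rpow_mul (by positivity)]
      norm_num
    rwa [h8] at h7
  have hg1r : (1 : ℝ) ≤ g := by exact_mod_cast hg0
  have hh1r : (1 : ℝ) ≤ h := by exact_mod_cast hh1
  obtain ⟨n1, n2, n3, n4, n5, n6, n7, n8⟩ := nums R A hR1 hA1r hAbig X d hX1r hXR hd0 hd g h hg1r hg hh1r hh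
  set T : ℝ := (A : ℝ) / g + 1 with hT
  have hT0 : 0 < T := by linarith
  -- D
  have hDr : (D : ℝ) = DD k b c := by exact_mod_cast congrArg (Int.cast : ℤ → ℝ) hD
  have hDlow' : (A : ℝ) ^ 3 ≤ D := by
    rw [hDr]
    refine le_trans ?_ hDlow
    apply pow_le_pow_left₀ hA0r.le
    nlinarith
  have hDup' : (D : ℝ) ≤ R * (A : ℝ) ^ 3 := by
    rw [hDr, hR]
    refine hDup.trans (le_of_eq ?_)
    ring
  have hDsq : Squarefree D := by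
    have h1 := hgood.sqf
    rw [← hD] at h1
    exact Int.squarefree_natCast.mp h1
  obtain ⟨q1, q2, hp1, hp2, hq1l, hq1u, hq2l, hq2u, hdvd⟩ := hgood.fac
  have hdvd' : q1 * q2 ∣ D := by
    rw [← hD] at hdvd
    exact_mod_cast hdvd
  obtain ⟨q0, hq0⟩ := hdvd'
  have hne : q1 ≠ q2 := by
    rintro rfl
    linarith
  have hDpos : 0 < D := Nat.pos_of_ne_zero hDsq.ne_zero
  have hq0pos : 0 < q0 := by
    rcases Nat.eq_zero_or_pos q0 with h0 | h0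
    · rw [h0, mul_zero] at hq0; omega
    · exact h0
  have hsq0 : Squarefree q0 := by
    rw [hq0] at hDsq
    exact hDsq.of_mul_right
  have hcop0 : Nat.Coprime q0 (q1 * q2) := by
    rw [hq0] at hDsq
    exact (Nat.coprime_of_squarefree_mul hDsq).symm
  have hq0D : q0 ∣ D := ⟨q1 * q2, by rw [hq0, mul_comm]⟩
  have hq1D : q1 ∣ D := ⟨q2 * q0, by rw [hq0]; ring⟩
  have hq2D : q2 ∣ D := ⟨q1 * q0, by rw [hq0]; ring⟩
  have hcD : IsCoprime c (D : ℤ) := by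
    rw [hD]
    exact Int.isCoprime_iff_gcd_eq_one.mpr (cop_cD k b c hgood.cop)
  -- coprime to 6
  have hcop6 : Nat.Coprime q0 6 := by
    have h6 : (6 : ℤ) ∣ (QQ k w : ℤ) := by
      unfold QQ
      push_cast
      exact ⟨(k.natAbs : ℤ) * (w.factorial : ℤ), by push_cast; ring⟩
    have h1 : b ≡ 1 [ZMOD 6] := hgood.b1.of_dvd h6
    have h2 : c ≡ 0 [ZMOD 6] := hgood.c0.of_dvd h6
    have h3 : DD k b c ≡ 1 [ZMOD 6] := by
      unfold DD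
      have h4 := (h1.pow 3).sub ((Int.ModEq.refl k).mul (h2.pow 3))
      simpa using h4
    rw [← hD] at h3
    have h5 : D ≡ 1 [MOD 6] := by
      exact_mod_cast (Int.natCast_modEq_iff (a := D) (b := 1) (n := 6)).mp (by exact_mod_cast h3)
    have h7 : Nat.Coprime D 6 := by
      have h8 := Nat.ModEq.gcd_eq h5
      rw [Nat.Coprime, h8]
      norm_num
    exact Nat.Coprime.coprime_dvd_left hq0D h7
  have hq1r : (0 : ℝ) < q1 := by exact_mod_cast hp1.pos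
  have hq2r : (0 : ℝ) < q2 := by exact_mod_cast hp2.pos
  have hq0r : (0 : ℝ) < q0 := by exact_mod_cast hq0pos
  have hDeq : (D : ℝ) = q1 * q2 * q0 := by exact_mod_cast congrArg (Nat.cast : ℕ → ℝ) hq0
  have hqlow : (A : ℝ) ^ (1.25 : ℝ) ≤ q1 * q2 := by
    calc (A : ℝ) ^ (1.25 : ℝ) = (A : ℝ) ^ (0.6 : ℝ) * (A : ℝ) ^ (0.65 : ℝ) := by
          rw [← Real.rpow_add hA0r]; norm_num
      _ ≤ q1 * q2 := mul_le_mul hq1l.le hq2l.le (by positivity) hq1r.le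
  have hqup : (q1 : ℝ) * q2 ≤ (A : ℝ) ^ (1.35 : ℝ) := by
    calc (q1 : ℝ) * q2 ≤ (A : ℝ) ^ (0.65 : ℝ) * (A : ℝ) ^ (0.7 : ℝ) :=
          mul_le_mul hq1u hq2u hq2r.le (by positivity)
      _ = (A : ℝ) ^ (1.35 : ℝ) := by rw [← Real.rpow_add hA0r]; norm_num
  have hq0up : (q0 : ℝ) ≤ T ^ (1.8 : ℝ) := by
    refine le_trans ?_ n7
    rw [le_div_iff₀ (by positivity)]
    calc (q0 : ℝ) * (A : ℝ) ^ (1.25 : ℝ) ≤ q0 * (q1 * q2) := mul_le_mul_of_nonneg_left hqlow hq0r.le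
      _ = D := by rw [hDeq]; ring
      _ ≤ _ := hDup'
  have hq0low : T ≤ q0 := by
    refine n4.trans (n8.trans ?_)
    rw [div_le_iff₀ (by positivity)]
    calc (A : ℝ) ^ 3 ≤ D := hDlow'
      _ = q0 * (q1 * q2) := by rw [hDeq]; ring
      _ ≤ q0 * (A : ℝ) ^ (1.35 : ℝ) := mul_le_mul_of_nonneg_left hqup hq0r.le
  have hA65 : (A : ℝ) ^ (0.6 : ℝ) ≤ (A : ℝ) ^ (0.65 : ℝ) :=
    Real.rpow_le_rpow_of_exponent_le hA1r (by norm_num)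
  have hA70 : (A : ℝ) ^ (0.65 : ℝ) ≤ (A : ℝ) ^ (0.7 : ℝ) :=
    Real.rpow_le_rpow_of_exponent_le hA1r (by norm_num)
  have hgq : ∀ q : ℕ, q.Prime → q ∣ D → (A : ℝ) ^ (0.6 : ℝ) < q → ¬ (q : ℤ) ∣ -((g : ℤ) * c) := by
    intro q hq hqD hqA hdv
    rw [dvd_neg] at hdv
    rcases (Nat.prime_iff_prime_int.mp hq).dvd_or_dvd hdv with h1 | h1
    · have h2 : q ≤ g := Nat.le_of_dvd hg0 (by exact_mod_cast h1)
      have h3 : (q : ℝ) ≤ g := by exact_mod_cast h2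
      have h4 : (A : ℝ) ^ (0.0016 : ℝ) ≤ (A : ℝ) ^ (0.6 : ℝ) :=
        Real.rpow_le_rpow_of_exponent_le hA1r (by norm_num)
      linarith
    · have h2 : IsCoprime c (q : ℤ) := hcD.of_isCoprime_of_dvd_right (by exact_mod_cast hqD)
      have h3 : (q : ℤ) ∣ 1 := h2.symm.dvd_of_dvd_mul_left (by rwa [mul_one]) 
      have h4 : (q : ℤ) ∣ ((1 : ℕ) : ℤ) := by exact_mod_cast h3
      have h5 := Int.natCast_dvd_natCast.mp h4
      exact hq.one_lt.ne' (Nat.dvd_one.mp h5)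
  have hgcd : ((Int.gcd (-((h : ℤ) * c ^ 2) * (-((g : ℤ) * c))) q0 : ℕ) : ℝ) ≤ T ^ (0.01 : ℝ) := by
    refine le_trans ?_ n2
    have h1 : -((h : ℤ) * c ^ 2) * (-((g : ℤ) * c)) = c ^ 3 * ((h * g : ℕ) : ℤ) := by
      push_cast; ring
    have h2 : IsCoprime (c ^ 3) (q0 : ℤ) :=
      (hcD.of_isCoprime_of_dvd_right (by exact_mod_cast hq0D)).pow_left
    have h3 : Int.gcd (-((h : ℤ) * c ^ 2) * (-((g : ℤ) * c))) q0 ∣ h * g := by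
      have h4 : ((Int.gcd (-((h : ℤ) * c ^ 2) * (-((g : ℤ) * c))) q0 : ℕ) : ℤ) ∣ c ^ 3 * ((h * g : ℕ) : ℤ) := by
        rw [← h1]
        exact Int.gcd_dvd_left _ _
      have h5 : ((Int.gcd (-((h : ℤ) * c ^ 2) * (-((g : ℤ) * c))) q0 : ℕ) : ℤ) ∣ (q0 : ℤ) :=
        Int.gcd_dvd_right _ _
      have h6 : IsCoprime ((Int.gcd (-((h : ℤ) * c ^ 2) * (-((g : ℤ) * c))) q0 : ℕ) : ℤ) (c ^ 3) :=
        (h2.of_isCoprime_of_dvd_right h5).symm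
      exact_mod_cast h6.dvd_of_dvd_mul_left h4
    have h7 : 0 < h * g := Nat.mul_pos hh1 hg0
    have h8 : ((Int.gcd (-((h : ℤ) * c ^ 2) * (-((g : ℤ) * c))) q0 : ℕ) : ℝ) ≤ ((h * g : ℕ) : ℝ) := by
      exact_mod_cast Nat.le_of_dvd h7 h3
    rw [Nat.cast_mul] at h8
    exact h8
  have key := hqv T q0 q1 q2 (-((h : ℤ) * c ^ 2)) u (-((g : ℤ) * c)) s e n3 hq0pos hq0low hsq0 hcop6 hp1 hp2
    hne hcop0 (n5.trans hq1l.le) (hq1u.trans (hA70.trans n6)) (n5.trans ((hA65.trans hq2l.le)))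
    (hq2u.trans n6) hq0up hgcd (hgq q1 hp1 hq1D hq1l) (hgq q2 hp2 hq2D (lt_of_le_of_lt hA65 hq2l)) hlen
  have hDq : D = q0 * q1 * q2 := by rw [hq0]; ring
  rw [hDq]
  refine key.trans ?_
  have hfin : T ^ (1 - σ) ≤ 2 * (A : ℝ) ^ (1 - σ) := by
    calc T ^ (1 - σ) ≤ (2 * (A : ℝ)) ^ (1 - σ) := Real.rpow_le_rpow hT0.le n4 (by linarith)
      _ = 2 ^ (1 - σ) * (A : ℝ) ^ (1 - σ) := Real.mul_rpow (by norm_num) hA0r.le
      _ ≤ 2 * (A : ℝ) ^ (1 - σ) := by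
          apply mul_le_mul_of_nonneg_right _ (by positivity)
          calc (2 : ℝ) ^ (1 - σ) ≤ 2 ^ (1 : ℝ) :=
                Real.rpow_le_rpow_of_exponent_le (by norm_num) (by linarith)
            _ = 2 := Real.rpow_one 2
  calc C * T ^ (1 - σ) ≤ C * (2 * (A : ℝ) ^ (1 - σ)) := mul_le_mul_of_nonneg_left hfin hC0.le
    _ = 2 * C * (A : ℝ) ^ (1 - σ) := by ring

end H23.LP
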