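import Pool.Agent.H24.W.D2

/-!
# [LP WL] chapter W (helper24): Weil's bound for rational functions with at most four simple poles

Proved in `Pool/Agent/H24/W` (Stepanov's method in polynomial form by helper19, `H19/WE`).
-/

set_option autoImplicit false

namespace H23.LP

theorem weil : ∃ C κ : ℝ, 2 ≤ C ∧ 0 ≤ κ ∧ κ ≤ 0.54 ∧ Pool.Agent.H19.QV.Weil C κ :=
  ⟨9, 1 / 2, by norm_num, by norm_num, by norm_num, Pool.Agent.H24.W.weil_main⟩

end H23.LP
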