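import Pool.Agent.H23.LP.Def
import Pool.Agent.H23.LP.Wl
import Pool.Agent.H19.QV.FIN

/-!
# [LP QV] chapter Q (helper12, helper19): incomplete Kloosterman sums to a modulus `q0 q1 q2`

Two Weyl steps with the shifts `j q1`, `i q2`, completion modulo `q0` and Weil's bound. The chapter is `Pool/Agent/H19/QV`; this file only
states its result (`H19/QV/FIN.lean`, `qv_of_weil`, from `Weil C κ`, which is chapter W).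
-/

set_option autoImplicit false

namespace H23.LP

open Finset

theorem qv : ∃ σ C : ℝ, 0 < σ ∧ σ ≤ 1 / 10 ∧ 0 < C ∧ ∀ (T : ℝ) (q0 q1 q2 : ℕ) (l u v s e : ℤ), 1 ≤ T →
    0 < q0 → T ≤ q0 → Squarefree q0 → Nat.Coprime q0 6 → q1.Prime → q2.Prime → q1 ≠ q2 → Nat.Coprime q0 (q1 * q2) →
    T ^ (0.59 : ℝ) ≤ q1 → (q1 : ℝ) ≤ T ^ (0.72 : ℝ) → T ^ (0.59 : ℝ) ≤ q2 → (q2 : ℝ) ≤ T ^ (0.72 : ℝ) →
    (q0 : ℝ) ≤ T ^ (1.8 : ℝ) → ((Int.gcd (l * v) q0 : ℕ) : ℝ) ≤ T ^ (0.01 : ℝ) →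
    ¬ (q1 : ℤ) ∣ v → ¬ (q2 : ℤ) ∣ v → ((e - s : ℤ) : ℝ) ≤ T →
    ‖∑ t ∈ Ioc s e, fe (q0 * q1 * q2) l (u + v * t)‖ ≤ C * T ^ (1 - σ) := by
  obtain ⟨C, κ, h1, h2, h3, h4⟩ := weil
  exact Pool.Agent.H19.QV.qv_of_weil C κ h4 h1 h2 h3

end H23.LP
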