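import Pool.Agent.H23.LP.Box
import Pool.Agent.H23.LP.Alg

/-!
# [LP UNI] uniqueness in the box, 90-150 lines. File Pool/Agent/H23/LP/Uni.lean

Write `n = nn k a b c = nn k a' b' c' > 0` (`box`), `C, B` for `(a, b, c)`, `T = a² - k b c` (the constant coefficient of the adjoint). Put
`G0 = a' T + k (b' C + c' B)`, `G1 = a' B + b' T + k c' C`, `G2 = a' C + b' B + c' T` (the coefficients of `(a' + b' θ + c' θ²)(T + B θ + C θ²)`).
(1) modulo `n`: `B ≡ -m C`. By `id_AC` (`T C ≡ B²`) and `gcd (C, n) = 1`: `T ≡ m² C` (`C (T - m² C) ≡ B² - m² C² ≡ 0`). By `id_CAB` (`k C² ≡ T B`): `C² (k + m³) ≡ T B + m³ C² ≡ -m³ C² + m³ C² = 0`, so `k ≡ -m³`.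
By `id_abc` for `(a', b', c')`: `a' C'² + b' B' C' + c' B'² ≡ 0` and `B' ≡ -m C'`, so `C'² (a' - b' m + c' m²) ≡ 0`, hence `a' - b' m + c' m² ≡ 0`.
Therefore `G2 ≡ C (a' - b' m + c' m²) ≡ 0` and `G1 ≡ -m C a' + m² C b' - m³ C c' = -m C (a' - b' m + c' m²) ≡ 0 (mod n)`.
(2) `a B + b T + k c C = 0` and `a C + b B + c T = 0` (ring). So with `x = a' - a`, `y = b' - b`, `z = c' - c`, `|x|, |y|, |z| < A`: `G1 = x B + y T + k z C`, `G2 = x C + y B + z T`. With the `K` of `box` and `P = M A`: `|B|, |C| ≤ K P²`, `|T| ≤ (1 + |k|) K² P²`, so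
`|G1|, |G2| ≤ 3 (1 + |k|) K² A P² < P³/2 ≤ n` as soon as `M > 6 (1 + |k|) K²`. So `G1 = G2 = 0` (`Int.eq_zero_of_abs_lt_dvd`).
(3) ring identities: `n a' = a G0 + k (b G2 + c G1)`, `n b' = a G1 + b G0 + k c G2`, `n c' = a G2 + b G1 + c G0`. So `n a' = G0 a`, `n b' = G0 b`, `n c' = G0 c`, and (`nn` is homogeneous of degree 3) `n³ nn' = G0³ nn`, so `G0³ = n³`, `G0 = n` (`pow_left_injective` odd power: `Odd.pow_left_injective`...),
`a' = a`, `b' = b`, `c' = c`.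
-/

set_option autoImplicit false

namespace H23.LP

open Finset

private theorem g12 (k a b c a' b' c' m n : ℤ) (hn : n = nn k a b c) (hn' : n = nn k a' b' c')
    (hg : IsCoprime (CC a b c) n) (hg' : IsCoprime (CC a' b' c') n)
    (hd : n ∣ CC a b c * m + BB k a b c) (hd' : n ∣ CC a' b' c' * m + BB k a' b' c') :
    n ∣ a' * BB k a b c + b' * (a ^ 2 - k * b * c) + k * c' * CC a b c ∧
      n ∣ a' * CC a b c + b' * BB k a b c + c' * (a ^ 2 - k * b * c) := by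
  have i1 := id_AC k a b c
  have i2 := id_CAB k a b c
  have i3 := id_abc k a' b' c'
  rw [← hn] at i1 i2
  rw [← hn'] at i3
  generalize CC a b c = C at *
  generalize BB k a b c = B at *
  generalize CC a' b' c' = C' at *
  generalize BB k a' b' c' = B' at *
  obtain ⟨u, hu⟩ := hd
  obtain ⟨u', hu'⟩ := hd'
  have h1 : n ∣ (a ^ 2 - k * b * c) - m ^ 2 * C := by
    refine hg.symm.dvd_of_dvd_mul_left ⟨-c + u * (B - m * C), ?_⟩
    linear_combination i1 + (B - m * C) * hu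
  obtain ⟨v, hv⟩ := h1
  have h2 : n ∣ k + m ^ 3 := by
    refine (hg.pow_left (m := 2)).symm.dvd_of_dvd_mul_left ⟨b + v * B + m ^ 2 * C * u, ?_⟩
    linear_combination i2 + B * hv + m ^ 2 * C * hu
  obtain ⟨y, hy⟩ := h2
  have h3 : n ∣ a' - b' * m + c' * m ^ 2 := by
    refine (hg'.pow_left (m := 2)).symm.dvd_of_dvd_mul_left ⟨c' ^ 2 - b' * C' * u' - c' * (B' - m * C') * u', ?_⟩
    linear_combination i3 - (b' * C' + c' * (B' - m * C')) * hu'
  obtain ⟨x, hx⟩ := h3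
  constructor
  · refine ⟨-m * C * x + a' * u + b' * v + c' * C * y, ?_⟩
    linear_combination (-m * C) * hx + a' * hu + b' * hv + c' * C * hy
  · refine ⟨C * x + b' * u + c' * v, ?_⟩
    linear_combination C * hx + b' * hu + c' * hv

private theorem eq_of (k a b c a' b' c' n : ℤ) (hn0 : 0 < n) (hn : n = nn k a b c) (hn' : n = nn k a' b' c')
    (h1 : a' * BB k a b c + b' * (a ^ 2 - k * b * c) + k * c' * CC a b c = 0)
    (h2 : a' * CC a b c + b' * BB k a b c + c' * (a ^ 2 - k * b * c) = 0) : a = a' ∧ b = b' ∧ c = c' := by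
  obtain ⟨G0, hG0⟩ : ∃ G0, G0 = a' * (a ^ 2 - k * b * c) + k * (b' * CC a b c + c' * BB k a b c) := ⟨_, rfl⟩
  have e1 : n * a' = G0 * a := by
    rw [hn, hG0]
    simp only [nn, CC, BB] at *
    linear_combination (k * c) * h1 + (k * b) * h2
  have e2 : n * b' = G0 * b := by
    rw [hn, hG0]
    simp only [nn, CC, BB] at *
    linear_combination a * h1 + (k * c) * h2
  have e3 : n * c' = G0 * c := by
    rw [hn, hG0]
    simp only [nn, CC, BB] at *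
    linear_combination b * h1 + a * h2
  have e4 : n ^ 3 * n = G0 ^ 3 * n := by
    calc n ^ 3 * n = n ^ 3 * nn k a' b' c' := by rw [← hn']
      _ = nn k (n * a') (n * b') (n * c') := by simp only [nn]; ring
      _ = nn k (G0 * a) (G0 * b) (G0 * c) := by rw [e1, e2, e3]
      _ = G0 ^ 3 * nn k a b c := by simp only [nn]; ring
      _ = G0 ^ 3 * n := by rw [← hn]
  have e5 : n ^ 3 = G0 ^ 3 := mul_right_cancel₀ hn0.ne' e4
  have e6 : n = G0 := (Odd.strictMono_pow (R := ℤ) (n := 3) (by decide)).injective e5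
  rw [← e6] at e1 e2 e3
  exact ⟨(mul_left_cancel₀ hn0.ne' e1).symm, (mul_left_cancel₀ hn0.ne' e2).symm,
    (mul_left_cancel₀ hn0.ne' e3).symm⟩

private theorem size (B C T x y z kk A K P : ℝ) (hA : 0 ≤ A) (hkk : 0 ≤ kk) (hK : 1 ≤ K)
    (hB : |B| ≤ K * P ^ 2) (hC : |C| ≤ K * P ^ 2) (hT : |T| ≤ (1 + kk) * K ^ 2 * P ^ 2) (hx : |x| ≤ A)
    (hy : |y| ≤ A) (hz : |z| ≤ kk * A ∨ |z| ≤ A) :
    |x * B + y * T + z * C| ≤ 3 * (1 + kk) * K ^ 2 * A * P ^ 2 := by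
  have hP : 0 ≤ P ^ 2 := by positivity
  have h1 : |x * B| ≤ A * (K * P ^ 2) := by
    rw [abs_mul]; exact mul_le_mul hx hB (abs_nonneg _) hA
  have h2 : |y * T| ≤ A * ((1 + kk) * K ^ 2 * P ^ 2) := by
    rw [abs_mul]; exact mul_le_mul hy hT (abs_nonneg _) hA
  have h3 : |z * C| ≤ ((1 + kk) * A) * (K * P ^ 2) := by
    rw [abs_mul]
    refine mul_le_mul ?_ hC (abs_nonneg _) (by positivity)
    rcases hz with hz | hz
    · nlinarith
    · nlinarith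
  have h4 : |x * B + y * T + z * C| ≤ |x * B| + |y * T| + |z * C| := abs_add_three _ _ _
  have h5 : K ≤ K ^ 2 := by nlinarith
  have h6 : A * (K * P ^ 2) ≤ (1 + kk) * K ^ 2 * (A * P ^ 2) := by
    have : A * (K * P ^ 2) = K * (A * P ^ 2) := by ring
    rw [this]
    refine mul_le_mul_of_nonneg_right ?_ (by positivity)
    nlinarith
  have h7 : ((1 + kk) * A) * (K * P ^ 2) ≤ (1 + kk) * K ^ 2 * (A * P ^ 2) := by
    have : ((1 + kk) * A) * (K * P ^ 2) = ((1 + kk) * K) * (A * P ^ 2) := by ring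
    rw [this]
    refine mul_le_mul_of_nonneg_right ?_ (by positivity)
    nlinarith
  nlinarith

theorem uni (k : ℤ) : ∃ M0 : ℕ, 1 ≤ M0 ∧ ∀ M A : ℕ, M0 ≤ M → 1 ≤ A →
    ∀ a ∈ Ia k M A, ∀ b ∈ Ib k M A, ∀ c ∈ Ic M A, ∀ a' ∈ Ia k M A, ∀ b' ∈ Ib k M A, ∀ c' ∈ Ic M A, ∀ m : ℤ,
    nn k a b c = nn k a' b' c' → Int.gcd (CC a b c) (nn k a b c) = 1 →
    Int.gcd (CC a' b' c') (nn k a' b' c') = 1 → nn k a b c ∣ CC a b c * m + BB k a b c →
    nn k a' b' c' ∣ CC a' b' c' * m + BB k a' b' c' → a = a' ∧ b = b' ∧ c = c' := by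
  obtain ⟨K, hK, M1, hM1, hbox⟩ := box k
  refine ⟨max M1 (⌈7 * (1 + |(k : ℝ)|) * K ^ 2⌉₊ + 1), hM1.trans (le_max_left _ _), ?_⟩
  intro M A hM hA a ha b hb c hc a' ha' b' hb' c' hc' m hnn hg hg' hd hd'
  have hMa : M1 ≤ M := (le_max_left _ _).trans hM
  have hMb : 7 * (1 + |(k : ℝ)|) * K ^ 2 < M := by
    have h1 : ⌈7 * (1 + |(k : ℝ)|) * K ^ 2⌉₊ + 1 ≤ M := (le_max_right _ _).trans hM
    have h2 : ((⌈7 * (1 + |(k : ℝ)|) * K ^ 2⌉₊ : ℕ) : ℝ) + 1 ≤ M := by exact_mod_cast h1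
    have h3 := Nat.le_ceil (7 * (1 + |(k : ℝ)|) * K ^ 2)
    linarith
  have hAr : (1 : ℝ) ≤ A := by exact_mod_cast hA
  have hMr : (1 : ℝ) ≤ M := by exact_mod_cast hM1.trans hMa
  obtain ⟨-, q1, q2, q3, q4, q5, q6, q7, q8, q9, q10, q11, q12, q13⟩ := hbox M A hMa hA a ha b hb c hc
  set P : ℝ := (M : ℝ) * A with hP
  have hP0 : 0 < P := by positivity
  obtain ⟨n, hn⟩ : ∃ n, n = nn k a b c := ⟨_, rfl⟩
  have hn' : n = nn k a' b' c' := hn.trans hnn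
  have hnr : P ^ 3 / 2 ≤ (n : ℝ) := by rw [hn]; exact q1
  have hn0 : 0 < n := by
    have : (0 : ℝ) < n := lt_of_lt_of_le (by positivity) hnr
    exact_mod_cast this
  rw [← hn] at hg hd
  rw [← hn'] at hg' hd'
  obtain ⟨d1, d2⟩ := g12 k a b c a' b' c' m n hn hn' (Int.isCoprime_iff_gcd_eq_one.2 hg)
    (Int.isCoprime_iff_gcd_eq_one.2 hg') hd hd'
  rw [Ia, mem_Ioc] at ha ha'
  rw [Ib, mem_Ioc] at hb hb'
  rw [Ic, mem_Ioc] at hc hc'
  have hx : |(((a' - a : ℤ)) : ℝ)| ≤ A := by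
    rw [abs_le]
    have h1 : -(A : ℤ) ≤ a' - a := by linarith [ha'.1, ha.2]
    have h2 : a' - a ≤ (A : ℤ) := by linarith [ha'.2, ha.1]
    exact ⟨by exact_mod_cast h1, by exact_mod_cast h2⟩
  have hy : |(((b' - b : ℤ)) : ℝ)| ≤ A := by
    rw [abs_le]
    have h1 : -(A : ℤ) ≤ b' - b := by linarith [hb'.1, hb.2]
    have h2 : b' - b ≤ (A : ℤ) := by linarith [hb'.2, hb.1]
    exact ⟨by exact_mod_cast h1, by exact_mod_cast h2⟩
  have hz : |(((c' - c : ℤ)) : ℝ)| ≤ A := by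
    rw [abs_le]
    have h1 : -(A : ℤ) ≤ c' - c := by linarith [hc'.1, hc.2]
    have h2 : c' - c ≤ (A : ℤ) := by linarith [hc'.2, hc.1]
    exact ⟨by exact_mod_cast h1, by exact_mod_cast h2⟩
  have hC : |(CC a b c : ℝ)| ≤ K * P ^ 2 := by
    rw [abs_of_nonpos (by nlinarith [sq_nonneg P])]; exact q4
  have hT : |((a ^ 2 - k * b * c : ℤ) : ℝ)| ≤ (1 + |(k : ℝ)|) * K ^ 2 * P ^ 2 := by
    push_cast
    have h1 : (a : ℝ) ^ 2 ≤ (K * P) ^ 2 := by
      refine pow_le_pow_left₀ (hP0.le.trans q8) q9 2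
    have h2 : |(k : ℝ) * b * c| ≤ |(k : ℝ)| * (K * P) ^ 2 := by
      rw [abs_mul, abs_mul, abs_of_nonneg (hP0.le.trans q10), abs_of_nonneg (hP0.le.trans q12), mul_assoc, sq]
      exact mul_le_mul_of_nonneg_left (mul_le_mul q11 q13 (hP0.le.trans q12) (by positivity)) (abs_nonneg _)
    have h3 : |(a : ℝ) ^ 2 - k * b * c| ≤ |(a : ℝ) ^ 2| + |(k : ℝ) * b * c| := abs_sub _ _
    rw [abs_of_nonneg (sq_nonneg (a : ℝ))] at h3
    calc |(a : ℝ) ^ 2 - k * b * c| ≤ (a : ℝ) ^ 2 + |(k : ℝ) * b * c| := h3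
      _ ≤ (K * P) ^ 2 + |(k : ℝ)| * (K * P) ^ 2 := add_le_add h1 h2
      _ = _ := by ring
  have hbig : 3 * (1 + |(k : ℝ)|) * K ^ 2 * A * P ^ 2 < n := by
    refine lt_of_lt_of_le ?_ hnr
    have h1 : 3 * (1 + |(k : ℝ)|) * K ^ 2 * A * P ^ 2 = (3 * (1 + |(k : ℝ)|) * K ^ 2) * (A * P ^ 2) := by ring
    have h2 : P ^ 3 / 2 = (M / 2) * (A * P ^ 2) := by rw [hP]; ring
    rw [h1, h2]
    refine mul_lt_mul_of_pos_right ?_ (by positivity)
    have : 0 < (1 + |(k : ℝ)|) * K ^ 2 := by positivity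
    linarith
  have z1 : a' * BB k a b c + b' * (a ^ 2 - k * b * c) + k * c' * CC a b c = 0 := by
    refine Int.eq_zero_of_abs_lt_dvd d1 ?_
    have h1 : a' * BB k a b c + b' * (a ^ 2 - k * b * c) + k * c' * CC a b c =
        (a' - a) * BB k a b c + (b' - b) * (a ^ 2 - k * b * c) + (k * (c' - c)) * CC a b c := by
      simp only [BB, CC]; ring
    rw [h1]
    have h2 := size (BB k a b c) (CC a b c) ((a ^ 2 - k * b * c : ℤ) : ℝ) ((a' - a : ℤ) : ℝ) ((b' - b : ℤ) : ℝ)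
      ((k * (c' - c) : ℤ) : ℝ) |(k : ℝ)| A K P (by positivity) (abs_nonneg _) hK q7 hC hT hx hy
      (Or.inl (by push_cast; rw [abs_mul]; push_cast at hz; exact mul_le_mul_of_nonneg_left hz (abs_nonneg _)))
    have h3 := lt_of_le_of_lt h2 hbig
    exact_mod_cast h3
  have z2 : a' * CC a b c + b' * BB k a b c + c' * (a ^ 2 - k * b * c) = 0 := by
    refine Int.eq_zero_of_abs_lt_dvd d2 ?_
    have h1 : a' * CC a b c + b' * BB k a b c + c' * (a ^ 2 - k * b * c) =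
        (b' - b) * BB k a b c + (c' - c) * (a ^ 2 - k * b * c) + (a' - a) * CC a b c := by
      simp only [BB, CC]; ring
    rw [h1]
    have h2 := size (BB k a b c) (CC a b c) ((a ^ 2 - k * b * c : ℤ) : ℝ) ((b' - b : ℤ) : ℝ) ((c' - c : ℤ) : ℝ)
      ((a' - a : ℤ) : ℝ) |(k : ℝ)| A K P (by positivity) (abs_nonneg _) hK q7 hC hT hy hz (Or.inr hx)
    have h3 := lt_of_le_of_lt h2 hbig
    exact_mod_cast h3
  exact eq_of k a b c a' b' c' n hn0 hn hn' z1 z2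

end H23.LP
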